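import Pool.Agent.Book19.Rel
import Pool.Agent.PT.Bits

/-!
# Letters and counting in the classes `UP` and `UF`
-/

set_option autoImplicit false

namespace Pool.Agent.Book19

open Pool.Agent.PT

variable {Γ : Type}

theorem UP.fex {ι : Type} [Fintype ι] {P : ι → List Γ → (ℕ → ℕ) → Prop} (h : ∀ i, UP (P i)) :
    UP (fun x e => ∃ i, P i x e) := by
  classical
  have key : ∀ s : Finset ι, UP (fun x e => ∃ i ∈ s, P i x e) := by
    intro s
    induction s using Finset.induction_on with
    | empty => exact (UP.false).congr fun x e => by simp
    | insert a s _ ih =>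
      exact ((h a).or ih).congr fun x e => by simp
  exact (key Finset.univ).congr fun x e => by simp

theorem UP.fall {ι : Type} [Fintype ι] {P : ι → List Γ → (ℕ → ℕ) → Prop} (h : ∀ i, UP (P i)) :
    UP (fun x e => ∀ i, P i x e) := by
  refine (UP.fex (fun i => (h i).not)).not.congr fun x e => ?_
  push Not
  rfl

/-- The letter at a position satisfies a property. -/
theorem UP.at' [Fintype Γ] (P : Γ → Prop) {f : List Γ → (ℕ → ℕ) → ℕ} (hf : UF f) :
    UP (fun x e => At x (f x e) P) := by
  refine (UP.fex (fun a : Γ => (UP.sym a hf).and (UP.const (P a)))).congr fun x e => ?_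
  rfl

/-- Counting letters. -/
theorem UF.countP [Fintype Γ] (P : Γ → Bool) : UF (fun (x : List Γ) _ => x.countP P) := by
  classical
  have h1 : UP (fun (x : List Γ) e => At x (e 0) (fun a => P a = true)) := UP.at' _ (UF.var 0)
  refine (UF.sum (f := fun x _ i => if At x i (fun a => P a = true) then 1 else 0) UF.len
    (h1.congr fun x e => Iff.rfl)).congr fun x e => ?_
  clear h1
  rw [Finset.sum_boole]
  simp only [Nat.cast_id]
  induction x with
  | nil => simp
  | cons a x ih =>
    rw [List.countP_cons, ← ih, List.length_cons]
    have h2 : (Finset.range (x.length + 1)).filter (fun i => At (a :: x) i fun a => P a = true) =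
        ((Finset.range x.length).filter (fun i => At x i fun a => P a = true)).map
          ⟨Nat.succ, Nat.succ_injective⟩ ∪ (if P a = true then {0} else ∅) := by
      ext i
      simp only [Finset.mem_filter, Finset.mem_range, Finset.mem_union, Finset.mem_map,
        Function.Embedding.coeFn_mk]
      cases i with
      | zero =>
        by_cases h : P a = true <;> simp [At, h]
      | succ i =>
        have h3 : At (a :: x) (i + 1) (fun a => P a = true) ↔ At x i (fun a => P a = true) := by
          simp [At]
        have h4 : i + 1 ∉ (if P a = true then ({0} : Finset ℕ) else ∅) := by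
          split_ifs <;> simp
        rw [h3]
        constructor
        · rintro ⟨h5, h6⟩
          exact Or.inl ⟨i, ⟨by omega, h6⟩, rfl⟩
        · rintro (⟨j, ⟨h5, h6⟩, h7⟩ | h5)
          · obtain rfl : j = i := by simpa using h7
            exact ⟨by omega, h6⟩
          · exact absurd h5 h4
    rw [h2, Finset.card_union_of_disjoint, Finset.card_map]
    · by_cases h : P a = true <;> simp [h]
    · rw [Finset.disjoint_left]
      intro i hi hi2
      simp only [Finset.mem_map, Function.Embedding.coeFn_mk] at hi
      obtain ⟨j, _, rfl⟩ := hi
      split_ifs at hi2 <;> simp at hi2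

end Pool.Agent.Book19
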