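import Pool.Agent.Book19.Rel
import Pool.Agent.Book19.Letter
import Pool.Agent.PT.Coded
import Pool.Agent.B7219d.PTIter

/-!
# The class P is closed under reductions whose letters are given by terms
-/

set_option autoImplicit false

namespace Pool.Agent.Book19

open Turing Computability Pool.Agent.PT

section cells

variable (C : CM)

/-- The value of a cell. -/
private def cv (x : List (Fin C.M0 × Bool)) (i : ℕ) : ℕ :=
  match x[i]? with
  | some p => p.1.val
  | none => 0

/-- The mark on a cell. -/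
private def mk (x : List (Fin C.M0 × Bool)) (i : ℕ) : Bool :=
  match x[i]? with
  | some p => p.2
  | none => false

private theorem cv_lt (h0 : 0 < C.M0) (x : List (Fin C.M0 × Bool)) (i : ℕ) :
    cv C x i < C.M0 := by
  unfold cv
  split
  · exact Fin.isLt _
  · exact h0

private theorem uf_cv {f : List (Fin C.M0 × Bool) → (ℕ → ℕ) → ℕ} (hf : UF f) :
    UF (fun x e => cv C x (f x e)) := by
  classical
  refine (UF.fsum (Finset.univ : Finset (Fin C.M0 × Bool))
    (F := fun p x e => p.1.val * (if x[f x e]? = some p then 1 else 0))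
    (fun p _ => (UF.const _).mul (UF.congr (UP.sym p hf) fun x e => ?_))).congr fun x e => ?_
  · congr
  · unfold cv
    cases h : x[f x e]? with
    | none => simp
    | some q =>
      rw [Finset.sum_eq_single q]
      · simp
      · intro b _ hb
        have : ¬ (some q = some b) := fun h' => hb (Option.some.inj h').symm
        simp [Ne.symm hb]
      · intro h'; exact absurd (Finset.mem_univ _) h'

private theorem up_mk {f : List (Fin C.M0 × Bool) → (ℕ → ℕ) → ℕ} (hf : UF f) :
    UP (fun x e => mk C x (f x e) = true) := by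
  refine (UP.fex (fun p : Fin C.M0 × Bool => (UP.sym p hf).and
    (UP.const (p.2 = true)))).congr fun x e => ?_
  unfold mk
  cases h : x[f x e]? with
  | none => simp
  | some q => simp

private theorem up_mk' {f : List (Fin C.M0 × Bool) → (ℕ → ℕ) → ℕ} (hf : UF f) (b : Bool) :
    UP (fun x e => mk C x (f x e) = b) := by
  cases b with
  | true => exact up_mk C hf
  | false => exact (up_mk C hf).not.congr fun x e => by simp

private theorem uf_R {Γ : Type} {f g : List Γ → (ℕ → ℕ) → ℕ} (hf : UF f) (hg : UF g) :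
    UF (fun x e => C.R (f x e) (g x e)) := by
  have hs : UF (fun x e => C.stk (g x e)) := UF.table' C.stk C.M0 C.stk_zero hg
  have ho : UF (fun x e => C.op (g x e)) := UF.table' C.op C.M0 C.op_zero hg
  unfold CM.R
  exact UF.ite (UP.eq hf (UF.const 0)) ((UF.const 1).add hs)
    (UF.ite (UP.eq ((hf.sub (UF.const 1)).mod (UF.const C.κ)) hs)
      (UF.ite (UP.eq ho (UF.const 0)) hf
        (UF.ite (UP.eq ho (UF.const 1)) (hf.add (UF.const C.κ))
          (UF.ite (UP.lt (hf.sub (UF.const 1)) (UF.const C.κ)) hf (hf.sub (UF.const C.κ))))) hf)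

private theorem uf_V {Γ : Type} {f g h : List Γ → (ℕ → ℕ) → ℕ} (hf : UF f) (hg : UF g)
    (hh : UF h) : UF (fun x e => C.V (f x e) (g x e) (h x e)) := by
  have hs : UF (fun x e => C.stk (g x e)) := UF.table' C.stk C.M0 C.stk_zero hg
  have ho : UF (fun x e => C.op (g x e)) := UF.table' C.op C.M0 C.op_zero hg
  have hn : UF (fun x e => C.nx (g x e) (h x e)) :=
    (UF.table₂ C.nx C.M0 C.M0 hg hh).congr fun x e => by
      split_ifs with h1
      · rfl
      · exact (C.nx_zero _ _ h1).symm
  unfold CM.V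
  exact UF.ite (UP.eq hf (UF.const 0)) hn
    (UF.ite ((UP.eq ((hf.sub (UF.const 1)).mod (UF.const C.κ)) hs).and
      ((UP.le (UF.const 2) ho).and (UP.lt (hf.sub (UF.const 1)) (UF.const C.κ))))
      (ho.sub (UF.const 2)) hh)

/-- The letter after one step. -/
private def G1 (h0 : 0 < C.M0) (x : List (Fin C.M0 × Bool)) (i : ℕ) : Fin C.M0 × Bool :=
  (⟨C.V i (cv C x 0) (cv C x (C.R i (cv C x 0))), C.V_lt _ _ _ (cv_lt C h0 _ _)⟩,
    mk C x (i + 1))

private theorem up_G1 (h0 : 0 < C.M0) (a : Fin C.M0 × Bool) :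
    UP (fun x e => G1 C h0 x (e 0) = a) := by
  have hc : UF (fun (x : List (Fin C.M0 × Bool)) (_ : ℕ → ℕ) => cv C x 0) :=
    uf_cv C (f := fun _ _ => 0) (UF.const 0)
  have hV := uf_V C (UF.var (Γ := Fin C.M0 × Bool) 0) hc
    (uf_cv C (uf_R C (UF.var 0) hc))
  refine ((UP.eq hV (UF.const a.1.val)).and
    (up_mk' C ((UF.var 0).add (UF.const 1)) a.2)).congr fun x e => ?_
  rw [G1, Prod.ext_iff, Fin.ext_iff]

/-- One step on words. -/
private def F1 (h0 : 0 < C.M0) (x : List (Fin C.M0 × Bool)) : List (Fin C.M0 × Bool) :=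
  (List.range x.length).map (G1 C h0 x)

private theorem cv_map {W : ℕ} (G : ℕ → Fin C.M0 × Bool) {p : ℕ} (hp : p < W) :
    cv C ((List.range W).map G) p = (G p).1.val := by
  unfold cv
  simp [hp]

private theorem mk_map {W : ℕ} (G : ℕ → Fin C.M0 × Bool) {p : ℕ} (hp : p < W) :
    mk C ((List.range W).map G) p = (G p).2 := by
  unfold mk
  simp [hp]

private theorem mk_none {x : List (Fin C.M0 × Bool)} {p : ℕ} (hp : x.length ≤ p) :
    mk C x p = false := by
  unfold mk
  rw [List.getElem?_eq_none hp]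

private theorem iter_inv (h0 : 0 < C.M0) (c : ℕ → ℕ) (W T : ℕ) (hT : T ≤ W)
    (x : List (Fin C.M0 × Bool)) (hx : x.length = W) (h1 : ∀ p < W, cv C x p = c p)
    (h2 : ∀ p < W, mk C x p = decide (p < T)) (t : ℕ) :
    ((F1 C h0)^[t] x).length = W ∧
      (∀ p, p + t * C.κ < W → cv C ((F1 C h0)^[t] x) p = C.step^[t] c p) ∧
      ∀ p < W, mk C ((F1 C h0)^[t] x) p = decide (p + t < T) := by
  induction t with
  | zero => exact ⟨hx, fun p hp => h1 p (by simpa using hp), fun p hp => h2 p hp⟩
  | succ t ih =>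
    obtain ⟨i1, i2, i3⟩ := ih
    rw [Function.iterate_succ_apply', Function.iterate_succ_apply']
    set y := (F1 C h0)^[t] x with hy
    have hF : F1 C h0 y = (List.range W).map (G1 C h0 y) := by rw [F1, i1]
    refine ⟨by rw [hF]; simp, fun p hp => ?_, fun p hp => ?_⟩
    · have e : (t + 1) * C.κ = t * C.κ + C.κ := by ring
      rw [hF, cv_map C _ (by omega)]
      have hR := C.R_le p (C.step^[t] c 0)
      change C.V p (cv C y 0) (cv C y (C.R p (cv C y 0))) = C.step (C.step^[t] c) p
      rw [i2 0 (by omega), i2 _ (by omega)]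
      rfl
    · rw [hF, mk_map C _ hp]
      change mk C y (p + 1) = _
      by_cases h : p + 1 < W
      · rw [i3 _ h]
        congr 1
        apply propext
        constructor <;> intro <;> omega
      · rw [mk_none C (by omega)]
        symm
        rw [decide_eq_false_iff_not]
        omega

end cells

private theorem uf_initc {A B : Type} [Fintype A] (ini ks κ : ℕ) (code : A → ℕ)
    (g : List B → List A) (N : List B → ℕ) (lt : List B → ℕ → A)
    (hN : UF (fun u _ => N u)) (hl : ∀ a, UP (fun u e => lt u (e 0) = a))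
    (hg : ∀ u, g u = (List.range (N u)).map (lt u)) :
    UF (fun u e => initc ini ks κ code (g u) (e 0)) := by
  classical
  have hj : UF (Γ := B) (fun _ e => (e 0 - 1) / κ) :=
    ((UF.var 0).sub (UF.const 1)).div (UF.const κ)
  have hs : UF (fun (u : List B) e => ∑ a ∈ (Finset.univ : Finset A),
      code a * (if lt u ((e 0 - 1) / κ) = a then 1 else 0)) := by
    refine UF.fsum (F := fun a u e => code a * (if lt u ((e 0 - 1) / κ) = a then 1 else 0)) _
      (fun a _ => (UF.const _).mul (UF.congr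
        (UP.comp₁ (P := fun u n => lt u n = a) (hl a) hj) fun x e => ?_))
    congr
  have h3 : UF (fun (u : List B) e => if e 0 = 0 then ini else if (e 0 - 1) % κ = ks then
      (if (e 0 - 1) / κ < N u then ∑ a ∈ (Finset.univ : Finset A),
        code a * (if lt u ((e 0 - 1) / κ) = a then 1 else 0) else 0) else 0) :=
    UF.ite (UP.eq (UF.var 0) (UF.const 0)) (UF.const ini)
      (UF.ite (UP.eq (((UF.var 0).sub (UF.const 1)).mod (UF.const κ))
        (UF.const ks)) (UF.ite (UP.lt hj hN) hs (UF.const 0)) (UF.const 0))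
  refine h3.congr fun u e => ?_
  unfold initc
  split_ifs with h1 h2 h3
  · rfl
  · rw [hg u, List.getElem?_map, List.getElem?_range h3]
    simp only [Option.map_some]
    rw [Finset.sum_eq_single (lt u ((e 0 - 1) / κ))]
    · simp
    · intro b _ hb
      rw [if_neg (Ne.symm hb), mul_zero]
    · intro h'; exact absurd (Finset.mem_univ _) h'
  · rw [hg u, List.getElem?_map, List.getElem?_eq_none (by simpa using h3)]
    rfl
  · rfl

private theorem iter_cm {A B : Type} [Fintype A] [Fintype B] (C : CM) (ini ks ko : ℕ)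
    (code : A → ℕ) (acc : Set ℕ) (P : Polynomial ℕ) (hini : ini < C.M0)
    (hcode : ∀ a, code a < C.M0)
    (g : List B → List A) (N : List B → ℕ) (lt : List B → ℕ → A)
    (hN : UF (fun u _ => N u)) (hl : ∀ a, UP (fun u e => lt u (e 0) = a))
    (hg : ∀ u, g u = (List.range (N u)).map (lt u)) (f : List B → Bool)
    (hf : ∀ u, f u = true ↔
      (C.step^[P.eval (N u)] (initc ini ks C.κ code (g u))) (1 + ko) ∈ acc) :
    Nonempty (TM2ComputableInPolyTime (encodingList B).encode encodeBool f) := by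
  classical
  have h0 : 0 < C.M0 := (Nat.zero_le _).trans_lt hini
  have hT : UF (fun u (_ : ℕ → ℕ) => P.eval (N u)) := UF.poly P hN
  let M₀ : List B → ℕ := fun u => 2 + ko + P.eval (N u) * C.κ
  have hM₀ : UF (fun u _ => M₀ u) :=
    (UF.const (2 + ko)).add (hT.mul (UF.const C.κ))
  let G₀ : List B → ℕ → Fin C.M0 × Bool := fun u i =>
    (⟨initc ini ks C.κ code (g u) i, initc_lt hini hcode _ _⟩, decide (i < P.eval (N u)))
  have hG₀ : ∀ a : Fin C.M0 × Bool, UP (fun u e => G₀ u (e 0) = a) := by
    intro a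
    have e1 : UP (fun (u : List B) e => decide (e 0 < P.eval (N u)) = a.2) := by
      have e2 : UP (fun (u : List B) e => e 0 < P.eval (N u)) := UP.lt (UF.var 0) hT
      cases a.2 with
      | true => exact e2.congr fun u e => by simp
      | false => exact e2.not.congr fun u e => by simp
    refine ((UP.eq (uf_initc ini ks C.κ code g N lt hN hl hg) (UF.const a.1.val)).and
      e1).congr fun u e => ?_
    change _ ↔ ((⟨initc ini ks C.κ code (g u) (e 0), _⟩, decide (e 0 < P.eval (N u))) :
      Fin C.M0 × Bool) = a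
    rw [Prod.ext_iff, Fin.ext_iff]
  -- bounds
  obtain ⟨m, hm⟩ := hN
  obtain ⟨Tm, hTm⟩ := exists_spec (Sum.inl : B → B ⊕ Unit) Sum.inl_injective (Sum.inr ()) m
  have hNle : ∀ u : List B, N u ≤ Tm u.length := fun u => by
    have h1 : PT.Tm.eval u m (fun _ => 0) = N u := hm u (fun _ => 0)
    rw [← h1]
    exact hTm.val u.length u (fun _ => 0) le_rfl (fun _ => Nat.zero_le _)
  have hPle : ∀ u : List B, P.eval (N u) ≤ P.eval (Tm u.length) := fun u =>
    (PB.ofPoly P).1 (hNle u)
  have hS : PB (fun n => P.eval (Tm n)) := (PB.ofPoly P).comp hTm.pb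
  have hL : PB (fun n => 2 + ko + P.eval (Tm n) * C.κ) :=
    (PB.const (2 + ko)).add (hS.mul (PB.const C.κ))
  -- the final predicate
  have hR : UP (fun (x : List (Fin C.M0 × Bool)) (_ : ℕ → ℕ) => cv C x (1 + ko) ∈ acc) := by
    have h1 : UF (fun (x : List (Fin C.M0 × Bool)) (_ : ℕ → ℕ) => cv C x (1 + ko)) :=
      uf_cv C (f := fun _ _ => 1 + ko) (UF.const (1 + ko))
    refine UP.of_ne_zero (UF.table (fun k => if k ∈ acc then 1 else 0) C.M0 h1) fun x e => ?_
    have h2 := cv_lt C h0 x (1 + ko)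
    by_cases h : cv C x (1 + ko) ∈ acc <;> simp [h, h2]
  refine B7219d.polyTime_iterate (encodingList B).encode (M₀ := M₀) (G₀ := G₀) hM₀ hG₀
    (M₁ := fun x => x.length) (G₁ := G1 C h0) UF.len (up_G1 C h0)
    (Q := fun x => mk C x 0 = true) (R := fun x => cv C x (1 + ko) ∈ acc)
    (up_mk C (f := fun _ _ => 0) (UF.const 0)) hR f
    (fun u => (List.range (M₀ u)).map (G₀ u)) (fun u => rfl) (F1 C h0) (fun x => rfl)
    (fun n => P.eval (Tm n)) (fun n => 2 + ko + P.eval (Tm n) * C.κ) hS hL fun u => ?_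
  have e1 : (encodingList B).encode u = u := rfl
  rw [e1]
  have hκ := C.κpos
  have hTW : P.eval (N u) ≤ M₀ u := by
    change P.eval (N u) ≤ 2 + ko + P.eval (N u) * C.κ
    have := Nat.le_mul_of_pos_right (P.eval (N u)) hκ
    omega
  have key := iter_inv C h0 (initc ini ks C.κ code (g u)) (M₀ u) (P.eval (N u)) hTW
    ((List.range (M₀ u)).map (G₀ u)) (by simp) (fun p hp => cv_map C _ hp)
    (fun p hp => mk_map C _ hp)
  have hMpos : 0 < M₀ u := by
    change 0 < 2 + ko + P.eval (N u) * C.κ
    omega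
  refine ⟨P.eval (N u), hPle u, fun i hi => ?_, ?_, fun i hi => ?_, ?_⟩
  · rw [(key i).2.2 0 hMpos, decide_eq_true_iff]
    omega
  · rw [(key _).2.2 0 hMpos, decide_eq_true_iff]
    omega
  · rw [(key i).1]
    change 2 + ko + P.eval (N u) * C.κ ≤ 2 + ko + P.eval (Tm u.length) * C.κ
    have := Nat.mul_le_mul_right C.κ (hPle u)
    omega
  · rw [hf u, (key _).2.1 (1 + ko) (by
      change 1 + ko + P.eval (N u) * C.κ < 2 + ko + P.eval (N u) * C.κ
      omega)]

/-- `P` is closed under reductions whose letters are given by terms. -/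
theorem InP.comap {A B : Type} [Fintype A] [Fintype B] {L : Set (List A)} (hL : InP A L)
    (g : List B → List A) (N : List B → ℕ) (lt : List B → ℕ → A)
    (hN : UF (fun u _ => N u)) (hl : ∀ a, UP (fun u e => lt u (e 0) = a))
    (hg : ∀ u, g u = (List.range (N u)).map (lt u)) : InP B {u | g u ∈ L} := by
  obtain ⟨f, ⟨hf⟩, hfL⟩ := hL
  obtain ⟨C, ini, ks, ko, code, acc, P, h1, _, _, h4, _, h6⟩ := exists_cm _ f hf
  refine ⟨fun u => f (g u), ?_, fun u => hfL (g u)⟩
  refine iter_cm C ini ks ko code acc P h1 h4 g N lt hN hl hg _ fun u => ?_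
  refine h6 (g u) _ (le_of_eq ?_)
  have e : (encodingList A).encode (g u) = g u := rfl
  rw [e, hg u]
  simp

theorem InP.comap_not {A B : Type} [Fintype A] [Fintype B] {L : Set (List A)} (hL : InP A L)
    (g : List B → List A) (N : List B → ℕ) (lt : List B → ℕ → A)
    (hN : UF (fun u _ => N u)) (hl : ∀ a, UP (fun u e => lt u (e 0) = a))
    (hg : ∀ u, g u = (List.range (N u)).map (lt u)) : InP B {u | g u ∉ L} := by
  obtain ⟨f, ⟨hf⟩, hfL⟩ := hL
  obtain ⟨C, ini, ks, ko, code, acc, P, h1, _, _, h4, _, h6⟩ := exists_cm _ f hf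
  refine ⟨fun u => !f (g u), ?_, fun u => ?_⟩
  · refine iter_cm C ini ks ko code accᶜ P h1 h4 g N lt hN hl hg _ fun u => ?_
    have e : ((encodingList A).encode (g u)).length = N u := by
      have e' : (encodingList A).encode (g u) = g u := rfl
      rw [e', hg u]
      simp
    have h7 := h6 (g u) (P.eval (N u)) (by rw [e])
    rw [Set.mem_compl_iff]
    change _ ↔ ¬ (C.step^[P.eval (N u)] (initc ini ks C.κ code
      ((encodingList A).encode (g u)))) (1 + ko) ∈ acc
    rw [← h7]
    simp
  · have := hfL (g u)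
    change ¬ (g u ∈ L) ↔ _
    rw [this]
    simp

end Pool.Agent.Book19
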