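import Pool.Agent.PT.NPDefs

/-!
# Linear bounded automata, advice, and the classes P, NP, DLBA, LBA

Words over finite alphabets. The tape of a linear bounded automaton consists of the cells of the
input word; the head scans one cell and senses whether this cell is the first or the last one.
-/

set_option autoImplicit false

namespace Pool.Agent.Book19

open Turing Computability Filter Topology Pool.Agent.PT Relation

/-- Moves of the head. -/
inductive Dir
  | left
  | stay
  | right
  deriving DecidableEq, Fintype

/-- A tape with the head on it is a pair `(l, r)`: the word on the tape is `l.reverse ++ r` and the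
head scans the first letter of `r`. `put s d (l, r)` is the tape after writing `s` on the scanned
cell and moving in direction `d` (a move across the end of the tape is not performed). -/
def put {G : Type} (s : G) : Dir → List G × List G → List G × List G
  | Dir.stay, (l, r) => (l, s :: r.tail)
  | Dir.left, (b :: l, r) => (l, b :: s :: r.tail)
  | Dir.left, ([], r) => ([], s :: r.tail)
  | Dir.right, (l, r) =>
      match r.tail with
      | [] => (l, [s])
      | a :: r' => (s :: l, a :: r')

/-- A nondeterministic linear bounded automaton with input alphabet `A`: finite sets `W` of work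
symbols and `Q` of states; in state `q`, scanning `γ` (an input letter or a work symbol), where the
two Booleans tell whether the head is on the first and on the last cell, the possible actions
(new state, written symbol, move) are those in `δ q γ _ _`. -/
structure LBA (A : Type) where
  W : Type
  [finW : Fintype W]
  Q : Type
  [finQ : Fintype Q]
  start : Q
  δ : Q → A ⊕ W → Bool → Bool → Set (Q × (A ⊕ W) × Dir)
  acc : Set Q

/-- Configurations: state and tape. -/
abbrev Conf (Q G : Type) : Type := Q × (List G × List G)

/-- One step of a nondeterministic linear bounded automaton. -/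
def LBA.Step {A : Type} (M : LBA A) (c c' : Conf M.Q (A ⊕ M.W)) : Prop :=
  ∃ γ r, c.2.2 = γ :: r ∧ ∃ x ∈ M.δ c.1 γ c.2.1.isEmpty r.isEmpty,
    c' = (x.1, put x.2.1 x.2.2 c.2)

/-- The initial configuration on the word `x`. -/
def LBA.init {A : Type} (M : LBA A) (x : List A) : Conf M.Q (A ⊕ M.W) :=
  (M.start, ([], x.map Sum.inl))

/-- `M` accepts `x` if some computation on `x` reaches an accepting state. -/
def LBA.Accepts {A : Type} (M : LBA A) (x : List A) : Prop :=
  ∃ c, ReflTransGen M.Step (M.init x) c ∧ c.1 ∈ M.acc

/-- A deterministic linear bounded automaton: in a state `q` with `out q = none` the computation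
goes on; it stops in the states with `out q = some b`, accepting if `b = true` and rejecting if
`b = false`. -/
structure DLBA (A : Type) where
  W : Type
  [finW : Fintype W]
  Q : Type
  [finQ : Fintype Q]
  start : Q
  δ : Q → A ⊕ W → Bool → Bool → Q × (A ⊕ W) × Dir
  out : Q → Option Bool

/-- One step of a deterministic linear bounded automaton. -/
def DLBA.step {A : Type} (M : DLBA A) (c : Conf M.Q (A ⊕ M.W)) : Conf M.Q (A ⊕ M.W) :=
  match c.2.2 with
  | [] => c
  | γ :: r =>
      let x := M.δ c.1 γ c.2.1.isEmpty r.isEmpty
      (x.1, put x.2.1 x.2.2 c.2)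

/-- The initial configuration on the word `x`. -/
def DLBA.init {A : Type} (M : DLBA A) (x : List A) : Conf M.Q (A ⊕ M.W) :=
  (M.start, ([], x.map Sum.inl))

/-- The computation of `M` on `x` stops with answer `b`. -/
def DLBA.Gives {A : Type} (M : DLBA A) (x : List A) (b : Bool) : Prop :=
  ∃ t, M.out (M.step^[t] (M.init x)).1 = some b ∧
    ∀ s < t, M.out (M.step^[s] (M.init x)).1 = none

/-- The class NSPACE(n): `L` is accepted by a linear bounded automaton (the empty word is
disregarded). -/
def InLBA (A : Type) (L : Set (List A)) : Prop :=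
  ∃ M : LBA A, ∀ x : List A, x ≠ [] → (x ∈ L ↔ M.Accepts x)

/-- The class DSPACE(n): `L` is decided by a deterministic linear bounded automaton (the empty word
is disregarded). -/
def InDLBA (A : Type) (L : Set (List A)) : Prop :=
  ∃ M : DLBA A, ∀ x : List A, x ≠ [] → ∃ b : Bool, M.Gives x b ∧ (x ∈ L ↔ b = true)

/-- The class P: `L` is decided in polynomial time by a Turing machine (Mathlib's
`TM2ComputableInPolyTime`). -/
def InP (A : Type) (L : Set (List A)) : Prop :=
  ∃ f : List A → Bool,
    Nonempty (TM2ComputableInPolyTime (encodingList A).encode encodeBool f) ∧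
      ∀ x, x ∈ L ↔ f x = true

/-- The class NP. -/
def InNPc (A : Type) (L : Set (List A)) : Prop := InNP L

/-- The word `x` with the bits of `h` on a second track: the `i`-th letter is `(x_i, h_i)`, or
`(x_i, none)` if `h` has no `i`-th letter. -/
def trk {A : Type} : List A → List Bool → List (A × Option Bool)
  | [], _ => []
  | a :: x, [] => (a, none) :: trk x []
  | a :: x, b :: h => (a, some b) :: trk x h

/-- `L ∈ 𝒞/o(n)`: there are `L' ∈ 𝒞` and advice words `h n` of length `o(n)` such that
`x ∈ L ↔ (x with advice h |x|) ∈ L'` for all words `x`. -/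
def Adv (𝒞 : ∀ A : Type, Set (List A) → Prop) {A : Type} (L : Set (List A)) : Prop :=
  ∃ (L' : Set (List (A × Option Bool))) (h : ℕ → List Bool), 𝒞 _ L' ∧
    Tendsto (fun n : ℕ => ((h n).length : ℝ) / n) atTop (𝓝 0) ∧
      ∀ x : List A, x ∈ L ↔ trk x (h x.length) ∈ L'

/-- `L ∈ i.o.-𝒞/o(n)`: the same for the words `x` of length `n`, for infinitely many `n`. -/
def IoAdv (𝒞 : ∀ A : Type, Set (List A) → Prop) {A : Type} (L : Set (List A)) : Prop :=
  ∃ (L' : Set (List (A × Option Bool))) (h : ℕ → List Bool), 𝒞 _ L' ∧
    Tendsto (fun n : ℕ => ((h n).length : ℝ) / n) atTop (𝓝 0) ∧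
      ∃ᶠ n : ℕ in atTop, ∀ x : List A, x.length = n → (x ∈ L ↔ trk x (h n) ∈ L')

/-- `𝒟 ⊆ 𝒞/o(n)` -/
def SubAdv (𝒟 𝒞 : ∀ A : Type, Set (List A) → Prop) : Prop :=
  ∀ (A : Type) [Fintype A] (L : Set (List A)), 𝒟 A L → Adv 𝒞 L

/-- `𝒞 ⊆ i.o.-𝒟/o(n)` -/
def SubIoAdv (𝒞 𝒟 : ∀ A : Type, Set (List A) → Prop) : Prop :=
  ∀ (A : Type) [Fintype A] (L : Set (List A)), 𝒞 A L → IoAdv 𝒟 L

end Pool.Agent.Book19
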