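import Pool.Agent.Book19.Core2

/-!
# A robust form of Book's theorem for linear space against P and NP

Let `𝒞` be DSPACE(n) or NSPACE(n) and let `𝒟` be P or NP. The inclusions of `𝒟` in `𝒞/o(n)` and of
`𝒞` in `𝒟/o(n)`, each up to `2^o(n)` errors at every length, do not both hold, even if one of the
two is only required at infinitely many lengths.
-/

set_option autoImplicit false

namespace Pool.Agent.Results.MP_d19090_lc.BookHeuristic

open Pool.Agent.Book19

/-- For `𝒞` one of DSPACE(n), NSPACE(n) and `𝒟` one of P, NP: not both `𝒟 ⊆ 𝒞/o(n)` and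
`𝒞 ⊆ 𝒟/o(n)`, where both inclusions are meant up to `2^o(n)` errors at each length, and one of the
two (`i = true` or `j = true`) only for infinitely many lengths. -/
theorem result (𝒞 𝒟 : ∀ A : Type, Set (List A) → Prop) (h𝒞 : 𝒞 = InDLBA ∨ 𝒞 = InLBA)
    (h𝒟 : 𝒟 = InP ∨ 𝒟 = InNPc) (i j : Bool) (hij : i = false ∨ j = false) :
    ¬ (SubHeur i 𝒟 𝒞 ∧ SubHeur j 𝒞 𝒟) := by
  have hD : GoodD 𝒟 := by
    rcases h𝒟 with rfl | rfl
    · exact goodD_P
    · exact goodD_NP
  rcases h𝒞 with rfl | rfl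
  · exact core_det2 𝒟 hD hij
  · exact core_lba2 𝒟 hD hij

end Pool.Agent.Results.MP_d19090_lc.BookHeuristic
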