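import Pool.Agent.Book19.Rel
import Pool.Agent.Book19.Letter

/-!
# Existence of a coding
-/

set_option autoImplicit false

namespace Pool.Agent.Book19

open Turing Computability Filter Topology Pool.Agent.PT Relation

theorem exists_cod {A : Type} [Fintype A] (M : LBA A) (ix : A → ℕ)
    (hix : Function.Injective ix) (k₀ : ℕ) :
    ∃ C : Cod M ix, k₀ ≤ C.k := by
  classical
  have : Finite Dir := inferInstance
  have : Finite M.Q := Finite.of_fintype _
  have : Finite M.W := Finite.of_fintype _
  -- symbols
  let m : ℕ := ∑ a : A, (ix a + 1)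
  have hm : ∀ a, ix a < m := fun a => by
    have h := Finset.single_le_sum (f := fun a : A => ix a + 1) (fun _ _ => Nat.zero_le _)
      (Finset.mem_univ a)
    exact Nat.lt_of_succ_le h
  let s : A ⊕ M.W → ℕ := Sum.elim ix (fun w => m + (Fintype.equivFin M.W w : ℕ))
  have hs : Function.Injective s := by
    rintro (a | w) (b | v) h
    · exact congrArg Sum.inl (hix h)
    · have h1 := hm a
      simp only [s, Sum.elim_inl, Sum.elim_inr] at h
      omega
    · have h1 := hm b
      simp only [s, Sum.elim_inl, Sum.elim_inr] at h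
      omega
    · simp only [s, Sum.elim_inr] at h
      have h2 : (Fintype.equivFin M.W w : ℕ) = (Fintype.equivFin M.W v : ℕ) := by omega
      exact congrArg Sum.inr ((Fintype.equivFin M.W).injective (Fin.ext h2))
  let q : M.Q → ℕ := fun x => (Fintype.equivFin M.Q x : ℕ)
  have hq : Function.Injective q := fun x y h => (Fintype.equivFin M.Q).injective (Fin.ext h)
  let T : Set ((M.Q × (A ⊕ M.W) × Bool × Bool) × (M.Q × (A ⊕ M.W) × Dir)) :=
    {z | z.2 ∈ M.δ z.1.1 z.1.2.1 z.1.2.2.1 z.1.2.2.2}
  have hT : T.Finite := Set.toFinite T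
  let k : ℕ := k₀ + (m + Fintype.card M.W) + Fintype.card M.Q
  refine ⟨{ k := k, s := s, q := q, tb := hT.toFinset.toList, s_inl := fun a => rfl,
            s_inj := hs, q_inj := hq, s_lt := ?_, q_lt := ?_, tb_mem := ?_ }, ?_⟩
  · rintro (a | w)
    · have h1 := hm a
      simp only [s, Sum.elim_inl, k]
      omega
    · have h1 := (Fintype.equivFin M.W w).isLt
      simp only [s, Sum.elim_inr, k]
      omega
  · intro x
    have h1 := (Fintype.equivFin M.Q x).isLt
    simp only [q, k]
    omega
  · intro q' γ le re y
    rw [Finset.mem_toList, Set.Finite.mem_toFinset]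
    rfl
  · simp only [k]
    omega

end Pool.Agent.Book19
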