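import Pool.Agent.Book19.Rel
import Pool.Agent.Book19.Letter

/-!
# Final letters of configuration words, and the length of the tape
-/

set_option autoImplicit false

namespace Pool.Agent.Book19

private theorem codeLem_pos {A : Type} {M : LBA A} {ix : A → ℕ} (C : Cod M ix) (N : ℕ)
    (c : Conf M.Q (A ⊕ M.W)) (hr : c.2.2 ≠ []) (hlen : c.2.1.length + c.2.2.length = N / C.k) :
    c.2.1.length * C.k + C.q c.1 < N := by
  have h1 := C.q_lt c.1
  have h2 : 0 < c.2.2.length := List.length_pos_iff.mpr hr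
  have h3 : N / C.k * C.k ≤ N := Nat.div_mul_le_self N C.k
  have h4 : (c.2.1.length + 1) * C.k ≤ N / C.k * C.k := Nat.mul_le_mul_right _ (by omega)
  have h5 : (c.2.1.length + 1) * C.k = c.2.1.length * C.k + C.k := by ring
  omega

private theorem codeLem_div {A : Type} {M : LBA A} {ix : A → ℕ} (C : Cod M ix) (l : ℕ)
    (y : M.Q) : (l * C.k + C.q y) / C.k = l ∧ (l * C.k + C.q y) % C.k = C.q y := by
  have h1 := C.q_lt y
  have hk : 0 < C.k := by omega
  constructor
  · rw [Nat.mul_comm, Nat.mul_add_div hk, Nat.div_eq_of_lt h1, Nat.add_zero]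
  · rw [Nat.mul_comm, Nat.mul_add_mod, Nat.mod_eq_of_lt h1]

theorem Cod.code_f1 {A : Type} {M : LBA A} {ix : A → ℕ} (C : Cod M ix) (F1 F2 : Set M.Q) (N : ℕ)
    (c : Conf M.Q (A ⊕ M.W)) (hr : c.2.2 ≠ []) (hlen : c.2.1.length + c.2.2.length = N / C.k) :
    (∃ a ∈ C.code F1 F2 N c, a.st = true ∧ a.f1 = true) ↔ c.1 ∈ F1 := by
  unfold Cod.code
  constructor
  · rintro ⟨a, ha, h1, h2⟩
    rw [List.mem_map] at ha
    obtain ⟨p, -, rfl⟩ := ha
    simp only [Cod.lett, decide_eq_true_eq] at h1 h2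
    obtain ⟨x, hx, hxq⟩ := h2
    have h3 : x = c.1 := C.q_inj (by rw [hxq, h1.2])
    rwa [← h3]
  · intro h
    have h1 := codeLem_pos C N c hr hlen
    obtain ⟨h2, h3⟩ := codeLem_div C c.2.1.length c.1
    refine ⟨_, List.mem_map.mpr ⟨_, List.mem_range.mpr h1, rfl⟩, ?_, ?_⟩
    · simp only [Cod.lett, decide_eq_true_eq]
      exact ⟨h2, h3.symm⟩
    · simp only [Cod.lett, decide_eq_true_eq]
      exact ⟨c.1, h, h3.symm⟩

theorem Cod.code_f2 {A : Type} {M : LBA A} {ix : A → ℕ} (C : Cod M ix) (F1 F2 : Set M.Q) (N : ℕ)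
    (c : Conf M.Q (A ⊕ M.W)) (hr : c.2.2 ≠ []) (hlen : c.2.1.length + c.2.2.length = N / C.k) :
    (∃ a ∈ C.code F1 F2 N c, a.st = true ∧ a.f2 = true) ↔ c.1 ∈ F2 := by
  unfold Cod.code
  constructor
  · rintro ⟨a, ha, h1, h2⟩
    rw [List.mem_map] at ha
    obtain ⟨p, -, rfl⟩ := ha
    simp only [Cod.lett, decide_eq_true_eq] at h1 h2
    obtain ⟨x, hx, hxq⟩ := h2
    have h3 : x = c.1 := C.q_inj (by rw [hxq, h1.2])
    rwa [← h3]
  · intro h
    have h1 := codeLem_pos C N c hr hlen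
    obtain ⟨h2, h3⟩ := codeLem_div C c.2.1.length c.1
    refine ⟨_, List.mem_map.mpr ⟨_, List.mem_range.mpr h1, rfl⟩, ?_, ?_⟩
    · simp only [Cod.lett, decide_eq_true_eq]
      exact ⟨h2, h3.symm⟩
    · simp only [Cod.lett, decide_eq_true_eq]
      exact ⟨c.1, h, h3.symm⟩

private theorem codeLem_put {G : Type} (s : G) (d : Dir) (l : List G) (γ : G) (r : List G) :
    (put s d (l, γ :: r)).1.length + (put s d (l, γ :: r)).2.length = l.length + (γ :: r).length ∧
      (put s d (l, γ :: r)).2 ≠ [] := by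
  cases d with
  | left =>
    cases l with
    | nil => simp [put]
    | cons b l => simp only [put, List.tail_cons, List.length_cons]; exact ⟨by omega, by simp⟩
  | stay => simp [put]
  | right =>
    cases r with
    | nil => simp [put]
    | cons a r => simp only [put, List.tail_cons, List.length_cons]; exact ⟨by omega, by simp⟩

theorem LBA.Step.len {A : Type} {M : LBA A} {c d : Conf M.Q (A ⊕ M.W)} (h : M.Step c d) :
    d.2.1.length + d.2.2.length = c.2.1.length + c.2.2.length ∧ d.2.2 ≠ [] := by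
  obtain ⟨γ, r, h1, x, -, rfl⟩ := h
  have h2 : c.2 = (c.2.1, γ :: r) := by rw [← h1]
  have h3 := codeLem_put x.2.1 x.2.2 c.2.1 γ r
  rw [← h2] at h3
  rw [h1]
  exact h3

end Pool.Agent.Book19
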