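import Pool.Agent.Book19.Letter
import Pool.Agent.PT.Coded
import Pool.Agent.B7219d.PTIter

/-!
# Composition of a polynomial time decider with a word function given by terms
-/

set_option autoImplicit false

namespace Pool.Agent.Book19

open Turing Computability Pool.Agent.PT Pool.Agent.B7219d

namespace ComapGen

section sim

variable (C : CM) (hM : 0 < C.M0)

/-- the value at a position of a word of cells -/
def val (y : List (Fin C.M0 × Bool)) (p : ℕ) : ℕ :=
  match y[p]? with
  | some v => v.1
  | none => 0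

include hM in
theorem val_lt (y : List (Fin C.M0 × Bool)) (p : ℕ) : val C y p < C.M0 := by
  unfold val
  cases y[p]? with
  | none => exact hM
  | some v => exact v.1.2

theorem uval {f : List (Fin C.M0 × Bool) → (ℕ → ℕ) → ℕ} (hf : UF f) :
    UF (fun y e => val C y (f y e)) := by
  classical
  have h1 : UF (fun (y : List (Fin C.M0 × Bool)) e => ∑ a ∈ (Finset.univ : Finset (Fin C.M0 × Bool)),
      ((a.1 : ℕ) * (if y[f y e]? = some a then 1 else 0))) := by
    refine UF.fsum (F := fun a y e => (a.1 : ℕ) * (if y[f y e]? = some a then 1 else 0)) _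
      (fun a _ => (UF.const (a.1 : ℕ)).mul (UF.congr (UP.sym a hf) fun x e => ?_))
    congr
  refine h1.congr fun y e => ?_
  unfold val
  cases h : y[f y e]? with
  | none => simp
  | some v =>
    rw [Finset.sum_eq_single v]
    · simp
    · intro b _ hb
      rw [if_neg (fun h' => hb (by simpa using h'.symm))]
      simp
    · intro h; exact absurd (Finset.mem_univ _) h

open Classical in
/-- letters of the next word of cells -/
noncomputable def nxtL (y : List (Fin C.M0 × Bool)) (p : ℕ) : Fin C.M0 × Bool :=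
  (⟨C.V p (val C y 0) (val C y (C.R p (val C y 0))), C.V_lt _ _ _ (val_lt C hM _ _)⟩,
    decide (∃ v, y[p + 1]? = some (v, true)))

/-- the next word of cells -/
noncomputable def nxw (y : List (Fin C.M0 × Bool)) : List (Fin C.M0 × Bool) :=
  (List.range y.length).map (nxtL C hM y)

theorem iter_spec (c : ℕ → ℕ) (W T : ℕ) (hTW : T ≤ W) (y : List (Fin C.M0 × Bool))
    (hl : y.length = W) (hv : ∀ p < W, val C y p = c p)
    (hb : ∀ p < W, (∃ v, y[p]? = some (v, true)) ↔ p < T) (s : ℕ) :
    ((nxw C hM)^[s] y).length = W ∧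
      (∀ p, p + C.κ * s < W → val C ((nxw C hM)^[s] y) p = C.step^[s] c p) ∧
      (∀ p < W, (∃ v, ((nxw C hM)^[s] y)[p]? = some (v, true)) ↔ p + s < T) := by
  induction s with
  | zero => exact ⟨hl, fun p hp => hv p (by simpa using hp), fun p hp => by simpa using hb p hp⟩
  | succ s ih =>
    obtain ⟨h1, h2, h3⟩ := ih
    rw [Function.iterate_succ_apply']
    set z := (nxw C hM)^[s] y with hz
    have hlen : (nxw C hM z).length = W := by simp [nxw, h1]
    have hget : ∀ p < W, (nxw C hM z)[p]? = some (nxtL C hM z p) := by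
      intro p hp
      simp [nxw, h1, hp]
    refine ⟨hlen, fun p hp => ?_, fun p hp => ?_⟩
    · have hκ := C.κpos
      have e : C.κ * (s + 1) = C.κ * s + C.κ := by ring
      rw [e] at hp
      have hp' : p < W := by omega
      have hR := C.R_le p (val C z 0)
      have e0 : val C z 0 = C.step^[s] c 0 := h2 0 (by omega)
      have e1 : val C z (C.R p (val C z 0)) = C.step^[s] c (C.R p (val C z 0)) := h2 _ (by omega)
      unfold val
      rw [hget p hp']
      simp only [nxtL]
      rw [Function.iterate_succ_apply', e1, e0]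
      rfl
    · rw [hget p hp]
      simp only [nxtL, Option.some.injEq, Prod.mk.injEq, decide_eq_true_eq]
      have e : (∃ v, (⟨C.V p (val C z 0) (val C z (C.R p (val C z 0))),
          C.V_lt _ _ _ (val_lt C hM _ _)⟩ : Fin C.M0) = v ∧ ∃ v, z[p + 1]? = some (v, true)) ↔
          ∃ v, z[p + 1]? = some (v, true) := by
        constructor
        · rintro ⟨_, _, h⟩; exact h
        · intro h; exact ⟨_, rfl, h⟩
      rw [e]
      by_cases hp1 : p + 1 < W
      · rw [h3 _ hp1]; omega
      · rw [List.getElem?_eq_none (by omega)]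
        constructor
        · rintro ⟨v, hv⟩; simp at hv
        · intro h; omega

end sim

end ComapGen

open ComapGen

/-- **Composition.** If `f` is decided in polynomial time on the encoding `ea` and `h` is given, on
encodings, by terms, then `f ∘ h` (together with a condition given by a term) is decided in
polynomial time. -/
theorem polyTime_comap {Γ A α γ : Type} [Fintype Γ] [Fintype A] (ea : α → List A)
    (f : α → Bool) (hf : Nonempty (TM2ComputableInPolyTime ea encodeBool f))
    (ec : γ → List Γ) (h : γ → α) {N : List Γ → ℕ} {lt : List Γ → ℕ → A}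
    (hN : UF (fun x _ => N x)) (hl : ∀ a, UP (fun x e => lt x (e 0) = a))
    (hh : ∀ c, ea (h c) = (List.range (N (ec c))).map (lt (ec c)))
    {V : List Γ → Prop} (hV : UP (fun x _ => V x)) (b : Bool) (f' : γ → Bool)
    (hf' : ∀ c, f' c = true ↔ (V (ec c) ∧ f (h c) = b)) :
    Nonempty (TM2ComputableInPolyTime ec encodeBool f') := by
  classical
  obtain ⟨hf⟩ := hf
  obtain ⟨C, ini, ks, ko, code, acc, P, hini, hks, hko, hcode, hcode0, hacc⟩ :=
    exists_cm ea f hf
  have hM : 0 < C.M0 := by omega
  have hκ := C.κpos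
  have hl' : ∀ a, ∀ {g : List Γ → (ℕ → ℕ) → ℕ}, UF g → UP (fun x e => lt x (g x e) = a) :=
    fun a g hg => UP.comp₁ (P := fun x i => lt x i = a) (hl a) hg
  -- the coded functions
  have ustk : ∀ {Δ : Type} {f : List Δ → (ℕ → ℕ) → ℕ}, UF f → UF (fun x e => C.stk (f x e)) :=
    fun hf => UF.table' _ _ C.stk_zero hf
  have uop : ∀ {Δ : Type} {f : List Δ → (ℕ → ℕ) → ℕ}, UF f → UF (fun x e => C.op (f x e)) :=
    fun hf => UF.table' _ _ C.op_zero hf
  have unx : ∀ {Δ : Type} {f g : List Δ → (ℕ → ℕ) → ℕ}, UF f → UF g →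
      UF (fun x e => C.nx (f x e) (g x e)) :=
    fun {Δ} {f g} hf hg => (UF.table₂ C.nx C.M0 C.M0 hf hg).congr fun x e => by
      split_ifs with h
      · rfl
      · exact (C.nx_zero _ _ h).symm
  have uR : ∀ {Δ : Type} {f g : List Δ → (ℕ → ℕ) → ℕ}, UF f → UF g →
      UF (fun x e => C.R (f x e) (g x e)) := by
    intro Δ f g hf hg
    unfold CM.R
    exact UF.ite (UP.eq hf (UF.const 0)) ((UF.const 1).add (ustk hg))
      (UF.ite (UP.eq ((hf.sub (UF.const 1)).mod (UF.const _)) (ustk hg))
        (UF.ite (UP.eq (uop hg) (UF.const 0)) hf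
          (UF.ite (UP.eq (uop hg) (UF.const 1)) (hf.add (UF.const _))
            (UF.ite (UP.lt (hf.sub (UF.const 1)) (UF.const _)) hf (hf.sub (UF.const _))))) hf)
  have uV : ∀ {Δ : Type} {f g h : List Δ → (ℕ → ℕ) → ℕ}, UF f → UF g → UF h →
      UF (fun x e => C.V (f x e) (g x e) (h x e)) := by
    intro Δ f g h hf hg hh
    unfold CM.V
    exact UF.ite (UP.eq hf (UF.const 0)) (unx hg hh)
      (UF.ite ((UP.eq ((hf.sub (UF.const 1)).mod (UF.const _)) (ustk hg)).and
        ((UP.le (UF.const 2) (uop hg)).and (UP.lt (hf.sub (UF.const 1)) (UF.const _))))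
        ((uop hg).sub (UF.const 2)) hh)
  -- time and space
  set T : List Γ → ℕ := fun x => P.eval (N x) with hT
  have uT : UF (fun x _ => T x) := UF.poly P hN
  set W : List Γ → ℕ := fun x => C.κ * (T x + 3) with hW
  have uW : UF (fun x _ => W x) := (UF.const _).mul (uT.add (UF.const 3))
  have hTW : ∀ x, T x ≤ W x := fun x => by
    have : 1 * (T x + 3) ≤ C.κ * (T x + 3) := Nat.mul_le_mul_right _ hκ
    simp only [hW]
    omega
  -- the initial word
  set iv : List Γ → ℕ → ℕ := fun x p => if p = 0 then ini else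
    if (p - 1) % C.κ = ks then
      (if (p - 1) / C.κ < N x then code (lt x ((p - 1) / C.κ)) else 0) else 0 with hiv
  have uiv : UF (fun x e => iv x (e 0)) := by
    have hi : UF (fun (x : List Γ) e => (e 0 - 1) / C.κ) :=
      ((UF.var 0).sub (UF.const 1)).div (UF.const _)
    refine UF.ite (UP.eq (UF.var 0) (UF.const 0)) (UF.const _)
      (UF.ite (UP.eq (((UF.var 0).sub (UF.const 1)).mod (UF.const _)) (UF.const _))
        (UF.ite (UP.lt hi hN) ?_ (UF.const 0)) (UF.const 0))
    have h1 : UF (fun (x : List Γ) (e : ℕ → ℕ) => ∑ a ∈ (Finset.univ : Finset A),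
        (code a * (if lt x ((e 0 - 1) / C.κ) = a then 1 else 0))) := by
      refine UF.fsum (F := fun a x e => code a * (if lt x ((e 0 - 1) / C.κ) = a then 1 else 0)) _
        (fun a _ => (UF.const (code a)).mul (UF.congr (hl' a hi) fun x e => ?_))
      congr
    refine h1.congr fun x e => ?_
    rw [Finset.sum_eq_single (lt x ((e 0 - 1) / C.κ))]
    · simp
    · intro b _ hb
      rw [if_neg (fun h' => hb h'.symm)]
      simp
    · intro h; exact absurd (Finset.mem_univ _) h
  have iv_lt : ∀ x p, iv x p < C.M0 := fun x p => by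
    simp only [hiv]
    split_ifs
    · exact hini
    · exact hcode _
    · exact hM
    · exact hM
  have iv_eq : ∀ c, iv (ec c) = initc ini ks C.κ code (ea (h c)) := by
    intro c
    funext p
    simp only [hiv, initc, hh c]
    by_cases h0 : p = 0
    · simp [h0]
    · rw [if_neg h0, if_neg h0]
      by_cases h1 : (p - 1) % C.κ = ks
      · rw [if_pos h1, if_pos h1]
        by_cases h2 : (p - 1) / C.κ < N (ec c)
        · rw [if_pos h2]
          simp [List.getElem?_range h2]
        · rw [if_neg h2, List.getElem?_eq_none (by simpa using h2)]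
      · rw [if_neg h1, if_neg h1]
  let G₀ : List Γ → ℕ → Fin C.M0 × Bool := fun x p => (⟨iv x p, iv_lt x p⟩, decide (p < T x))
  have uG₀ : ∀ a, UP (fun x e => G₀ x (e 0) = a) := by
    rintro ⟨v, b⟩
    refine ((UP.eq uiv (UF.const (v : ℕ))).and
      ((UP.lt (UF.var 0) uT).iff (UP.const (b = true)))).congr fun x e => ?_
    simp only [G₀, Prod.mk.injEq, Fin.ext_iff]
    refine and_congr_right fun _ => ?_
    cases b <;> simp
  have uM₀ : UF (fun x (_ : ℕ → ℕ) => if V x then W x else 0) :=
    UF.ite (inst := fun x _ => Classical.propDecidable (V x)) hV uW (UF.const 0)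
  have uG₁ : ∀ a, UP (fun y e => nxtL C hM y (e 0) = a) := by
    rintro ⟨v, b⟩
    have h0 : UF (fun (y : List (Fin C.M0 × Bool)) (_ : ℕ → ℕ) => val C y 0) := uval C (UF.const 0)
    have h1 : UF (fun (y : List (Fin C.M0 × Bool)) e => C.V (e 0) (val C y 0)
        (val C y (C.R (e 0) (val C y 0)))) :=
      uV (UF.var 0) h0 (uval C (uR (UF.var 0) h0))
    have h2 : UP (fun (y : List (Fin C.M0 × Bool)) e => ∃ v, y[e 0 + 1]? = some (v, true)) :=
      UP.fex (fun v => UP.sym (v, true) ((UF.var 0).add (UF.const 1)))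
    refine ((UP.eq h1 (UF.const (v : ℕ))).and (h2.iff (UP.const (b = true)))).congr
      fun x e => ?_
    simp only [nxtL, Prod.mk.injEq, Fin.ext_iff]
    refine and_congr_right fun _ => ?_
    cases b <;> simp
  have uQ : UP (fun (y : List (Fin C.M0 × Bool)) _ => ∃ v, y[0]? = some (v, true)) :=
    UP.fex (fun v => UP.sym (v, true) (UF.const 0))
  have uacc : UP (fun (y : List (Fin C.M0 × Bool)) (_ : ℕ → ℕ) => val C y (1 + ko) ∈ acc) := by
    refine UP.of_ne_zero (UF.table (fun a => if a ∈ acc then 1 else 0) C.M0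
      (uval C (UF.const (1 + ko)))) fun x e => ?_
    rw [if_pos (val_lt C hM _ _)]
    by_cases h2 : val C x (1 + ko) ∈ acc <;> simp [h2]
  have uRR : UP (fun (y : List (Fin C.M0 × Bool)) (_ : ℕ → ℕ) => 0 < y.length ∧
      (val C y (1 + ko) ∈ acc ↔ b = true)) :=
    (UP.lt (UF.const 0) UF.len).and (uacc.iff (UP.const _))
  -- bounds
  obtain ⟨tm, htm⟩ := uT
  obtain ⟨BT, hBT⟩ := exists_spec (A := Option Γ) some (Option.some_injective _) none tm
  have hTB : ∀ x, T x ≤ BT x.length := fun x => by
    have := hBT.val x.length x (fun _ => 0) le_rfl (fun _ => Nat.zero_le _)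
    rwa [htm] at this
  obtain ⟨wm, hwm⟩ := uW
  obtain ⟨BW, hBW⟩ := exists_spec (A := Option Γ) some (Option.some_injective _) none wm
  have hWB : ∀ x, W x ≤ BW x.length := fun x => by
    have := hBW.val x.length x (fun _ => 0) le_rfl (fun _ => Nat.zero_le _)
    rwa [hwm] at this
  refine polyTime_iterate ec (M₀ := fun x => if V x then W x else 0) (G₀ := G₀) uM₀ uG₀
    (M₁ := fun y => y.length) (G₁ := nxtL C hM) UF.len uG₁ uQ uRR f'
    (fun x => (List.range (if V x then W x else 0)).map (G₀ x)) (fun x => rfl)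
    (nxw C hM) (fun y => rfl) BT BW hBT.pb hBW.pb fun c => ?_
  set x := ec c with hx
  by_cases hVx : V x
  · simp only [hVx, if_true]
    set y := (List.range (W x)).map (G₀ x) with hy
    have hyl : y.length = W x := by simp [hy]
    have hget : ∀ p < W x, y[p]? = some (G₀ x p) := fun p hp => by
      simp [hy, List.getElem?_range hp]
    have key := iter_spec C hM (iv x) (W x) (T x) (hTW x) y hyl
      (fun p hp => by unfold val; rw [hget p hp])
      (fun p hp => by
        rw [hget p hp]
        simp only [G₀, Option.some.injEq, Prod.mk.injEq, decide_eq_true_eq]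
        constructor
        · rintro ⟨_, _, h⟩; exact h
        · intro h; exact ⟨_, rfl, h⟩)
    have hWpos : 0 < W x := by
      simp only [hW]
      positivity
    refine ⟨T x, hTB x, fun i hi => ?_, ?_, fun i _ => ?_, ?_⟩
    · exact ((key i).2.2 0 hWpos).2 (by omega)
    · intro hcon
      have := ((key (T x)).2.2 0 hWpos).1 hcon
      omega
    · rw [(key i).1]; exact hWB x
    · rw [hf' c, (key (T x)).1]
      have e1 : 1 + ko + C.κ * T x < W x := by
        simp only [hW]
        have : C.κ * (T x + 3) = C.κ * T x + C.κ * 3 := by ring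
        omega
      have hlenN : (ea (h c)).length = N x := by
        rw [hh c, List.length_map, List.length_range]
      have e2 := hacc (h c) (T x) (by rw [hlenN])
      rw [(key (T x)).2.1 _ e1, iv_eq c, ← e2]
      simp only [hWpos, true_and, ← hx, hVx]
      cases b <;> simp
  · simp only [hVx, if_false, List.range_zero, List.map_nil]
    refine ⟨0, Nat.zero_le _, fun i hi => absurd hi (by omega), ?_, fun i hi => ?_, ?_⟩
    · simp
    · obtain rfl : i = 0 := by omega
      simp
    · rw [hf' c]
      simp [← hx, hVx]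

end Pool.Agent.Book19
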