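import Pool.Agent.Book19.Rel
import Pool.Agent.Book19.Letter
import Pool.Agent.Book19.ComapGen

/-!
# The class NP is closed under reductions whose letters are given by terms
-/

set_option autoImplicit false

namespace Pool.Agent.Book19

open Turing Computability Filter Topology Pool.Agent.PT Pool.Agent.B7219d Relation

/-- Letters of the first component. -/
private theorem comapNP_inl {A : Type} (x : List A) (w : List Bool) (a : A) (k : ℕ) :
    (x.map Sum.inl ++ w.map Sum.inr : List (A ⊕ Bool))[k]? = some (Sum.inl a) ↔
      x[k]? = some a := by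
  by_cases hk : k < x.length
  · rw [List.getElem?_append_left (by simpa using hk), List.getElem?_map]
    cases x[k]? <;> simp
  · rw [List.getElem?_append_right (by simpa using hk), List.getElem?_map,
      List.getElem?_eq_none (by omega : x.length ≤ k)]
    cases w[k - (x.map (Sum.inl : A → A ⊕ Bool)).length]? <;> simp

/-- Letters of the second component. -/
private theorem comapNP_inr {A : Type} (x : List A) (w : List Bool) (b : Bool) (k : ℕ) :
    (x.map Sum.inl ++ w.map Sum.inr : List (A ⊕ Bool))[x.length + k]? = some (Sum.inr b) ↔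
      w[k]? = some b := by
  rw [List.getElem?_append_right (by simp), List.getElem?_map, List.length_map,
    Nat.add_sub_cancel_left]
  cases w[k]? <;> simp

private theorem comapNP_countL {A : Type} (x : List A) (w : List Bool) :
    (x.map Sum.inl ++ w.map Sum.inr : List (A ⊕ Bool)).countP (fun a => a.isLeft) =
      x.length := by
  rw [List.countP_append]
  have h1 : (x.map (Sum.inl : A → A ⊕ Bool)).countP (fun a => a.isLeft) = x.length := by
    have h : (x.map (Sum.inl : A → A ⊕ Bool)).countP (fun a => a.isLeft) =
        (x.map (Sum.inl : A → A ⊕ Bool)).length := by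
      rw [List.countP_eq_length]
      intro a ha
      obtain ⟨b, _, rfl⟩ := List.mem_map.1 ha
      rfl
    rw [h, List.length_map]
  have h2 : (w.map (Sum.inr : Bool → A ⊕ Bool)).countP (fun a => a.isLeft) = 0 := by
    rw [List.countP_eq_zero]
    intro a ha
    obtain ⟨b, _, rfl⟩ := List.mem_map.1 ha
    simp
  rw [h1, h2, Nat.add_zero]

/-- Terms on the first component of a pair of words. -/
private theorem comapNP_trans {A : Type} [Fintype A] : ∀ t : Tm A, ∃ t' : Tm (A ⊕ Bool),
    ∀ (x : List A) (w : List Bool) (e : ℕ → ℕ),
      t'.eval (x.map Sum.inl ++ w.map Sum.inr) e = t.eval x e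
  | .var i => ⟨.var i, fun _ _ _ => rfl⟩
  | .const c => ⟨.const c, fun _ _ _ => rfl⟩
  | .len => by
    obtain ⟨t, ht⟩ := UF.countP (Γ := A ⊕ Bool) (fun a => a.isLeft)
    exact ⟨t, fun x w e => (ht _ e).trans (comapNP_countL x w)⟩
  | .sym a t => by
    obtain ⟨t', ht'⟩ := comapNP_trans t
    refine ⟨.sym (Sum.inl a) t', fun x w e => ?_⟩
    have h1 := comapNP_inl x w a (t.eval x e)
    have h2 := ht' x w e
    simp only [Tm.eval]
    by_cases h : x[t.eval x e]? = some a
    · rw [if_pos h, if_pos]
      rw [h2]
      exact h1.2 h
    · rw [if_neg h, if_neg]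
      rw [h2]
      exact fun h' => h (h1.1 h')
  | .add s t => by
    obtain ⟨s', hs'⟩ := comapNP_trans s
    obtain ⟨t', ht'⟩ := comapNP_trans t
    exact ⟨.add s' t', fun x w e => by simp only [Tm.eval, hs', ht']⟩
  | .sub s t => by
    obtain ⟨s', hs'⟩ := comapNP_trans s
    obtain ⟨t', ht'⟩ := comapNP_trans t
    exact ⟨.sub s' t', fun x w e => by simp only [Tm.eval, hs', ht']⟩
  | .sum s t => by
    obtain ⟨s', hs'⟩ := comapNP_trans s
    obtain ⟨t', ht'⟩ := comapNP_trans t
    exact ⟨.sum s' t', fun x w e => by simp only [Tm.eval, hs', ht']⟩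
  | .lett s t => by
    obtain ⟨s', hs'⟩ := comapNP_trans s
    obtain ⟨t', ht'⟩ := comapNP_trans t
    exact ⟨.lett s' t', fun x w e => by simp only [Tm.eval, hs', ht']⟩
  | .ren σ t => by
    obtain ⟨t', ht'⟩ := comapNP_trans t
    exact ⟨.ren σ t', fun x w e => by simp only [Tm.eval, ht']⟩

theorem InNPc.comap {A B : Type} [Fintype A] [Fintype B] {L : Set (List A)} (hL : InNPc A L)
    (g : List B → List A) (N : List B → ℕ) (lt : List B → ℕ → A)
    (hN : UF (fun u _ => N u)) (hl : ∀ a, UP (fun u e => lt u (e 0) = a))
    (hg : ∀ u, g u = (List.range (N u)).map (lt u)) : InNPc B {u | g u ∈ L} := by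
  classical
  obtain ⟨p, R, hR, hLR⟩ := hL
  -- the length and the letters of `g u`, from the encoded pair
  obtain ⟨tn, htn⟩ := hN
  obtain ⟨tn', htn'⟩ := comapNP_trans tn
  obtain ⟨t, K, φ, hφ⟩ := exists_letter hl
  obtain ⟨t', ht'⟩ := comapNP_trans t
  -- the number of letters of the first component, and of `g u`
  set n : List (B ⊕ Bool) → ℕ := fun y => tn'.eval y (fun _ => 0) with hn
  set lx : List (B ⊕ Bool) → ℕ := fun y => y.countP (fun a => a.isLeft) with hlx
  have un : UF (fun y _ => n y) := UF.subst_tm tn' (fun _ _ _ => 0) (fun _ => UF.const 0)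
  have ulx : UF (fun y _ => lx y) := UF.countP _
  set ph : List (B ⊕ Bool) → ℕ → ℕ := fun y i => min (t'.eval y (cons i (fun _ => 0))) K with hph
  have uph : UF (fun y e => ph y (e 0)) := by
    refine UF.min ((UF.subst_tm t' (fun j x e => Nat.casesOn j (e 0) (fun _ => 0)) (fun j => ?_)).congr
      fun y e => ?_) (UF.const K)
    · cases j
      · exact UF.var 0
      · exact UF.const 0
    · congr 1
      funext j
      cases j <;> rfl
  have ph_le : ∀ y i, ph y i < K + 1 := fun y i => by
    have := min_le_right (t'.eval y (cons i (fun _ => 0))) K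
    simp only [hph]
    omega
  set lt' : List (B ⊕ Bool) → ℕ → A ⊕ Bool := fun y i =>
    if i < n y then Sum.inl (φ (ph y i))
    else Sum.inr (decide (y[lx y + (i - n y)]? = some (Sum.inr true))) with hlt'
  have ul' : ∀ a, UP (fun y e => lt' y (e 0) = a) := by
    intro a
    cases a with
    | inl a =>
      have h1 : UP (fun (y : List (B ⊕ Bool)) e => φ (ph y (e 0)) = a) := by
        refine UP.of_ne_zero (UF.table (fun v => if φ v = a then 1 else 0) (K + 1) uph)
          fun y e => ?_
        rw [if_pos (ph_le _ _)]
        by_cases h : φ (ph y (e 0)) = a <;> simp [h]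
      refine ((UP.lt (UF.var 0) un).and h1).congr fun y e => ?_
      simp only [hlt']
      by_cases h : e 0 < n y <;> simp [h]
    | inr b =>
      have h1 : UP (fun (y : List (B ⊕ Bool)) e =>
          y[lx y + (e 0 - n y)]? = some (Sum.inr true)) :=
        UP.sym _ (ulx.add ((UF.var 0).sub un))
      refine ((UP.lt (UF.var 0) un).not.and (h1.iff (UP.const (b = true)))).congr fun y e => ?_
      simp only [hlt']
      by_cases h : e 0 < n y
      · simp [h]
      · cases b <;> simp [h]
  have uN' : UF (fun y _ => n y + (y.length - lx y)) := un.add (UF.len.sub ulx)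
  have uV : UP (fun y _ => y.length - lx y ≤ p.eval (n y)) :=
    UP.le (UF.len.sub ulx) (UF.poly p un)
  -- values on encoded pairs
  have en : ∀ (u : List B) (w : List Bool), n (u.map Sum.inl ++ w.map Sum.inr) = N u := by
    intro u w
    simp only [hn]
    rw [htn', htn]
  have elx : ∀ (u : List B) (w : List Bool), lx (u.map Sum.inl ++ w.map Sum.inr) = u.length :=
    fun u w => comapNP_countL u w
  have elen : ∀ (u : List B) (w : List Bool),
      (u.map Sum.inl ++ w.map Sum.inr : List (B ⊕ Bool)).length - u.length = w.length := by
    intro u w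
    simp
  have hh : ∀ c : List B × List Bool, (encodingProd (encodingList A) (encodingList Bool)).encode
      (g c.1, c.2) = (List.range (n ((encodingProd (encodingList B) (encodingList Bool)).encode c) +
        (((encodingProd (encodingList B) (encodingList Bool)).encode c).length -
          lx ((encodingProd (encodingList B) (encodingList Bool)).encode c)))).map
        (lt' ((encodingProd (encodingList B) (encodingList Bool)).encode c)) := by
    rintro ⟨u, w⟩
    change (g u).map Sum.inl ++ w.map Sum.inr =
      (List.range (n (u.map Sum.inl ++ w.map Sum.inr) + ((u.map Sum.inl ++ w.map Sum.inr :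
        List (B ⊕ Bool)).length - lx (u.map Sum.inl ++ w.map Sum.inr)))).map
        (lt' (u.map Sum.inl ++ w.map Sum.inr))
    rw [en, elx, elen]
    have hgl : (g u).length = N u := by rw [hg u]; simp
    refine List.ext_getElem? fun i => ?_
    by_cases hi : i < N u + w.length
    · rw [List.getElem?_map, List.getElem?_range hi]
      simp only [Option.map_some, hlt', en, elx]
      by_cases h1 : i < N u
      · rw [if_pos h1, List.getElem?_append_left (by simpa [hgl] using h1), List.getElem?_map, hg u,
          List.getElem?_map, List.getElem?_range h1]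
        simp only [Option.map_some, hph, ht', hφ]
      · rw [if_neg h1, List.getElem?_append_right (by simpa [hgl] using h1), List.getElem?_map,
          List.length_map, hgl]
        have h2 : i - N u < w.length := by omega
        have h3 := comapNP_inr u w true (i - N u)
        rw [List.getElem?_eq_getElem h2] at h3 ⊢
        simp only [Option.map_some, Option.some.injEq, Sum.inr.injEq] at h3 ⊢
        simp only [h3]
        cases w[i - N u] <;> simp
    · rw [List.getElem?_eq_none (by simp [hgl]; omega), List.getElem?_eq_none (by simp; omega)]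
  -- the polynomial bound
  obtain ⟨BN, hBN⟩ := exists_spec (A := Option B) some (Option.some_injective _) none tn
  have hNB : ∀ u, N u ≤ BN u.length := fun u => by
    have := hBN.val u.length u (fun _ => 0) le_rfl (fun _ => Nat.zero_le _)
    rwa [htn] at this
  have hmono := (PB.ofPoly p).1
  obtain ⟨q, hq⟩ := ((PB.ofPoly p).comp hBN.pb).toPoly
  refine ⟨q, fun c => decide (c.2.length ≤ p.eval (N c.1)) && R (g c.1, c.2), ?_, fun u => ?_⟩
  · refine polyTime_comap _ R hR _ (fun c : List B × List Bool => (g c.1, c.2)) uN' ul' hh uV true _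
      fun c => ?_
    obtain ⟨u, w⟩ := c
    have e1 : ((encodingProd (encodingList B) (encodingList Bool)).encode (u, w)).length -
        lx ((encodingProd (encodingList B) (encodingList Bool)).encode (u, w)) = w.length := by
      change (u.map Sum.inl ++ w.map Sum.inr : List (B ⊕ Bool)).length -
        lx (u.map Sum.inl ++ w.map Sum.inr) = w.length
      rw [elx, elen]
    have e2 : n ((encodingProd (encodingList B) (encodingList Bool)).encode (u, w)) = N u := en u w
    rw [e1, e2]
    simp
  · have hgl : (g u).length = N u := by rw [hg u]; simp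
    change g u ∈ L ↔ _
    rw [hLR, hgl]
    constructor
    · rintro ⟨w, hw, hRw⟩
      refine ⟨w, hw.trans ((hmono (hNB u)).trans (hq _)), ?_⟩
      simp [hw, hRw]
    · rintro ⟨w, -, hRw⟩
      simp only [Bool.and_eq_true, decide_eq_true_eq] at hRw
      exact ⟨w, hRw.1, hRw.2⟩

end Pool.Agent.Book19
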