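import Pool.Agent.Book19.DMach

/-!
# The simulation of `D` inside the iteration automaton, and the rewind
-/

set_option autoImplicit false

namespace Pool.Agent.Book19

open Relation

variable {S : Type} [Fintype S] {m : ℕ} (hm : 0 < m) (e : Fin m ≃ S)
  (D : DLBA ((S × S) × Option Bool)) (out : S → Option Bool)

/-- a computation of the nondeterministic version is a computation -/
private theorem dRun_go {A : Type} (E : DLBA A) {c d : Conf E.Q (A ⊕ E.W)}
    (h : ReflTransGen E.toLBA.Step c d) : ReflTransGen E.Go c d := by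
  refine ReflTransGen.mono ?_ _ _ h
  rintro ⟨q, l, r⟩ d ⟨γ, r', hr, x, ⟨h1, h2⟩, h3⟩
  simp only at hr h1 h2 h3
  subst hr
  refine ⟨h1, ?_⟩
  rw [h3, h2]
  rfl

/-- the static part of a cell -/
private def dRunStat {W : Type} (c : DCell S W m) : (S × Option Bool) × (Fin m × Fin m) :=
  ((c.a, c.o), (c.b, c.ck))

/-- one step of the simulation -/
private theorem dRun_step (q : D.Q) (L R' : List (DCell S D.W m)) (x : DCell S D.W m)
    (hq : D.out q = none) :
    ∃ (L₁ R₁ : List (DCell S D.W m)) (q₁ : D.Q), R₁ ≠ [] ∧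
      (L₁.reverse ++ R₁).map dRunStat = (L.reverse ++ x :: R').map dRunStat ∧
      D.step (q, (L.map DCell.wk, (x :: R').map DCell.wk)) =
        (q₁, (L₁.map DCell.wk, R₁.map DCell.wk)) ∧
      (itD hm e D out).step (DSt.run q, (L.map Sum.inr, (x :: R').map Sum.inr)) =
        (DSt.run q₁, (L₁.map Sum.inr, R₁.map Sum.inr)) := by
  set y := D.δ q x.wk L.isEmpty R'.isEmpty with hy
  set x' : DCell S D.W m := { x with wk := y.2.1 } with hx'
  refine ⟨(put x' y.2.2 (L, x :: R')).1, (put x' y.2.2 (L, x :: R')).2, y.1,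
    put_snd_ne_nil _ _ _ _ _, ?_, ?_, ?_⟩
  · have h := flat_put x' x y.2.2 L R'
    unfold flat at h
    rw [h]
    simp [dRunStat, hx']
  · have h := put_map DCell.wk x' y.2.2 (L, x :: R')
    unfold mapT at h
    rw [h]
    simp only [DLBA.step, List.map_cons, List.isEmpty_map]
    rw [← hy]
  · have h := put_map (Sum.inr : DCell S D.W m → (S × Option Bool) ⊕ DCell S D.W m) x' y.2.2
      (L, x :: R')
    unfold mapT at h
    rw [h]
    simp only [DLBA.step, List.map_cons, List.isEmpty_map, itDδ, hq]
    rw [← hy]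

theorem ready_run (z : List ((S × Option Bool) × (Fin m × Fin m))) (hz : z ≠ []) (b : Bool)
    (h : D.Gives (wordD e z) b) :
    ∃ cs : List (DCell S D.W m), cs.map (fun c => ((c.a, c.o), (c.b, c.ck))) = z ∧
      ReflTransGen (itD hm e D out).Go (ready hm e D out z)
        (if b = true then DSt.cp none true else DSt.sc true, ([], cs.map Sum.inr)) := by
  obtain ⟨t, ht, hs⟩ := h
  have key : ∀ s ≤ t, ∃ L R : List (DCell S D.W m), R ≠ [] ∧
      (L.reverse ++ R).map dRunStat = z ∧
      (D.step^[s] (D.init (wordD e z))).2 = (L.map DCell.wk, R.map DCell.wk) ∧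
      ReflTransGen (itD hm e D out).Go (ready hm e D out z)
        (DSt.run (D.step^[s] (D.init (wordD e z))).1, (L.map Sum.inr, R.map Sum.inr)) := by
    intro s
    induction s with
    | zero =>
      intro _
      refine ⟨[], z.map (freshD D.W e), by simpa using hz, ?_, ?_, ?_⟩
      · rw [List.reverse_nil, List.nil_append, List.map_map]
        conv_rhs => rw [← List.map_id z]
        exact List.map_congr_left (fun y _ => rfl)
      · simp [DLBA.init, wordD, freshD]
      · have : ready hm e D out z = (DSt.run (D.step^[0] (D.init (wordD e z))).1,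
            (([] : List (DCell S D.W m)).map Sum.inr, (z.map (freshD D.W e)).map Sum.inr)) := by
          simp [ready, DLBA.init]
        rw [this]
    | succ s ih =>
      intro hst
      obtain ⟨L, R, hR, h1, h2, h3⟩ := ih (by omega)
      obtain ⟨x, R', rfl⟩ := List.exists_cons_of_ne_nil hR
      have hq := hs s (by omega)
      obtain ⟨L₁, R₁, q₁, h4, h5, h6, h7⟩ := dRun_step hm e D out
        (D.step^[s] (D.init (wordD e z))).1 L R' x hq
      have h8 : D.step^[s + 1] (D.init (wordD e z)) =
          (q₁, (L₁.map DCell.wk, R₁.map DCell.wk)) := by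
        rw [Function.iterate_succ_apply', ← h6, ← h2]
      refine ⟨L₁, R₁, h4, h5.trans h1, by rw [h8], ?_⟩
      rw [h8]
      refine h3.tail ⟨rfl, h7.symm⟩
  obtain ⟨L, R, hR, h1, -, h3⟩ := key t le_rfl
  obtain ⟨x, R', rfl⟩ := List.exists_cons_of_ne_nil hR
  refine ⟨L.reverse ++ x :: R', h1, ?_⟩
  have hrev : (L.reverse ++ x :: R').map (Sum.inr : DCell S D.W m → (S × Option Bool) ⊕ _) =
      (L.map Sum.inr).reverse ++ Sum.inr x :: R'.map Sum.inr := by simp
  rw [hrev]
  cases b with
  | true =>
    have h4 : (itD hm e D out).Go (DSt.run (D.step^[t] (D.init (wordD e z))).1,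
        (L.map Sum.inr, (x :: R').map Sum.inr))
        (DSt.rwC, (L.map Sum.inr, Sum.inr x :: R'.map Sum.inr)) := by
      refine ⟨rfl, ?_⟩
      simp only [DLBA.step, List.map_cons, itDδ, ht, put, List.tail_cons]
    refine (h3.tail h4).trans (dRun_go _ ?_)
    exact rewind (itD hm e D out).toLBA DSt.rwC (DSt.cp none true) (fun _ => True)
      (fun x re _ => ⟨rfl, rfl⟩) (fun x re _ => ⟨rfl, rfl⟩) _ _ _ (fun _ _ => trivial) trivial
  | false =>
    have h4 : (itD hm e D out).Go (DSt.run (D.step^[t] (D.init (wordD e z))).1,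
        (L.map Sum.inr, (x :: R').map Sum.inr))
        (DSt.rwS, (L.map Sum.inr, Sum.inr x :: R'.map Sum.inr)) := by
      refine ⟨rfl, ?_⟩
      simp only [DLBA.step, List.map_cons, itDδ, ht, put, List.tail_cons]
    refine (h3.tail h4).trans (dRun_go _ ?_)
    exact rewind (itD hm e D out).toLBA DSt.rwS (DSt.sc true) (fun _ => True)
      (fun x re _ => ⟨rfl, rfl⟩) (fun x re _ => ⟨rfl, rfl⟩) _ _ _ (fun _ _ => trivial) trivial

end Pool.Agent.Book19
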