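import Pool.Agent.Book19.DMach

set_option autoImplicit false

namespace Pool.Agent.Book19

/-- the successor of a word of digits, with the carry -/
def incWord {m : ℕ} (hm : 0 < m) (x : List (Fin m)) : Bool × List (Fin m) :=
  mealy (fun ca d => ((inc hm d ca).2, (inc hm d ca).1)) true x

end Pool.Agent.Book19
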