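import Pool.Agent.Book19.DGo
import Pool.Agent.Book19.DRun
import Pool.Agent.Book19.IncWord

/-!
# The sweeps of the iteration automaton
-/

set_option autoImplicit false

namespace Pool.Agent.Book19

open Relation

variable {S : Type} [Fintype S] {m : ℕ} (hm : 0 < m) (e : Fin m ≃ S)
  (D : DLBA ((S × S) × Option Bool)) (out : S → Option Bool)

/-- the transducer of the copy sweep -/
private def dsw_cg (σ : Option Bool × Bool) (x : (S × Option Bool) ⊕ DCell S D.W m) :
    (Option Bool × Bool) × ((S × Option Bool) ⊕ DCell S D.W m) :=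
  ((σ.1.orElse (fun _ => out (dnew hm e x).1), (inc hm (dnew hm e x).2.2 σ.2).2),
    Sum.inr (freshD D.W e (((dnew hm e x).1, (dnew hm e x).2.1),
      (⟨0, hm⟩, (inc hm (dnew hm e x).2.2 σ.2).1))))

/-- the state entered at the end of the copy sweep -/
private def dsw_cf (σ : Option Bool × Bool) : DSt D.Q :=
  match σ.1 with
  | some b => DSt.fin b
  | none => if σ.2 then DSt.fin false else DSt.rwR

/-- the transducer of the successor sweep -/
private def dsw_sg (ca : Bool) (x : (S × Option Bool) ⊕ DCell S D.W m) :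
    Bool × ((S × Option Bool) ⊕ DCell S D.W m) :=
  match x with
  | Sum.inl x => (ca, Sum.inl x)
  | Sum.inr c => ((inc hm c.b ca).2,
      Sum.inr (freshD D.W e ((c.a, c.o), ((inc hm c.b ca).1, c.ck))))

omit [Fintype S] in
private theorem dsw_mealy_c : ∀ (r : List ((S × Option Bool) ⊕ DCell S D.W m))
    (fl : Option Bool) (ca : Bool),
    mealy (dsw_cg hm e D out) (fl, ca) r =
      ((fl.orElse (fun _ => (r.map (fun x => (dnew hm e x).1)).findSome? out),
        (mealy (fun ca d => ((inc hm d ca).2, (inc hm d ca).1)) ca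
          (r.map (fun x => (dnew hm e x).2.2))).1),
      ((r.map (fun x => ((dnew hm e x).1, (dnew hm e x).2.1))).zip
        ((mealy (fun ca d => ((inc hm d ca).2, (inc hm d ca).1)) ca
          (r.map (fun x => (dnew hm e x).2.2))).2.map (fun d => ((⟨0, hm⟩ : Fin m), d)))).map
        (fun y => Sum.inr (freshD D.W e y)))
  | [], fl, ca => by
    cases fl <;> simp
  | x :: r, fl, ca => by
    rw [mealy_cons, dsw_cg, dsw_mealy_c r]
    simp only [List.map_cons, mealy_cons, List.zip_cons_cons, List.findSome?_cons, Prod.mk.injEq,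
      and_true]
    cases fl with
    | some b => simp
    | none =>
      cases h : out (dnew hm e x).1 <;> simp

omit [Fintype S] in
private theorem dsw_mealy_s : ∀ (cs : List (DCell S D.W m)) (ca : Bool),
    mealy (dsw_sg hm e D) ca (cs.map Sum.inr) =
      ((mealy (fun ca d => ((inc hm d ca).2, (inc hm d ca).1)) ca (cs.map (fun c => c.b))).1,
      ((cs.map (fun c => (c.a, c.o))).zip
        ((mealy (fun ca d => ((inc hm d ca).2, (inc hm d ca).1)) ca (cs.map (fun c => c.b))).2.zip
          (cs.map (fun c => c.ck)))).map (fun y => Sum.inr (freshD D.W e y)))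
  | [], ca => by simp
  | c :: cs, ca => by
    rw [List.map_cons, mealy_cons]
    simp only [dsw_sg]
    rw [dsw_mealy_s cs]
    simp

private theorem dsw_rewind (z : List ((S × Option Bool) × (Fin m × Fin m)))
    (l : List ((S × Option Bool) ⊕ DCell S D.W m)) (y : (S × Option Bool) ⊕ DCell S D.W m)
    (h : l.reverse ++ [y] = z.map (fun y => Sum.inr (freshD D.W e y))) :
    ReflTransGen (itD hm e D out).toLBA.Step (DSt.rwR, (l, [y])) (ready hm e D out z) := by
  have h1 := rewind (itD hm e D out).toLBA DSt.rwR (DSt.run D.start) (fun _ => True)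
    (fun x re _ => ⟨rfl, rfl⟩) (fun x re _ => ⟨rfl, rfl⟩) l y [] (fun _ _ => trivial) trivial
  rw [h] at h1
  exact h1

private theorem dsw_copy (r : List ((S × Option Bool) ⊕ DCell S D.W m)) (hr : r ≠ [])
    (fl : Option Bool) (ca : Bool) :
    ∃ (l' : List ((S × Option Bool) ⊕ DCell S D.W m)) (y : (S × Option Bool) ⊕ DCell S D.W m),
      l'.reverse ++ [y] = (mealy (dsw_cg hm e D out) (fl, ca) r).2 ∧
      ReflTransGen (itD hm e D out).toLBA.Step (DSt.cp fl ca, ([], r))
        (dsw_cf D (mealy (dsw_cg hm e D out) (fl, ca) r).1, (l', [y])) := by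
  have h := sweep (itD hm e D out).toLBA (V := Option Bool × Bool)
    (fun σ => DSt.cp σ.1 σ.2) (dsw_cf D) (dsw_cg hm e D out) (fun _ => True)
    (fun σ x le _ => ⟨rfl, rfl⟩) (fun σ x le _ => by
      refine ⟨rfl, ?_⟩
      change (_, _, _) = itDδ hm e D out (DSt.cp σ.1 σ.2) x le true
      unfold itDδ dsw_cf dsw_cg
      dsimp only
      cases h1 : σ.1.orElse (fun _ => out (dnew hm e x).1) with
      | some b => simp [freshD]
      | none =>
        cases h2 : (inc hm (dnew hm e x).2.2 σ.2).2 <;> simp [freshD])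
    r [] (fl, ca) hr (fun _ _ => trivial)
  simpa using h

private theorem dsw_succ (cs : List (DCell S D.W m)) (hr : cs ≠ []) (ca : Bool) :
    ∃ (l' : List ((S × Option Bool) ⊕ DCell S D.W m)) (y : (S × Option Bool) ⊕ DCell S D.W m),
      l'.reverse ++ [y] = (mealy (dsw_sg hm e D) ca (cs.map Sum.inr)).2 ∧
      ReflTransGen (itD hm e D out).toLBA.Step (DSt.sc ca, ([], cs.map Sum.inr))
        (if (mealy (dsw_sg hm e D) ca (cs.map Sum.inr)).1 then DSt.fin false else DSt.rwR,
          (l', [y])) := by
  have h := sweep (itD hm e D out).toLBA (V := Bool)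
    (fun σ => DSt.sc σ) (fun σ => if σ then DSt.fin false else DSt.rwR) (dsw_sg hm e D)
    (fun x => ∃ c, x = Sum.inr c)
    (fun σ x le hx => by
      obtain ⟨c, rfl⟩ := hx
      exact ⟨rfl, rfl⟩) (fun σ x le hx => by
      obtain ⟨c, rfl⟩ := hx
      refine ⟨rfl, ?_⟩
      change (_, _, _) = itDδ hm e D out (DSt.sc σ) (Sum.inr c) le true
      unfold itDδ dsw_sg
      dsimp only
      by_cases h2 : (inc hm c.b σ).2 = true
      · simp only [h2, if_true]; rfl
      · simp only [h2, if_true]; rfl)
    (cs.map Sum.inr) [] ca (by simpa using hr) (fun x hx => by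
      obtain ⟨c, _, rfl⟩ := List.mem_map.1 hx
      exact ⟨c, rfl⟩)
  simpa using h

theorem next_copy (z : List ((S × Option Bool) × (Fin m × Fin m))) (hz : z ≠ [])
    (h : D.Gives (wordD e z) true) :
    (∀ b, (z.map (fun y => e y.2.1)).findSome? out = some b →
      ∃ T, ReflTransGen (itD hm e D out).Go (ready hm e D out z) (DSt.fin b, T)) ∧
    ((z.map (fun y => e y.2.1)).findSome? out = none →
      (incWord hm (z.map (fun y => y.2.2))).1 = true →
      ∃ T, ReflTransGen (itD hm e D out).Go (ready hm e D out z) (DSt.fin false, T)) ∧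
    ((z.map (fun y => e y.2.1)).findSome? out = none →
      (incWord hm (z.map (fun y => y.2.2))).1 = false →
      ReflTransGen (itD hm e D out).Go (ready hm e D out z) (ready hm e D out
        ((z.map (fun y => (e y.2.1, y.1.2))).zip
          ((incWord hm (z.map (fun y => y.2.2))).2.map (fun d => (⟨0, hm⟩, d)))))) := by
  obtain ⟨cs, hcs, h1⟩ := ready_run hm e D out z hz true h
  rw [if_pos rfl] at h1
  have hcs0 : cs ≠ [] := by
    rintro rfl
    exact hz hcs.symm
  obtain ⟨l', y, h2, h3⟩ := dsw_copy hm e D out (cs.map Sum.inr) (by simpa using hcs0) none true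
  have h4 := h1.trans (DLBA.go_of_step _ h3)
  have ea : (cs.map Sum.inr).map (fun x => (dnew hm e x).1) = z.map (fun y => e y.2.1) := by
    rw [← hcs]; simp [dnew]
  have eb : (cs.map Sum.inr).map (fun x => (dnew hm e x).2.2) = z.map (fun y => y.2.2) := by
    rw [← hcs]; simp [dnew]
  have ec : (cs.map Sum.inr).map (fun x => ((dnew hm e x).1, (dnew hm e x).2.1)) =
      z.map (fun y => (e y.2.1, y.1.2)) := by
    rw [← hcs]; simp [dnew]
  rw [dsw_mealy_c, ea, eb, ec] at h2 h4
  change ReflTransGen _ _ (dsw_cf D (_, (incWord hm (z.map (fun y => y.2.2))).1), _) at h4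
  change _ = List.map _ (List.zip _ ((incWord hm (z.map (fun y => y.2.2))).2.map _)) at h2
  refine ⟨fun b hb => ⟨(l', [y]), ?_⟩, fun hn hc => ⟨(l', [y]), ?_⟩, fun hn hc => ?_⟩
  · simpa [dsw_cf, hb] using h4
  · simpa [dsw_cf, hn, hc] using h4
  · rw [hn, hc] at h4
    refine h4.trans (DLBA.go_of_step _ ?_)
    exact dsw_rewind hm e D out _ l' y h2

theorem next_succ (z : List ((S × Option Bool) × (Fin m × Fin m))) (hz : z ≠ [])
    (h : D.Gives (wordD e z) false) :
    ((incWord hm (z.map (fun y => y.2.1))).1 = true →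
      ∃ T, ReflTransGen (itD hm e D out).Go (ready hm e D out z) (DSt.fin false, T)) ∧
    ((incWord hm (z.map (fun y => y.2.1))).1 = false →
      ReflTransGen (itD hm e D out).Go (ready hm e D out z) (ready hm e D out
        ((z.map (fun y => y.1)).zip
          ((incWord hm (z.map (fun y => y.2.1))).2.zip (z.map (fun y => y.2.2)))))) := by
  obtain ⟨cs, hcs, h1⟩ := ready_run hm e D out z hz false h
  rw [if_neg (by decide)] at h1
  have hcs0 : cs ≠ [] := by
    rintro rfl
    exact hz hcs.symm
  obtain ⟨l', y, h2, h3⟩ := dsw_succ hm e D out cs hcs0 true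
  have h4 := h1.trans (DLBA.go_of_step _ h3)
  have ea : cs.map (fun c => (c.a, c.o)) = z.map (fun y => y.1) := by
    rw [← hcs]; simp
  have eb : cs.map (fun c => c.b) = z.map (fun y => y.2.1) := by
    rw [← hcs]; simp
  have ec : cs.map (fun c => c.ck) = z.map (fun y => y.2.2) := by
    rw [← hcs]; simp
  rw [dsw_mealy_s, ea, eb, ec] at h2 h4
  change ReflTransGen _ _ (if (incWord hm (z.map (fun y => y.2.1))).1 = true then _ else _, _) at h4
  change _ = List.map _ (List.zip _ (List.zip (incWord hm (z.map (fun y => y.2.1))).2 _)) at h2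
  refine ⟨fun hc => ⟨(l', [y]), ?_⟩, fun hc => ?_⟩
  · rwa [if_pos hc] at h4
  · rw [hc, if_neg (by decide)] at h4
    refine h4.trans (DLBA.go_of_step _ ?_)
    exact dsw_rewind hm e D out _ l' y h2

theorem start_sweep (v : List (S × Option Bool)) (hv : v ≠ []) :
    (∀ b, (v.map Prod.fst).findSome? out = some b →
      ∃ T, ReflTransGen (itD hm e D out).Go ((itD hm e D out).init v) (DSt.fin b, T)) ∧
    ((v.map Prod.fst).findSome? out = none →
      ReflTransGen (itD hm e D out).Go ((itD hm e D out).init v)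
        (ready hm e D out (v.map (fun y => (y, (⟨0, hm⟩, ⟨0, hm⟩)))))) := by
  obtain ⟨l', y, h2, h3⟩ := dsw_copy hm e D out (v.map Sum.inl) (by simpa using hv) none false
  have h4 := DLBA.go_of_step _ h3
  have ea : (v.map Sum.inl : List ((S × Option Bool) ⊕ DCell S D.W m)).map
      (fun x => (dnew hm e x).1) = v.map Prod.fst := by
    simp [dnew]
  have eb : (v.map Sum.inl : List ((S × Option Bool) ⊕ DCell S D.W m)).map
      (fun x => (dnew hm e x).2.2) = v.map (fun _ => (⟨0, hm⟩ : Fin m)) := by
    rw [List.map_map]; rfl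
  have ec : (v.map Sum.inl : List ((S × Option Bool) ⊕ DCell S D.W m)).map
      (fun x => ((dnew hm e x).1, (dnew hm e x).2.1)) = v := by
    rw [List.map_map]
    exact List.map_id v
  have ed : ∀ w : List (Fin m), mealy (fun ca d => ((inc hm d ca).2, (inc hm d ca).1)) false w =
      (false, w) := by
    intro w
    induction w with
    | nil => rfl
    | cons d w ih =>
      have e1 : inc hm d false = (d, false) := by simp [inc]
      rw [mealy_cons]
      simp only [e1, ih]
  have ef : v.zip ((v.map (fun _ => (⟨0, hm⟩ : Fin m))).map (fun d => ((⟨0, hm⟩ : Fin m), d))) =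
      v.map (fun y => (y, (⟨0, hm⟩, ⟨0, hm⟩))) := by
    clear hv h2 h3 h4 ea eb ec
    induction v with
    | nil => rfl
    | cons a v ih => rw [List.map_cons, List.map_cons, List.zip_cons_cons, ih, List.map_cons]
  rw [dsw_mealy_c, ea, eb, ec, ed] at h2 h4
  dsimp only at h2 h4
  rw [ef] at h2
  change ReflTransGen _ ((itD hm e D out).init v) _ at h4
  refine ⟨fun b hb => ⟨(l', [y]), ?_⟩, fun hn => ?_⟩
  · simpa [dsw_cf, hb] using h4
  · rw [hn] at h4
    refine h4.trans (DLBA.go_of_step _ ?_)
    exact dsw_rewind hm e D out _ l' y h2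

end Pool.Agent.Book19
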