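import Pool.Agent.Book19.DMach
import Pool.Agent.Book19.IncWord

/-!
# Counting with digit words
-/

set_option autoImplicit false

namespace Pool.Agent.Book19

open Relation

namespace DVal

variable {m : ℕ} (hm : 0 < m)

/-- successor with a general carry -/
def incW (ca : Bool) (x : List (Fin m)) : Bool × List (Fin m) :=
  mealy (fun ca d => ((inc hm d ca).2, (inc hm d ca).1)) ca x

theorem incW_nil (ca : Bool) : incW hm ca [] = (ca, []) := rfl

theorem incW_cons (ca : Bool) (d : Fin m) (x : List (Fin m)) :
    incW hm ca (d :: x) = ((incW hm (inc hm d ca).2 x).1,
      (inc hm d ca).1 :: (incW hm (inc hm d ca).2 x).2) := rfl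

theorem incW_false (x : List (Fin m)) : incW hm false x = (false, x) := by
  induction x with
  | nil => rfl
  | cons d x ih =>
    rw [incW_cons]
    simp only [inc, if_true, ih]

theorem incWord_eq (x : List (Fin m)) : incWord hm x = incW hm true x := rfl

/-- value with a general carry -/
theorem val_incW (ca : Bool) (x : List (Fin m)) :
    val (incW hm ca x).2 + (if (incW hm ca x).1 = true then m ^ x.length else 0) =
      val x + (if ca = true then 1 else 0) := by
  induction x generalizing ca with
  | nil => cases ca <;> simp [incW_nil, val]
  | cons d x ih =>
    rw [incW_cons]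
    cases ca with
    | false =>
      simp only [inc, if_true, incW_false]
      simp
    | true =>
      by_cases h : (d : ℕ) + 1 < m
      · have h1 : inc hm d true = (⟨d + 1, h⟩, false) := by simp [inc, h]
        rw [h1]
        simp only [incW_false, val, Bool.false_eq_true, if_false, if_true]
        omega
      · have h1 : inc hm d true = (⟨0, hm⟩, true) := by simp [inc, h]
        rw [h1]
        have h2 := ih true
        have h3 : (d : ℕ) + 1 = m := by have := d.isLt; omega
        simp only [val, if_true] at h2 ⊢
        rw [List.length_cons, pow_succ]
        have h4 : (if (incW hm true x).1 = true then m ^ x.length * m else 0) =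
            m * (if (incW hm true x).1 = true then m ^ x.length else 0) := by
          split_ifs <;> ring
        rw [h4, zero_add, ← mul_add, h2]
        rw [mul_add, mul_one]
        omega

end DVal

open DVal

theorem length_incWord {m : ℕ} (hm : 0 < m) (x : List (Fin m)) :
    (incWord hm x).2.length = x.length := by
  unfold incWord
  rw [length_mealy]

theorem val_incWord {m : ℕ} (hm : 0 < m) (x : List (Fin m)) (h : (incWord hm x).1 = false) :
    val (incWord hm x).2 = val x + 1 := by
  have h1 := val_incW hm true x
  rw [← incWord_eq, h] at h1
  simpa using h1

theorem val_lt {m : ℕ} (x : List (Fin m)) : val x < m ^ x.length := by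
  induction x with
  | nil => simp [val]
  | cons d x ih =>
    rw [val, List.length_cons, pow_succ]
    have hd := d.isLt
    calc (d : ℕ) + m * val x < m + m * val x := by omega
      _ = m * (val x + 1) := by ring
      _ ≤ m * m ^ x.length := Nat.mul_le_mul_left m ih
      _ = m ^ x.length * m := by ring

theorem val_of_carry {m : ℕ} (hm : 0 < m) (x : List (Fin m)) (h : (incWord hm x).1 = true) :
    val x + 1 = m ^ x.length := by
  have h1 := val_incW hm true x
  rw [← incWord_eq, h] at h1
  simp only [if_true] at h1
  have h2 := val_lt x
  omega

theorem val_inj {m : ℕ} {x y : List (Fin m)} (hl : x.length = y.length) (h : val x = val y) :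
    x = y := by
  induction x generalizing y with
  | nil =>
    cases y with
    | nil => rfl
    | cons b y => simp at hl
  | cons a x ih =>
    cases y with
    | nil => simp at hl
    | cons b y =>
      rw [val, val] at h
      have ha := a.isLt
      have hb := b.isLt
      have hm : 0 < m := by omega
      have h1 : ((a : ℕ) + m * val x) % m = ((b : ℕ) + m * val y) % m := by rw [h]
      rw [Nat.add_mul_mod_self_left, Nat.add_mul_mod_self_left, Nat.mod_eq_of_lt ha,
        Nat.mod_eq_of_lt hb] at h1
      have h2 : m * val x = m * val y := by omega
      have h3 := Nat.eq_of_mul_eq_mul_left hm h2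
      rw [Fin.ext h1, ih (by simpa using hl) h3]

theorem val_replicate {m : ℕ} (hm : 0 < m) (n : ℕ) :
    val (List.replicate n (⟨0, hm⟩ : Fin m)) = 0 := by
  induction n with
  | zero => rfl
  | succ n ih => rw [List.replicate_succ, val, ih]; simp

end Pool.Agent.Book19
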