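import Pool.Agent.Book19.DGo
import Pool.Agent.Book19.DSweep
import Pool.Agent.Book19.DVal

/-!
# The deterministic iteration theorem
-/

set_option autoImplicit false
set_option linter.unusedSectionVars false

namespace Pool.Agent.Book19

open Relation

namespace DIter

theorem gives_unique {A : Type} (D : DLBA A) {x : List A} {b b' : Bool} (h : D.Gives x b)
    (h' : D.Gives x b') : b = b' := by
  obtain ⟨t, h1, h2⟩ := h
  obtain ⟨t', h3, h4⟩ := h'
  rcases lt_trichotomy t t' with h5 | rfl | h5
  · rw [h4 t h5] at h1; exact absurd h1 (by simp)
  · rw [h1] at h3; exact Option.some.inj h3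
  · rw [h2 t' h5] at h3; exact absurd h3 (by simp)

theorem findSome_eq {S : Type} (out : S → Option Bool) (b : Bool) :
    ∀ l : List S, (∃ a ∈ l, out a = some b) → (∀ a ∈ l, out a = some b ∨ out a = none) →
      l.findSome? out = some b
  | [], h, _ => by obtain ⟨a, ha, _⟩ := h; simp at ha
  | a :: l, h, h' => by
    rw [List.findSome?_cons]
    rcases h' a (by simp) with h1 | h1
    · rw [h1]
    · rw [h1]
      refine findSome_eq out b l ?_ (fun x hx => h' x (List.mem_cons_of_mem _ hx))
      obtain ⟨x, hx, h2⟩ := h
      rcases List.mem_cons.1 hx with rfl | hx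
      · rw [h1] at h2; exact absurd h2 (by simp)
      · exact ⟨x, hx, h2⟩

variable {S : Type} [Fintype S] {m : ℕ} (hm : 0 < m) (e : Fin m ≃ S)
  (D : DLBA ((S × S) × Option Bool)) (out : S → Option Bool)

/-- the tried word -/
def tr (z : List ((S × Option Bool) × (Fin m × Fin m))) : List (Fin m) := z.map (fun y => y.2.1)

/-- the clock word -/
def ck (z : List ((S × Option Bool) × (Fin m × Fin m))) : List (Fin m) := z.map (fun y => y.2.2)

/-- the result of a copy sweep -/
def zc (z : List ((S × Option Bool) × (Fin m × Fin m))) :
    List ((S × Option Bool) × (Fin m × Fin m)) :=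
  (z.map (fun y => (e y.2.1, y.1.2))).zip
    ((incWord hm (z.map (fun y => y.2.2))).2.map (fun d => (⟨0, hm⟩, d)))

/-- the result of a successor sweep -/
def zs (z : List ((S × Option Bool) × (Fin m × Fin m))) :
    List ((S × Option Bool) × (Fin m × Fin m)) :=
  (z.map (fun y => y.1)).zip
    ((incWord hm (z.map (fun y => y.2.1))).2.zip (z.map (fun y => y.2.2)))

theorem zip_map_left {X Y Z : Type} (f : X → Z) : ∀ (l : List X) (l' : List Y),
    l.length = l'.length → (l.zip l').map (fun y => f y.1) = l.map f
  | [], [], _ => rfl
  | a :: l, b :: l', h => by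
    simp only [List.zip_cons_cons, List.map_cons]
    rw [zip_map_left f l l' (by simpa using h)]

theorem zip_map_right {X Y Z : Type} (f : Y → Z) : ∀ (l : List X) (l' : List Y),
    l.length = l'.length → (l.zip l').map (fun y => f y.2) = l'.map f
  | [], [], _ => rfl
  | a :: l, b :: l', h => by
    simp only [List.zip_cons_cons, List.map_cons]
    rw [zip_map_right f l l' (by simpa using h)]

theorem length_zc (z : List ((S × Option Bool) × (Fin m × Fin m))) :
    (zc hm e z).length = z.length := by
  simp [zc, length_incWord]

theorem length_zs (z : List ((S × Option Bool) × (Fin m × Fin m))) :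
    (zs hm z).length = z.length := by
  simp [zs, length_incWord]

theorem zc_tr (z : List ((S × Option Bool) × (Fin m × Fin m))) :
    tr (zc hm e z) = List.replicate z.length ⟨0, hm⟩ := by
  have h := zip_map_right (X := S × Option Bool) (fun y : Fin m × Fin m => y.1)
    (z.map (fun y => (e y.2.1, y.1.2)))
    ((incWord hm (z.map (fun y => y.2.2))).2.map (fun d => ((⟨0, hm⟩ : Fin m), d)))
    (by simp [length_incWord])
  unfold tr zc
  rw [h, List.map_map]
  refine (List.eq_replicate_iff).2 ⟨by simp [length_incWord], ?_⟩
  intro b hb
  rw [List.mem_map] at hb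
  obtain ⟨d, _, rfl⟩ := hb
  rfl

theorem zc_ck (z : List ((S × Option Bool) × (Fin m × Fin m))) :
    ck (zc hm e z) = (incWord hm (ck z)).2 := by
  have h := zip_map_right (X := S × Option Bool) (fun y : Fin m × Fin m => y.2)
    (z.map (fun y => (e y.2.1, y.1.2)))
    ((incWord hm (z.map (fun y => y.2.2))).2.map (fun d => ((⟨0, hm⟩ : Fin m), d)))
    (by simp [length_incWord])
  unfold ck zc
  rw [h, List.map_map]
  exact List.map_id _

theorem zc_fst (z : List ((S × Option Bool) × (Fin m × Fin m))) :
    (zc hm e z).map (fun y => y.1) = z.map (fun y => (e y.2.1, y.1.2)) := by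
  have h := zip_map_left (Y := Fin m × Fin m) (fun y : S × Option Bool => y)
    (z.map (fun y => (e y.2.1, y.1.2)))
    ((incWord hm (z.map (fun y => y.2.2))).2.map (fun d => ((⟨0, hm⟩ : Fin m), d)))
    (by simp [length_incWord])
  unfold zc
  rw [h]
  exact List.map_id _

theorem zs_fst (z : List ((S × Option Bool) × (Fin m × Fin m))) :
    (zs hm z).map (fun y => y.1) = z.map (fun y => y.1) := by
  have h := zip_map_left (Y := Fin m × Fin m) (fun y : S × Option Bool => y)
    (z.map (fun y => y.1))
    ((incWord hm (z.map (fun y => y.2.1))).2.zip (z.map (fun y => y.2.2)))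
    (by simp [length_incWord])
  unfold zs
  rw [h]
  exact List.map_id _

theorem zs_tr (z : List ((S × Option Bool) × (Fin m × Fin m))) :
    tr (zs hm z) = (incWord hm (tr z)).2 := by
  have h := zip_map_right (X := S × Option Bool) (fun y : Fin m × Fin m => y.1)
    (z.map (fun y => y.1))
    ((incWord hm (z.map (fun y => y.2.1))).2.zip (z.map (fun y => y.2.2)))
    (by simp [length_incWord])
  have h2 := zip_map_left (Y := Fin m) (fun y : Fin m => y)
    (incWord hm (z.map (fun y => y.2.1))).2 (z.map (fun y => y.2.2))
    (by simp [length_incWord])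
  unfold tr zs
  rw [h, h2]
  exact List.map_id _

theorem zs_ck (z : List ((S × Option Bool) × (Fin m × Fin m))) :
    ck (zs hm z) = ck z := by
  have h := zip_map_right (X := S × Option Bool) (fun y : Fin m × Fin m => y.2)
    (z.map (fun y => y.1))
    ((incWord hm (z.map (fun y => y.2.1))).2.zip (z.map (fun y => y.2.2)))
    (by simp [length_incWord])
  have h2 := zip_map_right (X := Fin m) (fun y : Fin m => y)
    (incWord hm (z.map (fun y => y.2.1))).2 (z.map (fun y => y.2.2))
    (by simp [length_incWord])
  unfold ck zs
  rw [h, h2]
  exact List.map_id _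

/-- The automaton always stops. -/
theorem halts (hD : ∀ x : List ((S × S) × Option Bool), x ≠ [] → ∃ b : Bool, D.Gives x b) :
    ∀ (k : ℕ) (z : List ((S × Option Bool) × (Fin m × Fin m))), z ≠ [] →
      m ^ z.length * m ^ z.length ≤ val (ck z) * m ^ z.length + val (tr z) + k →
      ∃ b T, ReflTransGen (itD hm e D out).Go (ready hm e D out z) (DSt.fin b, T) := by
  intro k
  induction k with
  | zero =>
    intro z _ hk
    exfalso
    have h1 := val_lt (ck z)
    have h2 := val_lt (tr z)
    have h3 : (ck z).length = z.length := by simp [ck]
    have h4 : (tr z).length = z.length := by simp [tr]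
    rw [h3] at h1
    rw [h4] at h2
    have h5 : (val (ck z) + 1) * m ^ z.length ≤ m ^ z.length * m ^ z.length :=
      Nat.mul_le_mul_right _ h1
    rw [add_mul, one_mul] at h5
    omega
  | succ k ih =>
    intro z hz hk
    have hw : wordD e z ≠ [] := by simpa [wordD] using hz
    obtain ⟨b, hb⟩ := hD (wordD e z) hw
    have h1 := val_lt (ck z)
    have h2 := val_lt (tr z)
    have h3 : (ck z).length = z.length := by simp [ck]
    have h4 : (tr z).length = z.length := by simp [tr]
    rw [h3] at h1
    rw [h4] at h2
    cases b with
    | true =>
      obtain ⟨hc1, hc2, hc3⟩ := next_copy hm e D out z hz hb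
      cases hf : (z.map (fun y => e y.2.1)).findSome? out with
      | some b' =>
        obtain ⟨T, hT⟩ := hc1 b' hf
        exact ⟨b', T, hT⟩
      | none =>
        cases hi : (incWord hm (z.map (fun y => y.2.2))).1 with
        | true =>
          obtain ⟨T, hT⟩ := hc2 hf hi
          exact ⟨false, T, hT⟩
        | false =>
          have h5 := hc3 hf hi
          have hl : (zc hm e z).length = z.length := length_zc hm e z
          have hne : zc hm e z ≠ [] := by
            intro h0
            rw [h0] at hl
            exact hz (List.length_eq_zero_iff.1 hl.symm)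
          obtain ⟨b', T, hT⟩ := ih (zc hm e z) hne (by
            have hi' : (incWord hm (ck z)).1 = false := hi
            rw [hl, zc_ck, zc_tr, val_replicate, val_incWord hm _ hi', add_mul, one_mul]
            omega)
          exact ⟨b', T, h5.trans hT⟩
    | false =>
      obtain ⟨hc1, hc2⟩ := next_succ hm e D out z hz hb
      cases hi : (incWord hm (z.map (fun y => y.2.1))).1 with
      | true =>
        obtain ⟨T, hT⟩ := hc1 hi
        exact ⟨false, T, hT⟩
      | false =>
        have h5 := hc2 hi
        have hl : (zs hm z).length = z.length := length_zs hm z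
        have hne : zs hm z ≠ [] := by
          intro h0
          rw [h0] at hl
          exact hz (List.length_eq_zero_iff.1 hl.symm)
        obtain ⟨b', T, hT⟩ := ih (zs hm z) hne (by
          have hi' : (incWord hm (tr z)).1 = false := hi
          rw [hl, zs_ck, zs_tr, val_incWord hm _ hi']
          omega)
        exact ⟨b', T, h5.trans hT⟩

theorem wordD_eq (z : List ((S × Option Bool) × (Fin m × Fin m))) :
    wordD e z = ((z.map (fun y => y.1.1)).zip (z.map (fun y => e y.2.1))).zip
      (z.map (fun y => y.1.2)) := by
  unfold wordD
  induction z with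
  | nil => rfl
  | cons a z ih => simp [ih]

/-- From a configuration with current word `c`, tried word at most the word of `c'`, the automaton
comes to the copy sweep with `c'`. -/
theorem advance (L : Set (List ((S × S) × Option Bool)))
    (hD : ∀ x : List ((S × S) × Option Bool), x ≠ [] → ∃ b : Bool, D.Gives x b ∧ (x ∈ L ↔ b = true))
    (o : List (Option Bool)) (c c' : List S) (hc : ∀ d, Rl L o c d ↔ d = c') :
    ∀ (k : ℕ) (z : List ((S × Option Bool) × (Fin m × Fin m))), z ≠ [] →
      z.map (fun y => y.1.1) = c → z.map (fun y => y.1.2) = o →
      val (tr z) + k = val (c'.map e.symm) →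
      ∃ z', z' ≠ [] ∧ z'.length = z.length ∧ ReflTransGen (itD hm e D out).Go (ready hm e D out z)
          (ready hm e D out z') ∧
        z'.map (fun y => e y.2.1) = c' ∧ z'.map (fun y => y.1.2) = o ∧ ck z' = ck z ∧
        D.Gives (wordD e z') true := by
  intro k
  have hR := (hc c').2 rfl
  induction k with
  | zero =>
    intro z hz h1 h2 h3
    have hl : (tr z).length = (c'.map e.symm).length := by
      rw [List.length_map, hR.1, ← h1]
      simp [tr]
    have h4 := val_inj hl (by simpa using h3)
    have h5 : z.map (fun y => e y.2.1) = c' := by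
      have h6 := congrArg (List.map e) h4
      rw [List.map_map] at h6
      unfold tr at h6
      rw [List.map_map] at h6
      have h7 : c'.map (⇑e ∘ ⇑e.symm) = c' := by
        rw [show (⇑e ∘ ⇑e.symm) = id from funext fun x => e.apply_symm_apply x]
        exact List.map_id _
      rw [h7] at h6
      exact h6
    have hw : wordD e z ≠ [] := by simpa [wordD] using hz
    obtain ⟨b, hb, hb2⟩ := hD (wordD e z) hw
    have h6 : wordD e z ∈ L := by
      rw [wordD_eq, h1, h5, h2]
      exact hR.2
    rw [hb2.1 h6] at hb
    exact ⟨z, hz, rfl, ReflTransGen.refl, h5, h2, rfl, hb⟩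
  | succ k ih =>
    intro z hz h1 h2 h3
    have hlc : c'.length = z.length := by rw [hR.1, ← h1]; simp
    have hlt : (tr z).length = z.length := by simp [tr]
    have hw : wordD e z ≠ [] := by simpa [wordD] using hz
    obtain ⟨b, hb, hb2⟩ := hD (wordD e z) hw
    have h4 : wordD e z ∉ L := by
      intro h5
      have h6 : Rl L o c (z.map (fun y => e y.2.1)) := by
        refine ⟨?_, ?_⟩
        · rw [← h1]; simp
        · rw [← h1, ← h2, ← wordD_eq]; exact h5
      have h7 := (hc _).1 h6
      have h8 : tr z = c'.map e.symm := by
        rw [← h7, List.map_map]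
        unfold tr
        refine List.map_congr_left fun y _ => ?_
        simp
      rw [h8] at h3
      omega
    have h5 : b = false := by
      cases b with
      | true => exact absurd (hb2.2 rfl) h4
      | false => rfl
    rw [h5] at hb
    obtain ⟨_, hc2⟩ := next_succ hm e D out z hz hb
    have h6 := val_lt (c'.map e.symm)
    rw [List.length_map, hlc] at h6
    have hi : (incWord hm (tr z)).1 = false := by
      cases h7 : (incWord hm (tr z)).1 with
      | false => rfl
      | true =>
        have h8 := val_of_carry hm _ h7
        rw [hlt] at h8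
        omega
    have h7 := hc2 hi
    have hl : (zs hm z).length = z.length := length_zs hm z
    have hne : zs hm z ≠ [] := by
      intro h0
      rw [h0] at hl
      exact hz (List.length_eq_zero_iff.1 hl.symm)
    have hf := zs_fst hm z
    have h8 : (zs hm z).map (fun y => y.1.1) = c := by
      have h9 := congrArg (List.map (fun y : S × Option Bool => y.1)) hf
      rw [List.map_map, List.map_map] at h9
      rw [← h1]
      exact h9
    have h9 : (zs hm z).map (fun y => y.1.2) = o := by
      have h10 := congrArg (List.map (fun y : S × Option Bool => y.2)) hf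
      rw [List.map_map, List.map_map] at h10
      rw [← h2]
      exact h10
    obtain ⟨z', i1, i2, i3, i4, i5, i6, i7⟩ := ih (zs hm z) hne h8 h9 (by
      rw [zs_tr, val_incWord hm _ hi]
      omega)
    exact ⟨z', i1, i2.trans hl, ReflTransGen.trans h7 i3, i4, i5, i6.trans (zs_ck hm z), i7⟩

/-- The good run. -/
theorem run (L : Set (List ((S × S) × Option Bool)))
    (hD : ∀ x : List ((S × S) × Option Bool), x ≠ [] → ∃ b : Bool, D.Gives x b ∧ (x ∈ L ↔ b = true))
    (o : List (Option Bool)) (c : ℕ → List S) (t : ℕ) (b : Bool)
    (h2 : ∀ s < t, ∀ a ∈ c s, out a = none)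
    (h3 : ∀ s < t, ∀ c', Rl L o (c s) c' ↔ c' = c (s + 1))
    (h4 : ∃ a ∈ c t, out a = some b) (h5 : ∀ a ∈ c t, out a = some b ∨ out a = none)
    (ht : t < m ^ o.length) :
    ∀ (k s : ℕ) (z : List ((S × Option Bool) × (Fin m × Fin m))), s + k + 1 = t → z ≠ [] →
      z.map (fun y => y.1.1) = c s → z.map (fun y => y.1.2) = o → val (tr z) = 0 →
      val (ck z) = s →
      ∃ T, ReflTransGen (itD hm e D out).Go (ready hm e D out z) (DSt.fin b, T) := by
  intro k
  induction k with
  | zero =>
    intro s z hs hz h1 ho htr hck
    obtain ⟨z', i1, i2, i3, i4, i5, i6, i7⟩ := advance hm e D out L hD o (c s) (c (s + 1))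
      (h3 s (by omega)) (val ((c (s + 1)).map e.symm)) z hz h1 ho (by omega)
    have hst : s + 1 = t := by omega
    rw [hst] at i4
    obtain ⟨hc1, _, _⟩ := next_copy hm e D out z' i1 i7
    obtain ⟨T, hT⟩ := hc1 b (by rw [i4]; exact findSome_eq out b _ h4 h5)
    exact ⟨T, i3.trans hT⟩
  | succ k ih =>
    intro s z hs hz h1 ho htr hck
    obtain ⟨z', i1, i2, i3, i4, i5, i6, i7⟩ := advance hm e D out L hD o (c s) (c (s + 1))
      (h3 s (by omega)) (val ((c (s + 1)).map e.symm)) z hz h1 ho (by omega)
    obtain ⟨_, _, hc3⟩ := next_copy hm e D out z' i1 i7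
    have hzo : z.length = o.length := by rw [← ho]; simp
    have hckl : (ck z').length = o.length := by rw [i6]; simp [ck, hzo]
    have hi : (incWord hm (ck z')).1 = false := by
      cases h7 : (incWord hm (ck z')).1 with
      | false => rfl
      | true =>
        have h8 := val_of_carry hm _ h7
        rw [hckl, i6, hck] at h8
        omega
    have h7 := hc3 (by
      rw [i4]
      exact List.findSome?_eq_none_iff.2 (fun a ha => h2 (s + 1) (by omega) a ha)) hi
    have hl : (zc hm e z').length = z'.length := length_zc hm e z'
    have hne : zc hm e z' ≠ [] := by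
      intro h0
      rw [h0] at hl
      exact i1 (List.length_eq_zero_iff.1 hl.symm)
    have hf := zc_fst hm e z'
    have h8 : (zc hm e z').map (fun y => y.1.1) = c (s + 1) := by
      have h9 := congrArg (List.map (fun y : S × Option Bool => y.1)) hf
      rw [List.map_map, List.map_map] at h9
      rw [← i4]
      exact h9
    have h9 : (zc hm e z').map (fun y => y.1.2) = o := by
      have h10 := congrArg (List.map (fun y : S × Option Bool => y.2)) hf
      rw [List.map_map, List.map_map] at h10
      rw [← i5]
      exact h10
    obtain ⟨T, hT⟩ := ih (s + 1) (zc hm e z') (by omega) hne h8 h9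
      (by rw [zc_tr, val_replicate]) (by rw [zc_ck, val_incWord hm _ hi, i6, hck])
    exact ⟨T, i3.trans (ReflTransGen.trans h7 hT)⟩

end DIter

open DIter in
theorem dlba_iter {S : Type} [Fintype S] (L : Set (List ((S × S) × Option Bool)))
    (hL : InDLBA _ L) (out : S → Option Bool) :
    ∃ K : Set (List (S × Option Bool)), InDLBA _ K ∧
      ∀ (v : List (S × Option Bool)) (c : ℕ → List S) (t : ℕ) (b : Bool), v ≠ [] →
        c 0 = v.map Prod.fst → (∀ s < t, ∀ a ∈ c s, out a = none) →
        (∀ s < t, ∀ c', Rl L (v.map Prod.snd) (c s) c' ↔ c' = c (s + 1)) →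
        (∃ a ∈ c t, out a = some b) → (∀ a ∈ c t, out a = some b ∨ out a = none) →
        (v ∈ K ↔ b = true) := by
  classical
  obtain ⟨D, hD⟩ := hL
  have hD' : ∀ x : List ((S × S) × Option Bool), x ≠ [] → ∃ b : Bool, D.Gives x b := fun x hx => by
    obtain ⟨b, hb, _⟩ := hD x hx
    exact ⟨b, hb⟩
  rcases isEmpty_or_nonempty S with hS | hS
  · -- no letters
    refine ⟨∅, ⟨{ W := PUnit, Q := PUnit, start := ⟨⟩, δ := fun q x _ _ => (q, x, Dir.stay),
                  out := fun _ => none }, ?_⟩, ?_⟩
    · intro x hx
      cases x with
      | nil => exact absurd rfl hx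
      | cons a x => exact (hS.false a.1).elim
    · intro v c t b hv
      cases v with
      | nil => exact absurd rfl hv
      | cons a v => exact (hS.false a.1).elim
  · have hm : 0 < Fintype.card S := Fintype.card_pos
    let e : Fin (Fintype.card S) ≃ S := (Fintype.equivFin S).symm
    refine ⟨{v | (itD hm e D out).Gives v true}, ⟨itD hm e D out, ?_⟩, ?_⟩
    · intro x hx
      have h1 : ∃ b, (itD hm e D out).Gives x b := by
        obtain ⟨hs1, hs2⟩ := start_sweep hm e D out x hx
        cases hf : (x.map Prod.fst).findSome? out with
        | some b' =>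
          obtain ⟨T, hT⟩ := hs1 b' hf
          exact ⟨b', (DLBA.gives_iff _ _ _).2 ⟨_, hT, rfl⟩⟩
        | none =>
          have h2 := hs2 hf
          set z := x.map (fun y => (y, ((⟨0, hm⟩ : Fin (Fintype.card S)),
            (⟨0, hm⟩ : Fin (Fintype.card S))))) with hz
          have hne : z ≠ [] := by simpa [hz] using hx
          obtain ⟨b', T, hT⟩ := halts hm e D out hD' (Fintype.card S ^ z.length *
            Fintype.card S ^ z.length) z hne (Nat.le_add_left _ _)
          exact ⟨b', (DLBA.gives_iff _ _ _).2 ⟨_, ReflTransGen.trans h2 hT, rfl⟩⟩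
      obtain ⟨b, hb⟩ := h1
      refine ⟨b, hb, ?_⟩
      constructor
      · intro h2
        exact gives_unique _ hb h2
      · intro h2
        rw [h2] at hb
        exact hb
    · intro v c t b hv h1 h2 h3 h4 h5
      -- lengths
      have hlen : ∀ s ≤ t, (c s).length = v.length := by
        intro s
        induction s with
        | zero => intro _; rw [h1]; simp
        | succ s ih =>
          intro hs
          have h6 := ((h3 s (by omega) (c (s + 1))).2 rfl).1
          rw [h6, ih (by omega)]
      -- distinctness
      have hinj : ∀ i j, i < j → j ≤ t → c i ≠ c j := by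
        intro i j hij hjt h6
        have h7 : ∀ d, j + d ≤ t → c (i + d) = c (j + d) := by
          intro d
          induction d with
          | zero => intro _; exact h6
          | succ d ih =>
            intro hd
            have h8 := ih (by omega)
            have h9 := (h3 (j + d) (by omega) (c (j + d + 1))).2 rfl
            rw [← h8] at h9
            have h10 := (h3 (i + d) (by omega) (c (j + d + 1))).1 h9
            rw [← add_assoc, ← add_assoc]
            exact h10.symm
        have h8 := h7 (t - j) (by omega)
        rw [show j + (t - j) = t by omega] at h8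
        obtain ⟨a, ha, hb⟩ := h4
        rw [← h8] at ha
        rw [h2 (i + (t - j)) (by omega) a ha] at hb
        exact absurd hb (by simp)
      have ht : t < Fintype.card S ^ v.length := by
        have h6 : (Finset.range (t + 1)).card ≤
            (Finset.range (Fintype.card S ^ v.length)).card := by
          refine Finset.card_le_card_of_injOn (fun s => val ((c s).map e.symm)) ?_ ?_
          · intro s hs
            have hs' : s ≤ t := by
              have := Finset.mem_range.1 (Finset.mem_coe.1 hs)
              omega
            have h7 := val_lt ((c s).map e.symm)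
            rw [List.length_map, hlen s hs'] at h7
            exact Finset.mem_coe.2 (Finset.mem_range.2 h7)
          · intro s hs s' hs' h7
            have hs1 : s ≤ t := by
              have := Finset.mem_range.1 (Finset.mem_coe.1 hs)
              omega
            have hs2 : s' ≤ t := by
              have := Finset.mem_range.1 (Finset.mem_coe.1 hs')
              omega
            have h8 := val_inj (by rw [List.length_map, List.length_map, hlen s hs1,
              hlen s' hs2]) h7
            have h9 : c s = c s' := (List.map_injective_iff.2 e.symm.injective) h8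
            rcases lt_trichotomy s s' with h10 | h10 | h10
            · exact absurd h9 (hinj s s' h10 hs2)
            · exact h10
            · exact absurd h9.symm (hinj s' s h10 hs1)
        rw [Finset.card_range, Finset.card_range] at h6
        omega
      have hgives : (itD hm e D out).Gives v b := by
        obtain ⟨hs1, hs2⟩ := start_sweep hm e D out v hv
        rcases Nat.eq_zero_or_pos t with ht0 | ht0
        · subst ht0
          rw [h1] at h4 h5
          obtain ⟨T, hT⟩ := hs1 b (findSome_eq out b _ h4 h5)
          exact (DLBA.gives_iff _ _ _).2 ⟨_, hT, rfl⟩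
        · have hf : (v.map Prod.fst).findSome? out = none := by
            rw [← h1]
            exact List.findSome?_eq_none_iff.2 (fun a ha => h2 0 ht0 a ha)
          have h6 := hs2 hf
          set z := v.map (fun y => (y, ((⟨0, hm⟩ : Fin (Fintype.card S)),
            (⟨0, hm⟩ : Fin (Fintype.card S))))) with hz
          have hne : z ≠ [] := by simpa [hz] using hv
          have htr : tr z = List.replicate v.length ⟨0, hm⟩ := by
            rw [hz]
            unfold tr
            rw [List.map_map]
            exact List.eq_replicate_iff.2 ⟨by simp, fun b hb => by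
              rw [List.mem_map] at hb
              obtain ⟨d, _, rfl⟩ := hb
              rfl⟩
          have hck : ck z = List.replicate v.length ⟨0, hm⟩ := by
            rw [hz]
            unfold ck
            rw [List.map_map]
            exact List.eq_replicate_iff.2 ⟨by simp, fun b hb => by
              rw [List.mem_map] at hb
              obtain ⟨d, _, rfl⟩ := hb
              rfl⟩
          obtain ⟨T, hT⟩ := run hm e D out L hD (v.map Prod.snd) c t b h2 h3 h4 h5
            (by rw [List.length_map]; exact ht) (t - 1) 0 z (by omega) hne
            (by rw [h1, hz, List.map_map]; rfl) (by rw [hz, List.map_map]; rfl)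
            (by rw [htr, val_replicate]) (by rw [hck, val_replicate])
          exact (DLBA.gives_iff _ _ _).2 ⟨_, ReflTransGen.trans h6 hT, rfl⟩
      constructor
      · intro h6
        exact gives_unique _ hgives h6
      · intro h6
        rw [h6] at hgives
        exact hgives

end Pool.Agent.Book19
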