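import Pool.Agent.Book19.Rel
import Pool.Agent.Book19.Letter

/-!
# Predicates in the class `UP` are in P and in NP
-/

set_option autoImplicit false

namespace Pool.Agent.Book19

open Turing Computability Filter Topology Pool.Agent.PT Relation

theorem inP_of_UP {A : Type} [Fintype A] {L : Set (List A)} (h : UP (fun x _ => x ∈ L)) :
    InP A L := by
  classical
  refine ⟨fun x => decide (x ∈ L), ?_, fun x => by simp⟩
  refine polyTime_bool (P := fun x => x ∈ L) _ h _ fun x => ?_
  rw [decide_eq_true_iff]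
  rfl

/-- Letters of the first component. -/
private theorem ofUP_get_inl {A : Type} (x : List A) (w : List Bool) (a : A) (k : ℕ) :
    (x.map Sum.inl ++ w.map Sum.inr : List (A ⊕ Bool))[k]? = some (Sum.inl a) ↔
      x[k]? = some a := by
  by_cases hk : k < x.length
  · rw [List.getElem?_append_left (by simpa using hk), List.getElem?_map]
    cases x[k]? <;> simp
  · rw [List.getElem?_append_right (by simpa using hk), List.getElem?_map,
      List.getElem?_eq_none (by omega : x.length ≤ k)]
    cases w[k - (x.map (Sum.inl : A → A ⊕ Bool)).length]? <;> simp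

/-- Terms on the first component of a pair of words. -/
private theorem ofUP_trans {A : Type} [Fintype A] : ∀ t : Tm A, ∃ t' : Tm (A ⊕ Bool),
    ∀ (x : List A) (w : List Bool) (e : ℕ → ℕ),
      t'.eval (x.map Sum.inl ++ w.map Sum.inr) e = t.eval x e
  | .var i => ⟨.var i, fun _ _ _ => rfl⟩
  | .const c => ⟨.const c, fun _ _ _ => rfl⟩
  | .len => by
    obtain ⟨t, ht⟩ := UF.countP (Γ := A ⊕ Bool) (fun a => a.isLeft)
    refine ⟨t, fun x w e => ?_⟩
    rw [ht]
    change List.countP (fun a => a.isLeft) (x.map Sum.inl ++ w.map Sum.inr : List (A ⊕ Bool)) =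
      x.length
    rw [List.countP_append]
    have h1 : (x.map (Sum.inl : A → A ⊕ Bool)).countP (fun a => a.isLeft) = x.length := by
      rw [List.countP_map, List.countP_eq_length]
      intro a _
      rfl
    have h2 : (w.map (Sum.inr : Bool → A ⊕ Bool)).countP (fun a => a.isLeft) = 0 := by
      rw [List.countP_map, List.countP_eq_zero]
      intro a _
      simp
    rw [h1, h2]
    rfl
  | .sym a t => by
    obtain ⟨t', ht'⟩ := ofUP_trans t
    refine ⟨.sym (Sum.inl a) t', fun x w e => ?_⟩
    have h1 := ofUP_get_inl x w a (t.eval x e)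
    have h2 := ht' x w e
    simp only [Tm.eval]
    by_cases h : x[t.eval x e]? = some a
    · rw [if_pos h, if_pos]
      rw [h2]
      exact h1.2 h
    · rw [if_neg h, if_neg]
      rw [h2]
      exact fun h' => h (h1.1 h')
  | .add s t => by
    obtain ⟨s', hs'⟩ := ofUP_trans s
    obtain ⟨t', ht'⟩ := ofUP_trans t
    exact ⟨.add s' t', fun x w e => by simp only [Tm.eval, hs', ht']⟩
  | .sub s t => by
    obtain ⟨s', hs'⟩ := ofUP_trans s
    obtain ⟨t', ht'⟩ := ofUP_trans t
    exact ⟨.sub s' t', fun x w e => by simp only [Tm.eval, hs', ht']⟩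
  | .sum s t => by
    obtain ⟨s', hs'⟩ := ofUP_trans s
    obtain ⟨t', ht'⟩ := ofUP_trans t
    exact ⟨.sum s' t', fun x w e => by simp only [Tm.eval, hs', ht']⟩
  | .lett s t => by
    obtain ⟨s', hs'⟩ := ofUP_trans s
    obtain ⟨t', ht'⟩ := ofUP_trans t
    exact ⟨.lett s' t', fun x w e => by simp only [Tm.eval, hs', ht']⟩
  | .ren σ t => by
    obtain ⟨t', ht'⟩ := ofUP_trans t
    exact ⟨.ren σ t', fun x w e => by simp only [Tm.eval, ht']⟩

theorem inNPc_of_UP {A : Type} [Fintype A] {L : Set (List A)} (h : UP (fun x _ => x ∈ L)) :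
    InNPc A L := by
  classical
  obtain ⟨t, ht⟩ := h
  obtain ⟨t', ht'⟩ := ofUP_trans t
  have hP : UP (fun (z : List (A ⊕ Bool)) _ => t'.eval z (fun _ => 0) ≠ 0) :=
    UP.of_ne_zero (UF.subst_tm t' (fun _ _ _ => 0) (fun _ => UF.const 0)) fun z e => Iff.rfl
  have key : ∀ (x : List A) (w : List Bool),
      t'.eval (x.map Sum.inl ++ w.map Sum.inr) (fun _ => 0) ≠ 0 ↔ x ∈ L := by
    intro x w
    rw [ht', ht]
    by_cases hx : x ∈ L <;> simp [hx]
  refine ⟨0, fun p => decide (p.1 ∈ L), ?_, fun x => ?_⟩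
  · refine polyTime_bool (P := fun z => t'.eval z (fun _ => 0) ≠ 0) _ hP _ fun p => ?_
    rw [decide_eq_true_iff]
    exact (key p.1 p.2).symm
  · constructor
    · intro hx
      exact ⟨[], by simp, by simpa using hx⟩
    · rintro ⟨w, -, hw⟩
      simpa using hw

end Pool.Agent.Book19
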