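import Pool.Agent.Book19.Rel
import Pool.Agent.Book19.Letter
import Pool.Agent.PT.UF

/-!
# The letters of the reduction are given by terms
-/

set_option autoImplicit false

namespace Pool.Agent.Book19

open Pool.Agent.PT

open Classical in
private theorem redUP_dec {Γ : Type} {P : List Γ → (ℕ → ℕ) → Prop} (hP : UP P) (b : Bool) :
    UP (fun x e => decide (P x e) = b) := by
  cases b with
  | true => exact hP.congr fun x e => decide_eq_true_iff.symm
  | false => exact hP.not.congr fun x e => decide_eq_false_iff_not.symm

private theorem redUP_bind {β : Type} (f : UL → Option β) (o : Option β) :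
    UP (fun (u : List UL) e => (u[e 0]?).bind f = o) := by
  cases o with
  | some b =>
    refine (UP.at' (fun a => f a = some b) (UF.var 0)).congr fun u e => ?_
    unfold At
    rw [Option.bind_eq_some_iff]
  | none =>
    refine (UP.at' (fun a => f a ≠ none) (UF.var 0)).not.congr fun u e => ?_
    unfold At
    rw [Option.bind_eq_none_iff]
    push Not
    rfl

theorem uf_Nu : UF (fun (u : List UL) _ => Nu u) :=
  ((UF.countP _).mul UF.len).add (UF.countP _)

theorem up_gL (a : (CL × Option Bool) × Option Bool) :
    UP (fun (u : List UL) e => gL u (e 0) = a) := by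
  obtain ⟨⟨⟨km, tab, f1, f2, sym, st⟩, k'⟩, w'⟩ := a
  have hku : UF (fun (u : List UL) _ => ku u) := UF.countP _
  have hp : UF (fun (_ : List UL) e => e 0) := UF.var 0
  have hmod : UF (fun (u : List UL) e => e 0 % ku u) := UF.mod hp hku
  have hdiv : UF (fun (u : List UL) e => e 0 / ku u) := UF.div hp hku
  have h1 := redUP_dec (UP.at' (fun a : UL => a.km = true) hp) km
  have h2 := redUP_bind (fun a => a.tab) tab
  have h3 := redUP_dec (UP.at' (fun a : UL => a.f1 = true) hmod) f1
  have h4 := redUP_dec (UP.at' (fun a : UL => a.f2 = true) hmod) f2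
  have h5' : UP (fun (u : List UL) e => At u (e 0 / ku u)
      (fun a => ixU (a, a.β) = e 0 % ku u)) := by
    refine (UP.fex fun a : UL => (UP.sym a hdiv).and
      (UP.eq (UF.const (ixU (a, a.β))) hmod)).congr fun u e => ?_
    rfl
  have h5 := redUP_dec h5' sym
  have h6 := redUP_dec (UP.at' (fun a : UL => a.ini = true) hp) st
  have h7 := redUP_bind (fun a => a.κ) k'
  have h8 := redUP_bind (fun a => a.w) w'
  refine (((h1.and (h2.and (h3.and (h4.and (h5.and h6))))).and h7).and h8).congr fun u e => ?_
  unfold gL c0L
  simp only [Prod.mk.injEq, CL.mk.injEq]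

end Pool.Agent.Book19
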