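import Pool.Agent.Book19.Rel
import Pool.Agent.Book19.Letter

/-!
# One universal step simulates one step of the automaton
-/

set_option autoImplicit false

namespace Pool.Agent.Book19

open Turing Computability Filter Topology Pool.Agent.PT Relation

namespace Sim

variable {A : Type} {M : LBA A} {ix : A → ℕ}

theorem k_pos (C : Cod M ix) : 0 < C.k := lt_of_le_of_lt (Nat.zero_le _) (C.q_lt M.start)

theorem length_code (C : Cod M ix) (F1 F2 : Set M.Q) (N : ℕ) (c : Conf M.Q (A ⊕ M.W)) :
    (C.code F1 F2 N c).length = N := by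
  simp [Cod.code]

theorem at_code (C : Cod M ix) (F1 F2 : Set M.Q) (N : ℕ) (c : Conf M.Q (A ⊕ M.W)) (p : ℕ)
    (P : CL → Prop) : At (C.code F1 F2 N c) p P ↔ p < N ∧ P (C.lett F1 F2 c p) := by
  unfold At Cod.code
  rw [List.getElem?_map]
  by_cases hp : p < N
  · rw [List.getElem?_range hp]
    simp [hp]
  · rw [List.getElem?_eq_none (by simpa using hp)]
    simp [hp]

theorem getD_code (C : Cod M ix) (F1 F2 : Set M.Q) (N : ℕ) (c : Conf M.Q (A ⊕ M.W)) (p : ℕ)
    (hp : p < N) : (C.code F1 F2 N c).getD p default = C.lett F1 F2 c p := by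
  unfold Cod.code
  rw [List.getD_eq_getElem?_getD, List.getElem?_map, List.getElem?_range hp]
  rfl

theorem countP_range (k N : ℕ) (h : k ≤ N) :
    (List.range N).countP (fun i => decide (i < k)) = k := by
  induction N with
  | zero =>
    obtain rfl : k = 0 := by omega
    simp
  | succ N ih =>
    rw [List.range_succ, List.countP_append]
    rcases Nat.lt_or_ge N k with h1 | h1
    · have hk : k = N + 1 := by omega
      subst hk
      have h2 : (List.range N).countP (fun i => decide (i < N + 1)) = (List.range N).length := by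
        rw [List.countP_eq_length]
        intro a ha
        have := List.mem_range.1 ha
        simp only [decide_eq_true_eq]
        omega
      rw [h2]
      simp
    · rw [ih h1]
      have : ¬ (N < k) := by omega
      simp [this]

theorem kc_code (C : Cod M ix) (F1 F2 : Set M.Q) (N : ℕ) (c : Conf M.Q (A ⊕ M.W))
    (hN : C.k ≤ N) : kc (C.code F1 F2 N c) = C.k := by
  unfold kc Cod.code
  rw [List.countP_map]
  exact countP_range C.k N hN

theorem tape_put {G : Type} (s : G) (d : Dir) (l r : List G) (hr : r ≠ []) :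
    (put s d (l, r)).1.reverse ++ (put s d (l, r)).2 = (l.reverse ++ r).set l.length s := by
  obtain ⟨a, r, rfl⟩ := List.exists_cons_of_ne_nil hr
  have h0 : (l.reverse ++ a :: r).set l.length s = l.reverse ++ s :: r := by
    rw [List.set_append_right _ _ (by simp)]
    simp
  rw [h0]
  cases d with
  | stay => simp [put]
  | left =>
    cases l with
    | nil => simp [put]
    | cons b l => simp [put]
  | right =>
    cases r with
    | nil => simp [put]
    | cons b r => simp [put]

theorem get_put {G : Type} (s : G) (d : Dir) (l r : List G) (hr : r ≠ []) (i : ℕ) :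
    ((put s d (l, r)).1.reverse ++ (put s d (l, r)).2)[i]? =
      if i = l.length then some s else (l.reverse ++ r)[i]? := by
  rw [tape_put s d l r hr, List.getElem?_set]
  have h1 : l.length < (l.reverse ++ r).length := by
    have := List.length_pos_iff.2 hr
    simp only [List.length_append, List.length_reverse]
    omega
  by_cases hi : l.length = i
  · subst hi
    rw [if_pos rfl, if_pos rfl, if_pos h1]
  · rw [if_neg hi, if_neg (fun h => hi h.symm)]

theorem length_put {G : Type} (s : G) (d : Dir) (l r : List G) :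
    (put s d (l, r)).1.length =
      if d = Dir.right then (if l.length + 1 < l.length + r.length then l.length + 1 else l.length)
      else if d = Dir.left then l.length - 1 else l.length := by
  cases d with
  | stay => simp [put]
  | left =>
    cases l with
    | nil => simp [put]
    | cons b l => simp [put]
  | right =>
    cases r with
    | nil => simp [put]
    | cons a r =>
      cases r with
      | nil => simp [put]
      | cons b r => simp [put]

theorem div_mod (k h j : ℕ) (hj : j < k) : (h * k + j) / k = h ∧ (h * k + j) % k = j := by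
  have hk : 0 < k := by omega
  constructor
  · rw [Nat.mul_comm, Nat.mul_add_div hk, Nat.div_eq_of_lt hj, Nat.add_zero]
  · rw [Nat.mul_comm, Nat.mul_add_mod, Nat.mod_eq_of_lt hj]

theorem pos_lt (k N h j : ℕ) (hj : j < k) (hh : h < N / k) : h * k + j < N := by
  have hk : 0 < k := by omega
  have h1 : N / k * k ≤ N := Nat.div_mul_le_self N k
  have h2 : (h + 1) * k ≤ N / k * k := Nat.mul_le_mul_right k hh
  rw [Nat.add_mul] at h2
  omega

/-- the letter of the table track at offset `j` of block `e` -/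
theorem tabL_eq (C : Cod M ix) (e j : ℕ) (hj : j < C.k) (t : TL) :
    C.tabL (e * C.k + j) = some t ↔ ∃ y, C.tb[e]? = some y ∧
      (t.tq = true ↔ C.q y.1.1 = j) ∧ (t.ts = true ↔ C.s y.1.2.1 = j) ∧
      (t.tq' = true ↔ C.q y.2.1 = j) ∧ (t.ts' = true ↔ C.s y.2.2.1 = j) ∧ t.dir = y.2.2.2 ∧
      t.le = y.1.2.2.1 ∧ t.re = y.1.2.2.2 := by
  obtain ⟨h1, h2⟩ := div_mod C.k e j hj
  unfold Cod.tabL
  rw [h1, h2]
  cases h3 : C.tb[e]? with
  | none => simp
  | some y =>
    obtain ⟨tq, ts, tq', ts', dir, le, re⟩ := t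
    simp only [Option.map_some, Option.some.injEq, TL.mk.injEq, exists_eq_left']
    constructor
    · rintro ⟨rfl, rfl, rfl, rfl, rfl, rfl, rfl⟩
      simp
    · rintro ⟨a1, a2, a3, a4, a5, a6, a7⟩
      refine ⟨?_, ?_, ?_, ?_, a5.symm, a6.symm, a7.symm⟩
      · rw [Bool.eq_iff_iff, decide_eq_true_eq]; exact a1.symm
      · rw [Bool.eq_iff_iff, decide_eq_true_eq]; exact a2.symm
      · rw [Bool.eq_iff_iff, decide_eq_true_eq]; exact a3.symm
      · rw [Bool.eq_iff_iff, decide_eq_true_eq]; exact a4.symm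

theorem exists_tabL (C : Cod M ix) (e j : ℕ) (hj : j < C.k)
    (y : (M.Q × (A ⊕ M.W) × Bool × Bool) × (M.Q × (A ⊕ M.W) × Dir)) (hy : C.tb[e]? = some y) :
    ∃ t, C.tabL (e * C.k + j) = some t ∧
      (t.tq = true ↔ C.q y.1.1 = j) ∧ (t.ts = true ↔ C.s y.1.2.1 = j) ∧
      (t.tq' = true ↔ C.q y.2.1 = j) ∧ (t.ts' = true ↔ C.s y.2.2.1 = j) ∧ t.dir = y.2.2.2 ∧
      t.le = y.1.2.2.1 ∧ t.re = y.1.2.2.2 := by
  classical
  refine ⟨⟨decide (C.q y.1.1 = j), decide (C.s y.1.2.1 = j), decide (C.q y.2.1 = j),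
    decide (C.s y.2.2.1 = j), y.2.2.2, y.1.2.2.1, y.1.2.2.2⟩, ?_, ?_⟩
  · rw [tabL_eq C e j hj]
    exact ⟨y, hy, by simp⟩
  · simp

section main

variable (C : Cod M ix) (F1 F2 : Set M.Q) (N : ℕ) (c : Conf M.Q (A ⊕ M.W))

theorem at_st (h j : ℕ) (hj : j < C.k) (hh : h < N / C.k) :
    At (C.code F1 F2 N c) (h * C.k + j) (fun b => b.st = true) ↔
      h = c.2.1.length ∧ C.q c.1 = j := by
  obtain ⟨h1, h2⟩ := div_mod C.k h j hj
  rw [at_code]
  simp only [Cod.lett, h1, h2, decide_eq_true_eq]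
  exact ⟨fun x => x.2, fun x => ⟨pos_lt C.k N h j hj hh, x⟩⟩

theorem at_sym (h j : ℕ) (hj : j < C.k) (hh : h < N / C.k) :
    At (C.code F1 F2 N c) (h * C.k + j) (fun b => b.sym = true) ↔
      ∃ γ, (c.2.1.reverse ++ c.2.2)[h]? = some γ ∧ C.s γ = j := by
  obtain ⟨h1, h2⟩ := div_mod C.k h j hj
  rw [at_code]
  simp only [Cod.lett, h1, h2, decide_eq_true_eq]
  exact ⟨fun x => x.2, fun x => ⟨pos_lt C.k N h j hj hh, x⟩⟩

theorem at_tab (htb : C.tb.length * C.k ≤ N) (e j : ℕ) (hj : j < C.k)
    (y : (M.Q × (A ⊕ M.W) × Bool × Bool) × (M.Q × (A ⊕ M.W) × Dir)) (hy : C.tb[e]? = some y)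
    (P : TL → Prop) (Q : Prop)
    (hP : ∀ t : TL, (t.tq = true ↔ C.q y.1.1 = j) → (t.ts = true ↔ C.s y.1.2.1 = j) →
      (t.tq' = true ↔ C.q y.2.1 = j) → (t.ts' = true ↔ C.s y.2.2.1 = j) → t.dir = y.2.2.2 →
      t.le = y.1.2.2.1 → t.re = y.1.2.2.2 → (P t ↔ Q)) :
    At (C.code F1 F2 N c) (e * C.k + j) (fun a => ∃ t, a.tab = some t ∧ P t) ↔ Q := by
  rw [at_code]
  have he : e < C.tb.length := by
    by_contra hcon
    rw [List.getElem?_eq_none (by omega)] at hy
    cases hy
  have h1 : e * C.k + j < N := by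
    have h2 : (e + 1) * C.k ≤ C.tb.length * C.k := Nat.mul_le_mul_right _ he
    rw [Nat.add_mul] at h2
    omega
  obtain ⟨t, ht, a1, a2, a3, a4, a5, a6, a7⟩ := exists_tabL C e j hj y hy
  constructor
  · rintro ⟨_, t', ht', hPt⟩
    have h3 : C.tabL (e * C.k + j) = some t' := ht'
    rw [ht] at h3
    obtain rfl := Option.some.inj h3
    exact (hP t a1 a2 a3 a4 a5 a6 a7).1 hPt
  · intro hQ
    exact ⟨h1, t, ht, (hP t a1 a2 a3 a4 a5 a6 a7).2 hQ⟩

variable (hr : c.2.2 ≠ []) (hlen : c.2.1.length + c.2.2.length = N / C.k)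
  (htb : C.tb.length * C.k ≤ N)

include hr

theorem head_get : (c.2.1.reverse ++ c.2.2)[c.2.1.length]? = some (c.2.2.head hr) := by
  rw [List.getElem?_append_right (by simp)]
  simp only [List.length_reverse, Nat.sub_self]
  rw [← List.head?_eq_getElem?, List.head?_eq_some_head hr]

include hlen

theorem lt_n : c.2.1.length < N / C.k := by
  have := List.length_pos_iff.2 hr
  omega

theorem k_le : C.k ≤ N := by
  have h1 := lt_n C N c hr hlen
  by_contra h
  rw [Nat.div_eq_of_lt (by omega)] at h1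
  omega

include htb

/-- `Match` selects the entries of the table for the present situation. -/
theorem match_iff (e h : ℕ) :
    Match (C.code F1 F2 N c) C.k (N / C.k) e h ↔ h = c.2.1.length ∧
      ∃ y, C.tb[e]? = some y ∧
        y.1 = (c.1, c.2.2.head hr, c.2.1.isEmpty, c.2.2.tail.isEmpty) := by
  classical
  have hk := k_pos C
  have hln := lt_n C N c hr hlen
  constructor
  · rintro ⟨hh, hm⟩
    obtain ⟨y, hy⟩ : ∃ y, C.tb[e]? = some y := by
      have h0 := hm 0 hk
      rw [at_code] at h0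
      obtain ⟨_, t, ht, _⟩ := h0
      have h1 : C.tabL (e * C.k + 0) = some t := ht
      rw [tabL_eq C e 0 hk] at h1
      obtain ⟨y, hy, _⟩ := h1
      exact ⟨y, hy⟩
    have key : ∀ j < C.k,
        ((C.q y.1.1 = j ↔ h = c.2.1.length ∧ C.q c.1 = j) ∧
        (C.s y.1.2.1 = j ↔ ∃ γ, (c.2.1.reverse ++ c.2.2)[h]? = some γ ∧ C.s γ = j) ∧
        (y.1.2.2.1 = true ↔ h = 0) ∧ (y.1.2.2.2 = true ↔ h + 1 = N / C.k)) := by
      intro j hj
      refine (at_tab C F1 F2 N c htb e j hj y hy _ _ ?_).1 (hm j hj)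
      intro t a1 a2 _ _ _ a6 a7
      rw [at_st C F1 F2 N c h j hj hh, at_sym C F1 F2 N c h j hj hh, a1, a2, a6, a7]
    obtain ⟨k1, -, k3, k4⟩ := key (C.q y.1.1) (C.q_lt _)
    obtain ⟨e1, e2⟩ := k1.1 rfl
    have e3 : c.1 = y.1.1 := C.q_inj e2
    obtain ⟨-, k2, -, -⟩ := key (C.s y.1.2.1) (C.s_lt _)
    obtain ⟨γ, e4, e5⟩ := k2.1 rfl
    have e6 : γ = y.1.2.1 := C.s_inj e5
    refine ⟨e1, y, hy, ?_⟩
    subst e1
    rw [head_get c hr] at e4
    have e7 := Option.some.inj e4
    have e8 : y.1.2.2.1 = c.2.1.isEmpty := by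
      rw [Bool.eq_iff_iff, k3, List.isEmpty_iff, List.length_eq_zero_iff]
    have e9 : y.1.2.2.2 = c.2.2.tail.isEmpty := by
      rw [Bool.eq_iff_iff, k4, List.isEmpty_iff, ← List.length_eq_zero_iff, List.length_tail]
      have := List.length_pos_iff.2 hr
      omega
    refine Prod.ext e3.symm (Prod.ext (e6.symm.trans e7.symm) (Prod.ext e8 e9))
  · rintro ⟨rfl, y, hy, hy1⟩
    refine ⟨hln, fun j hj => ?_⟩
    refine (at_tab C F1 F2 N c htb e j hj y hy _ True ?_).2 trivial
    intro t a1 a2 _ _ _ a6 a7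
    rw [at_st C F1 F2 N c _ j hj hln, at_sym C F1 F2 N c _ j hj hln, a1, a2, a6, a7,
      head_get c hr, hy1]
    simp only [iff_true, true_and, Option.some.injEq, exists_eq_left', List.isEmpty_iff]
    refine ⟨?_, ?_⟩
    · rw [List.length_eq_zero_iff]
    · rw [← List.length_eq_zero_iff, List.length_tail]
      have := List.length_pos_iff.2 hr
      omega

/-- the word after the step -/
theorem next_eq (e : ℕ) (y : (M.Q × (A ⊕ M.W) × Bool × Bool) × (M.Q × (A ⊕ M.W) × Dir))
    (hy : C.tb[e]? = some y) :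
    (List.range N).map (nextL (C.code F1 F2 N c) C.k (N / C.k) e c.2.1.length) =
      C.code F1 F2 N (y.2.1, put y.2.2.1 y.2.2.2 c.2) := by
  classical
  have hk := k_pos C
  have hln := lt_n C N c hr hlen
  refine List.map_congr_left ?_
  intro p hp
  rw [List.mem_range] at hp
  have hpk : p % C.k < C.k := Nat.mod_lt _ hk
  obtain ⟨q, l, r⟩ := c
  simp only at hr hlen hln
  have htgt : tgt (C.code F1 F2 N (q, l, r)) C.k (N / C.k) e l.length =
      (put y.2.2.1 y.2.2.2 (l, r)).1.length := by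
    have h1 : At (C.code F1 F2 N (q, l, r)) (e * C.k)
        (fun a => ∃ t, a.tab = some t ∧ t.dir = Dir.right) ↔ y.2.2.2 = Dir.right := by
      have := at_tab C F1 F2 N (q, l, r) htb e 0 hk y hy (fun t => t.dir = Dir.right)
        (y.2.2.2 = Dir.right) (fun t _ _ _ _ a5 _ _ => by rw [a5])
      simpa using this
    have h2 : At (C.code F1 F2 N (q, l, r)) (e * C.k)
        (fun a => ∃ t, a.tab = some t ∧ t.dir = Dir.left) ↔ y.2.2.2 = Dir.left := by
      have := at_tab C F1 F2 N (q, l, r) htb e 0 hk y hy (fun t => t.dir = Dir.left)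
        (y.2.2.2 = Dir.left) (fun t _ _ _ _ a5 _ _ => by rw [a5])
      simpa using this
    unfold tgt
    simp only [h1, h2]
    rw [length_put, hlen]
  have hts : At (C.code F1 F2 N (q, l, r)) (e * C.k + p % C.k)
      (fun a => ∃ t, a.tab = some t ∧ t.ts' = true) ↔ C.s y.2.2.1 = p % C.k :=
    at_tab C F1 F2 N (q, l, r) htb e _ hpk y hy (fun t => t.ts' = true) _
      (fun t _ _ _ a4 _ _ _ => a4)
  have htq : At (C.code F1 F2 N (q, l, r)) (e * C.k + p % C.k)
      (fun a => ∃ t, a.tab = some t ∧ t.tq' = true) ↔ C.q y.2.1 = p % C.k :=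
    at_tab C F1 F2 N (q, l, r) htb e _ hpk y hy (fun t => t.tq' = true) _
      (fun t _ _ a3 _ _ _ _ => a3)
  unfold nextL
  rw [getD_code C F1 F2 N _ p hp]
  simp only [hts, htq, htgt]
  unfold Cod.lett
  simp only [CL.mk.injEq, true_and, and_true]
  simp only [get_put _ _ l r hr]
  by_cases h1 : p / C.k = l.length
  · simp only [h1, if_true, Option.some.injEq, exists_eq_left']
  · simp only [h1, if_false]

end main

end Sim

open Sim in
theorem Cod.sim {A : Type} {M : LBA A} {ix : A → ℕ} (C : Cod M ix) (F1 F2 : Set M.Q) (N : ℕ)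
    (c : Conf M.Q (A ⊕ M.W)) (hr : c.2.2 ≠ []) (hlen : c.2.1.length + c.2.2.length = N / C.k)
    (htb : C.tb.length * C.k ≤ N) (c' : List CL) :
    UStep (C.code F1 F2 N c) c' ↔ ∃ d, M.Step c d ∧ c' = C.code F1 F2 N d := by
  classical
  have hk := k_pos C
  have hln := lt_n C N c hr hlen
  have hkN := k_le C N c hr hlen
  unfold UStep
  rw [kc_code C F1 F2 N c hkN, length_code]
  constructor
  · rintro ⟨e, -, h, -, hm, rfl⟩
    rw [match_iff C F1 F2 N c hr hlen htb] at hm
    obtain ⟨rfl, y, hy, hy1⟩ := hm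
    refine ⟨(y.2.1, put y.2.2.1 y.2.2.2 c.2), ?_, next_eq C F1 F2 N c hr hlen htb e y hy⟩
    refine ⟨c.2.2.head hr, c.2.2.tail, (List.cons_head_tail hr).symm, y.2, ?_, rfl⟩
    rw [← C.tb_mem]
    have h1 : y ∈ C.tb := List.mem_of_getElem? hy
    rw [show y = (y.1, y.2) from rfl, hy1] at h1
    exact h1
  · rintro ⟨d, ⟨γ, r, h1, x, hx, rfl⟩, rfl⟩
    rw [← C.tb_mem] at hx
    obtain ⟨e, he⟩ := List.mem_iff_getElem?.1 hx
    have hel : e < C.tb.length := by
      by_contra hcon
      rw [List.getElem?_eq_none (by omega)] at he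
      cases he
    have heN : e < N := by
      have : C.tb.length * 1 ≤ C.tb.length * C.k := Nat.mul_le_mul_left _ hk
      omega
    have hlN : c.2.1.length < N := lt_of_lt_of_le hln (Nat.div_le_self _ _)
    refine ⟨e, heN, c.2.1.length, hlN, ?_, (next_eq C F1 F2 N c hr hlen htb e _ he).symm⟩
    rw [match_iff C F1 F2 N c hr hlen htb]
    refine ⟨rfl, _, he, ?_⟩
    have h2 : c.2.2.head hr = γ := by
      simp only [h1, List.head_cons]
    have h3 : c.2.2.tail = r := by
      rw [h1, List.tail_cons]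
    rw [h2, h3]

end Pool.Agent.Book19
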