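import Pool.Agent.Book19.Rel
import Pool.Agent.Book19.Letter

/-!
# The universal step relation is in the class `UP`
-/

set_option autoImplicit false

namespace Pool.Agent.Book19

open Turing Computability Filter Topology Pool.Agent.PT Relation

namespace StepUP

variable {Γ : Type}

/-- A letter at a position with a property which depends on the word. -/
theorem atG [Fintype Γ] {P : Γ → List Γ → (ℕ → ℕ) → Prop} {f : List Γ → (ℕ → ℕ) → ℕ}
    (hf : UF f) (hP : ∀ a, UP (P a)) :
    UP (fun x e => At x (f x e) (fun a => P a x e)) := by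
  refine (UP.fex (fun a : Γ => (UP.sym a hf).and (hP a))).congr fun x e => ?_
  rfl

theorem at_map_fst (w : List (CL × CL)) (p : ℕ) (P : CL → Prop) :
    At (w.map Prod.fst) p P ↔ At w p (fun a => P a.1) := by
  unfold At
  rw [List.getElem?_map]
  constructor
  · rintro ⟨a, ha, hP⟩
    rw [Option.map_eq_some_iff] at ha
    obtain ⟨b, hb, rfl⟩ := ha
    exact ⟨b, hb, hP⟩
  · rintro ⟨b, hb, hP⟩
    exact ⟨b.1, by rw [hb]; rfl, hP⟩

/-- block length of the first track -/
def K (w : List (CL × CL)) : ℕ := kc (w.map Prod.fst)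

theorem uf_K : UF (fun (w : List (CL × CL)) _ => K w) := by
  refine (UF.countP (fun a : CL × CL => a.1.km)).congr fun x e => ?_
  unfold K kc
  rw [List.countP_map]
  rfl

theorem uf_n : UF (fun (w : List (CL × CL)) _ => w.length / K w) := UF.div UF.len uf_K

/-- The property of a table entry used in `Match`. -/
def MP (w : List (CL × CL)) (_e h j : ℕ) (a : CL × CL) : Prop :=
  ∃ t, a.1.tab = some t ∧
    (t.tq = true ↔ At w (h * K w + j) (fun b => b.1.st = true)) ∧
    (t.ts = true ↔ At w (h * K w + j) (fun b => b.1.sym = true)) ∧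
    (t.le = true ↔ h = 0) ∧ (t.re = true ↔ h + 1 = w.length / K w)

theorem match_iff (w : List (CL × CL)) (e h : ℕ) :
    Match (w.map Prod.fst) (K w) (w.length / K w) e h ↔
      h < w.length / K w ∧ ∀ j, j < K w → At w (e * K w + j) (MP w e h j) := by
  unfold Match MP
  simp only [at_map_fst]

theorem up_match : UP (fun (w : List (CL × CL)) v =>
    Match (w.map Prod.fst) (K w) (w.length / K w) (v 0) (v 1)) := by
  -- variables in the inner formula: v 0 = j, v 1 = e, v 2 = h
  have hpos : UF (fun (w : List (CL × CL)) v => v 2 * K w + v 0) :=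
    ((UF.var 2).mul uf_K).add (UF.var 0)
  have hst : UP (fun (w : List (CL × CL)) v =>
      At w (v 2 * K w + v 0) (fun b => b.1.st = true)) := UP.at' _ hpos
  have hsym : UP (fun (w : List (CL × CL)) v =>
      At w (v 2 * K w + v 0) (fun b => b.1.sym = true)) := UP.at' _ hpos
  have hle : UP (fun (w : List (CL × CL)) v => v 2 = 0) := UP.eq (UF.var 2) (UF.const 0)
  have hre : UP (fun (w : List (CL × CL)) v => v 2 + 1 = w.length / K w) :=
    UP.eq ((UF.var 2).add (UF.const 1)) uf_n
  have hMP : ∀ a, UP (fun (w : List (CL × CL)) v => MP w (v 1) (v 2) (v 0) a) := by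
    intro a
    refine UP.fex fun t => (UP.const _).and ?_
    exact ((UP.const _).iff hst).and (((UP.const _).iff hsym).and
      (((UP.const _).iff hle).and ((UP.const _).iff hre)))
  have hat : UP (fun (w : List (CL × CL)) v =>
      At w (v 1 * K w + v 0) (fun a => MP w (v 1) (v 2) (v 0) a)) :=
    atG (((UF.var 1).mul uf_K).add (UF.var 0)) hMP
  have hall : UP (fun (w : List (CL × CL)) v =>
      ∀ j, j < K w → At w (v 0 * K w + j) (MP w (v 0) (v 1) j)) :=
    UP.ball (P := fun w v j => At w (v 0 * K w + j) (MP w (v 0) (v 1) j)) uf_K hat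
  exact ((UP.lt (UF.var 1) uf_n).and hall).congr fun w v => (match_iff w _ _).symm

/-- The new letter. -/
def NL (w : List (CL × CL)) (e h p : ℕ) (a : CL × CL) : Prop :=
  a.2.km = a.1.km ∧ a.2.tab = a.1.tab ∧ a.2.f1 = a.1.f1 ∧ a.2.f2 = a.1.f2 ∧
    (a.2.sym = true ↔ ((p / K w = h ∧ At w (e * K w + p % K w) (fun b => ∃ t, b.1.tab = some t ∧
      t.ts' = true)) ∨ (¬ p / K w = h ∧ a.1.sym = true))) ∧
    (a.2.st = true ↔ (p / K w = tgt (w.map Prod.fst) (K w) (w.length / K w) e h ∧
      At w (e * K w + p % K w) (fun b => ∃ t, b.1.tab = some t ∧ t.tq' = true)))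

theorem next_iff (w : List (CL × CL)) (e h p : ℕ) (a : CL × CL) (ha : w[p]? = some a) :
    a.2 = nextL (w.map Prod.fst) (K w) (w.length / K w) e h p ↔ NL w e h p a := by
  classical
  have hg : (w.map Prod.fst).getD p default = a.1 := by
    rw [List.getD_eq_getElem?_getD, List.getElem?_map, ha]
    rfl
  obtain ⟨a1, ⟨km, tab, f1, f2, sym, st⟩⟩ := a
  unfold nextL NL
  rw [hg]
  simp only [CL.mk.injEq, at_map_fst]
  refine and_congr Iff.rfl (and_congr Iff.rfl (and_congr Iff.rfl (and_congr Iff.rfl
    (and_congr ?_ ?_))))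
  · split_ifs with h1
    · simp only [h1, true_and, not_true_eq_false, false_and, or_false]
      rw [eq_comm, Bool.eq_iff_iff, decide_eq_true_iff]
      exact Iff.comm
    · simp only [h1, false_and, not_false_eq_true, true_and, false_or]
      rw [Bool.eq_iff_iff]
  · rw [Bool.eq_iff_iff, decide_eq_true_iff]

theorem uf_tgt : UF (fun (w : List (CL × CL)) v =>
    tgt (w.map Prod.fst) (K w) (w.length / K w) (v 0) (v 1)) := by
  have h0 : UF (fun (w : List (CL × CL)) v => v 0 * K w) := (UF.var 0).mul uf_K
  have hr : UP (fun (w : List (CL × CL)) v => At (w.map Prod.fst) (v 0 * K w)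
      (fun a => ∃ t, a.tab = some t ∧ t.dir = Dir.right)) :=
    (UP.at' (fun a : CL × CL => ∃ t, a.1.tab = some t ∧ t.dir = Dir.right) h0).congr
      fun w v => (at_map_fst w (v 0 * K w) (fun a => ∃ t, a.tab = some t ∧ t.dir = Dir.right)).symm
  have hl : UP (fun (w : List (CL × CL)) v => At (w.map Prod.fst) (v 0 * K w)
      (fun a => ∃ t, a.tab = some t ∧ t.dir = Dir.left)) :=
    (UP.at' (fun a : CL × CL => ∃ t, a.1.tab = some t ∧ t.dir = Dir.left) h0).congr
      fun w v => (at_map_fst w (v 0 * K w) (fun a => ∃ t, a.tab = some t ∧ t.dir = Dir.left)).symm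
  unfold tgt
  exact UF.ite hr (UF.ite (UP.lt ((UF.var 1).add (UF.const 1)) uf_n)
    ((UF.var 1).add (UF.const 1)) (UF.var 1))
    (UF.ite hl ((UF.var 1).sub (UF.const 1)) (UF.var 1))

theorem up_next : UP (fun (w : List (CL × CL)) v =>
    ∀ p, p < w.length → At w p (fun a => NL w (v 0) (v 1) p a)) := by
  -- variables: v 0 = p, v 1 = e, v 2 = h
  have htgt : UF (fun (w : List (CL × CL)) v =>
      tgt (w.map Prod.fst) (K w) (w.length / K w) (v 1) (v 2)) :=
    UF.comp₂ (f := fun w a b => tgt (w.map Prod.fst) (K w) (w.length / K w) a b) uf_tgt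
      (UF.var 1) (UF.var 2)
  have hdiv : UF (fun (w : List (CL × CL)) v => v 0 / K w) := (UF.var 0).div uf_K
  have hpos : UF (fun (w : List (CL × CL)) v => v 1 * K w + v 0 % K w) :=
    ((UF.var 1).mul uf_K).add ((UF.var 0).mod uf_K)
  have hts : UP (fun (w : List (CL × CL)) v => At w (v 1 * K w + v 0 % K w)
      (fun b => ∃ t, b.1.tab = some t ∧ t.ts' = true)) := UP.at' _ hpos
  have htq : UP (fun (w : List (CL × CL)) v => At w (v 1 * K w + v 0 % K w)
      (fun b => ∃ t, b.1.tab = some t ∧ t.tq' = true)) := UP.at' _ hpos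
  have heq : UP (fun (w : List (CL × CL)) v => v 0 / K w = v 2) := UP.eq hdiv (UF.var 2)
  have hNL : ∀ a, UP (fun (w : List (CL × CL)) v => NL w (v 1) (v 2) (v 0) a) := by
    intro a
    refine (UP.const _).and ((UP.const _).and ((UP.const _).and ((UP.const _).and
      (UP.and ?_ ?_))))
    · exact (UP.const _).iff ((heq.and hts).or (heq.not.and (UP.const _)))
    · exact (UP.const _).iff ((UP.eq hdiv htgt).and htq)
  have hat : UP (fun (w : List (CL × CL)) v =>
      At w (v 0) (fun a => NL w (v 1) (v 2) (v 0) a)) := atG (UF.var 0) hNL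
  exact UP.ball (P := fun w v p => At w p (fun a => NL w (v 0) (v 1) p a)) UF.len hat

theorem eq_map_iff (w : List (CL × CL)) (e h : ℕ) :
    w.map Prod.snd = (List.range (w.map Prod.fst).length).map
        (nextL (w.map Prod.fst) (K w) (w.length / K w) e h) ↔
      ∀ p, p < w.length → At w p (fun a => NL w e h p a) := by
  constructor
  · intro H p hp
    have ha : w[p]? = some w[p] := List.getElem?_eq_getElem hp
    refine ⟨w[p], ha, (next_iff w e h p _ ha).1 ?_⟩
    have h1 := congrArg (fun l => l[p]?) H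
    simp only [List.getElem?_map, ha, List.length_map] at h1
    rw [List.getElem?_range hp] at h1
    simpa using h1
  · intro H
    apply List.ext_getElem?
    intro p
    by_cases hp : p < w.length
    · obtain ⟨a, ha, hN⟩ := H p hp
      rw [List.getElem?_map, List.getElem?_map, ha, List.length_map, List.getElem?_range hp]
      simp only [Option.map_some]
      rw [(next_iff w e h p a ha).2 hN]
    · rw [List.getElem?_eq_none (by simpa using hp), List.getElem?_eq_none (by simpa using hp)]

end StepUP

open StepUP in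
theorem up_stepLang : UP (fun (x : List (CL × CL)) _ => x ∈ StepLang) := by
  have h1 : UP (fun (w : List (CL × CL)) v =>
      Match (w.map Prod.fst) (K w) (w.length / K w) (v 0) (v 1) ∧
        ∀ p, p < w.length → At w p (fun a => NL w (v 0) (v 1) p a)) := up_match.and up_next
  have h2 : UP (fun (w : List (CL × CL)) v => ∃ h, h < w.length ∧
      (Match (w.map Prod.fst) (K w) (w.length / K w) (v 0) h ∧
        ∀ p, p < w.length → At w p (fun a => NL w (v 0) h p a))) :=
    UP.bex (P := fun w v h => Match (w.map Prod.fst) (K w) (w.length / K w) (v 0) h ∧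
        ∀ p, p < w.length → At w p (fun a => NL w (v 0) h p a)) UF.len
      (UP.comp₂ (P := fun w a b => Match (w.map Prod.fst) (K w) (w.length / K w) a b ∧
        ∀ p, p < w.length → At w p (fun c => NL w a b p c)) h1 (UF.var 1) (UF.var 0))
  have h3 : UP (fun (w : List (CL × CL)) _ => ∃ e, e < w.length ∧ ∃ h, h < w.length ∧
      (Match (w.map Prod.fst) (K w) (w.length / K w) e h ∧
        ∀ p, p < w.length → At w p (fun a => NL w e h p a))) :=
    UP.bex (P := fun w _ e => ∃ h, h < w.length ∧
      (Match (w.map Prod.fst) (K w) (w.length / K w) e h ∧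
        ∀ p, p < w.length → At w p (fun a => NL w e h p a))) UF.len h2
  refine h3.congr fun w v => ?_
  unfold StepLang UStep
  simp only [Set.mem_ofPred_eq]
  have hl : (w.map Prod.fst).length = w.length := List.length_map _
  constructor
  · rintro ⟨e, he, h, hh, hm, hn⟩
    refine ⟨e, by rw [hl]; exact he, h, by rw [hl]; exact hh, ?_, ?_⟩
    · rw [hl]; exact hm
    · have := (eq_map_iff w e h).2 hn
      rw [this]
      simp only [hl]
      rfl
  · rintro ⟨e, he, h, hh, hm, hn⟩
    rw [hl] at he hh hm
    refine ⟨e, he, h, hh, hm, (eq_map_iff w e h).1 ?_⟩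
    rw [hn]
    simp only [hl]
    rfl

end Pool.Agent.Book19
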