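import Pool.Agent.Book19.Rel
import Pool.Agent.Book19.Letter

/-!
# The advice track (package BK10)
-/

set_option autoImplicit false

namespace Pool.Agent.Book19

theorem length_trk {A : Type} (x : List A) (h : List Bool) : (trk x h).length = x.length := by
  induction x generalizing h with
  | nil => rfl
  | cons a x ih => cases h <;> simp [trk, ih]

theorem map_fst_trk {A : Type} (x : List A) (h : List Bool) : (trk x h).map Prod.fst = x := by
  induction x generalizing h with
  | nil => rfl
  | cons a x ih => cases h <;> simp [trk, ih]

theorem trk_eq_zip {A : Type} (x : List A) (h : List Bool) :
    trk x h = x.zip ((trk x h).map Prod.snd) := by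
  induction x generalizing h with
  | nil => rfl
  | cons a x ih =>
    cases h with
    | nil =>
      rw [trk, List.map_cons, List.zip_cons_cons, ← ih]
    | cons b h =>
      rw [trk, List.map_cons, List.zip_cons_cons, ← ih]

theorem trk_snd_eq {A B : Type} (x : List A) (y : List B) (h : List Bool)
    (hxy : x.length = y.length) : (trk x h).map Prod.snd = (trk y h).map Prod.snd := by
  induction x generalizing y h with
  | nil =>
    cases y with
    | nil => rfl
    | cons b y => simp at hxy
  | cons a x ih =>
    cases y with
    | nil => simp at hxy
    | cons b y =>
      have hxy' : x.length = y.length := by simpa using hxy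
      cases h with
      | nil => simp only [trk, List.map_cons, ih y [] hxy']
      | cons c h => simp only [trk, List.map_cons, ih y h hxy']

end Pool.Agent.Book19
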