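import Pool.Agent.Book19.Rel
import Pool.Agent.Book19.Letter

/-!
# The initial configuration word of the diagonal word
-/

set_option autoImplicit false

namespace Pool.Agent.Book19

open Turing Computability Filter Topology Pool.Agent.PT Relation

private theorem word_trk_get {A : Type} (x : List A) (h : List Bool) (i : ℕ) :
    (trk x h)[i]? = (x[i]?).map (fun a => (a, h[i]?)) := by
  induction x generalizing h i with
  | nil => simp [trk]
  | cons a x ih =>
    cases h with
    | nil =>
      cases i with
      | zero => simp [trk]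
      | succ i => simpa [trk] using ih [] i
    | cons b h =>
      cases i with
      | zero => simp [trk]
      | succ i => simpa [trk] using ih h i

private theorem word_countP (n k : ℕ) (hk : k ≤ n) :
    (List.range n).countP (fun i => decide (i < k)) = k := by
  induction n with
  | zero => simp at hk; simp [hk]
  | succ n ih =>
    rw [List.range_succ, List.countP_append]
    rcases Nat.lt_or_ge n k with h | h
    · have hkn : k = n + 1 := by omega
      subst hkn
      have h1 : (List.range n).countP (fun i => decide (i < n + 1)) = n := by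
        rw [List.countP_eq_length.2]
        · simp
        · intro a ha
          have := List.mem_range.1 ha
          simp; omega
      rw [h1]; simp
    · rw [ih h]; simp; omega

variable {M : LBA (UL × Option Bool)}

private theorem word_len (C : Cod M ixU) (F1 F2 : Set M.Q) (n r : ℕ) (κ w β : List Bool) :
    (C.uw F1 F2 n r κ w β).length = n := by
  simp [Cod.uw]

private theorem word_ku (C : Cod M ixU) (F1 F2 : Set M.Q) (n r : ℕ) (κ w β : List Bool)
    (hk : C.k ≤ n) : ku (C.uw F1 F2 n r κ w β) = C.k := by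
  unfold ku Cod.uw
  rw [List.countP_map]
  exact word_countP n C.k hk

private theorem word_rm (C : Cod M ixU) (F1 F2 : Set M.Q) (n r : ℕ) (κ w β : List Bool)
    (hr : r ≤ n) : (C.uw F1 F2 n r κ w β).countP (fun a => a.rm) = r := by
  unfold Cod.uw
  rw [List.countP_map]
  exact word_countP n r hr

private theorem word_Nu (C : Cod M ixU) (F1 F2 : Set M.Q) (n r : ℕ) (κ w β : List Bool)
    (hr : r < C.k) (hk : C.k ≤ n) : Nu (C.uw F1 F2 n r κ w β) = C.k * n + r := by
  unfold Nu
  rw [word_ku C F1 F2 n r κ w β hk, word_len, word_rm C F1 F2 n r κ w β (by omega)]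

private theorem word_get (C : Cod M ixU) (F1 F2 : Set M.Q) (n r : ℕ) (κ w β : List Bool)
    (i : ℕ) (hi : n ≤ i) : (C.uw F1 F2 n r κ w β)[i]? = none := by
  rw [List.getElem?_eq_none_iff, word_len]
  exact hi

open Classical in
private theorem word_get' (C : Cod M ixU) (F1 F2 : Set M.Q) (n r : ℕ) (κ w β : List Bool)
    (i : ℕ) (hi : i < n) : (C.uw F1 F2 n r κ w β)[i]? = some
      { km := decide (i < C.k)
        rm := decide (i < r)
        ini := decide (i = C.q M.start)
        tab := C.tabL i
        f1 := decide (∃ x ∈ F1, C.q x = i)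
        f2 := decide (∃ x ∈ F2, C.q x = i)
        κ := κ[i]?
        w := w[i]?
        β := β[i]? } := by
  unfold Cod.uw
  rw [List.getElem?_map, List.getElem?_range hi]
  rfl

theorem Cod.length_c0 {M : LBA (UL × Option Bool)} (C : Cod M ixU) (F1 F2 : Set M.Q) (n r : ℕ)
    (κ w β : List Bool) (hr : r < C.k) (hk : C.k ≤ n) :
    (c0 (C.uw F1 F2 n r κ w β)).length = C.k * n + r := by
  unfold c0
  rw [List.length_map, List.length_range, word_Nu C F1 F2 n r κ w β hr hk]

theorem Cod.gU_uw {M : LBA (UL × Option Bool)} (C : Cod M ixU) (F1 F2 : Set M.Q) (n r : ℕ)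
    (κ w β : List Bool) (hr : r < C.k) (hk : C.k ≤ n) (hκ : κ.length ≤ n) (hw : w.length ≤ n) :
    gU (C.uw F1 F2 n r κ w β) = trk (trk (c0 (C.uw F1 F2 n r κ w β)) κ) w := by
  classical
  apply List.ext_getElem?
  intro i
  rw [word_trk_get, word_trk_get, Option.map_map]
  unfold gU c0
  rw [List.getElem?_map, List.getElem?_map, Option.map_map]
  rcases Nat.lt_or_ge i (Nu (C.uw F1 F2 n r κ w β)) with h | h
  · rw [List.getElem?_range h]
    simp only [Option.map_some, Function.comp, Option.some.injEq]
    unfold gL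
    rcases Nat.lt_or_ge i n with h1 | h1
    · rw [word_get' C F1 F2 n r κ w β i h1]
      rfl
    · rw [word_get C F1 F2 n r κ w β i h1, List.getElem?_eq_none (by omega : κ.length ≤ i),
        List.getElem?_eq_none (by omega : w.length ≤ i)]
      rfl
  · rw [List.getElem?_eq_none (by rw [List.length_range]; exact h)]
    rfl

private theorem word_at (C : Cod M ixU) (F1 F2 : Set M.Q) (n r : ℕ) (κ w β : List Bool)
    (i : ℕ) (P : UL → Prop) (hi : n ≤ i) : ¬ At (C.uw F1 F2 n r κ w β) i P := by
  rintro ⟨a, h, _⟩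
  rw [word_get C F1 F2 n r κ w β i hi] at h
  exact absurd h (by simp)

open Classical in
private theorem word_at' (C : Cod M ixU) (F1 F2 : Set M.Q) (n r : ℕ) (κ w β : List Bool)
    (i : ℕ) (P : UL → Prop) (hi : i < n) : At (C.uw F1 F2 n r κ w β) i P ↔ P
      { km := decide (i < C.k)
        rm := decide (i < r)
        ini := decide (i = C.q M.start)
        tab := C.tabL i
        f1 := decide (∃ x ∈ F1, C.q x = i)
        f2 := decide (∃ x ∈ F2, C.q x = i)
        κ := κ[i]?
        w := w[i]?
        β := β[i]? } := by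
  unfold At
  rw [word_get' C F1 F2 n r κ w β i hi]
  simp

theorem Cod.c0_uw {M : LBA (UL × Option Bool)} (C : Cod M ixU) (F1 F2 : Set M.Q) (n r : ℕ)
    (κ w β : List Bool) (hr : r < C.k) (hk : C.k ≤ n) (htb : C.tb.length * C.k ≤ n)
    (hβ : β.length ≤ n) :
    c0 (C.uw F1 F2 n r κ w β) = C.code F1 F2 (C.k * n + r) (M.init (trk (C.uw F1 F2 n r κ w β) β)) := by
  classical
  have hk0 : 0 < C.k := by omega
  unfold c0 Cod.code
  rw [word_Nu C F1 F2 n r κ w β hr hk]
  refine List.map_congr_left fun p hp => ?_
  have hmod : p % C.k < C.k := Nat.mod_lt _ hk0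
  unfold c0L Cod.lett
  rw [word_ku C F1 F2 n r κ w β hk]
  have e1 : At (C.uw F1 F2 n r κ w β) p (fun a => a.km = true) ↔ p < C.k := by
    rcases Nat.lt_or_ge p n with h | h
    · rw [word_at' C F1 F2 n r κ w β p _ h]; simp
    · exact iff_of_false (word_at C F1 F2 n r κ w β p _ h) (by omega)
  have e2 : ((C.uw F1 F2 n r κ w β)[p]?).bind (fun a => a.tab) = C.tabL p := by
    rcases Nat.lt_or_ge p n with h | h
    · rw [word_get' C F1 F2 n r κ w β p h]; rfl
    · rw [word_get C F1 F2 n r κ w β p h]
      unfold Cod.tabL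
      rw [List.getElem?_eq_none ((Nat.le_div_iff_mul_le hk0).2 (htb.trans h))]
      rfl
  have e3 : At (C.uw F1 F2 n r κ w β) (p % C.k) (fun a => a.f1 = true) ↔
      ∃ x ∈ F1, C.q x = p % C.k := by
    rw [word_at' C F1 F2 n r κ w β (p % C.k) _ (by omega)]; simp
  have e4 : At (C.uw F1 F2 n r κ w β) (p % C.k) (fun a => a.f2 = true) ↔
      ∃ x ∈ F2, C.q x = p % C.k := by
    rw [word_at' C F1 F2 n r κ w β (p % C.k) _ (by omega)]; simp
  have e5 : At (C.uw F1 F2 n r κ w β) (p / C.k) (fun a => ixU (a, a.β) = p % C.k) ↔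
      ∃ γ, ((M.init (trk (C.uw F1 F2 n r κ w β) β)).2.1.reverse ++
        (M.init (trk (C.uw F1 F2 n r κ w β) β)).2.2)[p / C.k]? = some γ ∧
        C.s γ = p % C.k := by
    have h0 : (M.init (trk (C.uw F1 F2 n r κ w β) β)).2.1.reverse ++
        (M.init (trk (C.uw F1 F2 n r κ w β) β)).2.2 =
        (trk (C.uw F1 F2 n r κ w β) β).map Sum.inl := by
      simp [LBA.init]
    rw [h0, List.getElem?_map, word_trk_get, Option.map_map]
    rcases Nat.lt_or_ge (p / C.k) n with h | h
    · rw [word_at' C F1 F2 n r κ w β (p / C.k) _ h, word_get' C F1 F2 n r κ w β (p / C.k) h]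
      simp only [Option.map_some, Function.comp, Option.some.injEq]
      constructor
      · intro h1
        exact ⟨_, rfl, by rw [C.s_inl]; exact h1⟩
      · rintro ⟨γ, rfl, h1⟩
        rw [C.s_inl] at h1
        exact h1
    · refine iff_of_false (word_at C F1 F2 n r κ w β (p / C.k) _ h) ?_
      rw [word_get C F1 F2 n r κ w β (p / C.k) h]
      rintro ⟨γ, h1, _⟩
      exact absurd h1 (by simp)
  have e6 : At (C.uw F1 F2 n r κ w β) p (fun a => a.ini = true) ↔
      (p / C.k = (M.init (trk (C.uw F1 F2 n r κ w β) β)).2.1.length ∧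
        C.q (M.init (trk (C.uw F1 F2 n r κ w β) β)).1 = p % C.k) := by
    have h0 : (M.init (trk (C.uw F1 F2 n r κ w β) β)).2.1.length = 0 := rfl
    have h1 : (M.init (trk (C.uw F1 F2 n r κ w β) β)).1 = M.start := rfl
    rw [h0, h1]
    have hq := C.q_lt M.start
    rcases Nat.lt_or_ge p n with h | h
    · rw [word_at' C F1 F2 n r κ w β p _ h]
      simp only [decide_eq_true_eq]
      constructor
      · intro h2
        rw [h2]
        exact ⟨Nat.div_eq_of_lt hq, (Nat.mod_eq_of_lt hq).symm⟩
      · rintro ⟨h2, h3⟩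
        have h4 : p < C.k := by
          rcases Nat.div_eq_zero_iff.1 h2 with h5 | h5
          · omega
          · exact h5
        rw [Nat.mod_eq_of_lt h4] at h3
        exact h3.symm
    · refine iff_of_false (word_at C F1 F2 n r κ w β p _ h) ?_
      rintro ⟨h2, _⟩
      rcases Nat.div_eq_zero_iff.1 h2 with h5 | h5 <;> omega
  simp only [e1, e2, e3, e4, e5, e6]

end Pool.Agent.Book19
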