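import Pool.Agent.Book19.Comap
import Pool.Agent.Book19.ComapNP
import Pool.Agent.Book19.OfUP
import Pool.Agent.Book19.StepUP
import Pool.Agent.Book19.RedUP
import Pool.Agent.Book19.CodEx
import Pool.Agent.Book19.Sim
import Pool.Agent.Book19.CodeLem
import Pool.Agent.Book19.Word
import Pool.Agent.Book19.Trk
import Pool.Agent.Book19.DIter

/-!
# The diagonal argument
-/

set_option autoImplicit false

namespace Pool.Agent.Book19

open Turing Computability Filter Topology Pool.Agent.PT Relation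

theorem ixU_inj : Function.Injective ixU := fun _ _ h =>
  (Fintype.equivFin (UL × Option Bool)).injective (Fin.ext h)

/-- The properties of the time classes used in the proof. -/
structure GoodD (𝒟 : ∀ A : Type, Set (List A) → Prop) : Prop where
  of_UP : ∀ {A : Type} [Fintype A] {L : Set (List A)}, UP (fun x _ => x ∈ L) → 𝒟 A L
  comap : ∀ {A B : Type} [Fintype A] [Fintype B] {L : Set (List A)}, 𝒟 A L →
    ∀ (g : List B → List A) (N : List B → ℕ) (lt : List B → ℕ → A),
    UF (fun u _ => N u) → (∀ a, UP (fun u e => lt u (e 0) = a)) →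
    (∀ u, g u = (List.range (N u)).map (lt u)) → 𝒟 B {u | g u ∈ L}

theorem goodD_P : GoodD InP where
  of_UP := fun h => inP_of_UP h
  comap := fun hL g N lt hN hl hg => hL.comap g N lt hN hl hg

theorem goodD_NP : GoodD InNPc where
  of_UP := fun h => inNPc_of_UP h
  comap := fun hL g N lt hN hl hg => InNPc.comap hL g N lt hN hl hg

theorem eventually_len {h : ℕ → List Bool}
    (hh : Tendsto (fun n : ℕ => ((h n).length : ℝ) / n) atTop (𝓝 0)) (k : ℕ) (hk : 0 < k) :
    ∀ᶠ N : ℕ in atTop, (h N).length ≤ N / k := by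
  have h1 : ∀ᶠ N : ℕ in atTop, ((h N).length : ℝ) / N < 1 / (2 * k) :=
    hh.eventually (gt_mem_nhds (by positivity))
  filter_upwards [h1, eventually_ge_atTop (2 * k)] with N hN hN2
  have hkR : (0 : ℝ) < k := by exact_mod_cast hk
  have hNpos : (0 : ℝ) < N := by
    have : 0 < N := by omega
    exact_mod_cast this
  rw [div_lt_iff₀ hNpos] at hN
  have h2 : 2 * k * (h N).length ≤ N := by
    have h3 : (2 * k * (h N).length : ℝ) ≤ N := by
      have : (2 * k : ℝ) * (h N).length ≤ (2 * k) * (1 / (2 * k) * N) := by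
        gcongr
      calc (2 * k * (h N).length : ℝ) ≤ (2 * k) * (1 / (2 * k) * N) := this
        _ = N := by field_simp
    exact_mod_cast h3
  rw [Nat.le_div_iff_mul_le hk]
  nlinarith

theorem exists_N {κ w β : ℕ → List Bool} {P : ℕ → Prop}
    (hκ : Tendsto (fun n : ℕ => ((κ n).length : ℝ) / n) atTop (𝓝 0))
    (hw : Tendsto (fun n : ℕ => ((w n).length : ℝ) / n) atTop (𝓝 0))
    (hβ : Tendsto (fun n : ℕ => ((β n).length : ℝ) / n) atTop (𝓝 0))
    (hP : ∃ᶠ n in atTop, P n) (k E : ℕ) (hk : 0 < k) :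
    ∃ N, P N ∧ k ≤ N / k ∧ E * k ≤ N / k ∧ (κ N).length ≤ N / k ∧ (w N).length ≤ N / k ∧
      (β (N / k)).length ≤ N / k := by
  have h1 := eventually_len hκ k hk
  have h2 := eventually_len hw k hk
  have h3 : ∀ᶠ m : ℕ in atTop, (β m).length ≤ m := by
    have := eventually_len hβ 1 one_pos
    simpa using this
  have hdiv : Tendsto (fun N : ℕ => N / k) atTop atTop := Nat.tendsto_div_const_atTop hk.ne'
  have h4 := hdiv.eventually h3
  have h5 := hdiv.eventually (eventually_ge_atTop k)
  have h6 := hdiv.eventually (eventually_ge_atTop (E * k))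
  obtain ⟨N, hN1, hN2, hN3, hN4, hN5, hN6⟩ :=
    (hP.and_eventually (h1.and (h2.and (h4.and (h5.and h6))))).exists
  exact ⟨N, hN1, hN5, hN6, hN2, hN3, hN4⟩

/-- `Rl` for the step language with the right advice is the universal step. -/
theorem rl_iff {W' : Set (List ((CL × CL) × Option Bool))} {κ : ℕ → List Bool}
    (hW : ∀ x : List (CL × CL), x ∈ StepLang ↔ trk x (κ x.length) ∈ W')
    (x : List CL) (c c' : List CL) (hx : x.length = c.length) :
    Rl W' ((trk x (κ x.length)).map Prod.snd) c c' ↔ c'.length = c.length ∧ UStep c c' := by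
  unfold Rl
  refine and_congr_right fun hl => ?_
  have h1 : (c.zip c').length = x.length := by rw [List.length_zip, hl, hx]; simp
  have h2 := hW (c.zip c')
  rw [trk_eq_zip, h1, trk_snd_eq (c.zip c') x (κ x.length) h1] at h2
  rw [← h2]
  unfold StepLang
  rw [Set.mem_ofPred_eq, List.map_fst_zip (by rw [hl]), List.map_snd_zip (by rw [hl])]

theorem UStep.length {c c' : List CL} (h : UStep c c') : c'.length = c.length := by
  obtain ⟨e, _, h, _, _, rfl⟩ := h
  simp

theorem DLBA.step_eq {A : Type} (D : DLBA A) {c : Conf D.Q (A ⊕ D.W)} {γ : A ⊕ D.W}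
    {r : List (A ⊕ D.W)} (h : c.2.2 = γ :: r) :
    D.step c = ((D.δ c.1 γ c.2.1.isEmpty r.isEmpty).1,
      put (D.δ c.1 γ c.2.1.isEmpty r.isEmpty).2.1 (D.δ c.1 γ c.2.1.isEmpty r.isEmpty).2.2 c.2) := by
  unfold DLBA.step
  split
  · rename_i h'
    rw [h] at h'
    cases h'
  · rename_i γ' r' h'
    rw [h] at h'
    obtain ⟨rfl, rfl⟩ := List.cons.inj h'
    rfl

theorem DLBA.step_iff {A : Type} (D : DLBA A) (c : Conf D.Q (A ⊕ D.W)) (hc : c.2.2 ≠ [])
    (ho : D.out c.1 = none) (d : Conf D.Q (A ⊕ D.W)) :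
    D.toLBA.Step c d ↔ d = D.step c := by
  obtain ⟨γ, l, hγ⟩ := List.exists_cons_of_ne_nil hc
  rw [D.step_eq hγ]
  constructor
  · rintro ⟨γ', l', h3, x, ⟨_, hx⟩, hd⟩
    rw [hγ] at h3
    obtain ⟨rfl, rfl⟩ := List.cons.inj h3
    rw [hd, hx]
  · intro hd
    exact ⟨γ, l, hγ, _, ⟨ho, rfl⟩, hd⟩

/-- The pairs with deterministic linear space. -/
theorem core_det (𝒟 : ∀ A : Type, Set (List A) → Prop) (h𝒟 : GoodD 𝒟) :
    ¬ (SubAdv 𝒟 InDLBA ∧ SubIoAdv InDLBA 𝒟) := by
  rintro ⟨h1, h2⟩
  obtain ⟨W', κ, hW', hκ, hWκ⟩ := h1 _ StepLang (h𝒟.of_UP up_stepLang)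
  let out : CL → Option Bool := fun a =>
    if a.st = true ∧ a.f1 = true then some false
    else if a.st = true ∧ a.f2 = true then some true else none
  obtain ⟨K, hK, hKi⟩ := dlba_iter W' hW' out
  obtain ⟨V, w, hV, hw, hio⟩ := h2 _ K hK
  have hV' : 𝒟 UL {u | gU u ∈ V} := h𝒟.comap hV gU Nu gL uf_Nu up_gL (fun _ => rfl)
  obtain ⟨M', β, ⟨D, hD⟩, hβ, hVβ⟩ := h1 _ _ hV'
  obtain ⟨C, hC⟩ := exists_cod D.toLBA ixU ixU_inj 1
  obtain ⟨N, hgood, hkn, hEn, hκn, hwn, hβn⟩ := exists_N hκ hw hβ hio C.k C.tb.length hC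
  set n := N / C.k with hn
  set r := N % C.k with hr
  have hNr : C.k * n + r = N := Nat.div_add_mod N C.k
  have hrk : r < C.k := Nat.mod_lt _ hC
  let F1 : Set D.toLBA.Q := {q | D.out q = some true}
  let F2 : Set D.toLBA.Q := {q | D.out q = some false}
  set u := C.uw F1 F2 n r (κ N) (w N) (β n) with hu
  have hulen : u.length = n := by rw [hu]; simp [Cod.uw]
  have hc0 : (c0 u).length = N := by rw [hu, C.length_c0 _ _ _ _ _ _ _ hrk hkn, hNr]
  -- the value of `D`
  have hne : trk u (β n) ≠ [] := by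
    intro h
    have := congrArg List.length h
    rw [length_trk, hulen] at this
    simp only [List.length_nil] at this
    omega
  obtain ⟨b, ⟨t, ht, htn⟩, hb⟩ := hD (trk u (β n)) hne
  have hu1 : u ∈ {u | gU u ∈ V} ↔ b = true := by
    rw [hVβ u, hulen, hb]
  have hu2 : u ∈ {u | gU u ∈ V} ↔ trk (c0 u) (κ N) ∈ K := by
    rw [Set.mem_ofPred_eq, hu, C.gU_uw _ _ _ _ _ _ _ hrk hkn hκn hwn, ← hu]
    exact (hgood (trk (c0 u) (κ N)) (by rw [length_trk, hc0])).symm
  -- the run
  let cf : ℕ → Conf D.Q ((UL × Option Bool) ⊕ D.W) := fun s => D.step^[s] (D.init (trk u (β n)))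
  have hstep : ∀ s, (cf s).2.2 ≠ [] → D.out (cf s).1 = none →
      ∀ d, D.toLBA.Step (cf s) d ↔ d = cf (s + 1) := by
    intro s hs hs2 d
    have e1 : cf (s + 1) = D.step (cf s) := Function.iterate_succ_apply' _ _ _
    rw [e1]
    exact D.step_iff (cf s) hs hs2 d
  have hinv : ∀ s ≤ t, (cf s).2.2 ≠ [] ∧ (cf s).2.1.length + (cf s).2.2.length = n := by
    intro s
    induction s with
    | zero =>
      intro _
      have e1 : cf 0 = (D.start, ([], (trk u (β n)).map Sum.inl)) := rfl
      rw [e1]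
      refine ⟨by simpa using hne, ?_⟩
      simp [length_trk, hulen]
    | succ s ih =>
      intro hs
      obtain ⟨h3, h4⟩ := ih (by omega)
      have h5 := LBA.Step.len ((hstep s h3 (htn s (by omega)) _).2 rfl)
      exact ⟨h5.2, h5.1.trans h4⟩
  let c : ℕ → List CL := fun s => C.code F1 F2 N (cf s)
  have hlen : ∀ s, (c s).length = N := fun s => by simp [c, Cod.code]
  have hv : trk (c0 u) (κ N) ≠ [] := by
    intro h
    have := congrArg List.length h
    rw [length_trk, hc0] at this
    simp only [List.length_nil] at this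
    rw [this] at hn
    simp only [Nat.zero_div] at hn
    omega
  have hf1 : ∀ s ≤ t, ∀ a ∈ c s, a.st = true ∧ a.f1 = true → D.out (cf s).1 = some true := by
    intro s hs a ha ha1
    exact (C.code_f1 F1 F2 N (cf s) (hinv s hs).1 (hinv s hs).2).1 ⟨a, ha, ha1⟩
  have hf2 : ∀ s ≤ t, ∀ a ∈ c s, a.st = true ∧ a.f2 = true → D.out (cf s).1 = some false := by
    intro s hs a ha ha1
    exact (C.code_f2 F1 F2 N (cf s) (hinv s hs).1 (hinv s hs).2).1 ⟨a, ha, ha1⟩
  have hfin : trk (c0 u) (κ N) ∈ K ↔ (!b) = true := by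
    refine hKi (trk (c0 u) (κ N)) c t (!b) hv ?_ ?_ ?_ ?_ ?_
    · rw [map_fst_trk]
      change C.code F1 F2 N (cf 0) = _
      rw [hu, C.c0_uw _ _ _ _ _ _ _ hrk hkn hEn hβn, hNr]
      rfl
    · intro s hs a ha
      have h3 := htn s hs
      simp only [out]
      split_ifs with h4 h5
      · have := hf1 s hs.le a ha h4
        rw [show D.out (cf s).1 = none from h3] at this
        cases this
      · have := hf2 s hs.le a ha h5
        rw [show D.out (cf s).1 = none from h3] at this
        cases this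
      · rfl
    · intro s hs c'
      have h3 := rl_iff hWκ (c0 u) (c s) c' (by rw [hc0, hlen])
      rw [hc0] at h3
      rw [h3]
      have h4 := C.sim F1 F2 N (cf s) (hinv s hs.le).1 (hinv s hs.le).2
        (hEn.trans (Nat.div_le_self _ _)) c'
      constructor
      · rintro ⟨_, h5⟩
        obtain ⟨d, hd, rfl⟩ := h4.1 h5
        rw [(hstep s (hinv s hs.le).1 (htn s hs) d).1 hd]
      · rintro rfl
        exact ⟨by rw [hlen, hlen], h4.2 ⟨_, (hstep s (hinv s hs.le).1 (htn s hs) _).2 rfl, rfl⟩⟩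
    · cases b with
      | true =>
        obtain ⟨a, ha, ha1⟩ := (C.code_f1 F1 F2 N (cf t) (hinv t le_rfl).1 (hinv t le_rfl).2).2 ht
        exact ⟨a, ha, by simp [out, ha1]⟩
      | false =>
        obtain ⟨a, ha, ha1⟩ := (C.code_f2 F1 F2 N (cf t) (hinv t le_rfl).1 (hinv t le_rfl).2).2 ht
        refine ⟨a, ha, ?_⟩
        have h3 : ¬ (a.st = true ∧ a.f1 = true) := by
          intro h4
          have := hf1 t le_rfl a ha h4
          rw [show D.out (cf t).1 = some false from ht] at this
          cases this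
        simp only [out, if_neg h3, if_pos ha1, Bool.not_false]
    · intro a ha
      simp only [out]
      split_ifs with h4 h5
      · left
        have := hf1 t le_rfl a ha h4
        rw [show D.out (cf t).1 = some b from ht] at this
        rw [Option.some.inj this]; rfl
      · left
        have := hf2 t le_rfl a ha h5
        rw [show D.out (cf t).1 = some b from ht] at this
        rw [Option.some.inj this]; rfl
      · right; rfl
  rw [hu2, hfin] at hu1
  cases b <;> simp at hu1

end Pool.Agent.Book19
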