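import Pool.Agent.Book19.LMach

/-!
# The iteration theorem for nondeterministic linear bounded automata
-/

set_option autoImplicit false

namespace Pool.Agent.Book19

open Relation

variable {S : Type} [Fintype S]

/-! ### Completeness -/

section complete

variable (M : LBA ((S × S) × Option Bool)) (acc : S → Prop)

/-- the fresh cell -/
def lFresh {W : Type} (x : (S × Option Bool) ⊕ LCell S W) (b : S) : LCell S W :=
  ⟨newA x, advO x, b, Sum.inl ((newA x, b), advO x)⟩

open Classical in
/-- the transducer of the sweep, with given guesses -/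
noncomputable def lG (σ : Bool × List S) (x : (S × Option Bool) ⊕ LCell S M.W) :
    (Bool × List S) × ((S × Option Bool) ⊕ LCell S M.W) :=
  ((σ.1 || decide (acc (newA x)), σ.2.tail), Sum.inr (lFresh x (σ.2.headD (newA x))))

open Classical in
theorem mealy_lG (xs : List ((S × Option Bool) ⊕ LCell S M.W)) : ∀ (bs : List S) (fl : Bool),
    bs.length = xs.length →
    (mealy (lG M acc) (fl, bs) xs).1.1 = (fl || decide (∃ x ∈ xs, acc (newA x))) ∧
    (mealy (lG M acc) (fl, bs) xs).2 = (List.zipWith lFresh xs bs).map Sum.inr := by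
  induction xs with
  | nil => intro bs fl _; simp
  | cons x xs ih =>
    intro bs fl hb
    cases bs with
    | nil => simp at hb
    | cons b bs =>
      obtain ⟨h1, h2⟩ := ih bs (fl || decide (acc (newA x))) (by simpa using hb)
      rw [mealy_cons]
      simp only [lG, List.tail_cons, List.headD_cons] at h1 h2 ⊢
      rw [h1, h2]
      refine ⟨?_, by simp⟩
      by_cases h3 : acc (newA x) <;> simp [h3]

theorem lSweep (xs : List ((S × Option Bool) ⊕ LCell S M.W)) (hxs : xs ≠ []) (bs : List S)
    (hb : bs.length = xs.length) :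
    ∃ (L : List (LCell S M.W)) (X : LCell S M.W), L.reverse ++ [X] = List.zipWith lFresh xs bs ∧
      ReflTransGen (itL M acc).Step (LSt.sw false, ([], xs))
        (by classical exact (if ∃ x ∈ xs, acc (newA x) then LSt.fin else LSt.rwR),
          (L.map Sum.inr, [Sum.inr X])) := by
  classical
  have h := sweep (itL M acc) (V := Bool × List S) (fun σ => LSt.sw σ.1)
    (fun σ => if σ.1 = true then LSt.fin else LSt.rwR) (lG M acc) (fun _ => True)
    (by
      intro σ x le _
      change _ ∈ itLδ M acc (LSt.sw σ.1) x le false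
      refine ⟨σ.2.headD (newA x), ?_⟩
      simp [lG, lFresh])
    (by
      intro σ x le _
      change _ ∈ itLδ M acc (LSt.sw σ.1) x le true
      refine ⟨σ.2.headD (newA x), ?_⟩
      simp only [lG, lFresh, if_true]
      split_ifs <;> rfl)
    xs [] (false, bs) hxs (fun _ _ => trivial)
  obtain ⟨l', y, h1, h2⟩ := h
  obtain ⟨h3, h4⟩ := mealy_lG M acc xs bs false hb
  rw [h3] at h2
  rw [h4] at h1
  simp only [List.reverse_nil, List.nil_append] at h1
  have h5 : ∃ (L : List (LCell S M.W)) (X : LCell S M.W), L.reverse ++ [X] =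
      List.zipWith lFresh xs bs ∧ l' = L.map Sum.inr ∧ y = Sum.inr X := by
    have hne : List.zipWith lFresh xs bs ≠ [] := by
      intro h
      have := congrArg List.length h
      rw [List.length_zipWith, hb, min_self] at this
      exact hxs (List.length_eq_zero_iff.1 this)
    refine ⟨(List.zipWith lFresh xs bs).dropLast.reverse, (List.zipWith lFresh xs bs).getLast hne,
      ?_, ?_⟩
    · rw [List.reverse_reverse, List.dropLast_append_getLast hne]
    · rw [← List.dropLast_append_getLast hne, List.map_append, List.map_cons, List.map_nil] at h1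
      have h6 := List.append_inj' h1 rfl
      refine ⟨?_, by simpa using h6.2⟩
      have := congrArg List.reverse h6.1
      rw [List.reverse_reverse] at this
      rw [this, List.map_reverse]
  obtain ⟨L, X, h6, rfl, rfl⟩ := h5
  refine ⟨L, X, h6, ?_⟩
  simpa using h2

/-- static part of a cell -/
def lStat {W : Type} (c : LCell S W) : S × Option Bool × S := (c.a, c.o, c.b)

theorem lRun {c d : Conf M.Q (((S × S) × Option Bool) ⊕ M.W)} (h : ReflTransGen M.Step c d)
    (L R : List (LCell S M.W)) (hc : c.2 = (L.map LCell.wk, R.map LCell.wk)) :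
    ∃ L' R' : List (LCell S M.W), d.2 = (L'.map LCell.wk, R'.map LCell.wk) ∧
      (L'.reverse ++ R').map lStat = (L.reverse ++ R).map lStat ∧
      ReflTransGen (itL M acc).Step (LSt.run c.1, (L.map Sum.inr, R.map Sum.inr))
        (LSt.run d.1, (L'.map Sum.inr, R'.map Sum.inr)) := by
  induction h with
  | refl => exact ⟨L, R, hc, rfl, ReflTransGen.refl⟩
  | tail _ h2 ih =>
    rename_i d e _
    obtain ⟨L', R', h3, h4, h5⟩ := ih
    obtain ⟨γ, r, h6, x, hx, rfl⟩ := h2
    rw [h3] at h6
    simp only at h6
    cases R' with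
    | nil => simp at h6
    | cons X R' =>
      rw [List.map_cons] at h6
      obtain ⟨rfl, rfl⟩ := List.cons.inj h6
      refine ⟨(put { X with wk := x.2.1 } x.2.2 (L', X :: R')).1,
        (put { X with wk := x.2.1 } x.2.2 (L', X :: R')).2, ?_, ?_, h5.tail ?_⟩
      · rw [h3]
        have := put_map LCell.wk ({ X with wk := x.2.1 } : LCell S M.W) x.2.2 (L', X :: R')
        exact this.symm
      · have := flat_put ({ X with wk := x.2.1 } : LCell S M.W) X x.2.2 L' R'
        unfold flat at this
        rw [this, ← h4]
        simp [lStat]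
      · refine ⟨Sum.inr X, R'.map Sum.inr, rfl, (LSt.run x.1, Sum.inr { X with wk := x.2.1 },
          x.2.2), ?_, ?_⟩
        · change _ ∈ itLδ M acc (LSt.run d.1) (Sum.inr X) _ _
          refine Or.inr ⟨x, ?_, rfl⟩
          rw [h3] at hx
          have e1 : (L'.map (Sum.inr : LCell S M.W → (S × Option Bool) ⊕ LCell S M.W)).isEmpty =
              (L'.map LCell.wk).isEmpty := by cases L' <;> rfl
          have e2 : (R'.map (Sum.inr : LCell S M.W → (S × Option Bool) ⊕ LCell S M.W)).isEmpty =
              (R'.map LCell.wk).isEmpty := by cases R' <;> rfl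
          simp only
          rw [e1, e2]
          exact hx
        · have := put_map (Sum.inr : LCell S M.W → (S × Option Bool) ⊕ LCell S M.W)
            ({ X with wk := x.2.1 } : LCell S M.W) x.2.2 (L', X :: R')
          unfold mapT at this
          simp only at this ⊢
          rw [Prod.mk.injEq]
          exact ⟨rfl, this⟩

theorem lRewR (L R : List (LCell S M.W)) (hR : R ≠ []) :
    ReflTransGen (itL M acc).Step (LSt.rwR, (L.map Sum.inr, R.map Sum.inr))
      (LSt.run M.start, ([], (L.reverse ++ R).map Sum.inr)) := by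
  obtain ⟨X, R, rfl⟩ := List.exists_cons_of_ne_nil hR
  have h := rewind (itL M acc) LSt.rwR (LSt.run M.start) (fun _ => True)
    (by intro x re _; change _ ∈ itLδ M acc LSt.rwR x false re; simp [itLδ])
    (by intro x re _; change _ ∈ itLδ M acc LSt.rwR x true re; simp [itLδ])
    (L.map Sum.inr) (Sum.inr X) (R.map Sum.inr) (fun _ _ => trivial) trivial
  simpa using h

theorem lRewC (L R : List (LCell S M.W)) (hR : R ≠ []) :
    ReflTransGen (itL M acc).Step (LSt.rwC, (L.map Sum.inr, R.map Sum.inr))
      (LSt.sw false, ([], (L.reverse ++ R).map Sum.inr)) := by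
  obtain ⟨X, R, rfl⟩ := List.exists_cons_of_ne_nil hR
  have h := rewind (itL M acc) LSt.rwC (LSt.sw false) (fun _ => True)
    (by intro x re _; change _ ∈ itLδ M acc LSt.rwC x false re; simp [itLδ])
    (by intro x re _; change _ ∈ itLδ M acc LSt.rwC x true re; simp [itLδ])
    (L.map Sum.inr) (Sum.inr X) (R.map Sum.inr) (fun _ _ => trivial) trivial
  simpa using h

theorem LBA.Step.ne_nil {A : Type} {M : LBA A} {c d : Conf M.Q (A ⊕ M.W)}
    (h : ReflTransGen M.Step c d) (hc : c.2.2 ≠ []) : d.2.2 ≠ [] := by
  induction h with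
  | refl => exact hc
  | @tail b c' _ h2 _ =>
    obtain ⟨γ, r, h3, x, _, rfl⟩ := h2
    have h4 : b.2 = (b.2.1, γ :: r) := by rw [← h3]
    simp only
    rw [h4]
    exact put_snd_ne_nil _ _ _ _ _

/-- One round. -/
theorem lRound (xs : List ((S × Option Bool) ⊕ LCell S M.W)) (hxs : xs ≠ []) (c' : List S)
    (hc' : c'.length = xs.length)
    (hM : M.Accepts (((xs.map newA).zip c').zip (xs.map advO))) :
    (∃ T, ReflTransGen (itL M acc).Step (LSt.sw false, ([], xs)) (LSt.fin, T)) ∨
    ∃ ys : List ((S × Option Bool) ⊕ LCell S M.W), ys ≠ [] ∧ ys.map newA = c' ∧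
      ys.map advO = xs.map advO ∧
      ReflTransGen (itL M acc).Step (LSt.sw false, ([], xs)) (LSt.sw false, ([], ys)) := by
  classical
  obtain ⟨L, X, h1, h2⟩ := lSweep M acc xs hxs c' hc'
  by_cases hac : ∃ x ∈ xs, acc (newA x)
  · rw [if_pos hac] at h2
    exact Or.inl ⟨_, h2⟩
  · rw [if_neg hac] at h2
    right
    have h3 := lRewR M acc L [X] (by simp)
    rw [h1] at h3
    have h23 := h2.trans h3
    set cs := List.zipWith lFresh xs c' with hcs
    have hcw : cs.map LCell.wk = (((xs.map newA).zip c').zip (xs.map advO)).map Sum.inl := by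
      rw [hcs]
      clear h1 h2 h3 h23 hcs hac hM hxs cs
      induction xs generalizing c' with
      | nil => simp
      | cons x xs ih =>
        cases c' with
        | nil => simp at hc'
        | cons b c' => simp [lFresh, ih c' (by simpa using hc')]
    have hcb : cs.map LCell.b = c' := by
      rw [hcs]
      clear h1 h2 h3 h23 hcs hac hM hxs hcw cs
      induction xs generalizing c' with
      | nil => cases c' with
        | nil => rfl
        | cons _ _ => simp at hc'
      | cons x xs ih =>
        cases c' with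
        | nil => simp at hc'
        | cons b c' => simp [lFresh, ih c' (by simpa using hc')]
    have hco : cs.map LCell.o = xs.map advO := by
      rw [hcs]
      clear h1 h2 h3 h23 hcs hac hM hxs hcw hcb cs
      induction xs generalizing c' with
      | nil => simp
      | cons x xs ih =>
        cases c' with
        | nil => simp at hc'
        | cons b c' => simp [lFresh, ih c' (by simpa using hc')]
    obtain ⟨d, hd, hda⟩ := hM
    have hinit : (M.init (((xs.map newA).zip c').zip (xs.map advO))).2 =
        (([] : List (LCell S M.W)).map LCell.wk, cs.map LCell.wk) := by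
      rw [hcw]; rfl
    obtain ⟨L', R', h5, h6, h7⟩ := lRun M acc hd [] cs hinit
    have hcsne : cs ≠ [] := by
      intro h
      have := congrArg List.length hcb
      rw [h, hc'] at this
      exact hxs (List.length_eq_zero_iff.1 this.symm)
    have hR' : R' ≠ [] := by
      have h8 := LBA.Step.ne_nil hd (by rw [hinit]; simpa using hcsne)
      rw [h5] at h8
      simpa using h8
    have h9 : (itL M acc).Step (LSt.run d.1, (L'.map Sum.inr, R'.map Sum.inr))
        (LSt.rwC, (L'.map Sum.inr, R'.map Sum.inr)) := by
      obtain ⟨Y, R'', rfl⟩ := List.exists_cons_of_ne_nil hR'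
      refine ⟨Sum.inr Y, R''.map Sum.inr, rfl, (LSt.rwC, Sum.inr Y, Dir.stay), ?_, ?_⟩
      · change _ ∈ itLδ M acc (LSt.run d.1) (Sum.inr Y) _ _
        exact Or.inl ⟨hda, rfl⟩
      · simp [put]
    have h10 := lRewC M acc L' R' hR'
    refine ⟨(L'.reverse ++ R').map Sum.inr, ?_, ?_, ?_, ?_⟩
    · simpa using fun _ => hR'
    · have h11 := congrArg (List.map (fun y : S × Option Bool × S => y.2.2)) h6
      rw [List.map_map, List.map_map] at h11
      have e1 : (fun y : S × Option Bool × S => y.2.2) ∘ lStat (W := M.W) = LCell.b := rfl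
      rw [e1] at h11
      rw [List.map_map]
      have e2 : newA ∘ (Sum.inr : LCell S M.W → (S × Option Bool) ⊕ LCell S M.W) = LCell.b := rfl
      rw [e2, h11]
      simpa using hcb
    · have h11 := congrArg (List.map (fun y : S × Option Bool × S => y.2.1)) h6
      rw [List.map_map, List.map_map] at h11
      have e1 : (fun y : S × Option Bool × S => y.2.1) ∘ lStat (W := M.W) = LCell.o := rfl
      rw [e1] at h11
      rw [List.map_map]
      have e2 : advO ∘ (Sum.inr : LCell S M.W → (S × Option Bool) ⊕ LCell S M.W) = LCell.o := rfl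
      rw [e2, h11]
      simpa using hco
    · have h7' : ReflTransGen (itL M acc).Step (LSt.run M.start, ([], cs.map Sum.inr))
          (LSt.run d.1, (L'.map Sum.inr, R'.map Sum.inr)) := h7
      exact ((h23.trans h7').tail h9).trans h10

theorem itL_complete (v : List (S × Option Bool)) (hv : v ≠ []) (c : List S)
    (hc : ReflTransGen (fun c c' : List S => c'.length = c.length ∧
      M.Accepts ((c.zip c').zip (v.map Prod.snd))) (v.map Prod.fst) c)
    (ha : ∃ a ∈ c, acc a) : (itL M acc).Accepts v := by
  classical
  have key : ∀ c, ReflTransGen (fun c c' : List S => c'.length = c.length ∧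
      M.Accepts ((c.zip c').zip (v.map Prod.snd))) (v.map Prod.fst) c →
      (itL M acc).Accepts v ∨ ∃ ys : List ((S × Option Bool) ⊕ LCell S M.W), ys ≠ [] ∧
        ys.map newA = c ∧ ys.map advO = v.map Prod.snd ∧
        ReflTransGen (itL M acc).Step ((itL M acc).init v) (LSt.sw false, ([], ys)) := by
    intro c hc
    induction hc with
    | refl =>
      right
      refine ⟨v.map Sum.inl, by simpa using hv, ?_, ?_, ReflTransGen.refl⟩
      · rw [List.map_map]; rfl
      · rw [List.map_map]; rfl
    | tail _ h2 ih =>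
      rcases ih with h | ⟨ys, h3, h4, h5, h6⟩
      · exact Or.inl h
      · rename_i c1 c2 _
        obtain ⟨h7, h8⟩ := h2
        rw [← h4, ← h5] at h8
        rcases lRound M acc ys h3 c2 (by rw [h7, ← h4, List.length_map]) h8 with
          ⟨T, hT⟩ | ⟨zs, g1, g2, g3, g4⟩
        · exact Or.inl ⟨_, h6.trans hT, rfl⟩
        · exact Or.inr ⟨zs, g1, g2, g3.trans h5, h6.trans g4⟩
  rcases key c hc with h | ⟨ys, h3, h4, h5, h6⟩
  · exact h
  · obtain ⟨L, X, h7, h8⟩ := lSweep M acc ys h3 (ys.map newA) (by simp)
    rw [if_pos] at h8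
    · exact ⟨_, h6.trans h8, rfl⟩
    · obtain ⟨a, ha1, ha2⟩ := ha
      rw [← h4] at ha1
      obtain ⟨x, hx, rfl⟩ := List.mem_map.1 ha1
      exact ⟨x, hx, ha2⟩

end complete

/-! ### Soundness -/

section sound

variable (M : LBA ((S × S) × Option Bool)) (acc : S → Prop)

/-- the relation of the iteration -/
def lRel (o : List (Option Bool)) (c c' : List S) : Prop :=
  c'.length = c.length ∧ M.Accepts ((c.zip c').zip o)

/-- a cell with the initial work symbol -/
def LCell.Fresh {W : Type} (X : LCell S W) : Prop := X.wk = Sum.inl ((X.a, X.b), X.o)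

/-- the invariant -/
def LJ (v : List (S × Option Bool)) (C : Conf (LSt M.Q) ((S × Option Bool) ⊕ LCell S M.W)) : Prop :=
  match C with
  | (LSt.sw fl, (l, r)) => ∃ (c : List S) (L : List (LCell S M.W)),
      ReflTransGen (lRel M (v.map Prod.snd)) (v.map Prod.fst) c ∧ l = L.map Sum.inr ∧
      L.reverse.map LCell.a ++ r.map newA = c ∧
      L.reverse.map LCell.o ++ r.map advO = v.map Prod.snd ∧
      (∀ X ∈ L, X.Fresh) ∧ (fl = true → ∃ X ∈ L, acc X.a) ∧ r ≠ []
  | (LSt.rwR, (l, r)) => ∃ (c : List S) (L R : List (LCell S M.W)),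
      ReflTransGen (lRel M (v.map Prod.snd)) (v.map Prod.fst) c ∧ l = L.map Sum.inr ∧
      r = R.map Sum.inr ∧ (L.reverse ++ R).map LCell.a = c ∧
      (L.reverse ++ R).map LCell.o = v.map Prod.snd ∧ (∀ X ∈ L, X.Fresh) ∧ (∀ X ∈ R, X.Fresh) ∧
      R ≠ []
  | (LSt.run q, (l, r)) => ∃ (c c' : List S) (L R : List (LCell S M.W)),
      ReflTransGen (lRel M (v.map Prod.snd)) (v.map Prod.fst) c ∧ l = L.map Sum.inr ∧
      r = R.map Sum.inr ∧ (L.reverse ++ R).map lStat = (c.zip ((v.map Prod.snd).zip c')) ∧
      c'.length = c.length ∧ c.length = v.length ∧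
      ReflTransGen M.Step (M.init ((c.zip c').zip (v.map Prod.snd)))
        (q, (L.map LCell.wk, R.map LCell.wk)) ∧ R ≠ []
  | (LSt.rwC, (l, r)) => ∃ (c : List S) (L R : List (LCell S M.W)),
      ReflTransGen (lRel M (v.map Prod.snd)) (v.map Prod.fst) c ∧ l = L.map Sum.inr ∧
      r = R.map Sum.inr ∧ (L.reverse ++ R).map LCell.b = c ∧
      (L.reverse ++ R).map LCell.o = v.map Prod.snd ∧ R ≠ []
  | (LSt.fin, _) => ∃ c, ReflTransGen (lRel M (v.map Prod.snd)) (v.map Prod.fst) c ∧
      ∃ a ∈ c, acc a

theorem lRel_length {v : List (S × Option Bool)} {c : List S}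
    (h : ReflTransGen (lRel M (v.map Prod.snd)) (v.map Prod.fst) c) : c.length = v.length := by
  induction h with
  | refl => simp
  | tail _ h2 ih => rw [h2.1, ih]

theorem LJ_step {v : List (S × Option Bool)}
    {C D : Conf (LSt M.Q) ((S × Option Bool) ⊕ LCell S M.W)} (hJ : LJ M acc v C)
    (h : (itL M acc).Step C D) : LJ M acc v D := by
  classical
  obtain ⟨s, l, r⟩ := C
  obtain ⟨x, r, h1, y, hy, rfl⟩ := h
  have h1' : _ = x :: r := h1
  subst h1'
  change y ∈ itLδ M acc s x l.isEmpty r.isEmpty at hy
  change LJ M acc v (y.1, put y.2.1 y.2.2 (l, x :: r))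
  cases s with
  | sw fl =>
    obtain ⟨c, L, hc, rfl, hcA, hcO, hfr, hfl, _⟩ := hJ
    obtain ⟨b, hy⟩ := hy
    simp only at hy
    set X : LCell S M.W := ⟨newA x, advO x, b, Sum.inl ((newA x, b), advO x)⟩ with hX
    have hXf : X.Fresh := rfl
    have hfl' : (fl || decide (acc (newA x))) = true → ∃ Y ∈ X :: L, acc Y.a := by
      intro h
      rcases Bool.or_eq_true_iff.1 h with h | h
      · obtain ⟨Y, hY, hY2⟩ := hfl h
        exact ⟨Y, List.mem_cons_of_mem _ hY, hY2⟩
      · exact ⟨X, List.mem_cons_self, of_decide_eq_true h⟩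
    cases r with
    | nil =>
      simp only [List.isEmpty_nil, if_true] at hy
      by_cases hf : (fl || decide (acc (newA x))) = true
      · rw [if_pos hf] at hy
        subst hy
        refine ⟨c, hc, ?_⟩
        obtain ⟨Y, hY, hY2⟩ := hfl' hf
        refine ⟨Y.a, ?_, hY2⟩
        rw [← hcA]
        rcases List.mem_cons.1 hY with rfl | hY
        · simp [hX]
        · simp only [List.mem_append, List.mem_map, List.mem_reverse]
          exact Or.inl ⟨Y, hY, rfl⟩
      · rw [if_neg hf] at hy
        subst hy
        refine ⟨c, L, [X], hc, rfl, ?_, ?_, ?_, hfr, ?_, by simp⟩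
        · simp [put]
        · rw [← hcA]; simp [hX]
        · rw [← hcO]; simp [hX]
        · intro Y hY
          rw [List.mem_singleton] at hY
          rw [hY]; exact hXf
    | cons z r =>
      simp only [List.isEmpty_cons, Bool.false_eq_true, if_false] at hy
      subst hy
      simp only [put_right]
      refine ⟨c, X :: L, hc, rfl, ?_, ?_, ?_, ?_, by simp⟩
      · rw [← hcA]; simp [hX]
      · rw [← hcO]; simp [hX]
      · intro Y hY
        rcases List.mem_cons.1 hY with rfl | hY
        · exact hXf
        · exact hfr Y hY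
      · exact hfl'
  | rwR =>
    obtain ⟨c, L, R, hc, rfl, hr, hcA, hcO, hf1, hf2, hR⟩ := hJ
    have hy' : y = if (L.map (Sum.inr : _ → (S × Option Bool) ⊕ LCell S M.W)).isEmpty = true then
      (LSt.run M.start, x, Dir.stay) else (LSt.rwR, x, Dir.left) := hy
    obtain ⟨X, R, rfl⟩ := List.exists_cons_of_ne_nil hR
    rw [List.map_cons] at hr
    obtain ⟨rfl, rfl⟩ := List.cons.inj hr
    cases L with
    | nil =>
      simp only [List.map_nil, List.isEmpty_nil, if_true] at hy'
      subst hy'
      simp only [put_stay]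
      have hlen := lRel_length M hc
      refine ⟨c, (X :: R).map LCell.b, [], X :: R, hc, rfl, rfl, ?_, ?_, hlen, ?_, hR⟩
      · rw [← hcA, ← hcO]
        simp only [List.reverse_nil, List.nil_append]
        generalize X :: R = Y
        clear hf2 hcO hcA hlen hR
        induction Y with
        | nil => rfl
        | cons Z Y ih => simp [lStat, ih]
      · rw [← hcA]; simp
      · have e1 : (c.zip ((X :: R).map LCell.b)).zip (v.map Prod.snd) =
            (X :: R).map (fun Z => ((Z.a, Z.b), Z.o)) := by
          rw [← hcA, ← hcO]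
          simp only [List.reverse_nil, List.nil_append]
          generalize X :: R = Y
          clear hf2 hcO hcA hlen hR
          induction Y with
          | nil => rfl
          | cons Z Y ih => simp [ih]
        have e2 : (X :: R).map LCell.wk = ((c.zip ((X :: R).map LCell.b)).zip
            (v.map Prod.snd)).map Sum.inl := by
          rw [e1, List.map_map]
          refine List.map_congr_left fun Z hZ => hf2 Z hZ
        rw [e2]
        exact ReflTransGen.refl
    | cons Y L =>
      simp only [List.map_cons, List.isEmpty_cons, Bool.false_eq_true, if_false] at hy'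
      subst hy'
      simp only [List.map_cons, put_left]
      refine ⟨c, L, Y :: X :: R, hc, rfl, rfl, ?_, ?_, ?_, ?_, by simp⟩
      · rw [← hcA]; simp
      · rw [← hcO]; simp
      · intro Z hZ; exact hf1 Z (List.mem_cons_of_mem _ hZ)
      · intro Z hZ
        rcases List.mem_cons.1 hZ with rfl | hZ
        · exact hf1 _ List.mem_cons_self
        · exact hf2 Z hZ
  | rwC =>
    obtain ⟨c, L, R, hc, rfl, hr, hcB, hcO, hR⟩ := hJ
    have hy' : y = if (L.map (Sum.inr : _ → (S × Option Bool) ⊕ LCell S M.W)).isEmpty = true then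
      (LSt.sw false, x, Dir.stay) else (LSt.rwC, x, Dir.left) := hy
    obtain ⟨X, R, rfl⟩ := List.exists_cons_of_ne_nil hR
    rw [List.map_cons] at hr
    obtain ⟨rfl, rfl⟩ := List.cons.inj hr
    cases L with
    | nil =>
      simp only [List.map_nil, List.isEmpty_nil, if_true] at hy'
      subst hy'
      simp only [List.map_nil, put_stay]
      refine ⟨c, [], hc, rfl, ?_, ?_, by simp, by simp, by simp⟩
      · rw [← hcB]
        simp only [List.reverse_nil, List.map_nil, List.nil_append, List.map_cons, newA,
          List.map_map]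
        rfl
      · rw [← hcO]
        simp only [List.reverse_nil, List.map_nil, List.nil_append, List.map_cons, advO,
          List.map_map]
        rfl
    | cons Y L =>
      simp only [List.map_cons, List.isEmpty_cons, Bool.false_eq_true, if_false] at hy'
      subst hy'
      simp only [List.map_cons, put_left]
      refine ⟨c, L, Y :: X :: R, hc, rfl, rfl, ?_, ?_, by simp⟩
      · rw [← hcB]; simp
      · rw [← hcO]; simp
  | run q =>
    obtain ⟨c, c', L, R, hc, rfl, hr, hst, hl1, hl2, hM, hR⟩ := hJ
    obtain ⟨X, R, rfl⟩ := List.exists_cons_of_ne_nil hR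
    rw [List.map_cons] at hr
    obtain ⟨rfl, rfl⟩ := List.cons.inj hr
    rcases hy with ⟨hq, rfl⟩ | ⟨z, hz, rfl⟩
    · simp only [put_stay]
      have hrel : lRel M (v.map Prod.snd) c c' := ⟨hl1, _, hM, hq⟩
      refine ⟨c', L, X :: R, hc.tail hrel, rfl, rfl, ?_, ?_, by simp⟩
      · have h11 := congrArg (List.map (fun y : S × Option Bool × S => y.2.2)) hst
        rw [List.map_map] at h11
        have e1 : (fun y : S × Option Bool × S => y.2.2) ∘ lStat (W := M.W) = LCell.b := rfl
        rw [e1] at h11
        rw [h11]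
        have e2 : (fun y : S × Option Bool × S => y.2.2) = Prod.snd ∘ Prod.snd := rfl
        rw [e2, ← List.map_map, List.map_snd_zip, List.map_snd_zip]
        · simp [hl1, hl2]
        · simp [hl1, hl2]
      · have h11 := congrArg (List.map (fun y : S × Option Bool × S => y.2.1)) hst
        rw [List.map_map] at h11
        have e1 : (fun y : S × Option Bool × S => y.2.1) ∘ lStat (W := M.W) = LCell.o := rfl
        rw [e1] at h11
        rw [h11]
        have e2 : (fun y : S × Option Bool × S => y.2.1) = Prod.fst ∘ Prod.snd := rfl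
        rw [e2, ← List.map_map, List.map_snd_zip, List.map_fst_zip]
        · simp [hl1, hl2]
        · simp [hl1, hl2]
    · have e1 := put_map (Sum.inr : LCell S M.W → (S × Option Bool) ⊕ LCell S M.W)
        ({ X with wk := z.2.1 } : LCell S M.W) z.2.2 (L, X :: R)
      have e1' : put (Sum.inr ({ X with wk := z.2.1 } : LCell S M.W)) z.2.2
          (L.map Sum.inr, Sum.inr X :: R.map Sum.inr) =
          mapT (Sum.inr : LCell S M.W → (S × Option Bool) ⊕ LCell S M.W)
            (put ({ X with wk := z.2.1 } : LCell S M.W) z.2.2 (L, X :: R)) := e1.symm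
      simp only [e1']
      refine ⟨c, c', (put ({ X with wk := z.2.1 } : LCell S M.W) z.2.2 (L, X :: R)).1,
        (put ({ X with wk := z.2.1 } : LCell S M.W) z.2.2 (L, X :: R)).2, hc, rfl, rfl, ?_, hl1,
        hl2, hM.tail ?_, put_snd_ne_nil _ _ _ _ _⟩
      · have := flat_put ({ X with wk := z.2.1 } : LCell S M.W) X z.2.2 L R
        unfold flat at this
        rw [this, ← hst]
        simp [lStat]
      · refine ⟨X.wk, R.map LCell.wk, rfl, z, ?_, ?_⟩
        · have e2 : (L.map (Sum.inr : LCell S M.W → (S × Option Bool) ⊕ LCell S M.W)).isEmpty =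
              (L.map LCell.wk).isEmpty := by cases L <;> rfl
          have e3 : (R.map (Sum.inr : LCell S M.W → (S × Option Bool) ⊕ LCell S M.W)).isEmpty =
              (R.map LCell.wk).isEmpty := by cases R <;> rfl
          rw [e2, e3] at hz
          exact hz
        · have := put_map LCell.wk ({ X with wk := z.2.1 } : LCell S M.W) z.2.2 (L, X :: R)
          rw [Prod.mk.injEq]
          exact ⟨rfl, this⟩
  | fin => exact absurd hy (Set.notMem_empty _)

theorem itL_sound (v : List (S × Option Bool)) (hv : v ≠ []) (h : (itL M acc).Accepts v) :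
    ∃ c, ReflTransGen (lRel M (v.map Prod.snd)) (v.map Prod.fst) c ∧ ∃ a ∈ c, acc a := by
  obtain ⟨C, hC, hfin⟩ := h
  have hinit : LJ M acc v ((itL M acc).init v) := by
    refine ⟨v.map Prod.fst, [], ReflTransGen.refl, rfl, ?_, ?_, by simp, by simp, by simpa using hv⟩
    · simp only [List.reverse_nil, List.map_nil, List.nil_append, List.map_map]; rfl
    · simp only [List.reverse_nil, List.map_nil, List.nil_append, List.map_map]; rfl
  have hJ : LJ M acc v C := by
    clear hfin
    induction hC with
    | refl => exact hinit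
    | tail _ h2 ih => exact LJ_step M acc ih h2
  obtain ⟨s, t⟩ := C
  have hs : s = LSt.fin := hfin
  subst hs
  exact hJ

end sound

theorem lba_iter (L : Set (List ((S × S) × Option Bool)))
    (hL : InLBA _ L) (acc : S → Prop) :
    ∃ K : Set (List (S × Option Bool)), InLBA _ K ∧ ∀ v, v ≠ [] →
      (v ∈ K ↔ ∃ c, ReflTransGen (Rl L (v.map Prod.snd)) (v.map Prod.fst) c ∧ ∃ a ∈ c, acc a) := by
  obtain ⟨M, hM⟩ := hL
  refine ⟨{v | (itL M acc).Accepts v}, ⟨itL M acc, fun x _ => Iff.rfl⟩, fun v hv => ?_⟩
  have key : ∀ c, ReflTransGen (lRel M (v.map Prod.snd)) (v.map Prod.fst) c ↔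
      ReflTransGen (Rl L (v.map Prod.snd)) (v.map Prod.fst) c := by
    have hne : ∀ c c' : List S, c.length = v.length → c'.length = c.length →
        (c.zip c').zip (v.map Prod.snd) ≠ [] := by
      intro c c' h1 h2 h
      have := congrArg List.length h
      rw [List.length_zip, List.length_zip, List.length_map, h2, h1] at this
      simp only [min_self, List.length_nil] at this
      exact hv (List.length_eq_zero_iff.1 this)
    intro c
    constructor
    · intro h
      have : c.length = v.length ∧ ReflTransGen (Rl L (v.map Prod.snd)) (v.map Prod.fst) c := by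
        induction h with
        | refl => exact ⟨by simp, ReflTransGen.refl⟩
        | tail _ h2 ih =>
          exact ⟨h2.1.trans ih.1, ih.2.tail ⟨h2.1, (hM _ (hne _ _ ih.1 h2.1)).2 h2.2⟩⟩
      exact this.2
    · intro h
      have : c.length = v.length ∧ ReflTransGen (lRel M (v.map Prod.snd)) (v.map Prod.fst) c := by
        induction h with
        | refl => exact ⟨by simp, ReflTransGen.refl⟩
        | tail _ h2 ih =>
          exact ⟨h2.1.trans ih.1, ih.2.tail ⟨h2.1, (hM _ (hne _ _ ih.1 h2.1)).1 h2.2⟩⟩
      exact this.2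
  constructor
  · intro h
    obtain ⟨c, hc, ha⟩ := itL_sound M acc v hv h
    exact ⟨c, (key c).1 hc, ha⟩
  · rintro ⟨c, hc, ha⟩
    exact itL_complete M acc v hv c ((key c).2 hc) ha

end Pool.Agent.Book19
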