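import Pool.Agent.Book19.Core
import Pool.Agent.Book19.LIter

/-!
# The diagonal argument for nondeterministic linear space and P
-/

set_option autoImplicit false

namespace Pool.Agent.Book19

open Turing Computability Filter Topology Pool.Agent.PT Relation

/-- invariant of configurations -/
def Inv {Q G : Type} (n : ℕ) (c : Conf Q G) : Prop :=
  c.2.2 ≠ [] ∧ c.2.1.length + c.2.2.length = n

theorem Inv.step {A : Type} {M : LBA A} {n : ℕ} {c d : Conf M.Q (A ⊕ M.W)} (h : Inv n c)
    (hs : M.Step c d) : Inv n d := by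
  have h5 := LBA.Step.len hs
  exact ⟨h5.2, h5.1.trans h.2⟩

theorem Inv.init {A : Type} (M : LBA A) (x : List A) (hx : x ≠ []) : Inv x.length (M.init x) := by
  constructor
  · simpa [LBA.init] using hx
  · simp [LBA.init]

/-- Computations of `M` and universal steps. -/
theorem Cod.reach {A : Type} {M : LBA A} {ix : A → ℕ} (C : Cod M ix) (F1 F2 : Set M.Q) (N : ℕ)
    (htb : C.tb.length * C.k ≤ N) (c : Conf M.Q (A ⊕ M.W)) (hc : Inv (N / C.k) c)
    (x : List CL) :
    ReflTransGen UStep (C.code F1 F2 N c) x ↔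
      ∃ d, ReflTransGen M.Step c d ∧ Inv (N / C.k) d ∧ x = C.code F1 F2 N d := by
  constructor
  · intro h
    induction h with
    | refl => exact ⟨c, ReflTransGen.refl, hc, rfl⟩
    | tail _ h2 ih =>
      obtain ⟨d, hd, hI, rfl⟩ := ih
      obtain ⟨e, he, rfl⟩ := (C.sim F1 F2 N d hI.1 hI.2 htb _).1 h2
      exact ⟨e, hd.tail he, hI.step he, rfl⟩
  · rintro ⟨d, hd, _, rfl⟩
    have key : ∀ d, ReflTransGen M.Step c d → Inv (N / C.k) d ∧
        ReflTransGen UStep (C.code F1 F2 N c) (C.code F1 F2 N d) := by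
      intro d hd
      induction hd with
      | refl => exact ⟨hc, ReflTransGen.refl⟩
      | tail _ h2 ih =>
        exact ⟨ih.1.step h2, ih.2.tail ((C.sim F1 F2 N _ ih.1.1 ih.1.2 htb _).2 ⟨_, h2, rfl⟩)⟩
    exact (key d hd).2

/-- Acceptance in terms of the universal step. -/
theorem Cod.accepts {A : Type} {M : LBA A} {ix : A → ℕ} (C : Cod M ix) (N : ℕ) (F2 : Set M.Q)
    (htb : C.tb.length * C.k ≤ N) (y : List A) (hy : y ≠ []) (hlen : y.length = N / C.k) :
    M.Accepts y ↔ ∃ x, ReflTransGen UStep (C.code M.acc F2 N (M.init y)) x ∧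
      ∃ a ∈ x, a.st = true ∧ a.f1 = true := by
  have hI : Inv (N / C.k) (M.init y) := by
    rw [← hlen]
    exact Inv.init M y hy
  constructor
  · rintro ⟨d, hd, hd2⟩
    have hId : Inv (N / C.k) d := by
      clear hd2
      induction hd with
      | refl => exact hI
      | tail _ h2 ih => exact ih.step h2
    refine ⟨C.code M.acc F2 N d, (C.reach M.acc F2 N htb _ hI _).2 ⟨d, hd, hId, rfl⟩, ?_⟩
    exact (C.code_f1 M.acc F2 N d hId.1 hId.2).2 hd2
  · rintro ⟨x, hx, hx2⟩
    obtain ⟨d, hd, hId, rfl⟩ := (C.reach M.acc F2 N htb _ hI _).1 hx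
    exact ⟨d, hd, (C.code_f1 M.acc F2 N d hId.1 hId.2).1 hx2⟩

/-- Reachability for `Rl` and for the universal step. -/
theorem reach_rl {W' : Set (List ((CL × CL) × Option Bool))} {κ : ℕ → List Bool}
    (hW : ∀ x : List (CL × CL), x ∈ StepLang ↔ trk x (κ x.length) ∈ W')
    (x y : List CL) :
    ReflTransGen (Rl W' ((trk x (κ x.length)).map Prod.snd)) x y ↔ ReflTransGen UStep x y := by
  constructor
  · intro h
    have key : ∀ y, ReflTransGen (Rl W' ((trk x (κ x.length)).map Prod.snd)) x y →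
        x.length = y.length ∧ ReflTransGen UStep x y := by
      intro y h
      induction h with
      | refl => exact ⟨rfl, ReflTransGen.refl⟩
      | tail _ h2 ih =>
        have h3 := (rl_iff hW x _ _ ih.1).1 h2
        exact ⟨ih.1.trans h3.1.symm, ih.2.tail h3.2⟩
    exact (key y h).2
  · intro h
    have key : ∀ y, ReflTransGen UStep x y →
        x.length = y.length ∧
          ReflTransGen (Rl W' ((trk x (κ x.length)).map Prod.snd)) x y := by
      intro y h
      induction h with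
      | refl => exact ⟨rfl, ReflTransGen.refl⟩
      | tail _ h2 ih =>
        have h3 := h2.length
        exact ⟨ih.1.trans h3.symm, ih.2.tail ((rl_iff hW x _ _ ih.1).2 ⟨h3, h2⟩)⟩
    exact (key y h).2

/-- The pair NSPACE(n), P. -/
theorem core_lba_P : ¬ (SubAdv InP InLBA ∧ SubIoAdv InLBA InP) := by
  rintro ⟨h1, h2⟩
  obtain ⟨W', κ, hW', hκ, hWκ⟩ := h1 _ StepLang (inP_of_UP up_stepLang)
  obtain ⟨K, hK, hKi⟩ := lba_iter W' hW' (fun a : CL => a.st = true ∧ a.f1 = true)
  obtain ⟨V, w, hV, hw, hio⟩ := h2 _ K hK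
  have hV' : InP UL {u | gU u ∉ V} := hV.comap_not gU Nu gL uf_Nu up_gL (fun _ => rfl)
  obtain ⟨M', β, ⟨M, hM⟩, hβ, hVβ⟩ := h1 _ _ hV'
  obtain ⟨C, hC⟩ := exists_cod M ixU ixU_inj 1
  obtain ⟨N, hgood, hkn, hEn, hκn, hwn, hβn⟩ := exists_N hκ hw hβ hio C.k C.tb.length hC
  set n := N / C.k with hn
  set r := N % C.k with hr
  have hNr : C.k * n + r = N := Nat.div_add_mod N C.k
  have hrk : r < C.k := Nat.mod_lt _ hC
  set u := C.uw M.acc ∅ n r (κ N) (w N) (β n) with hu
  have hulen : u.length = n := by rw [hu]; simp [Cod.uw]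
  have hc0 : (c0 u).length = N := by rw [hu, C.length_c0 _ _ _ _ _ _ _ hrk hkn, hNr]
  have hne : trk u (β n) ≠ [] := by
    intro h
    have := congrArg List.length h
    rw [length_trk, hulen] at this
    simp only [List.length_nil] at this
    omega
  have hv : trk (c0 u) (κ N) ≠ [] := by
    intro h
    have := congrArg List.length h
    rw [length_trk, hc0] at this
    simp only [List.length_nil] at this
    rw [this] at hn
    simp only [Nat.zero_div] at hn
    omega
  have hu1 : u ∈ {u | gU u ∉ V} ↔ M.Accepts (trk u (β n)) := by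
    rw [hVβ u, hulen, hM _ hne]
  have hu2 : gU u ∈ V ↔ trk (c0 u) (κ N) ∈ K := by
    rw [hu, C.gU_uw _ _ _ _ _ _ _ hrk hkn hκn hwn, ← hu]
    exact (hgood (trk (c0 u) (κ N)) (by rw [length_trk, hc0])).symm
  have hu3 : trk (c0 u) (κ N) ∈ K ↔ M.Accepts (trk u (β n)) := by
    rw [hKi _ hv, map_fst_trk, C.accepts N ∅ (hEn.trans (Nat.div_le_self _ _)) _ hne
      (by rw [length_trk, hulen])]
    have h3 : c0 u = C.code M.acc ∅ N (M.init (trk u (β n))) := by
      rw [hu, C.c0_uw _ _ _ _ _ _ _ hrk hkn hEn hβn, hNr]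
    rw [← h3]
    have h4 := reach_rl hWκ (c0 u)
    rw [hc0] at h4
    simp only [h4]
  rw [Set.mem_ofPred_eq, hu2, hu3] at hu1
  tauto

end Pool.Agent.Book19
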