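import Pool.Agent.Book19.ISDefs

/-!
# The counting machine can stop

If no number satisfying `F` is reachable from `x0`, then the counting machine (inductive counting,
Immerman and Szelepcsenyi) has a computation that stops.
-/

set_option autoImplicit false

namespace Pool.Agent.Book19

open Turing Computability Filter Topology Pool.Agent.PT Relation

/-- `y` is reachable from `x0` in at most `t` steps -/
private def iscR (E : ℕ → ℕ → Prop) (x0 : ℕ) : ℕ → ℕ → Prop
  | 0, y => y = x0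
  | t + 1, y => ∃ a, iscR E x0 t a ∧ (E a y ∨ a = y)

open Classical in
/-- the number of points below `z` satisfying `P` -/
private noncomputable def iscC (P : ℕ → Prop) (z : ℕ) : ℕ := ((Finset.range z).filter P).card

private lemma iscC_zero (P : ℕ → Prop) : iscC P 0 = 0 := by
  simp [iscC]

private lemma iscC_succ_of {P : ℕ → Prop} {z : ℕ} (h : P z) : iscC P (z + 1) = iscC P z + 1 := by
  classical
  unfold iscC
  rw [Finset.range_add_one, Finset.filter_insert, if_pos h, Finset.card_insert_of_notMem (by simp)]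

private lemma iscC_succ_not {P : ℕ → Prop} {z : ℕ} (h : ¬ P z) : iscC P (z + 1) = iscC P z := by
  classical
  unfold iscC
  rw [Finset.range_add_one, Finset.filter_insert, if_neg h]

private lemma iscR_reach {E : ℕ → ℕ → Prop} {x0 : ℕ} : ∀ (t y : ℕ), iscR E x0 t y →
    ReflTransGen E x0 y
  | 0, y, h => by
      have h' : y = x0 := h
      rw [h']
  | t + 1, y, h => by
      obtain ⟨a, ha, h1 | h1⟩ := h
      · exact (iscR_reach t a ha).tail h1
      · rw [← h1]
        exact iscR_reach t a ha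

private lemma iscR_lt {m : ℕ} {E : ℕ → ℕ → Prop} {x0 : ℕ} (hx0 : x0 + 1 < m)
    (hE : ∀ a b, E a b → b + 1 < m) : ∀ (t y : ℕ), iscR E x0 t y → y + 1 < m
  | 0, y, h => by
      have h' : y = x0 := h
      omega
  | t + 1, y, h => by
      obtain ⟨a, ha, h1 | h1⟩ := h
      · exact hE a y h1
      · rw [← h1]
        exact iscR_lt hx0 hE t a ha

private lemma isc_walk {m : ℕ} {E : ℕ → ℕ → Prop} {F : ℕ → Prop} {x0 fl t c c' y z d : ℕ} :
    ∀ (n a : ℕ), n ≤ t → iscR E x0 n a → ∃ i ≤ n, ReflTransGen (IStep m E F)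
      ⟨1, fl, x0, t, c, c', y, z, d, x0, 0⟩ ⟨1, fl, x0, t, c, c', y, z, d, a, i⟩
  | 0, a, _, h => by
      have h' : a = x0 := h
      rw [h']
      exact ⟨0, le_rfl, ReflTransGen.refl⟩
  | n + 1, a, hn, h => by
      obtain ⟨b, hb, h1⟩ := h
      obtain ⟨i, hi, h2⟩ := isc_walk (m := m) (F := F) (fl := fl) (t := t) (c := c) (c' := c')
        (y := y) (z := z) (d := d) n b (by omega) hb
      rcases h1 with h1 | h1
      · refine ⟨i + 1, by omega, h2.tail ?_⟩
        refine Or.inr (Or.inr (Or.inl ⟨rfl, ?_, h1, rfl⟩))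
        show i ≠ t
        omega
      · rw [← h1]
        exact ⟨i, by omega, h2⟩

open Classical in
private lemma isc_inner {m : ℕ} {E : ℕ → ℕ → Prop} {F : ℕ → Prop} {x0 : ℕ}
    (hF : ∀ y, ReflTransGen E x0 y → ¬ F y) (t c c' y p i : ℕ) :
    ∀ z : ℕ, z + 1 ≤ m → ∃ p' i', ReflTransGen (IStep m E F)
      ⟨0, 0, x0, t, c, c', y, 0, 0, p, i⟩
      ⟨0, if ∃ a < z, iscR E x0 t a ∧ (E a y ∨ a = y) then 1 else 0, x0, t, c, c', y, z,
        iscC (iscR E x0 t) z, p', i'⟩
  | 0, _ => by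
      refine ⟨p, i, ?_⟩
      rw [if_neg (by simp), iscC_zero]
  | z + 1, hz => by
      obtain ⟨p', i', h⟩ := isc_inner (m := m) hF t c c' y p i z (by omega)
      by_cases hR : iscR E x0 t z
      · obtain ⟨j, _, hj⟩ := isc_walk (m := m) (F := F)
          (fl := if ∃ a < z, iscR E x0 t a ∧ (E a y ∨ a = y) then 1 else 0) (c := c) (c' := c')
          (y := y) (z := z) (d := iscC (iscR E x0 t) z) t z le_rfl hR
        refine ⟨z, j, ?_⟩
        have h1 : ReflTransGen (IStep m E F) ⟨0, 0, x0, t, c, c', y, 0, 0, p, i⟩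
            ⟨1, if ∃ a < z, iscR E x0 t a ∧ (E a y ∨ a = y) then 1 else 0, x0, t, c, c', y, z,
              iscC (iscR E x0 t) z, x0, 0⟩ := by
          refine h.tail ?_
          refine Or.inr (Or.inl ⟨rfl, ?_, rfl⟩)
          show z + 1 ≠ m
          omega
        refine (h1.trans hj).tail ?_
        rw [iscC_succ_of hR]
        by_cases hy : E z y ∨ z = y
        · rw [if_pos (⟨z, by omega, hR, hy⟩ : ∃ a < z + 1, iscR E x0 t a ∧ (E a y ∨ a = y))]
          refine Or.inr (Or.inr (Or.inr (Or.inl ⟨rfl, rfl, ?_, hF z (iscR_reach t z hR), hy, rfl⟩)))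
          show z + 1 ≠ m
          omega
        · have h2 : (∃ a < z + 1, iscR E x0 t a ∧ (E a y ∨ a = y)) ↔
              (∃ a < z, iscR E x0 t a ∧ (E a y ∨ a = y)) := by
            constructor
            · rintro ⟨a, ha, h3, h4⟩
              have h5 : a ≠ z := by
                rintro rfl
                exact hy h4
              exact ⟨a, by omega, h3, h4⟩
            · rintro ⟨a, ha, h3, h4⟩
              exact ⟨a, by omega, h3, h4⟩
          simp only [h2]
          refine Or.inr (Or.inr (Or.inr (Or.inr (Or.inl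
            ⟨rfl, rfl, ?_, hF z (iscR_reach t z hR), hy, rfl⟩))))
          show z + 1 ≠ m
          omega
      · refine ⟨p', i', h.tail ?_⟩
        rw [iscC_succ_not hR]
        have h2 : (∃ a < z + 1, iscR E x0 t a ∧ (E a y ∨ a = y)) ↔
            (∃ a < z, iscR E x0 t a ∧ (E a y ∨ a = y)) := by
          constructor
          · rintro ⟨a, ha, h3, h4⟩
            have h5 : a ≠ z := by
              rintro rfl
              exact hR h3
            exact ⟨a, by omega, h3, h4⟩
          · rintro ⟨a, ha, h3, h4⟩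
            exact ⟨a, by omega, h3, h4⟩
        simp only [h2]
        refine Or.inl ⟨rfl, ?_, rfl⟩
        show z + 1 ≠ m
        omega

private lemma isc_mid {m : ℕ} {E : ℕ → ℕ → Prop} {F : ℕ → Prop} {x0 : ℕ} (hm : 2 ≤ m)
    (hx0 : x0 + 1 < m) (hE : ∀ a b, E a b → b + 1 < m)
    (hF : ∀ y, ReflTransGen E x0 y → ¬ F y) (t p i : ℕ) :
    ∀ y : ℕ, y + 1 ≤ m → ∃ p' i', ReflTransGen (IStep m E F)
      ⟨0, 0, x0, t, iscC (iscR E x0 t) (m - 1), 0, 0, 0, 0, p, i⟩
      ⟨0, 0, x0, t, iscC (iscR E x0 t) (m - 1), iscC (iscR E x0 (t + 1)) y, y, 0, 0, p', i'⟩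
  | 0, _ => by
      refine ⟨p, i, ?_⟩
      rw [iscC_zero]
  | y + 1, hy => by
      classical
      obtain ⟨p', i', h⟩ := isc_mid (m := m) hm hx0 hE hF t p i y (by omega)
      obtain ⟨p'', i'', h'⟩ := isc_inner (m := m) hF t (iscC (iscR E x0 t) (m - 1))
        (iscC (iscR E x0 (t + 1)) y) y p' i' (m - 1) (by omega)
      have h2 : (∃ a < m - 1, iscR E x0 t a ∧ (E a y ∨ a = y)) ↔ iscR E x0 (t + 1) y := by
        constructor
        · rintro ⟨a, _, h3⟩
          exact ⟨a, h3⟩
        · rintro ⟨a, h3⟩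
          have := iscR_lt hx0 hE t a h3.1
          exact ⟨a, by omega, h3⟩
      refine ⟨p'', i'', (h.trans h').tail ?_⟩
      by_cases hR : iscR E x0 (t + 1) y
      · rw [iscC_succ_of hR, if_pos (h2.2 hR)]
        refine Or.inr (Or.inr (Or.inr (Or.inr (Or.inr (Or.inr (Or.inl
          ⟨rfl, ?_, rfl, ?_, rfl, rfl⟩))))))
        · show m - 1 + 1 = m
          omega
        · show y + 1 ≠ m
          omega
      · rw [iscC_succ_not hR, if_neg (fun h3 => hR (h2.1 h3))]
        refine Or.inr (Or.inr (Or.inr (Or.inr (Or.inr (Or.inl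
          ⟨rfl, ?_, rfl, ?_, rfl, rfl⟩)))))
        · show m - 1 + 1 = m
          omega
        · show y + 1 ≠ m
          omega

private lemma isc_one {m : ℕ} {E : ℕ → ℕ → Prop} {x0 : ℕ} (hx0 : x0 + 1 < m) :
    iscC (iscR E x0 0) (m - 1) = 1 := by
  classical
  unfold iscC
  rw [Finset.card_eq_one]
  refine ⟨x0, ?_⟩
  ext a
  simp only [Finset.mem_filter, Finset.mem_range, Finset.mem_singleton]
  constructor
  · rintro ⟨_, h⟩
    exact h
  · rintro rfl
    exact ⟨by omega, rfl⟩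

private lemma isc_outer {m : ℕ} {E : ℕ → ℕ → Prop} {F : ℕ → Prop} {x0 : ℕ} (hm : 2 ≤ m)
    (hx0 : x0 + 1 < m) (hE : ∀ a b, E a b → b + 1 < m)
    (hF : ∀ y, ReflTransGen E x0 y → ¬ F y) :
    ∀ t : ℕ, t + 1 ≤ m → ∃ p i, ReflTransGen (IStep m E F) (St.init x0)
      ⟨0, 0, x0, t, iscC (iscR E x0 t) (m - 1), 0, 0, 0, 0, p, i⟩
  | 0, _ => by
      refine ⟨0, 0, ?_⟩
      rw [isc_one hx0]
      exact ReflTransGen.refl
  | t + 1, ht => by
      obtain ⟨p, i, h⟩ := isc_outer (m := m) hm hx0 hE hF t (by omega)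
      obtain ⟨p', i', h'⟩ := isc_mid (m := m) hm hx0 hE hF t p i (m - 1) (by omega)
      refine ⟨p', i', (h.trans h').tail ?_⟩
      refine Or.inr (Or.inr (Or.inr (Or.inr (Or.inr (Or.inr (Or.inr (Or.inl
        ⟨rfl, ?_, rfl, ?_, rfl⟩)))))))
      · show m - 1 + 1 = m
        omega
      · show t + 1 ≠ m
        omega

/-- If no number satisfying `F` is reachable from `x0`, then the counting machine can stop. -/
theorem is_complete {m : ℕ} (hm : 2 ≤ m) {x0 : ℕ} {E : ℕ → ℕ → Prop} {F : ℕ → Prop}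
    (hx0 : x0 + 1 < m) (hE : ∀ a b, E a b → b + 1 < m)
    (hF : ∀ y, ReflTransGen E x0 y → ¬ F y) :
    ∃ s, ReflTransGen (IStep m E F) (St.init x0) s ∧ s.ph = 2 := by
  obtain ⟨p, i, h⟩ := isc_outer (m := m) hm hx0 hE hF (m - 1) (by omega)
  refine ⟨_, h.tail (Or.inr (Or.inr (Or.inr (Or.inr (Or.inr (Or.inr (Or.inr (Or.inr
    ⟨rfl, ?_, rfl⟩)))))))), rfl⟩
  show m - 1 + 1 = m
  omega

end Pool.Agent.Book19
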