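import Pool.Agent.Book19.ISDefs
import Pool.Agent.Book19.DVal

/-!
# The counting machine on words
-/

set_option autoImplicit false

namespace Pool.Agent.Book19

open Turing Computability Filter Topology Pool.Agent.PT Relation

/-! ### digits -/

private theorem ISLift_dig_zero (n : ℕ) : (dig n 0 : ℕ) = n % 4 := by
  simp [dig]

private theorem ISLift_dig_succ (n p : ℕ) : dig n (p + 1) = dig (n / 4) p := by
  apply Fin.ext
  simp only [dig]
  rw [pow_succ', Nat.div_div_eq_div_mul]

private theorem ISLift_val_dig (N n : ℕ) (h : n < 4 ^ N) :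
    val ((List.range N).map (dig n)) = n := by
  induction N generalizing n with
  | zero =>
    have : n = 0 := by simpa using h
    subst this
    rfl
  | succ N ih =>
    rw [List.range_succ_eq_map, List.map_cons, List.map_map, val, ISLift_dig_zero]
    have h1 : (dig n ∘ Nat.succ) = dig (n / 4) := by
      funext p
      exact ISLift_dig_succ n p
    rw [h1, ih (n / 4) (by rw [pow_succ] at h; omega)]
    omega

private theorem ISLift_dig_val (x : List (Fin 4)) (p : ℕ) (hp : p < x.length) :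
    dig (val x) p = x[p] := by
  induction x generalizing p with
  | nil => simp at hp
  | cons a x ih =>
    have ha := a.isLt
    cases p with
    | zero =>
      apply Fin.ext
      rw [ISLift_dig_zero, val]
      simp only [List.getElem_cons_zero]
      omega
    | succ p =>
      rw [ISLift_dig_succ, val]
      have h1 : ((a : ℕ) + 4 * val x) / 4 = val x := by omega
      rw [h1, ih p (by simpa using hp)]
      simp only [List.getElem_cons_succ]

/-! ### bounds -/

private theorem ISLift_is_bd {m : ℕ} {E : ℕ → ℕ → Prop} {F : ℕ → Prop}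
    (hE : ∀ a b, E a b → b < m) {s s' : St} (h : s.Bd m) (hs : IStep m E F s s') : s'.Bd m := by
  obtain ⟨h1, h2, h3, h4, h5, h6, h7, h8, h9, h10, h11⟩ := h
  rcases hs with ⟨a1, a2, e⟩ | ⟨a1, a2, e⟩ | ⟨a1, a2, a3, e⟩ | ⟨a1, a2, a3, _, _, e⟩ |
    ⟨a1, a2, a3, _, _, e⟩ | ⟨a1, a2, a3, a4, a5, e⟩ | ⟨a1, a2, a3, a4, a5, e⟩ |
    ⟨a1, a2, a3, a4, e⟩ | ⟨a1, a2, e⟩
  · rw [e]
    refine ⟨?_, ?_, ?_, ?_, ?_, ?_, ?_, ?_, ?_, ?_, ?_⟩ <;> simp only <;> omega
  · rw [e]
    refine ⟨?_, ?_, ?_, ?_, ?_, ?_, ?_, ?_, ?_, ?_, ?_⟩ <;> simp only <;> omega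
  · have hb := hE _ _ a3
    rw [e]
    refine ⟨?_, ?_, ?_, ?_, ?_, ?_, ?_, ?_, ?_, ?_, ?_⟩ <;> simp only <;> omega
  · rw [e]
    refine ⟨?_, ?_, ?_, ?_, ?_, ?_, ?_, ?_, ?_, ?_, ?_⟩ <;> simp only <;> omega
  · rw [e]
    refine ⟨?_, ?_, ?_, ?_, ?_, ?_, ?_, ?_, ?_, ?_, ?_⟩ <;> simp only <;> omega
  · rw [e]
    refine ⟨?_, ?_, ?_, ?_, ?_, ?_, ?_, ?_, ?_, ?_, ?_⟩ <;> simp only <;> omega
  · rw [e]
    refine ⟨?_, ?_, ?_, ?_, ?_, ?_, ?_, ?_, ?_, ?_, ?_⟩ <;> simp only <;> omega
  · rw [e]
    refine ⟨?_, ?_, ?_, ?_, ?_, ?_, ?_, ?_, ?_, ?_, ?_⟩ <;> simp only <;> omega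
  · rw [e]
    refine ⟨?_, ?_, ?_, ?_, ?_, ?_, ?_, ?_, ?_, ?_, ?_⟩ <;> simp only <;> omega

private theorem ISLift_get_lt {N : ℕ} (hN : 0 < N) {s : St} (h : s.Bd (4 ^ N)) (j : Rg) :
    s.get j < 4 ^ N := by
  obtain ⟨h1, h2, h3, h4, h5, h6, h7, h8, h9, h10, h11⟩ := h
  have h12 : 4 ≤ 4 ^ N := by
    calc 4 = 4 ^ 1 := rfl
      _ ≤ 4 ^ N := Nat.pow_le_pow_right (by norm_num) hN
  cases j <;> simp only [St.get] <;> omega

/-! ### words -/

theorem mkW_fst (σ : List SL) (s : St) : (mkW σ s).map Prod.fst = σ := by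
  unfold mkW
  rw [List.map_map]
  apply List.ext_getElem
  · simp
  · intro p h1 h2
    rw [List.getElem_map, List.getElem_range]
    exact List.getD_eq_getElem _ _ h2

private theorem ISLift_length_mkW (σ : List SL) (s : St) : (mkW σ s).length = σ.length := by
  unfold mkW
  simp

private theorem ISLift_get_stOf (x : List IL) (j : Rg) : (stOf x).get j = rv x j := by
  cases j <;> rfl

private theorem ISLift_rv_mkW (σ : List SL) (s : St) (j : Rg) (h : s.get j < 4 ^ σ.length) :
    rv (mkW σ s) j = s.get j := by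
  unfold rv mkW
  rw [List.map_map]
  exact ISLift_val_dig σ.length (s.get j) h

theorem stOf_mkW (σ : List SL) (s : St) (h : ∀ j, s.get j < 4 ^ σ.length) :
    stOf (mkW σ s) = s := by
  unfold stOf
  rw [ISLift_rv_mkW σ s _ (h _), ISLift_rv_mkW σ s _ (h _), ISLift_rv_mkW σ s _ (h _),
    ISLift_rv_mkW σ s _ (h _), ISLift_rv_mkW σ s _ (h _), ISLift_rv_mkW σ s _ (h _),
    ISLift_rv_mkW σ s _ (h _), ISLift_rv_mkW σ s _ (h _), ISLift_rv_mkW σ s _ (h _),
    ISLift_rv_mkW σ s _ (h _), ISLift_rv_mkW σ s _ (h _)]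
  rfl

theorem mkW_stOf (x : List IL) : mkW (x.map Prod.fst) (stOf x) = x := by
  apply List.ext_getElem
  · rw [ISLift_length_mkW, List.length_map]
  · intro p h1 h2
    unfold mkW
    rw [List.getElem_map, List.getElem_range]
    apply Prod.ext
    · simp only
      rw [List.getD_eq_getElem _ _ (by simpa using h2), List.getElem_map]
    · simp only
      funext j
      rw [ISLift_get_stOf]
      unfold rv
      rw [ISLift_dig_val _ p (by simpa using h2), List.getElem_map]

theorem reach_W (x : List IL) (hx : (stOf x).Bd (4 ^ x.length)) (hx2 : x ≠ []) (x' : List IL) :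
    ReflTransGen WStep x x' ↔ x'.map Prod.fst = x.map Prod.fst ∧
      ReflTransGen (IStep (4 ^ x.length) (EW (x.map Prod.fst)) (FW (x.map Prod.fst)))
        (stOf x) (stOf x') := by
  constructor
  · intro h
    induction h with
    | refl => exact ⟨rfl, ReflTransGen.refl⟩
    | tail _ hs ih =>
      obtain ⟨e1, ih⟩ := ih
      obtain ⟨e2, hs⟩ := hs
      have hl := congrArg List.length e1
      rw [List.length_map, List.length_map] at hl
      rw [e1, hl] at hs
      exact ⟨e2.trans e1, ih.tail hs⟩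
  · rintro ⟨he, h⟩
    have hN : 0 < x.length := List.length_pos_iff.mpr hx2
    have hl : (x.map Prod.fst).length = x.length := List.length_map _
    have hE : ∀ a b, EW (x.map Prod.fst) a b → b < 4 ^ x.length := by
      intro a b hab
      have := hab.2.1
      rwa [hl] at this
    have key : ∀ s, ReflTransGen (IStep (4 ^ x.length) (EW (x.map Prod.fst))
        (FW (x.map Prod.fst))) (stOf x) s →
        s.Bd (4 ^ x.length) ∧ ReflTransGen WStep x (mkW (x.map Prod.fst) s) := by
      intro s hs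
      induction hs with
      | refl =>
        rw [mkW_stOf]
        exact ⟨hx, ReflTransGen.refl⟩
      | @tail s s' _ hs ih =>
        obtain ⟨hb, ih⟩ := ih
        have hb' := ISLift_is_bd hE hb hs
        refine ⟨hb', ih.tail ⟨?_, ?_⟩⟩
        · rw [mkW_fst, mkW_fst]
        · rw [mkW_fst, ISLift_length_mkW, hl,
            stOf_mkW _ _ (fun j => by rw [hl]; exact ISLift_get_lt hN hb j),
            stOf_mkW _ _ (fun j => by rw [hl]; exact ISLift_get_lt hN hb' j)]
          exact hs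
    have h2 := (key _ h).2
    rwa [← he, mkW_stOf] at h2

end Pool.Agent.Book19
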