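import Pool.Agent.Book19.ISDefs

/-!
# The counting machine: bounds, and correctness if it stops
-/

set_option autoImplicit false

namespace Pool.Agent.Book19

open Relation

theorem is_bd {m : ℕ} {E : ℕ → ℕ → Prop} {F : ℕ → Prop} (hE : ∀ a b, E a b → b < m) {s s' : St}
    (h : s.Bd m) (hs : IStep m E F s s') : s'.Bd m := by
  unfold St.Bd at h ⊢
  rcases hs with ⟨h1, h2, h3⟩ | ⟨h1, h2, h3⟩ | ⟨h1, h2, h4, h3⟩ | ⟨h1, h2, h4, -, -, h3⟩ |
    ⟨h1, h2, h4, -, -, h3⟩ | ⟨h1, h2, h4, h5, -, h3⟩ | ⟨h1, h2, h4, h5, -, h3⟩ |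
    ⟨h1, h2, h4, h5, h3⟩ | ⟨h1, h2, h3⟩
  · rw [h3]; dsimp only; omega
  · rw [h3]; dsimp only; omega
  · have h6 := hE _ _ h4
    rw [h3]; dsimp only; omega
  · rw [h3]; dsimp only; omega
  · rw [h3]; dsimp only; omega
  · rw [h3]; dsimp only; omega
  · rw [h3]; dsimp only; omega
  · rw [h3]; dsimp only; omega
  · rw [h3]; dsimp only; omega

/-- points reachable in at most `t` steps -/
private def RR (E : ℕ → ℕ → Prop) (x0 : ℕ) : ℕ → ℕ → Prop
  | 0, y => y = x0
  | t + 1, y => RR E x0 t y ∨ ∃ a, RR E x0 t a ∧ E a y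

private theorem RR_mono {E : ℕ → ℕ → Prop} {x0 : ℕ} {t t' : ℕ} (h : t ≤ t') {y : ℕ}
    (hy : RR E x0 t y) : RR E x0 t' y := by
  induction h with
  | refl => exact hy
  | step _ ih => exact Or.inl ih

private theorem RR_lt {m : ℕ} {E : ℕ → ℕ → Prop} {x0 : ℕ} (hx0 : x0 + 1 < m)
    (hE : ∀ a b, E a b → b + 1 < m) : ∀ (t y : ℕ), RR E x0 t y → y + 1 < m
  | 0, y, h => by
    have : y = x0 := h
    omega
  | t + 1, y, h => by
    rcases h with h | ⟨a, _, h⟩
    · exact RR_lt hx0 hE t y h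
    · exact hE _ _ h

open Classical in
/-- the same as a finite set -/
private noncomputable def RF (m : ℕ) (E : ℕ → ℕ → Prop) (x0 t : ℕ) : Finset ℕ :=
  (Finset.range m).filter (fun y => RR E x0 t y)

private theorem mem_RF {m : ℕ} {E : ℕ → ℕ → Prop} {x0 : ℕ} (hx0 : x0 + 1 < m)
    (hE : ∀ a b, E a b → b + 1 < m) {t y : ℕ} : y ∈ RF m E x0 t ↔ RR E x0 t y := by
  classical
  unfold RF
  simp only [Finset.mem_filter, Finset.mem_range]
  constructor
  · exact fun h => h.2
  · intro h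
    have := RR_lt hx0 hE t y h
    exact ⟨by omega, h⟩

private theorem RF_stable {m : ℕ} {E : ℕ → ℕ → Prop} {x0 : ℕ} (hx0 : x0 + 1 < m)
    (hE : ∀ a b, E a b → b + 1 < m) :
    ∃ t < m - 1, RF m E x0 t = RF m E x0 (t + 1) := by
  have key : ∀ t, (∃ t' < t, RF m E x0 t' = RF m E x0 (t' + 1)) ∨
      t + 1 ≤ (RF m E x0 t).card := by
    intro t
    induction t with
    | zero =>
      right
      rw [Nat.zero_add, Nat.one_le_iff_ne_zero, Finset.card_ne_zero]
      exact ⟨x0, (mem_RF hx0 hE).2 rfl⟩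
    | succ t ih =>
      rcases ih with ⟨t', h1, h2⟩ | h1
      · exact Or.inl ⟨t', by omega, h2⟩
      · by_cases h : RF m E x0 t = RF m E x0 (t + 1)
        · exact Or.inl ⟨t, by omega, h⟩
        · right
          have h2 : RF m E x0 t ⊂ RF m E x0 (t + 1) := by
            refine lt_of_le_of_ne (fun y hy => ?_) h
            rw [mem_RF hx0 hE] at hy ⊢
            exact Or.inl hy
          have := Finset.card_lt_card h2
          omega
  rcases key (m - 1) with h | h
  · exact h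
  · exfalso
    have h1 : RF m E x0 (m - 1) ⊆ Finset.range (m - 1) := by
      intro y hy
      have := RR_lt hx0 hE _ y ((mem_RF hx0 hE).1 hy)
      rw [Finset.mem_range]
      omega
    have := Finset.card_le_card h1
    rw [Finset.card_range] at this
    omega

private theorem RR_all {m : ℕ} {E : ℕ → ℕ → Prop} {x0 : ℕ} (hx0 : x0 + 1 < m)
    (hE : ∀ a b, E a b → b + 1 < m) {F : ℕ → Prop}
    (hF : ∀ t < m - 1, ∀ a, RR E x0 t a → ¬ F a) (y : ℕ) (hy : ReflTransGen E x0 y) : ¬ F y := by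
  obtain ⟨t, ht, h⟩ := RF_stable hx0 hE
  refine hF t ht y ?_
  induction hy with
  | refl => exact RR_mono (Nat.zero_le t) rfl
  | tail _ h2 ih =>
    have h3 : RR E x0 (t + 1) _ := Or.inr ⟨_, ih, h2⟩
    rw [← mem_RF hx0 hE, ← h, mem_RF hx0 hE] at h3
    exact h3

/-- The invariant. -/
private structure ISInv (m : ℕ) (E : ℕ → ℕ → Prop) (F : ℕ → Prop) (x0 : ℕ) (s : St) : Prop where
  hx : s.x0 = x0
  hc : s.c = (RF m E x0 s.t).card
  hc' : s.c' = ((RF m E x0 (s.t + 1)).filter (· < s.y)).card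
  hA : ∃ A : Finset ℕ, A ⊆ RF m E x0 s.t ∧ (∀ a ∈ A, a < s.z ∧ ¬ F a) ∧ A.card = s.d ∧
    (s.fl = 1 ↔ ∃ a ∈ A, E a s.y ∨ a = s.y)
  hp : s.ph = 1 → RR E x0 s.i s.p ∧ s.i ≤ s.t
  hf : ∀ t < s.t, ∀ a, RR E x0 t a → ¬ F a
  hg : 1 ≤ s.y → ∀ a, RR E x0 s.t a → ¬ F a

private theorem isInv_step {m : ℕ} (hm : 2 ≤ m) {x0 : ℕ} {E : ℕ → ℕ → Prop} {F : ℕ → Prop}
    (hx0 : x0 + 1 < m) (hE : ∀ a b, E a b → b + 1 < m) {s s' : St}
    (h : ISInv m E F x0 s) (hs : IStep m E F s s') :
    (s'.ph ≤ 1 ∧ ISInv m E F x0 s') ∨ (s'.ph = 2 ∧ ∀ y, ReflTransGen E x0 y → ¬ F y) := by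
  classical
  obtain ⟨hx, hc, hc', ⟨A, hA1, hA2, hA3, hA4⟩, hp, hf, hg⟩ := h
  rcases hs with ⟨h1, h2, h3⟩ | ⟨h1, h2, h3⟩ | ⟨h1, h2, h4, h3⟩ | ⟨h1, h2, h4, h5, h6, h3⟩ |
    ⟨h1, h2, h4, h5, h6, h3⟩ | ⟨h1, h2, h4, h5, h6, h3⟩ | ⟨h1, h2, h4, h5, h6, h3⟩ |
    ⟨h1, h2, h4, h5, h3⟩ | ⟨h1, h2, h3⟩
  · left
    rw [h3]
    exact ⟨by dsimp only; omega, hx, hc, hc',
      ⟨A, hA1, fun a ha => ⟨(hA2 a ha).1.trans (Nat.lt_succ_self _), (hA2 a ha).2⟩, hA3, hA4⟩,
      fun h => by dsimp only at h; omega, hf, hg⟩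
  · left
    rw [h3]
    exact ⟨le_rfl, hx, hc, hc', ⟨A, hA1, hA2, hA3, hA4⟩, fun _ => ⟨hx, Nat.zero_le _⟩, hf, hg⟩
  · left
    have hp' := hp h1
    rw [h3]
    refine ⟨by dsimp only; omega, hx, hc, hc', ⟨A, hA1, hA2, hA3, hA4⟩, fun _ => ⟨?_, ?_⟩, hf, hg⟩
    · exact Or.inr ⟨s.p, hp'.1, h4⟩
    · have := hp'.2
      dsimp only
      omega
  · left
    have hp' := hp h1
    have hz : RR E x0 s.t s.z := by
      rw [← h2]
      exact RR_mono hp'.2 hp'.1
    have hzA : s.z ∉ A := fun hz => absurd (hA2 _ hz).1 (lt_irrefl _)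
    rw [h3]
    refine ⟨by dsimp only; omega, hx, hc, hc', ⟨insert s.z A, ?_, ?_, ?_, ?_⟩, fun h => ?_, hf, hg⟩
    · rw [Finset.insert_subset_iff]
      exact ⟨(mem_RF hx0 hE).2 hz, hA1⟩
    · intro a ha
      rcases Finset.mem_insert.1 ha with rfl | ha
      · exact ⟨Nat.lt_succ_self _, h5⟩
      · exact ⟨(hA2 a ha).1.trans (Nat.lt_succ_self _), (hA2 a ha).2⟩
    · rw [Finset.card_insert_of_notMem hzA, hA3]
    · dsimp only
      refine ⟨fun _ => ⟨s.z, Finset.mem_insert_self _ _, h6⟩, fun _ => rfl⟩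
    · dsimp only at h; omega
  · left
    have hp' := hp h1
    have hz : RR E x0 s.t s.z := by
      rw [← h2]
      exact RR_mono hp'.2 hp'.1
    have hzA : s.z ∉ A := fun hz => absurd (hA2 _ hz).1 (lt_irrefl _)
    rw [h3]
    refine ⟨by dsimp only; omega, hx, hc, hc', ⟨insert s.z A, ?_, ?_, ?_, ?_⟩, fun h => ?_, hf, hg⟩
    · rw [Finset.insert_subset_iff]
      exact ⟨(mem_RF hx0 hE).2 hz, hA1⟩
    · intro a ha
      rcases Finset.mem_insert.1 ha with rfl | ha
      · exact ⟨Nat.lt_succ_self _, h5⟩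
      · exact ⟨(hA2 a ha).1.trans (Nat.lt_succ_self _), (hA2 a ha).2⟩
    · rw [Finset.card_insert_of_notMem hzA, hA3]
    · dsimp only
      rw [hA4]
      constructor
      · rintro ⟨a, ha, hay⟩
        exact ⟨a, Finset.mem_insert_of_mem ha, hay⟩
      · rintro ⟨a, ha, hay⟩
        rcases Finset.mem_insert.1 ha with rfl | ha
        · exact absurd hay h6
        · exact ⟨a, ha, hay⟩
    · dsimp only at h; omega
  · left
    have hAR : A = RF m E x0 s.t := Finset.eq_of_subset_of_card_le hA1 (by rw [hA3, h4, hc])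
    have hFt : ∀ a, RR E x0 s.t a → ¬ F a := fun a ha =>
      (hA2 a (by rw [hAR]; exact (mem_RF hx0 hE).2 ha)).2
    have hy : ¬ RR E x0 (s.t + 1) s.y := by
      intro hy
      have h7 : ∃ a ∈ A, E a s.y ∨ a = s.y := by
        rcases hy with hy | ⟨a, ha, hay⟩
        · exact ⟨s.y, by rw [hAR]; exact (mem_RF hx0 hE).2 hy, Or.inr rfl⟩
        · exact ⟨a, by rw [hAR]; exact (mem_RF hx0 hE).2 ha, Or.inl hay⟩
      have := hA4.2 h7
      omega
    rw [h3]
    refine ⟨by dsimp only; omega, hx, hc, ?_, ⟨∅, Finset.empty_subset _, ?_, ?_, ?_⟩, fun h => ?_,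
      hf, fun _ => hFt⟩
    · dsimp only
      rw [hc']
      congr 1
      ext a
      simp only [Finset.mem_filter]
      refine and_congr_right fun ha => ?_
      have : a ≠ s.y := by
        rintro rfl
        exact hy ((mem_RF hx0 hE).1 ha)
      omega
    · intro a ha; exact absurd ha (Finset.notMem_empty _)
    · rfl
    · dsimp only
      constructor
      · intro h; omega
      · rintro ⟨a, ha, _⟩; exact absurd ha (Finset.notMem_empty _)
    · dsimp only at h; omega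
  · left
    have hAR : A = RF m E x0 s.t := Finset.eq_of_subset_of_card_le hA1 (by rw [hA3, h4, hc])
    have hFt : ∀ a, RR E x0 s.t a → ¬ F a := fun a ha =>
      (hA2 a (by rw [hAR]; exact (mem_RF hx0 hE).2 ha)).2
    have hy : RR E x0 (s.t + 1) s.y := by
      obtain ⟨a, ha, hay⟩ := hA4.1 h6
      have ha' := (mem_RF hx0 hE).1 (hA1 ha)
      rcases hay with hay | rfl
      · exact Or.inr ⟨a, ha', hay⟩
      · exact Or.inl ha'
    rw [h3]
    refine ⟨by dsimp only; omega, hx, hc, ?_, ⟨∅, Finset.empty_subset _, ?_, ?_, ?_⟩, fun h => ?_,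
      hf, fun _ => hFt⟩
    · dsimp only
      have h7 : (RF m E x0 (s.t + 1)).filter (· < s.y + 1) =
          insert s.y ((RF m E x0 (s.t + 1)).filter (· < s.y)) := by
        ext a
        simp only [Finset.mem_filter, Finset.mem_insert]
        constructor
        · rintro ⟨ha, hay⟩
          by_cases h : a = s.y
          · exact Or.inl h
          · exact Or.inr ⟨ha, by omega⟩
        · rintro (rfl | ⟨ha, hay⟩)
          · exact ⟨(mem_RF hx0 hE).2 hy, by omega⟩
          · exact ⟨ha, by omega⟩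
      rw [h7, Finset.card_insert_of_notMem (by simp), hc']
    · intro a ha; exact absurd ha (Finset.notMem_empty _)
    · rfl
    · dsimp only
      constructor
      · intro h; omega
      · rintro ⟨a, ha, _⟩; exact absurd ha (Finset.notMem_empty _)
    · dsimp only at h; omega
  · left
    have hFt := hg (by omega)
    rw [h3]
    refine ⟨by dsimp only; omega, hx, ?_, ?_, ⟨∅, Finset.empty_subset _, ?_, ?_, ?_⟩, fun h => ?_,
      fun t ht => ?_, fun h => ?_⟩
    · dsimp only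
      rw [hc']
      congr 1
      rw [Finset.filter_eq_self]
      intro a ha
      have := RR_lt hx0 hE _ a ((mem_RF hx0 hE).1 ha)
      omega
    · simp
    · intro a ha; exact absurd ha (Finset.notMem_empty _)
    · rfl
    · dsimp only
      constructor
      · intro h; omega
      · rintro ⟨a, ha, _⟩; exact absurd ha (Finset.notMem_empty _)
    · dsimp only at h; omega
    · dsimp only at ht
      rcases Nat.lt_succ_iff_lt_or_eq.1 ht with ht | rfl
      · exact hf t ht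
      · exact hFt
    · dsimp only at h; omega
  · right
    rw [h3]
    refine ⟨rfl, fun y hy => RR_all hx0 hE (fun t ht => hf t (by omega)) y hy⟩

theorem is_sound {m : ℕ} (hm : 2 ≤ m) {x0 : ℕ} {E : ℕ → ℕ → Prop} {F : ℕ → Prop}
    (hx0 : x0 + 1 < m) (hE : ∀ a b, E a b → b + 1 < m) {s : St}
    (h : ReflTransGen (IStep m E F) (St.init x0) s) (hs : s.ph = 2) :
    ∀ y, ReflTransGen E x0 y → ¬ F y := by
  have key : (s.ph ≤ 1 ∧ ISInv m E F x0 s) ∨ (s.ph = 2 ∧ ∀ y, ReflTransGen E x0 y → ¬ F y) := by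
    clear hs
    induction h with
    | refl =>
      left
      refine ⟨Nat.zero_le _, rfl, ?_, ?_, ⟨∅, Finset.empty_subset _, ?_, rfl, ?_⟩, fun h => ?_,
        fun t ht => ?_, fun h => ?_⟩
      · change 1 = (RF m E x0 0).card
        have h1 : RF m E x0 0 = {x0} := by
          ext a
          rw [mem_RF hx0 hE, Finset.mem_singleton]
          rfl
        rw [h1, Finset.card_singleton]
      · simp [St.init]
      · intro a ha; exact absurd ha (Finset.notMem_empty _)
      · constructor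
        · intro h; simp [St.init] at h
        · rintro ⟨a, ha, _⟩; exact absurd ha (Finset.notMem_empty _)
      · simp [St.init] at h
      · simp [St.init] at ht
      · simp [St.init] at h
    | tail _ h2 ih =>
      rcases ih with ⟨_, ih⟩ | ⟨h3, _⟩
      · exact isInv_step hm hx0 hE ih h2
      · exfalso
        rcases h2 with h | h | h | h | h | h | h | h | h
        all_goals
          have := h.1
          omega
  rcases key with ⟨h1, _⟩ | ⟨_, h2⟩
  · omega
  · exact h2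

end Pool.Agent.Book19
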