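import Pool.Agent.Book19.ISUP
import Pool.Agent.Book19.StepUP

/-!
# The steps of the counting machine on words are in the class `UP` (package IS6)
-/

set_option autoImplicit false

namespace Pool.Agent.Book19

open Turing Computability Filter Topology Pool.Agent.PT Relation

private theorem isstep_val (x : List (Fin 4)) (p : ℕ) (hp : p < x.length) :
    dig (val x) p = x[p] := by
  induction x generalizing p with
  | nil => simp at hp
  | cons d x ih =>
    have hd := d.isLt
    apply Fin.ext
    cases p with
    | zero =>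
      simp only [dig, val, pow_zero, Nat.div_one, List.getElem_cons_zero]
      omega
    | succ p =>
      have h := congrArg Fin.val (ih p (by simpa using hp))
      simp only [dig] at h
      simp only [dig, val, List.getElem_cons_succ]
      rw [← h, pow_succ', ← Nat.div_div_eq_div_mul]
      congr 3
      omega

private theorem isstep_cfgW {Γ : Type} (w : List Γ) (a : Γ → SL) (d : Γ → Fin 4) :
    cfgW (w.map a) (val (w.map d)) = w.map (fun l => clOf (a l) (d l)) := by
  unfold cfgW
  apply List.ext_getElem
  · simp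
  · intro i h1 h2
    have hi : i < w.length := by simpa using h2
    rw [List.getElem_map, List.getElem_range, isstep_val _ _ (by simpa using hi)]
    simp [List.getD_eq_getElem?_getD, hi]

private theorem isstep_rv1 (w : List (IL × IL)) (j : Rg) :
    rv (w.map Prod.fst) j = val (w.map fun l => l.1.2 j) := by
  unfold rv
  rw [List.map_map]
  rfl

private theorem isstep_rv2 (w : List (IL × IL)) (j : Rg) :
    rv (w.map Prod.snd) j = val (w.map fun l => l.2.2 j) := by
  unfold rv
  rw [List.map_map]
  rfl

private theorem isstep_eq11 (j j' : Rg) :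
    UP (fun (w : List (IL × IL)) _ => rv (w.map Prod.fst) j = rv (w.map Prod.fst) j') :=
  (up_val_eq (fun l : IL × IL => l.1.2 j) (fun l => l.1.2 j')).congr fun w _ => by
    rw [isstep_rv1, isstep_rv1]

private theorem isstep_eq21 (j j' : Rg) :
    UP (fun (w : List (IL × IL)) _ => rv (w.map Prod.snd) j = rv (w.map Prod.fst) j') :=
  (up_val_eq (fun l : IL × IL => l.2.2 j) (fun l => l.1.2 j')).congr fun w _ => by
    rw [isstep_rv1, isstep_rv2]

private theorem isstep_eq22 (j j' : Rg) :
    UP (fun (w : List (IL × IL)) _ => rv (w.map Prod.snd) j = rv (w.map Prod.snd) j') :=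
  (up_val_eq (fun l : IL × IL => l.2.2 j) (fun l => l.2.2 j')).congr fun w _ => by
    rw [isstep_rv2, isstep_rv2]

private theorem isstep_c1 (j : Rg) (c : ℕ) (hc : c < 4) :
    UP (fun (w : List (IL × IL)) _ => rv (w.map Prod.fst) j = c) :=
  (up_val_const (fun l : IL × IL => l.1.2 j) c hc).congr fun w _ => by rw [isstep_rv1]

private theorem isstep_c2 (j : Rg) (c : ℕ) (hc : c < 4) :
    UP (fun (w : List (IL × IL)) _ => rv (w.map Prod.snd) j = c) :=
  (up_val_const (fun l : IL × IL => l.2.2 j) c hc).congr fun w _ => by rw [isstep_rv2]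

private theorem isstep_s21 (j j' : Rg) :
    UP (fun (w : List (IL × IL)) _ => rv (w.map Prod.snd) j = rv (w.map Prod.fst) j' + 1) :=
  (up_val_succ (fun l : IL × IL => l.1.2 j') (fun l => l.2.2 j)).congr fun w _ => by
    rw [isstep_rv1, isstep_rv2]

private theorem isstep_m1 (j : Rg) :
    UP (fun (w : List (IL × IL)) _ => rv (w.map Prod.fst) j + 1 = 4 ^ (w.map Prod.fst).length) :=
  (up_val_max (fun l : IL × IL => l.1.2 j)).congr fun w _ => by
    rw [isstep_rv1, List.length_map]

private theorem isstep_E (d d' : IL × IL → Fin 4) :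
    UP (fun (w : List (IL × IL)) _ => EW ((w.map Prod.fst).map Prod.fst) (val (w.map d))
      (val (w.map d'))) := by
  have h := UP.relabel (fun l : IL × IL => (clOf l.1.1 (d l), clOf l.1.1 (d' l))) up_stepLang
  refine h.congr fun w _ => ?_
  unfold EW
  have h1 := val_lt (w.map d)
  have h2 := val_lt (w.map d')
  rw [List.length_map] at h1 h2
  rw [List.map_map, List.length_map, isstep_cfgW, isstep_cfgW]
  constructor
  · intro h3
    refine ⟨h1, h2, ?_⟩
    have h4 : UStep ((w.map fun l : IL × IL => (clOf l.1.1 (d l), clOf l.1.1 (d' l))).map Prod.fst)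
        ((w.map fun l : IL × IL => (clOf l.1.1 (d l), clOf l.1.1 (d' l))).map Prod.snd) := h3
    rw [List.map_map, List.map_map] at h4
    exact h4
  · rintro ⟨-, -, h3⟩
    change UStep ((w.map fun l : IL × IL => (clOf l.1.1 (d l), clOf l.1.1 (d' l))).map Prod.fst)
        ((w.map fun l : IL × IL => (clOf l.1.1 (d l), clOf l.1.1 (d' l))).map Prod.snd)
    rw [List.map_map, List.map_map]
    exact h3

private theorem isstep_E11 (j j' : Rg) :
    UP (fun (w : List (IL × IL)) _ => EW ((w.map Prod.fst).map Prod.fst)
      (rv (w.map Prod.fst) j) (rv (w.map Prod.fst) j')) :=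
  (isstep_E (fun l => l.1.2 j) (fun l => l.1.2 j')).congr fun w _ => by
    rw [isstep_rv1, isstep_rv1]

private theorem isstep_E12 (j j' : Rg) :
    UP (fun (w : List (IL × IL)) _ => EW ((w.map Prod.fst).map Prod.fst)
      (rv (w.map Prod.fst) j) (rv (w.map Prod.snd) j')) :=
  (isstep_E (fun l => l.1.2 j) (fun l => l.2.2 j')).congr fun w _ => by
    rw [isstep_rv1, isstep_rv2]

private theorem isstep_F (j : Rg) :
    UP (fun (w : List (IL × IL)) _ => FW ((w.map Prod.fst).map Prod.fst)
      (rv (w.map Prod.fst) j)) := by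
  refine (isup_up_ex (fun l : IL × IL => (clOf l.1.1 (l.1.2 j)).st = true ∧
    (clOf l.1.1 (l.1.2 j)).f1 = true)).congr fun w _ => ?_
  unfold FW
  rw [isstep_rv1, List.map_map, isstep_cfgW]
  constructor
  · rintro ⟨l, hl, h1, h2⟩
    exact ⟨_, List.mem_map_of_mem hl, h1, h2⟩
  · rintro ⟨a, ha, h1, h2⟩
    obtain ⟨l, hl, rfl⟩ := List.mem_map.mp ha
    exact ⟨l, hl, h1, h2⟩

private theorem isstep_sig :
    UP (fun (w : List (IL × IL)) _ => (w.map Prod.snd).map Prod.fst =
      (w.map Prod.fst).map Prod.fst) := by
  refine (isup_up_all (fun l : IL × IL => l.2.1 = l.1.1)).congr fun w _ => ?_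
  rw [List.map_map, List.map_map, List.map_inj_left]
  rfl

theorem up_wstepLang : UP (fun (w : List (IL × IL)) _ => w ∈ WStepLang) := by
  have h : UP (fun (w : List (IL × IL)) _ => WStep (w.map Prod.fst) (w.map Prod.snd)) := by
    unfold WStep IStep
    simp only [St.ext_iff, stOf]
    repeat' first
      | exact isstep_sig
      | exact UP.true
      | exact isstep_E11 _ _
      | exact isstep_E12 _ _
      | exact isstep_F _
      | exact isstep_m1 _
      | exact isstep_eq11 _ _
      | exact isstep_eq21 _ _
      | exact isstep_eq22 _ _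
      | exact isstep_s21 _ _
      | exact isstep_c1 _ 0 (by norm_num)
      | exact isstep_c1 _ 1 (by norm_num)
      | exact isstep_c1 _ 2 (by norm_num)
      | exact isstep_c2 _ 0 (by norm_num)
      | exact isstep_c2 _ 1 (by norm_num)
      | exact isstep_c2 _ 2 (by norm_num)
      | refine UP.and ?_ ?_
      | refine UP.or ?_ ?_
      | refine UP.not ?_
  exact h

end Pool.Agent.Book19
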