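import Pool.Agent.Book19.ISDefs
import Pool.Agent.Book19.DVal

/-!
# Configuration words and numbers
-/

set_option autoImplicit false

namespace Pool.Agent.Book19

open Turing Computability Filter Topology Pool.Agent.PT Relation

private theorem ISWord_dig_succ (n p : ℕ) : dig n (p + 1) = dig (n / 4) p := by
  unfold dig
  apply Fin.ext
  show n / 4 ^ (p + 1) % 4 = n / 4 / 4 ^ p % 4
  rw [Nat.div_div_eq_div_mul, pow_succ']

theorem val_dig (N n : ℕ) (h : n < 4 ^ N) : val ((List.range N).map (dig n)) = n := by
  induction N generalizing n with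
  | zero =>
    have h0 : n = 0 := by
      rw [pow_zero] at h
      omega
    rw [h0]
    rfl
  | succ N ih =>
    rw [List.range_succ_eq_map, List.map_cons, List.map_map]
    have h1 : (dig n ∘ Nat.succ) = dig (n / 4) := by
      funext p
      exact ISWord_dig_succ n p
    rw [h1]
    have h2 : n / 4 < 4 ^ N := by
      rw [pow_succ] at h
      exact Nat.div_lt_of_lt_mul (by rw [mul_comm]; exact h)
    show ((dig n 0 : Fin 4) : ℕ) + 4 * val ((List.range N).map (dig (n / 4))) = n
    rw [ih _ h2]
    show n / 4 ^ 0 % 4 + 4 * (n / 4) = n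
    rw [pow_zero, Nat.div_one]
    exact Nat.mod_add_div n 4

theorem dig_val (x : List (Fin 4)) (p : ℕ) (hp : p < x.length) : dig (val x) p = x[p] := by
  induction x generalizing p with
  | nil => simp at hp
  | cons d x ih =>
    have hd := d.isLt
    cases p with
    | zero =>
      apply Fin.ext
      show ((d : ℕ) + 4 * val x) / 4 ^ 0 % 4 = d
      rw [pow_zero, Nat.div_one]
      omega
    | succ p =>
      have hp' : p < x.length := by simpa using hp
      rw [ISWord_dig_succ, List.getElem_cons_succ, ← ih p hp']
      congr 1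
      show ((d : ℕ) + 4 * val x) / 4 = val x
      omega

theorem cfgW_val {Γ : Type} (w : List Γ) (a : Γ → SL) (d : Γ → Fin 4) :
    cfgW (w.map a) (val (w.map d)) = w.map (fun l => clOf (a l) (d l)) := by
  unfold cfgW
  apply List.ext_getElem
  · simp
  · intro p h1 h2
    have hp : p < w.length := by simpa using h2
    rw [List.getElem_map, List.getElem_range, List.getElem_map,
      dig_val _ p (by rw [List.length_map]; exact hp), List.getElem_map]
    rw [List.getD_eq_getElem _ _ (by rw [List.length_map]; exact hp), List.getElem_map]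

private theorem ISWord_clOf (a : CL) (h : a.f2 = false) : clOf (slOf a) (dgOf a) = a := by
  obtain ⟨km, tab, f1, f2, sym, st⟩ := a
  simp only at h
  subst h
  cases sym <;> cases st <;> rfl

theorem cfgW_of (c : List CL) (h : ∀ a ∈ c, a.f2 = false) :
    cfgW (c.map slOf) (val (c.map dgOf)) = c := by
  rw [cfgW_val]
  conv_rhs => rw [← List.map_id c]
  apply List.map_congr_left
  intro a ha
  exact ISWord_clOf a (h a ha)

private theorem ISWord_length (σ : List SL) (n : ℕ) : (cfgW σ n).length = σ.length := by
  unfold cfgW
  rw [List.length_map, List.length_range]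

private theorem ISWord_getD (σ : List SL) (n p : ℕ) (hp : p < σ.length) :
    (cfgW σ n).getD p default = clOf (σ.getD p (false, none, false)) (dig n p) := by
  rw [List.getD_eq_getElem _ _ (by rw [ISWord_length]; exact hp)]
  unfold cfgW
  rw [List.getElem_map, List.getElem_range]

private theorem ISWord_step (σ : List SL) (n : ℕ) (c : List CL) (h : UStep (cfgW σ n) c) :
    ∃ n', n' < 4 ^ σ.length ∧ c = cfgW σ n' := by
  obtain ⟨e, _, g, _, _, hc⟩ := h
  rw [ISWord_length] at hc
  have hlen : c.length = σ.length := by rw [hc, List.length_map, List.length_range]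
  have h1 : c.map slOf = σ := by
    rw [hc, List.map_map]
    apply List.ext_getElem
    · simp
    · intro p h1 h2
      rw [List.getElem_map, List.getElem_range]
      show ((((cfgW σ n).getD p default).km, ((cfgW σ n).getD p default).tab,
        ((cfgW σ n).getD p default).f1) : SL) = σ[p]
      rw [ISWord_getD σ n p h2, List.getD_eq_getElem _ _ h2]
      rfl
  have h2 : ∀ a ∈ c, a.f2 = false := by
    intro a ha
    rw [hc] at ha
    obtain ⟨p, hp, rfl⟩ := List.mem_map.mp ha
    rw [List.mem_range] at hp
    show ((cfgW σ n).getD p default).f2 = false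
    rw [ISWord_getD σ n p hp]
    rfl
  refine ⟨val (c.map dgOf), ?_, ?_⟩
  · have := val_lt (c.map dgOf)
    rw [List.length_map, hlen] at this
    exact this
  · have := cfgW_of c h2
    rw [h1] at this
    exact this.symm

theorem reach_EW (σ : List SL) (n : ℕ) (hn : n < 4 ^ σ.length) (c : List CL) :
    ReflTransGen UStep (cfgW σ n) c ↔
      ∃ n', n' < 4 ^ σ.length ∧ ReflTransGen (EW σ) n n' ∧ c = cfgW σ n' := by
  constructor
  · intro h
    induction h with
    | refl => exact ⟨n, hn, ReflTransGen.refl, rfl⟩
    | tail _ hs ih =>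
      obtain ⟨n1, hn1, hr, rfl⟩ := ih
      obtain ⟨n2, hn2, rfl⟩ := ISWord_step σ n1 _ hs
      exact ⟨n2, hn2, hr.tail ⟨hn1, hn2, hs⟩, rfl⟩
  · rintro ⟨n', hlt, hr, rfl⟩
    clear hlt
    induction hr with
    | refl => exact ReflTransGen.refl
    | tail _ hs ih => exact ih.tail hs.2.2

private theorem ISWord_kc (σ : List SL) (n : ℕ) :
    kc (cfgW σ n) = σ.countP (fun a => a.1) := by
  unfold kc cfgW
  rw [List.countP_map]
  have h1 : σ = (List.range σ.length).map (fun p => σ.getD p (false, none, false)) := by
    apply List.ext_getElem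
    · simp
    · intro p h1 h2
      rw [List.getElem_map, List.getElem_range, List.getD_eq_getElem _ _ h1]
  conv_rhs => rw [h1, List.countP_map]
  rfl

theorem EW_lt (σ : List SL) (hσ : 2 * σ.countP (fun a => a.1) ≤ σ.length) {a b : ℕ}
    (h : EW σ a b) : b + 1 < 4 ^ σ.length := by
  classical
  obtain ⟨_, hb, e, he, g, _, hM, hc⟩ := h
  by_contra hcon
  have hb1 : b + 1 = 4 ^ σ.length := by omega
  rw [ISWord_length] at he hc
  have hdig : ∀ p < σ.length, dig b p = 3 := by
    intro p hp
    have h1 : val (List.replicate σ.length (3 : Fin 4)) + 1 = 4 ^ σ.length := by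
      have : ∀ N : ℕ, val (List.replicate N (3 : Fin 4)) + 1 = 4 ^ N := by
        intro N
        induction N with
        | zero => rfl
        | succ N ih =>
          rw [List.replicate_succ, pow_succ, ← ih]
          show ((3 : Fin 4) : ℕ) + 4 * val (List.replicate N (3 : Fin 4)) + 1 = _
          show 3 + 4 * val (List.replicate N (3 : Fin 4)) + 1 = _
          ring
      exact this _
    have h2 : b = val (List.replicate σ.length (3 : Fin 4)) := by omega
    rw [h2, dig_val _ p (by rw [List.length_replicate]; exact hp), List.getElem_replicate]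
  have hst : ∀ p < σ.length, p / kc (cfgW σ a) =
      tgt (cfgW σ a) (kc (cfgW σ a)) (σ.length / kc (cfgW σ a)) e g := by
    intro p hp
    have h1 : (cfgW σ b).getD p default = nextL (cfgW σ a) (kc (cfgW σ a))
        (σ.length / kc (cfgW σ a)) e g p := by
      rw [hc, List.getD_eq_getElem _ _ (by rw [List.length_map, List.length_range]; exact hp),
        List.getElem_map, List.getElem_range]
    rw [ISWord_getD σ b p hp, hdig p hp] at h1
    have h2 := congrArg CL.st h1
    have h3 : (clOf (σ.getD p (false, none, false)) 3).st = true := by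
      unfold clOf
      simp
    rw [h3] at h2
    unfold nextL at h2
    simp only at h2
    have h4 := (decide_eq_true_iff).mp h2.symm
    exact h4.1
  have hk : kc (cfgW σ a) = σ.countP (fun a => a.1) := ISWord_kc σ a
  have hk0 : 0 < kc (cfgW σ a) := by
    rcases Nat.eq_zero_or_pos (kc (cfgW σ a)) with h0 | h0
    · exfalso
      have h1 := hM.1
      rw [h0, Nat.div_zero] at h1
      omega
    · exact h0
  have h0 := hst 0 (by omega)
  have h1 := hst (kc (cfgW σ a)) (by omega)
  rw [Nat.div_self hk0, ← h0, Nat.zero_div] at h1
  omega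

end Pool.Agent.Book19
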