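import Pool.Agent.Book19.Core
import Pool.Agent.Book19.CoreLBA
import Pool.Agent.Book19.ISSound
import Pool.Agent.Book19.ISComplete
import Pool.Agent.Book19.ISWord
import Pool.Agent.Book19.ISLift
import Pool.Agent.Book19.ISStepUP

/-!
# The diagonal argument for nondeterministic linear space (with inductive counting)
-/

set_option autoImplicit false

namespace Pool.Agent.Book19

open Turing Computability Filter Topology Pool.Agent.PT Relation

/-! ### Relations given by languages with advice -/

theorem rl_iff_gen {S : Type} {R : List S → List S → Prop}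
    {W' : Set (List ((S × S) × Option Bool))} {κ : ℕ → List Bool}
    (hW : ∀ x : List (S × S), R (x.map Prod.fst) (x.map Prod.snd) ↔ trk x (κ x.length) ∈ W')
    (x : List S) (c c' : List S) (hx : x.length = c.length) :
    Rl W' ((trk x (κ x.length)).map Prod.snd) c c' ↔ c'.length = c.length ∧ R c c' := by
  unfold Rl
  refine and_congr_right fun hl => ?_
  have h1 : (c.zip c').length = x.length := by rw [List.length_zip, hl, hx]; simp
  have h2 := hW (c.zip c')
  rw [trk_eq_zip, h1, trk_snd_eq (c.zip c') x (κ x.length) h1] at h2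
  rw [← h2, List.map_fst_zip (by rw [hl]), List.map_snd_zip (by rw [hl])]

theorem reach_rl_gen {S : Type} {R : List S → List S → Prop}
    (hR : ∀ c c', R c c' → c'.length = c.length)
    {W' : Set (List ((S × S) × Option Bool))} {κ : ℕ → List Bool}
    (hW : ∀ x : List (S × S), R (x.map Prod.fst) (x.map Prod.snd) ↔ trk x (κ x.length) ∈ W')
    (x y : List S) :
    ReflTransGen (Rl W' ((trk x (κ x.length)).map Prod.snd)) x y ↔ ReflTransGen R x y := by
  constructor
  · intro h
    have key : ∀ y, ReflTransGen (Rl W' ((trk x (κ x.length)).map Prod.snd)) x y →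
        x.length = y.length ∧ ReflTransGen R x y := by
      intro y h
      induction h with
      | refl => exact ⟨rfl, ReflTransGen.refl⟩
      | tail _ h2 ih =>
        have h3 := (rl_iff_gen hW x _ _ ih.1).1 h2
        exact ⟨ih.1.trans h3.1.symm, ih.2.tail h3.2⟩
    exact (key y h).2
  · intro h
    have key : ∀ y, ReflTransGen R x y →
        x.length = y.length ∧
          ReflTransGen (Rl W' ((trk x (κ x.length)).map Prod.snd)) x y := by
      intro y h
      induction h with
      | refl => exact ⟨rfl, ReflTransGen.refl⟩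
      | tail _ h2 ih =>
        have h3 := hR _ _ h2
        exact ⟨ih.1.trans h3.symm, ih.2.tail ((rl_iff_gen hW x _ _ ih.1).2 ⟨h3, h2⟩)⟩
    exact (key y h).2

theorem WStep.length {x x' : List IL} (h : WStep x x') : x'.length = x.length := by
  have := congrArg List.length h.1
  simpa using this

/-! ### The start word -/

/-- the letter of the start word made from a configuration letter; `b` tells whether the letter is
the first one -/
def s0L (b : Bool) (a : CL) : IL :=
  (slOf a, fun j => match j with
    | Rg.x0 => dgOf a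
    | Rg.c => if b = true then 1 else 0
    | _ => 0)

/-- the start word made from a configuration word -/
def s0 (c : List CL) : List IL :=
  (List.range c.length).map fun p => s0L (decide (p = 0)) (c.getD p default)

theorem map_getD_range {Γ Δ : Type} (c : List Γ) (d : Γ) (f : Γ → Δ) :
    (List.range c.length).map (fun p => f (c.getD p d)) = c.map f := by
  apply List.ext_getElem
  · simp
  · intro i h1 h2
    simp only [List.length_map, List.length_range] at h1
    simp [List.getD_eq_getElem?_getD, h1]

theorem length_s0 (c : List CL) : (s0 c).length = c.length := by simp [s0]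

theorem s0_fst (c : List CL) : (s0 c).map Prod.fst = c.map slOf := by
  unfold s0
  rw [List.map_map, ← map_getD_range c default slOf]
  rfl

theorem rv_s0_x0 (c : List CL) : rv (s0 c) Rg.x0 = val (c.map dgOf) := by
  unfold rv s0
  rw [List.map_map, ← map_getD_range c default dgOf]
  rfl

theorem val_zero_of {x : List (Fin 4)} (h : ∀ a ∈ x, a = 0) : val x = 0 := by
  induction x with
  | nil => rfl
  | cons a x ih =>
    rw [val, ih (fun b hb => h b (List.mem_cons_of_mem _ hb)), h a List.mem_cons_self]
    rfl

theorem rv_s0_zero (c : List CL) (j : Rg) (h1 : j ≠ Rg.x0) (h2 : j ≠ Rg.c) :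
    rv (s0 c) j = 0 := by
  unfold rv s0
  rw [List.map_map]
  apply val_zero_of
  intro a ha
  rw [List.mem_map] at ha
  obtain ⟨p, _, rfl⟩ := ha
  simp only [Function.comp, s0L]

theorem rv_s0_c (c : List CL) (hc : c ≠ []) : rv (s0 c) Rg.c = 1 := by
  obtain ⟨a, l, rfl⟩ := List.exists_cons_of_ne_nil hc
  unfold rv s0
  rw [List.map_map, List.length_cons, List.range_succ_eq_map, List.map_cons, val, List.map_map]
  rw [val_zero_of]
  · rfl
  · intro a ha
    rw [List.mem_map] at ha
    obtain ⟨p, _, rfl⟩ := ha
    simp [Function.comp, s0L]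

theorem stOf_s0 (c : List CL) (hc : c ≠ []) : stOf (s0 c) = St.init (val (c.map dgOf)) := by
  unfold stOf St.init
  rw [rv_s0_x0, rv_s0_c c hc]
  simp [rv_s0_zero]

/-! ### The reduction -/

/-- letters of the reduction -/
noncomputable def g2L (u : List UL) (p : ℕ) : (IL × Option Bool) × Option Bool :=
  ((s0L (decide (p = 0)) (gL u p).1.1, (gL u p).1.2), (gL u p).2)

/-- the reduction -/
noncomputable def g2U (u : List UL) : List ((IL × Option Bool) × Option Bool) :=
  (List.range (Nu u)).map (g2L u)

theorem up_g2L (a : (IL × Option Bool) × Option Bool) :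
    UP (fun (u : List UL) e => g2L u (e 0) = a) := by
  have h : UP (fun (u : List UL) e => ∃ b : (CL × Option Bool) × Option Bool, gL u (e 0) = b ∧
      ((e 0 = 0 ∧ ((s0L true b.1.1, b.1.2), b.2) = a) ∨
        (¬ e 0 = 0 ∧ ((s0L false b.1.1, b.1.2), b.2) = a))) := by
    refine UP.fex fun b => (up_gL b).and ?_
    have h0 : UP (fun (_ : List UL) (e : ℕ → ℕ) => e 0 = 0) := UP.eq (UF.var 0) (UF.const 0)
    exact (h0.and (UP.const _)).or (h0.not.and (UP.const _))
  refine h.congr fun u e => ?_
  constructor
  · rintro ⟨b, rfl, (⟨h0, h1⟩ | ⟨h0, h1⟩)⟩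
    · rw [← h1, g2L, h0]; rfl
    · rw [← h1, g2L, decide_eq_false h0]
  · intro h1
    refine ⟨gL u (e 0), rfl, ?_⟩
    by_cases h0 : e 0 = 0
    · left
      refine ⟨h0, ?_⟩
      rw [← h1, g2L, h0]; rfl
    · right
      refine ⟨h0, ?_⟩
      rw [← h1, g2L, decide_eq_false h0]

theorem trk_get {A : Type} (x : List A) (h : List Bool) (i : ℕ) :
    (trk x h)[i]? = (x[i]?).map (fun a => (a, h[i]?)) := by
  induction x generalizing h i with
  | nil => simp [trk]
  | cons a x ih =>
    cases h with
    | nil =>
      cases i with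
      | zero => simp [trk]
      | succ i => simp [trk, ih]
    | cons b h =>
      cases i with
      | zero => simp [trk]
      | succ i => simp [trk, ih]

theorem g2U_eq (u : List UL) (κ w : List Bool) (cc : List CL) (h : gU u = trk (trk cc κ) w) :
    g2U u = trk (trk (s0 cc) κ) w := by
  have hlen : Nu u = cc.length := by
    have := congrArg List.length h
    rw [length_trk, length_trk] at this
    simpa [gU] using this
  apply List.ext_getElem?
  intro i
  have h1 := congrArg (fun l => l[i]?) h
  simp only [trk_get] at h1 ⊢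
  by_cases hi : i < cc.length
  · have h2 : (gU u)[i]? = some (gL u i) := by
      simp [gU, hlen, hi]
    have h3 : (g2U u)[i]? = some (g2L u i) := by
      simp [g2U, hlen, hi]
    have h4 : (s0 cc)[i]? = some (s0L (decide (i = 0)) cc[i]) := by
      simp [s0, hi, List.getD_eq_getElem?_getD]
    rw [h2, List.getElem?_eq_getElem hi] at h1
    simp only [Option.map_some, Option.some.injEq] at h1
    rw [h3, h4]
    simp only [Option.map_some, g2L, h1]
  · have h3 : (g2U u)[i]? = none := by
      simp [g2U, hlen, hi]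
    have h4 : (s0 cc)[i]? = none := by
      simp [s0, hi]
    rw [h3, h4]
    rfl

/-! ### Acceptance -/

theorem St.Bd.init {m x0 : ℕ} (hm : 2 ≤ m) (h : x0 < m) : (St.init x0).Bd m := by
  simp only [St.Bd, St.init]
  omega

theorem ph_two {x : List IL} (h : rv x Rg.ph ≤ 2) :
    (∃ a ∈ x, a.2 Rg.ph = 2) ↔ rv x Rg.ph = 2 := by
  cases x with
  | nil => simp [rv, val]
  | cons a l =>
    have h1 : rv (a :: l) Rg.ph = (a.2 Rg.ph : ℕ) + 4 * val (l.map fun b => b.2 Rg.ph) := rfl
    have hl : val (l.map fun b => b.2 Rg.ph) = 0 := by omega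
    have hz : ∀ l : List IL, val (l.map fun b => b.2 Rg.ph) = 0 → ∀ b ∈ l, b.2 Rg.ph = 0 := by
      intro l
      induction l with
      | nil => intro _ b hb; simp at hb
      | cons c l ih =>
        intro h b hb
        rw [List.map_cons, val] at h
        rw [List.mem_cons] at hb
        rcases hb with rfl | hb
        · exact Fin.ext (by simp; omega)
        · exact ih (by omega) b hb
    constructor
    · rintro ⟨b, hb, hb2⟩
      rw [List.mem_cons] at hb
      rcases hb with rfl | hb
      · rw [h1, hb2, hl]; rfl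
      · rw [hz l hl b hb] at hb2
        exact absurd hb2 (by decide)
    · intro h2
      refine ⟨a, List.mem_cons_self, Fin.ext ?_⟩
      rw [h1, hl] at h2
      simpa using h2

theorem core_count (c : List CL) (hf2 : ∀ a ∈ c, a.f2 = false)
    (hk : 2 * (c.map slOf).countP (fun a => a.1) ≤ c.length) (hc : c ≠ [])
    (hst : ∃ a ∈ c, a.st = false) :
    (∃ x, ReflTransGen WStep (s0 c) x ∧ ∃ a ∈ x, a.2 Rg.ph = 2) ↔
      ¬ ∃ x, ReflTransGen UStep c x ∧ ∃ a ∈ x, a.st = true ∧ a.f1 = true := by
  set σ := c.map slOf with hσ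
  have hlen : σ.length = c.length := by simp [hσ]
  set n := val (c.map dgOf) with hn
  have hcn : cfgW σ n = c := cfgW_of c hf2
  have hnlt : n < 4 ^ σ.length := by
    have := val_lt (c.map dgOf)
    rw [List.length_map] at this
    rw [hlen]
    exact this
  have hN : 1 ≤ c.length := List.length_pos_of_ne_nil hc
  have hm : 4 ≤ 4 ^ σ.length := by
    rw [hlen]
    calc 4 = 4 ^ 1 := by norm_num
      _ ≤ 4 ^ c.length := Nat.pow_le_pow_right (by norm_num) hN
  have hn1 : n + 1 < 4 ^ σ.length := by
    by_contra hcon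
    have h1 : n + 1 = 4 ^ σ.length := by omega
    obtain ⟨a, ha, ha2⟩ := hst
    have h2 : ∀ x : List (Fin 4), val x + 1 = 4 ^ x.length → ∀ b ∈ x, b = 3 := by
      intro x
      induction x with
      | nil => intro _ b hb; simp at hb
      | cons d x ih =>
        intro h b hb
        rw [val, List.length_cons, pow_succ] at h
        have h3 := val_lt x
        have hd := d.isLt
        rw [List.mem_cons] at hb
        rcases hb with rfl | hb
        · exact Fin.ext (by simp; omega)
        · exact ih (by omega) b hb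
    have h3 := h2 (c.map dgOf) (by rw [← hn, h1, hlen, List.length_map]) (dgOf a)
      (List.mem_map_of_mem ha)
    have h4 : dgOf a ≠ 3 := by
      unfold dgOf
      rw [ha2]
      cases a.sym <;> decide
    exact h4 h3
  have hEW : ∀ a b, EW σ a b → b + 1 < 4 ^ σ.length := fun a b h =>
    EW_lt σ (by rw [hlen]; exact hk) h
  have hEW2 : ∀ a b, EW σ a b → b < 4 ^ σ.length := fun a b h => h.2.1
  have hs0 : s0 c ≠ [] := by
    intro h
    have := congrArg List.length h
    rw [length_s0] at this
    simp at this
    exact hc this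
  have hst0 : stOf (s0 c) = St.init n := stOf_s0 c hc
  have hbd0 : (stOf (s0 c)).Bd (4 ^ (s0 c).length) := by
    rw [hst0, length_s0, ← hlen]
    exact St.Bd.init (by omega) hnlt
  have hbd : ∀ s, ReflTransGen (IStep (4 ^ σ.length) (EW σ) (FW σ)) (St.init n) s →
      s.Bd (4 ^ σ.length) := by
    intro s hs
    induction hs with
    | refl => exact St.Bd.init (by omega) hnlt
    | tail _ h2 ih => exact is_bd hEW2 ih h2
  have hA : (∃ x, ReflTransGen WStep (s0 c) x ∧ ∃ a ∈ x, a.2 Rg.ph = 2) ↔
      ∃ s, ReflTransGen (IStep (4 ^ σ.length) (EW σ) (FW σ)) (St.init n) s ∧ s.ph = 2 := by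
    have hR := reach_W (s0 c) hbd0 hs0
    rw [s0_fst, length_s0, ← hlen, hst0] at hR
    constructor
    · rintro ⟨x, hx, hx2⟩
      have h1 := ((hR x).1 hx).2
      refine ⟨stOf x, h1, ?_⟩
      exact (ph_two (hbd _ h1).1).1 hx2
    · rintro ⟨s, hs, hs2⟩
      have hb := hbd s hs
      have h1 : ∀ j, s.get j < 4 ^ σ.length := by
        obtain ⟨b1, b2, b3, b4, b5, b6, b7, b8, b9, b10, b11⟩ := hb
        intro j
        cases j <;> simp only [St.get] <;> omega
      have h2 := stOf_mkW σ s h1
      have h3 := mkW_fst σ s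
      refine ⟨mkW σ s, (hR _).2 ⟨h3, by rw [h2]; exact hs⟩, ?_⟩
      refine (ph_two ?_).2 ?_
      · have h4 : (stOf (mkW σ s)).ph ≤ 2 := by rw [h2]; exact hb.1
        exact h4
      · have h4 : (stOf (mkW σ s)).ph = 2 := by rw [h2]; exact hs2
        exact h4
  have hB : (∃ s, ReflTransGen (IStep (4 ^ σ.length) (EW σ) (FW σ)) (St.init n) s ∧ s.ph = 2) ↔
      ∀ y, ReflTransGen (EW σ) n y → ¬ FW σ y := by
    constructor
    · rintro ⟨s, hs, hs2⟩
      exact is_sound (by omega) hn1 hEW hs hs2
    · intro h
      exact is_complete (by omega) hn1 hEW h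
  rw [hA, hB]
  constructor
  · rintro h ⟨x, hx, hx2⟩
    rw [← hcn] at hx
    obtain ⟨n', _, hn', rfl⟩ := (reach_EW σ n hnlt x).1 hx
    exact h n' hn' hx2
  · intro h y hy hy2
    refine h ⟨cfgW σ y, ?_, hy2⟩
    have hylt : y < 4 ^ σ.length := by
      rcases hy.cases_tail with h | ⟨z, _, hz⟩
      · rw [h]; exact hnlt
      · exact hEW2 _ _ hz
    have := (reach_EW σ n hnlt (cfgW σ y)).2 ⟨y, hylt, hy, rfl⟩
    rwa [hcn] at this

/-- The pairs with nondeterministic linear space. -/
theorem core_lba (𝒟 : ∀ A : Type, Set (List A) → Prop) (h𝒟 : GoodD 𝒟) :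
    ¬ (SubAdv 𝒟 InLBA ∧ SubIoAdv InLBA 𝒟) := by
  rintro ⟨h1, h2⟩
  obtain ⟨W', κ, hW', hκ, hWκ⟩ := h1 _ WStepLang (h𝒟.of_UP up_wstepLang)
  obtain ⟨K, hK, hKi⟩ := lba_iter W' hW' (fun a : IL => a.2 Rg.ph = 2)
  obtain ⟨V, w, hV, hw, hio⟩ := h2 _ K hK
  have hV' : 𝒟 UL {u | g2U u ∈ V} := h𝒟.comap hV g2U Nu g2L uf_Nu up_g2L (fun _ => rfl)
  obtain ⟨M', β, ⟨M, hM⟩, hβ, hVβ⟩ := h1 _ _ hV'
  obtain ⟨C, hC2⟩ := exists_cod M ixU ixU_inj 2
  have hC : 0 < C.k := by omega
  obtain ⟨N, hgood, hkn, hEn, hκn, hwn, hβn⟩ := exists_N hκ hw hβ hio C.k C.tb.length hC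
  set n := N / C.k with hn
  set r := N % C.k with hr
  have hNr : C.k * n + r = N := Nat.div_add_mod N C.k
  have hrk : r < C.k := Nat.mod_lt _ hC
  set u := C.uw M.acc ∅ n r (κ N) (w N) (β n) with hu
  have hulen : u.length = n := by rw [hu]; simp [Cod.uw]
  have hc0 : (c0 u).length = N := by rw [hu, C.length_c0 _ _ _ _ _ _ _ hrk hkn, hNr]
  have hne : trk u (β n) ≠ [] := by
    intro h
    have := congrArg List.length h
    rw [length_trk, hulen] at this
    simp only [List.length_nil] at this
    omega
  have hu1 : u ∈ {u | g2U u ∈ V} ↔ M.Accepts (trk u (β n)) := by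
    rw [hVβ u, hulen, hM _ hne]
  have hv : trk (s0 (c0 u)) (κ N) ≠ [] := by
    intro h
    have := congrArg List.length h
    rw [length_trk, length_s0, hc0] at this
    simp only [List.length_nil] at this
    rw [this] at hn
    simp only [Nat.zero_div] at hn
    omega
  have hu2 : g2U u ∈ V ↔ trk (s0 (c0 u)) (κ N) ∈ K := by
    have h3 := C.gU_uw M.acc ∅ n r (κ N) (w N) (β n) hrk hkn hκn hwn
    rw [← hu] at h3
    rw [g2U_eq u (κ N) (w N) (c0 u) h3]
    exact (hgood (trk (s0 (c0 u)) (κ N)) (by rw [length_trk, length_s0, hc0])).symm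
  have hcode : c0 u = C.code M.acc ∅ N (M.init (trk u (β n))) := by
    rw [hu, C.c0_uw _ _ _ _ _ _ _ hrk hkn hEn hβn, hNr]
  have hu3 : trk (s0 (c0 u)) (κ N) ∈ K ↔ ¬ M.Accepts (trk u (β n)) := by
    rw [hKi _ hv, map_fst_trk, C.accepts N ∅ (hEn.trans (Nat.div_le_self _ _)) _ hne
      (by rw [length_trk, hulen]), ← hcode]
    have h4 := reach_rl_gen (R := WStep) (fun c c' h => h.length) (κ := κ) (W' := W')
      (fun x => hWκ x) (s0 (c0 u))
    rw [length_s0, hc0] at h4
    simp only [h4]
    have hk2 : C.k * 2 ≤ N := by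
      calc C.k * 2 ≤ C.k * n := Nat.mul_le_mul_left _ (by omega)
        _ ≤ N := by omega
    refine core_count (c0 u) ?_ ?_ ?_ ?_
    · intro a ha
      rw [hcode, Cod.code, List.mem_map] at ha
      obtain ⟨p, _, rfl⟩ := ha
      simp [Cod.lett]
    · have h5 : ((c0 u).map slOf).countP (fun a => a.1) = (List.range N).countP
          (fun p => decide (p < C.k)) := by
        rw [hcode, Cod.code, List.map_map, List.countP_map]
        rfl
      have h6 : (List.range N).countP (fun p => decide (p < C.k)) ≤ C.k := by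
        rw [List.countP_eq_length_filter]
        have h7 : ((List.range N).filter (fun p => decide (p < C.k))).toFinset ⊆
            Finset.range C.k := by
          intro p hp
          simp at hp
          simpa using hp.2
        have h8 := Finset.card_le_card h7
        rw [List.toFinset_card_of_nodup (List.nodup_range.filter _), Finset.card_range] at h8
        exact h8
      rw [h5, hc0]
      omega
    · intro h
      have := congrArg List.length h
      rw [hc0] at this
      simp only [List.length_nil] at this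
      omega
    · refine ⟨C.lett M.acc ∅ (M.init (trk u (β n))) C.k, ?_, ?_⟩
      · rw [hcode, Cod.code]
        exact List.mem_map_of_mem (List.mem_range.2 (by omega))
      · simp only [Cod.lett, decide_eq_false_iff_not]
        rintro ⟨h5, _⟩
        rw [Nat.div_self hC] at h5
        simp [LBA.init] at h5
  rw [Set.mem_ofPred_eq, hu2, hu3] at hu1
  tauto

end Pool.Agent.Book19
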