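import Pool.Agent.Book19.UComb
import Pool.Agent.Book19.DVal

/-!
# Regular predicates on digit tracks

Digits are written least significant digit first. Each predicate is decided by a finite automaton
read along the word.
-/

set_option autoImplicit false

namespace Pool.Agent.Book19

private theorem udig_triv : InDLBA Unit Set.univ := by
  refine ⟨{ W := Unit, Q := Unit, start := (), δ := fun q γ _ _ => (q, γ, Dir.stay),
            out := fun _ => some true }, fun x _ => ⟨true, ⟨0, rfl, fun s hs => ?_⟩, ?_⟩⟩
  · exact absurd hs (Nat.not_lt_zero s)
  · simp

private theorem udig_reg {Γ P : Type} [Fintype Γ] [Fintype P] (p0 : P) (δ : P → Γ → P)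
    (acc : P → Prop) : InDLBA Γ {x | acc (x.foldl δ p0)} :=
  InDLBA.comb p0 δ (fun _ => ()) (fun _ => ()) udig_triv udig_triv (fun s _ _ => acc s)

section
variable {Γ : Type} [Fintype Γ] {m : ℕ}

omit [Fintype Γ] in
private theorem udig_cong {L L' : Set (List Γ)} (h : InDLBA Γ L) (hL : ∀ x, x ∈ L' ↔ x ∈ L) :
    InDLBA Γ L' := by
  have : L' = L := Set.ext hL
  rw [this]
  exact h

theorem dl_all (p : Γ → Prop) : InDLBA Γ {w | ∀ x ∈ w, p x} := by
  classical
  refine udig_cong (udig_reg true (fun s x => s && decide (p x)) (fun s => s = true)) ?_
  intro w
  simp only [Set.mem_ofPred_eq]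
  have key : ∀ (w : List Γ) (s : Bool),
      (w.foldl (fun s x => s && decide (p x)) s = true ↔ s = true ∧ ∀ x ∈ w, p x) := by
    intro w
    induction w with
    | nil => intro s; simp
    | cons y w ih =>
      intro s
      rw [List.foldl_cons, ih]
      simp only [Bool.and_eq_true, decide_eq_true_eq, List.mem_cons, forall_eq_or_imp]
      tauto
  rw [key]
  simp

theorem dl_veq (a b : Γ → Fin m) : InDLBA Γ {w | val (w.map a) = val (w.map b)} := by
  refine udig_cong (dl_all (fun x => a x = b x)) ?_
  intro w
  simp only [Set.mem_ofPred_eq]
  constructor
  · intro h
    have h1 : w.map a = w.map b := val_inj (by simp) h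
    exact List.map_inj_left.1 h1
  · intro h
    rw [List.map_inj_left.2 h]

private theorem udig_cmp {a b A B : ℕ} (ha : a < m) (hb : b < m) (s : Bool) :
    (if s = true then a + m * A ≤ b + m * B else a + m * A < b + m * B) ↔
      (if (if a < b then true else if b < a then false else s) = true then A ≤ B else A < B) := by
  have h1 : A ≤ B → m * A ≤ m * B := fun h => Nat.mul_le_mul_left m h
  have h2 : A + 1 ≤ B → m * A + m ≤ m * B := fun h => by
    have := Nat.mul_le_mul_left m h
    rwa [Nat.mul_add, Nat.mul_one] at this
  have h3 : B + 1 ≤ A → m * B + m ≤ m * A := fun h => by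
    have := Nat.mul_le_mul_left m h
    rwa [Nat.mul_add, Nat.mul_one] at this
  have h4 : B ≤ A → m * B ≤ m * A := fun h => Nat.mul_le_mul_left m h
  rcases lt_trichotomy a b with h | h | h
  · have h0 : (if a < b then true else if b < a then false else s) = true := if_pos h
    rw [h0]
    cases s <;> simp only [if_true, Bool.false_eq_true, if_false]
    · constructor
      · intro h5; by_contra h6; have := h3 (by omega); omega
      · intro h5; have := h1 h5; omega
    · constructor
      · intro h5; by_contra h6; have := h3 (by omega); omega
      · intro h5; have := h1 h5; omega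
  · have h0 : (if a < b then true else if b < a then false else s) = s := by
      rw [if_neg (by omega), if_neg (by omega)]
    rw [h0]
    cases s <;> simp only [if_true, Bool.false_eq_true, if_false]
    · constructor
      · intro h5; by_contra h6; have := h4 (by omega); omega
      · intro h5; have := h2 h5; omega
    · constructor
      · intro h5; by_contra h6; have := h3 (by omega); omega
      · intro h5; have := h1 h5; omega
  · have h0 : (if a < b then true else if b < a then false else s) = false := by
      rw [if_neg (by omega), if_pos h]
    rw [h0]
    cases s <;> simp only [if_true, Bool.false_eq_true, if_false]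
    · constructor
      · intro h5; by_contra h6; have := h4 (by omega); omega
      · intro h5; have := h2 h5; omega
    · constructor
      · intro h5; by_contra h6; have := h4 (by omega); omega
      · intro h5; have := h2 h5; omega

theorem dl_vle (a b : Γ → Fin m) : InDLBA Γ {w | val (w.map a) ≤ val (w.map b)} := by
  classical
  refine udig_cong (udig_reg true (fun (s : Bool) x =>
    if (a x : ℕ) < (b x : ℕ) then true else if (b x : ℕ) < (a x : ℕ) then false else s)
    (fun s => s = true)) ?_
  intro w
  simp only [Set.mem_ofPred_eq]
  have key : ∀ (w : List Γ) (s : Bool),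
      (w.foldl (fun (s : Bool) x => if (a x : ℕ) < (b x : ℕ) then true else
        if (b x : ℕ) < (a x : ℕ) then false else s) s = true ↔
        (if s = true then val (w.map a) ≤ val (w.map b) else val (w.map a) < val (w.map b))) := by
    intro w
    induction w with
    | nil => intro s; cases s <;> simp [val]
    | cons y w ih =>
      intro s
      rw [List.foldl_cons, ih, List.map_cons, List.map_cons, val, val]
      exact (udig_cmp (a y).isLt (b y).isLt s).symm
  rw [key]
  simp

theorem dl_vconst (a : Γ → Fin m) (c : ℕ) (hc : c < m) : InDLBA Γ {w | val (w.map a) = c} := by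
  classical
  have hm : 0 < m := by omega
  refine udig_cong (udig_reg (some ⟨c, hc⟩ : Option (Fin m)) (fun (s : Option (Fin m)) x =>
    s.bind (fun r => if a x = r then some ⟨0, hm⟩ else none))
    (fun s => s = some ⟨0, hm⟩)) ?_
  intro w
  simp only [Set.mem_ofPred_eq]
  have hnone : ∀ (w : List Γ), w.foldl (fun (s : Option (Fin m)) x =>
      s.bind (fun r => if a x = r then some ⟨0, hm⟩ else none)) none = none := by
    intro w
    induction w with
    | nil => rfl
    | cons y w ih => rw [List.foldl_cons, Option.bind_none, ih]
  have key : ∀ (w : List Γ) (r : Fin m),
      (w.foldl (fun (s : Option (Fin m)) x =>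
        s.bind (fun r => if a x = r then some ⟨0, hm⟩ else none)) (some r) = some ⟨0, hm⟩ ↔
        val (w.map a) = (r : ℕ)) := by
    intro w
    induction w with
    | nil =>
      intro r
      simp only [List.foldl_nil, Option.some.injEq, List.map_nil, val, Fin.ext_iff]
      exact eq_comm
    | cons y w ih =>
      intro r
      rw [List.foldl_cons, Option.bind_some, List.map_cons, val]
      by_cases h : a y = r
      · rw [if_pos h, ih, h]
        have h1 : m * val (w.map a) = 0 ↔ val (w.map a) = 0 := by
          rw [Nat.mul_eq_zero]; constructor
          · rintro (h | h)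
            · omega
            · exact h
          · intro h; exact Or.inr h
        constructor
        · intro h2
          have := h1.2 h2
          omega
        · intro h2
          exact h1.1 (by omega)
      · rw [if_neg h, hnone]
        constructor
        · intro h2; cases h2
        · intro h2
          exfalso
          apply h
          apply Fin.ext
          have hr := r.isLt
          have hy := (a y).isLt
          rcases Nat.eq_zero_or_pos (val (w.map a)) with h3 | h3
          · rw [h3] at h2; simpa using h2
          · have : m * 1 ≤ m * val (w.map a) := Nat.mul_le_mul_left m h3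
            omega
  rw [key]

/-- the number with (large) digits `e x` -/
private def uval (m : ℕ) (e : Γ → ℕ) : List Γ → ℕ
  | [] => 0
  | x :: w => e x + m * uval m e w

/-- the transitions of the carry automaton -/
private def ucar (e : Γ → ℕ) (c : Γ → Fin m) (s : Option Bool) (x : Γ) : Option Bool :=
  s.bind (fun ca => if (c x : ℕ) = e x + ca.toNat then some false
    else if (c x : ℕ) + m = e x + ca.toNat then some true else none)

omit [Fintype Γ] in
private theorem ucar_none (e : Γ → ℕ) (c : Γ → Fin m) (w : List Γ) :
    w.foldl (ucar e c) none = none := by
  induction w with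
  | nil => rfl
  | cons y w ih => rw [List.foldl_cons, ucar, Option.bind_none, ih]

omit [Fintype Γ] in
private theorem ucar_key (e : Γ → ℕ) (he : ∀ x, e x + 2 ≤ 2 * m) (c : Γ → Fin m) (w : List Γ) :
    ∀ ca : Bool, (w.foldl (ucar e c) (some ca) = some false ↔
      val (w.map c) = uval m e w + ca.toNat) := by
  induction w with
  | nil => intro ca; cases ca <;> simp [val, uval]
  | cons y w ih =>
    intro ca
    rw [List.foldl_cons, ucar, Option.bind_some, List.map_cons, val, uval]
    have hy := (c y).isLt
    have h1 := he y
    have hca : ca.toNat ≤ 1 := by cases ca <;> simp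
    by_cases h2 : (c y : ℕ) = e y + ca.toNat
    · rw [if_pos h2, ih]
      simp only [Bool.toNat_false, Nat.add_zero]
      constructor
      · intro h3; rw [h3]; omega
      · intro h3
        have h4 : m * val (w.map c) = m * uval m e w := by omega
        exact Nat.eq_of_mul_eq_mul_left (by omega) h4
    · rw [if_neg h2]
      by_cases h3 : (c y : ℕ) + m = e y + ca.toNat
      · rw [if_pos h3, ih]
        simp only [Bool.toNat_true]
        constructor
        · intro h4; rw [h4, Nat.mul_add]; omega
        · intro h4
          have h5 : m * val (w.map c) = m * (uval m e w + 1) := by rw [Nat.mul_add]; omega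
          exact Nat.eq_of_mul_eq_mul_left (by omega) h5
      · rw [if_neg h3, ucar_none]
        constructor
        · intro h4; cases h4
        · intro h4
          exfalso
          have h5 : ((c y : ℕ) + m * val (w.map c)) % m =
              (e y + m * uval m e w + ca.toNat) % m := by rw [h4]
          have h6 : e y + m * uval m e w + ca.toNat =
              (e y + ca.toNat) + m * uval m e w := by ring
          rw [h6, Nat.add_mul_mod_self_left, Nat.add_mul_mod_self_left,
            Nat.mod_eq_of_lt hy] at h5
          rcases Nat.lt_or_ge (e y + ca.toNat) m with h7 | h7
          · rw [Nat.mod_eq_of_lt h7] at h5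
            exact h2 h5
          · rw [Nat.mod_eq_sub_mod h7, Nat.mod_eq_of_lt (by omega)] at h5
            exact h3 (by omega)

private theorem ucar_dl (e : Γ → ℕ) (he : ∀ x, e x + 2 ≤ 2 * m) (c : Γ → Fin m) (ca : Bool) :
    InDLBA Γ {w | val (w.map c) = uval m e w + ca.toNat} := by
  refine udig_cong (udig_reg (some ca) (ucar e c) (fun s => s = some false)) ?_
  intro w
  exact (ucar_key e he c w ca).symm

theorem dl_vsucc (a b : Γ → Fin m) : InDLBA Γ {w | val (w.map b) = val (w.map a) + 1} := by
  have h1 : ∀ w : List Γ, uval m (fun x => (a x : ℕ)) w = val (w.map a) := by
    intro w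
    induction w with
    | nil => rfl
    | cons y w ih => rw [List.map_cons, uval, val, ih]
  refine udig_cong (ucar_dl (fun x => (a x : ℕ)) (fun x => ?_) b true) ?_
  · have := (a x).isLt; omega
  · intro w
    simp only [Set.mem_ofPred_eq, h1, Bool.toNat_true]

theorem dl_vadd (a b c : Γ → Fin m) :
    InDLBA Γ {w | val (w.map c) = val (w.map a) + val (w.map b)} := by
  have h1 : ∀ w : List Γ, uval m (fun x => (a x : ℕ) + (b x : ℕ)) w =
      val (w.map a) + val (w.map b) := by
    intro w
    induction w with
    | nil => rfl
    | cons y w ih => rw [List.map_cons, List.map_cons, uval, val, val, ih]; ring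
  refine udig_cong (ucar_dl (fun x => (a x : ℕ) + (b x : ℕ)) (fun x => ?_) c false) ?_
  · have := (a x).isLt
    have := (b x).isLt
    omega
  · intro w
    simp only [Set.mem_ofPred_eq, h1, Bool.toNat_false, Nat.add_zero]

theorem dl_vmax (a : Γ → Fin m) : InDLBA Γ {w | val (w.map a) + 1 = m ^ w.length} := by
  refine udig_cong (dl_all (fun x => (a x : ℕ) + 1 = m)) ?_
  intro w
  simp only [Set.mem_ofPred_eq]
  induction w with
  | nil => simp [val]
  | cons y w ih =>
    simp only [List.mem_cons, forall_eq_or_imp]
    rw [← ih, List.map_cons, val, List.length_cons, pow_succ]
    have hy := (a y).isLt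
    have h1 := val_lt (w.map a)
    rw [List.length_map] at h1
    have h2 : m * (val (w.map a) + 1) ≤ m * m ^ w.length := Nat.mul_le_mul_left m h1
    rw [Nat.mul_add, Nat.mul_one] at h2
    rw [Nat.mul_comm (m ^ w.length) m]
    constructor
    · intro h3
      have h4 : (a y : ℕ) + 1 = m := by omega
      refine ⟨h4, ?_⟩
      have h5 : m * (val (w.map a) + 1) = m * m ^ w.length := by
        rw [Nat.mul_add, Nat.mul_one]; omega
      exact Nat.eq_of_mul_eq_mul_left (by omega) h5
    · rintro ⟨h3, h4⟩
      rw [← h4, Nat.mul_add, Nat.mul_one]
      omega

/-- the transitions of the mark automaton: `some false` before the end of the marks, `some true`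
after it, `none` in case of error -/
private def umrk (u u' : Γ → Bool) (s : Option Bool) (x : Γ) : Option Bool :=
  match s, u x, u' x with
  | some false, true, true => some false
  | some false, false, true => some true
  | some true, false, false => some true
  | _, _, _ => none

omit [Fintype Γ] in
private theorem umrk_none (u u' : Γ → Bool) (w : List Γ) :
    w.foldl (umrk u u') none = none := by
  induction w with
  | nil => rfl
  | cons y w ih =>
    rw [List.foldl_cons]
    have h : umrk u u' none y = none := by simp [umrk]
    rw [h, ih]

omit [Fintype Γ] in
private theorem umrk_after (u u' : Γ → Bool) (w : List Γ) :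
    w.foldl (umrk u u') (some true) = some true ↔
      w.map u = List.replicate w.length false ∧ w.map u' = List.replicate w.length false := by
  induction w with
  | nil => simp
  | cons y w ih =>
    rw [List.foldl_cons, List.map_cons, List.map_cons, List.length_cons, List.replicate_succ,
      List.cons.injEq, List.cons.injEq]
    cases h1 : u y <;> cases h2 : u' y
    · have : umrk u u' (some true) y = some true := by simp [umrk, h1, h2]
      rw [this, ih]
      simp
    all_goals
      have : umrk u u' (some true) y = none := by simp [umrk, h1, h2]
      rw [this, umrk_none]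
      simp

omit [Fintype Γ] in
private theorem umrk_before (u u' : Γ → Bool) (w : List Γ) :
    w.foldl (umrk u u') (some false) = some true ↔ ∃ j < w.length,
    w.map u = List.replicate j true ++ List.replicate (w.length - j) false ∧
    w.map u' = List.replicate (j + 1) true ++ List.replicate (w.length - (j + 1)) false := by
  induction w with
  | nil => simp
  | cons y w ih =>
    rw [List.foldl_cons]
    constructor
    · intro h
      cases h1 : u y <;> cases h2 : u' y
      · have h3 : umrk u u' (some false) y = none := by simp [umrk, h1, h2]
        rw [h3, umrk_none] at h; cases h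
      · have h3 : umrk u u' (some false) y = some true := by simp [umrk, h1, h2]
        rw [h3, umrk_after] at h
        refine ⟨0, by simp, ?_, ?_⟩
        · simp [h1, h.1, List.replicate_succ]
        · simp [h2, h.2]
      · have h3 : umrk u u' (some false) y = none := by simp [umrk, h1, h2]
        rw [h3, umrk_none] at h; cases h
      · have h3 : umrk u u' (some false) y = some false := by simp [umrk, h1, h2]
        rw [h3, ih] at h
        obtain ⟨j, hj, h4, h5⟩ := h
        refine ⟨j + 1, by simpa using hj, ?_, ?_⟩
        · rw [List.map_cons, h4, h1, List.length_cons, List.replicate_succ]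
          simp
        · rw [List.map_cons, h5, h2, List.length_cons, List.replicate_succ (n := j + 1)]
          simp
    · rintro ⟨j, hj, h4, h5⟩
      cases j with
      | zero =>
        rw [List.replicate_zero, List.nil_append, List.length_cons, Nat.sub_zero,
          List.replicate_succ, List.map_cons, List.cons.injEq] at h4
        rw [List.map_cons, List.length_cons] at h5
        simp only [Nat.zero_add, List.replicate_one, List.cons_append, List.nil_append,
          List.cons.injEq, Nat.add_sub_cancel] at h5
        have h3 : umrk u u' (some false) y = some true := by simp [umrk, h4.1, h5.1]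
        rw [h3, umrk_after]
        exact ⟨h4.2, h5.2⟩
      | succ j =>
        rw [List.replicate_succ, List.map_cons, List.cons_append, List.cons.injEq,
          List.length_cons] at h4
        rw [List.replicate_succ (n := j + 1), List.map_cons, List.cons_append, List.cons.injEq,
          List.length_cons] at h5
        have h3 : umrk u u' (some false) y = some false := by simp [umrk, h4.1, h5.1]
        rw [h3, ih]
        refine ⟨j, by simpa using hj, ?_, ?_⟩
        · rw [h4.2]; simp
        · rw [h5.2]; simp

/-- the marks `u` form a proper prefix, and `u'` is the prefix longer by one -/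
theorem dl_mark (u u' : Γ → Bool) : InDLBA Γ {w | ∃ j < w.length,
    w.map u = List.replicate j true ++ List.replicate (w.length - j) false ∧
    w.map u' = List.replicate (j + 1) true ++ List.replicate (w.length - (j + 1)) false} := by
  refine udig_cong (udig_reg (some false) (umrk u u') (fun s => s = some true)) ?_
  intro w
  exact (umrk_before u u' w).symm

/-- there is a first letter without mark `u`, and it satisfies `p` -/
theorem dl_first (u : Γ → Bool) (p : Γ → Prop) : InDLBA Γ {w | ∃ (j : ℕ) (x : Γ),
    w[j]? = some x ∧ u x = false ∧ p x ∧ ∀ i < j, ∀ y, w[i]? = some y → u y = true} := by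
  classical
  let δ : Option Bool → Γ → Option Bool := fun s x =>
    match s with
    | some b => some b
    | none => if u x = false then some (decide (p x)) else none
  refine udig_cong (udig_reg (none : Option Bool) δ (fun s => s = some true)) ?_
  intro w
  simp only [Set.mem_ofPred_eq]
  have hsome : ∀ (w : List Γ) (b : Bool), w.foldl δ (some b) = some b := by
    intro w b
    induction w with
    | nil => rfl
    | cons y w ih => rw [List.foldl_cons]; exact ih
  induction w with
  | nil => simp
  | cons y w ih =>
    rw [List.foldl_cons]
    cases h1 : u y
    · have h2 : δ none y = some (decide (p y)) := by simp [δ, h1]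
      rw [h2, hsome]
      simp only [Option.some.injEq, decide_eq_true_eq]
      constructor
      · rintro ⟨j, x, h3, h4, h5, h6⟩
        cases j with
        | zero =>
          simp only [List.getElem?_cons_zero, Option.some.injEq] at h3
          rw [h3]; exact h5
        | succ j =>
          have := h6 0 (by omega) y (by simp)
          rw [h1] at this; cases this
      · intro h3
        exact ⟨0, y, by simp, h1, h3, fun i hi => by omega⟩
    · have h2 : δ none y = none := by simp [δ, h1]
      rw [h2]
      refine Iff.trans ?_ ih
      constructor
      · rintro ⟨j, x, h3, h4, h5, h6⟩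
        cases j with
        | zero =>
          simp only [List.getElem?_cons_zero, Option.some.injEq] at h3
          rw [← h3, h1] at h4; cases h4
        | succ j =>
          refine ⟨j, x, by simpa using h3, h4, h5, fun i hi z hz => ?_⟩
          exact h6 (i + 1) (by omega) z (by simpa using hz)
      · rintro ⟨j, x, h3, h4, h5, h6⟩
        refine ⟨j + 1, x, by simpa using h3, h4, h5, fun i hi z hz => ?_⟩
        cases i with
        | zero =>
          simp only [List.getElem?_cons_zero, Option.some.injEq] at hz
          rw [← hz]; exact h1
        | succ i => exact h6 i (by omega) z (by simpa using hz)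

end

end Pool.Agent.Book19
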