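import Pool.Agent.Book19.UComb

/-!
# Closure properties of the languages decided by deterministic linear bounded automata
-/

set_option autoImplicit false

namespace Pool.Agent.Book19

open Relation Pool.Agent.PT

/-- changing a language on the empty word only, or not at all -/
theorem InDLBA.congr {Γ : Type} {L L' : Set (List Γ)} (h : InDLBA Γ L)
    (hL : ∀ x, x ≠ [] → (x ∈ L' ↔ x ∈ L)) : InDLBA Γ L' := by
  obtain ⟨M, hM⟩ := h
  refine ⟨M, fun x hx => ?_⟩
  obtain ⟨b, h1, h2⟩ := hM x hx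
  exact ⟨b, h1, (hL x hx).trans h2⟩

/-- the language of all words -/
theorem UReg_univ (Γ : Type) : InDLBA Γ (Set.univ : Set (List Γ)) := by
  refine ⟨{ W := Unit, Q := Unit, start := (), δ := fun q x _ _ => (q, x, Dir.stay),
            out := fun _ => some true }, fun x _ => ⟨true, ⟨0, rfl, fun s hs => ?_⟩, ?_⟩⟩
  · exact absurd hs (Nat.not_lt_zero s)
  · simp

theorem InDLBA.map {Γ Δ : Type} [Fintype Γ] [Fintype Δ] (φ : Γ → Δ) {L : Set (List Δ)}
    (h : InDLBA Δ L) : InDLBA Γ {x | x.map φ ∈ L} :=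
  InDLBA.comb () (fun _ _ => ()) φ φ h h (fun _ p _ => p)

theorem InDLBA.compl {Γ : Type} [Fintype Γ] {L : Set (List Γ)} (h : InDLBA Γ L) :
    InDLBA Γ {x | x ∉ L} := by
  have h1 := InDLBA.comb () (fun _ _ => ()) (fun x : Γ => x) (fun x : Γ => x) h h (fun _ p _ => ¬ p)
  simpa using h1

theorem InDLBA.inter {Γ : Type} [Fintype Γ] {L L' : Set (List Γ)} (h : InDLBA Γ L)
    (h' : InDLBA Γ L') : InDLBA Γ {x | x ∈ L ∧ x ∈ L'} := by
  have h1 := InDLBA.comb () (fun _ _ => ()) (fun x : Γ => x) (fun x : Γ => x) h h' (fun _ p q => p ∧ q)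
  simpa using h1

theorem InDLBA.union {Γ : Type} [Fintype Γ] {L L' : Set (List Γ)} (h : InDLBA Γ L)
    (h' : InDLBA Γ L') : InDLBA Γ {x | x ∈ L ∨ x ∈ L'} := by
  have h1 := InDLBA.comb () (fun _ _ => ()) (fun x : Γ => x) (fun x : Γ => x) h h' (fun _ p q => p ∨ q)
  simpa using h1

theorem InDLBA.reg {Γ P : Type} [Fintype Γ] [Fintype P] (p0 : P) (δ : P → Γ → P)
    (acc : P → Prop) : InDLBA Γ {x | acc (x.foldl δ p0)} :=
  InDLBA.comb p0 δ (fun x : Γ => x) (fun x : Γ => x) (UReg_univ Γ) (UReg_univ Γ)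
    (fun p _ _ => acc p)

end Pool.Agent.Book19
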