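import Pool.Agent.Book19.DIter
import Pool.Agent.Book19.UReg

/-!
Iterating a relation until a halting word is reached, with deterministic linear bounded automata.
-/

set_option autoImplicit false

namespace Pool.Agent.Book19

open Relation Pool.Agent.PT

private theorem uloop_foldl {Γ : Type} (p : Γ → Prop) [DecidablePred p] (w : List Γ) :
    ∀ b : Bool, (w.foldl (fun (b : Bool) x => b && decide (p x)) b = true ↔
      (b = true ∧ ∀ x ∈ w, p x)) := by
  induction w with
  | nil => intro b; simp
  | cons a w ih =>
    intro b
    rw [List.foldl_cons, ih]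
    simp only [Bool.and_eq_true, decide_eq_true_eq, List.mem_cons, forall_eq_or_imp]
    tauto

private theorem uloop_all {Γ : Type} [Fintype Γ] (p : Γ → Prop) :
    InDLBA Γ {w | ∀ x ∈ w, p x} := by
  classical
  have h := InDLBA.reg (Γ := Γ) true (fun (b : Bool) x => b && decide (p x)) (fun b => b = true)
  refine h.congr ?_
  intro x _
  simp only [Set.mem_ofPred_eq]
  rw [uloop_foldl]
  simp

/-- The step language. -/
private def uloopL {S : Type} (R : Set (List (S × S))) (H A : Set (List S)) :
    Set (List (((S × Option Bool) × (S × Option Bool)) × Option Bool)) :=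
  {u | (∀ x ∈ u, x.1.1.2 = none) ∧
    ((((∀ x ∈ u, x.1.2.2 = none) ∧ u.map (fun x => (x.1.1.1, x.1.2.1)) ∈ R) ∧
        u.map (fun x => x.1.1.1) ∉ H) ∨
      ((((∀ x ∈ u, x.1.2 = (x.1.1.1, some true)) ∧ u.map (fun x => x.1.1.1) ∈ H) ∧
          u.map (fun x => x.1.1.1) ∈ A) ∨
        (((∀ x ∈ u, x.1.2 = (x.1.1.1, some false)) ∧ u.map (fun x => x.1.1.1) ∈ H) ∧
          u.map (fun x => x.1.1.1) ∉ A)))}

private theorem uloopL_mem {S : Type} [Fintype S] {R : Set (List (S × S))} (hR : InDLBA _ R)
    {H A : Set (List S)} (hH : InDLBA S H) (hA : InDLBA S A) : InDLBA _ (uloopL R H A) := by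
  have hR' := InDLBA.map (Γ := ((S × Option Bool) × (S × Option Bool)) × Option Bool)
    (fun x => (x.1.1.1, x.1.2.1)) hR
  have hH' := InDLBA.map (Γ := ((S × Option Bool) × (S × Option Bool)) × Option Bool)
    (fun x => x.1.1.1) hH
  have hA' := InDLBA.map (Γ := ((S × Option Bool) × (S × Option Bool)) × Option Bool)
    (fun x => x.1.1.1) hA
  exact (uloop_all _).inter (((((uloop_all _).inter hR').inter hH'.compl)).union
    ((((uloop_all _).inter hH').inter hA').union (((uloop_all _).inter hH').inter hA'.compl)))

private theorem uloop_zip {α β γ : Type} (a : List α) (b : List β) (o : List γ)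
    (h1 : b.length = a.length) (h2 : o.length = a.length) :
    ((a.zip b).zip o).map (fun x => x.1.1) = a ∧ ((a.zip b).zip o).map (fun x => x.1.2) = b := by
  induction a generalizing b o with
  | nil =>
    cases b with
    | nil => simp
    | cons _ _ => simp at h1
  | cons x a ih =>
    cases b with
    | nil => simp at h1
    | cons y b =>
      cases o with
      | nil => simp at h2
      | cons z o =>
        have := ih b o (by simpa using h1) (by simpa using h2)
        simp [this.1, this.2]

/-- Iterating a relation until a halting word is reached. -/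
theorem InDLBA.loop {S : Type} [Fintype S] {R : Set (List (S × S))} (hR : InDLBA _ R)
    {H A : Set (List S)} (hH : InDLBA S H) (hA : InDLBA S A) :
    ∃ K : Set (List S), InDLBA S K ∧ ∀ (c : ℕ → List S) (t : ℕ), c 0 ≠ [] →
      (∀ s ≤ t, (c s).length = (c 0).length) → (∀ s < t, c s ∉ H) →
      (∀ s < t, ∀ w : List (S × S), w.map Prod.fst = c s →
        (w ∈ R ↔ w.map Prod.snd = c (s + 1))) →
      c t ∈ H → (c 0 ∈ K ↔ c t ∈ A) := by
  classical
  obtain ⟨K, hK, hK2⟩ := dlba_iter (S := S × Option Bool) (uloopL R H A)
    (uloopL_mem hR hH hA) Prod.snd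
  refine ⟨_, InDLBA.map (fun s : S => ((s, (none : Option Bool)), (none : Option Bool))) hK, ?_⟩
  intro c t h0 hlen hnH hstep hH'
  simp only [Set.mem_ofPred_eq]
  set b : Bool := decide (c t ∈ A) with hb
  set v : List ((S × Option Bool) × Option Bool) :=
    (c 0).map (fun s : S => ((s, (none : Option Bool)), (none : Option Bool))) with hv
  set d : ℕ → List (S × Option Bool) := fun s =>
    if s ≤ t then (c s).map (fun x => (x, none)) else (c t).map (fun x => (x, some b)) with hd
  have hd1 : ∀ s ≤ t, d s = (c s).map (fun x => (x, none)) := fun s hs => by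
    simp only [hd, if_pos hs]
  have hd2 : d (t + 1) = (c t).map (fun x => (x, some b)) := by
    simp only [hd, if_neg (Nat.not_succ_le_self t)]
  have hct : c t ≠ [] := by
    intro h
    have := hlen t le_rfl
    rw [h] at this
    exact h0 (List.length_eq_zero_iff.mp this.symm)
  have hres := hK2 v d (t + 1) b ?_ ?_ ?_ ?_ ?_ ?_
  · rw [hres, hb, decide_eq_true_iff]
  · intro h
    rw [hv, List.map_eq_nil_iff] at h
    exact h0 h
  · rw [hd1 0 (Nat.zero_le _), hv, List.map_map]
    rfl
  · intro s hs a ha
    rw [hd1 s (Nat.lt_succ_iff.mp hs)] at ha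
    obtain ⟨x, _, rfl⟩ := List.mem_map.mp ha
    rfl
  · intro s hs c'
    have hs' : s ≤ t := Nat.lt_succ_iff.mp hs
    rw [hd1 s hs']
    -- the two tracks
    have hol : (v.map Prod.snd).length = ((c s).map (fun x => (x, (none : Option Bool)))).length := by
      rw [hv]
      simp only [List.length_map]
      exact (hlen s hs').symm
    constructor
    · rintro ⟨hl, hmem⟩
      obtain ⟨e1, e2⟩ := uloop_zip _ c' (v.map Prod.snd) hl hol
      set u := (((c s).map (fun x => (x, (none : Option Bool)))).zip c').zip (v.map Prod.snd) with hu
      have eb : u.map (fun x => x.1.1.1) = c s := by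
        have : u.map (fun x => x.1.1.1) = (u.map (fun x => x.1.1)).map Prod.fst := by
          rw [List.map_map]; rfl
        rw [this, e1, List.map_map]
        simp [Function.comp_def]
      obtain ⟨_, h | h | h⟩ := hmem
      · obtain ⟨⟨h1, h2⟩, h3⟩ := h
        rw [eb] at h3
        have hst : s < t := by
          rcases Nat.lt_or_ge s t with h | h
          · exact h
          · have : s = t := le_antisymm hs' h
            rw [this] at h3
            exact absurd hH' h3
        have hw := hstep s hst (u.map (fun x => (x.1.1.1, x.1.2.1))) (by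
          rw [List.map_map]
          exact eb)
        have h4 := hw.mp h2
        rw [hd1 (s + 1) hst, ← h4, List.map_map, List.map_map, ← e2]
        refine List.map_congr_left fun x hx => ?_
        have := h1 x hx
        simp only [Function.comp]
        exact Prod.ext rfl this
      · obtain ⟨⟨h1, h2⟩, h3⟩ := h
        rw [eb] at h2 h3
        have hst : s = t := by
          rcases Nat.lt_or_ge s t with h | h
          · exact absurd h2 (hnH s h)
          · exact le_antisymm hs' h
        subst hst
        have hbt : b = true := by rw [hb, decide_eq_true_iff]; exact h3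
        rw [hd2, hbt, ← e2]
        conv_rhs => rw [← eb]
        rw [List.map_map]
        exact List.map_congr_left fun x hx => h1 x hx
      · obtain ⟨⟨h1, h2⟩, h3⟩ := h
        rw [eb] at h2 h3
        have hst : s = t := by
          rcases Nat.lt_or_ge s t with h | h
          · exact absurd h2 (hnH s h)
          · exact le_antisymm hs' h
        subst hst
        have hbt : b = false := by rw [hb, decide_eq_false_iff_not]; exact h3
        rw [hd2, hbt, ← e2]
        conv_rhs => rw [← eb]
        rw [List.map_map]
        exact List.map_congr_left fun x hx => h1 x hx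
    · intro hc'
      have hl : c'.length = ((c s).map (fun x => (x, (none : Option Bool)))).length := by
        rw [hc']
        rcases Nat.lt_or_ge s t with h | h
        · rw [hd1 (s + 1) h, List.length_map, List.length_map, hlen _ h, hlen s hs']
        · have : s = t := le_antisymm hs' h
          rw [this, hd2, List.length_map, List.length_map]
      refine ⟨hl, ?_⟩
      obtain ⟨e1, e2⟩ := uloop_zip _ c' (v.map Prod.snd) hl hol
      set u := (((c s).map (fun x => (x, (none : Option Bool)))).zip c').zip (v.map Prod.snd) with hu
      have eb : u.map (fun x => x.1.1.1) = c s := by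
        have : u.map (fun x => x.1.1.1) = (u.map (fun x => x.1.1)).map Prod.fst := by
          rw [List.map_map]; rfl
        rw [this, e1, List.map_map]
        simp [Function.comp_def]
      have hfst : ∀ x ∈ u, x.1.1.2 = none := by
        intro x hx
        have : x.1.1 ∈ u.map (fun x => x.1.1) := List.mem_map.mpr ⟨x, hx, rfl⟩
        rw [e1] at this
        obtain ⟨y, _, hy⟩ := List.mem_map.mp this
        rw [← hy]
      refine ⟨hfst, ?_⟩
      rcases Nat.lt_or_ge s t with h | h
      · left
        refine ⟨⟨?_, ?_⟩, ?_⟩
        · intro x hx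
          have : x.1.2 ∈ u.map (fun x => x.1.2) := List.mem_map.mpr ⟨x, hx, rfl⟩
          rw [e2, hc', hd1 (s + 1) h] at this
          obtain ⟨y, _, hy⟩ := List.mem_map.mp this
          rw [← hy]
        · rw [hstep s h _ (by rw [List.map_map]; exact eb)]
          have h5 : (u.map (fun x => (x.1.1.1, x.1.2.1))).map Prod.snd =
              (u.map (fun x => x.1.2)).map Prod.fst := by
            rw [List.map_map, List.map_map]; rfl
          rw [h5, e2, hc', hd1 (s + 1) h, List.map_map]
          simp [Function.comp_def]
        · rw [eb]
          exact hnH s h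
      · have hst : s = t := le_antisymm hs' h
        subst hst
        right
        have hall : ∀ x ∈ u, x.1.2 = (x.1.1.1, some b) := by
          have h6 : u.map (fun x => x.1.2) = u.map (fun x => (x.1.1.1, some b)) := by
            rw [e2, hc', hd2]
            conv_lhs => rw [← eb]
            rw [List.map_map]
            rfl
          exact List.map_inj_left.mp h6
        by_cases hA' : c s ∈ A
        · left
          have hbt : b = true := by rw [hb, decide_eq_true_iff]; exact hA'
          rw [hbt] at hall
          exact ⟨⟨hall, by rw [eb]; exact hH'⟩, by rw [eb]; exact hA'⟩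
        · right
          have hbt : b = false := by rw [hb, decide_eq_false_iff_not]; exact hA'
          rw [hbt] at hall
          exact ⟨⟨hall, by rw [eb]; exact hH'⟩, by rw [eb]; exact hA'⟩
  · rw [hd2]
    obtain ⟨x, hx⟩ := List.exists_mem_of_ne_nil _ hct
    exact ⟨(x, some b), List.mem_map.mpr ⟨x, hx, rfl⟩, rfl⟩
  · intro a ha
    rw [hd2] at ha
    obtain ⟨x, _, rfl⟩ := List.mem_map.mp ha
    exact Or.inl rfl

end Pool.Agent.Book19
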