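import Pool.Agent.Book19.DVal
import Pool.Agent.PT.UF

/-!
# Words with a given value, and polynomial bounds
-/

set_option autoImplicit false

namespace Pool.Agent.Book19

open Relation Pool.Agent.PT

theorem exists_ext {Γ : Type} {m : ℕ} (w : List Γ) (v : ℕ) (hv : v < m ^ w.length) :
    ∃ w' : List (Γ × Fin m), w'.map Prod.fst = w ∧ val (w'.map Prod.snd) = v := by
  induction w generalizing v with
  | nil =>
    refine ⟨[], rfl, ?_⟩
    have hv0 : v = 0 := by simpa using hv
    rw [hv0]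
    rfl
  | cons a w ih =>
    have hm : 0 < m := by
      rcases Nat.eq_zero_or_pos m with h | h
      · subst h
        simp at hv
      · exact h
    obtain ⟨w', h1, h2⟩ := ih (v / m) (by
      rw [Nat.div_lt_iff_lt_mul hm]
      simpa [pow_succ] using hv)
    refine ⟨(a, ⟨v % m, Nat.mod_lt _ hm⟩) :: w', by simp [h1], ?_⟩
    simp only [List.map_cons, val, h2]
    exact Nat.mod_add_div v m

theorem pb_lt_pow {T : ℕ → ℕ} (hT : PB T) : ∃ m₀, ∀ m, m₀ ≤ m → ∀ n, 1 ≤ n → T n < m ^ n := by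
  obtain ⟨_, c, hc⟩ := hT
  refine ⟨3 ^ c + 1, fun m hm n hn => ?_⟩
  have h1 : n + 2 ≤ 3 ^ n := by
    induction n, hn using Nat.le_induction with
    | base => norm_num
    | succ k hk ih =>
      rw [pow_succ]
      omega
  calc T n ≤ (n + 2) ^ c := hc n
    _ ≤ (3 ^ n) ^ c := Nat.pow_le_pow_left h1 c
    _ = (3 ^ c) ^ n := by rw [← pow_mul, ← pow_mul, mul_comm]
    _ < m ^ n := Nat.pow_lt_pow_left (by omega) (by omega)

theorem eval_bound {Γ : Type} (t : Tm Γ) : ∃ T, PB T ∧ ∀ (N : ℕ) (x : List Γ) (e : ℕ → ℕ),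
    x.length ≤ N → (∀ i, e i ≤ N) → t.eval x e ≤ T N := by
  induction t with
  | var i => exact ⟨fun N => N, PB.id, fun N x e _ he => he i⟩
  | const c => exact ⟨fun _ => c, PB.const c, fun N x e _ _ => le_rfl⟩
  | len => exact ⟨fun N => N, PB.id, fun N x e hx _ => hx⟩
  | sym a t _ =>
    refine ⟨fun _ => 1, PB.const 1, fun N x e _ _ => ?_⟩
    simp only [Tm.eval]
    split_ifs <;> simp
  | add s t ihs iht =>
    obtain ⟨S, hS, hs⟩ := ihs
    obtain ⟨T, hT, ht⟩ := iht
    exact ⟨_, hS.add hT, fun N x e hx he => Nat.add_le_add (hs N x e hx he) (ht N x e hx he)⟩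
  | sub s t ihs _ =>
    obtain ⟨S, hS, hs⟩ := ihs
    exact ⟨S, hS, fun N x e hx he => (Nat.sub_le _ _).trans (hs N x e hx he)⟩
  | sum b t ihb iht =>
    obtain ⟨B, hB, hb⟩ := ihb
    obtain ⟨T, hT, ht⟩ := iht
    refine ⟨_, hB.mul (hT.comp (PB.id.add hB)), fun N x e hx he => ?_⟩
    simp only [Tm.eval]
    have h1 : ∀ i ∈ Finset.range (b.eval x e), t.eval x (cons i e) ≤ T (N + B N) := by
      intro i hi
      refine ht _ _ _ (hx.trans (Nat.le_add_right _ _)) fun j => ?_
      cases j with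
      | zero =>
        exact ((Finset.mem_range.1 hi).le.trans (hb N x e hx he)).trans (Nat.le_add_left _ _)
      | succ j => exact (he j).trans (Nat.le_add_right _ _)
    calc (∑ i ∈ Finset.range (b.eval x e), t.eval x (cons i e))
        ≤ (Finset.range (b.eval x e)).card • T (N + B N) := Finset.sum_le_card_nsmul _ _ _ h1
      _ = b.eval x e * T (N + B N) := by simp
      _ ≤ B N * T (N + B N) := Nat.mul_le_mul_right _ (hb N x e hx he)
  | lett s t ihs iht =>
    obtain ⟨S, hS, hs⟩ := ihs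
    obtain ⟨T, hT, ht⟩ := iht
    refine ⟨_, hT.comp (PB.id.add hS), fun N x e hx he => ?_⟩
    simp only [Tm.eval]
    refine ht _ _ _ (hx.trans (Nat.le_add_right _ _)) fun j => ?_
    cases j with
    | zero => exact (hs N x e hx he).trans (Nat.le_add_left _ _)
    | succ j => exact (he j).trans (Nat.le_add_right _ _)
  | ren σ t ih =>
    obtain ⟨T, hT, ht⟩ := ih
    exact ⟨T, hT, fun N x e hx he => ht N x _ hx (fun i => he (σ i))⟩

end Pool.Agent.Book19
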