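import Pool.Agent.Book19.UReg
import Pool.Agent.Book19.UDig
import Pool.Agent.Book19.UNum
import Pool.Agent.Book19.ULoop

/-!
# An existential quantifier over a track (package UD6)
-/

set_option autoImplicit false

namespace Pool.Agent.Book19

open Relation Pool.Agent.PT

theorem uex_ext {Γ : Type} {m : ℕ} {u v : List (Γ × Fin m)}
    (h1 : u.map Prod.fst = v.map Prod.fst) (h2 : val (u.map Prod.snd) = val (v.map Prod.snd)) :
    u = v := by
  have h3 : u.map Prod.snd = v.map Prod.snd := by
    refine val_inj ?_ h2
    have := congrArg List.length h1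
    simpa using this
  rw [List.zip_of_prod h1 h3]
  exact (List.zip_of_prod rfl rfl).symm

/-- an existential quantifier over a track -/
theorem InDLBA.ex {Γ T : Type} [Fintype Γ] [Fintype T] {L : Set (List (Γ × T))}
    (h : InDLBA _ L) : InDLBA Γ {w | ∃ w' : List (Γ × T), w'.map Prod.fst = w ∧ w' ∈ L} := by
  classical
  rcases isEmpty_or_nonempty T with hT | hT
  · refine (InDLBA.reg (Γ := Γ) (P := Unit) () (fun _ _ => ()) (fun _ => False)).congr ?_
    intro w hw
    constructor
    · rintro ⟨_ | ⟨a, w'⟩, h1, _⟩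
      · exact hw h1.symm
      · exact isEmptyElim a.2
    · exact fun h => h.elim
  set m := Fintype.card T with hm
  have hm0 : 0 < m := Fintype.card_pos
  let e : Fin m ≃ T := (Fintype.equivFin T).symm
  let φ : Γ × Fin m → Γ × T := fun x => (x.1, e x.2)
  let R : Set (List ((Γ × Fin m) × (Γ × Fin m))) :=
    {w | w ∈ {w : List ((Γ × Fin m) × (Γ × Fin m)) | ∀ x ∈ w, x.2.1 = x.1.1} ∧
      w ∈ {w : List ((Γ × Fin m) × (Γ × Fin m)) |
        val (w.map fun x => x.2.2) = val (w.map fun x => x.1.2) + 1}}
  have hR : InDLBA _ R := (dl_all (fun x : (Γ × Fin m) × (Γ × Fin m) => x.2.1 = x.1.1)).inter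
    (dl_vsucc (fun x : (Γ × Fin m) × (Γ × Fin m) => x.1.2) (fun x => x.2.2))
  let A : Set (List (Γ × Fin m)) := {w | w.map φ ∈ L}
  have hA : InDLBA _ A := h.map φ
  let H : Set (List (Γ × Fin m)) :=
    {w | w ∈ A ∨ w ∈ {w : List (Γ × Fin m) | val (w.map Prod.snd) + 1 = m ^ w.length}}
  have hH : InDLBA _ H := hA.union (dl_vmax Prod.snd)
  obtain ⟨K, hK, hloop⟩ := InDLBA.loop hR hH hA
  let z : Γ → Γ × Fin m := fun x => (x, ⟨0, hm0⟩)
  refine (hK.map z).congr ?_
  intro w hw
  have hc : ∀ s, ∃ u : List (Γ × Fin m), s < m ^ w.length →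
      u.map Prod.fst = w ∧ val (u.map Prod.snd) = s := by
    intro s
    by_cases hs : s < m ^ w.length
    · obtain ⟨u, h1, h2⟩ := exists_ext w s hs
      exact ⟨u, fun _ => ⟨h1, h2⟩⟩
    · exact ⟨[], fun h => absurd h hs⟩
  choose c hc using hc
  have hpos : 0 < m ^ w.length := pow_pos hm0 _
  have hlen : ∀ s, s < m ^ w.length → (c s).length = w.length := by
    intro s hs
    have := congrArg List.length (hc s hs).1
    simpa using this
  have hc0 : c 0 = w.map z := by
    refine uex_ext ?_ ?_
    · rw [(hc 0 hpos).1, List.map_map]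
      exact (List.map_id w).symm
    · rw [(hc 0 hpos).2, List.map_map]
      have h1 : (Prod.snd ∘ z) = fun _ : Γ => (⟨0, hm0⟩ : Fin m) := rfl
      rw [h1, List.map_const', val_replicate]
  have hex : ∃ s, s < m ^ w.length ∧ c s ∈ H := by
    refine ⟨m ^ w.length - 1, by omega, Or.inr ?_⟩
    change val _ + 1 = _
    rw [(hc _ (by omega)).2, hlen _ (by omega)]
    omega
  set t := Nat.find hex with ht
  obtain ⟨ht1, ht2⟩ := Nat.find_spec hex
  have hmin : ∀ s < t, c s ∉ H := fun s hs hsH =>
    Nat.find_min hex hs ⟨lt_trans hs ht1, hsH⟩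
  have key := hloop c t
    (by
      intro h0
      have := hlen 0 hpos
      rw [h0] at this
      exact hw (List.length_eq_zero_iff.mp (by simpa using this.symm)))
    (fun s hs => by rw [hlen s (by omega), hlen 0 hpos]) hmin
    (by
      intro s hs u hu
      have hs1 := hc s (by omega)
      have hs2 := hc (s + 1) (by omega)
      have hu1 : u.map (fun x => x.1.1) = w := by
        rw [← hs1.1, ← hu, List.map_map]; rfl
      have hu2 : val (u.map fun x => x.1.2) = s := by
        rw [← hs1.2, ← hu, List.map_map]; rfl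
      constructor
      · rintro ⟨h1, h2⟩
        change ∀ x ∈ u, x.2.1 = x.1.1 at h1
        change val (u.map fun x => x.2.2) = val (u.map fun x => x.1.2) + 1 at h2
        refine uex_ext ?_ ?_
        · rw [hs2.1, List.map_map, ← hu1]
          exact List.map_congr_left fun x hx => h1 x hx
        · rw [hs2.2, List.map_map, ← hu2, ← h2]
          rfl
      · intro h3
        refine ⟨?_, ?_⟩
        · change ∀ x ∈ u, x.2.1 = x.1.1
          rw [← List.map_inj_left, hu1, ← hs2.1, ← h3, List.map_map]
          rfl
        · change val (u.map fun x => x.2.2) = val (u.map fun x => x.1.2) + 1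
          rw [hu2, ← hs2.2, ← h3, List.map_map]
          rfl)
    ht2
  change (∃ w' : List (Γ × T), w'.map Prod.fst = w ∧ w' ∈ L) ↔ w.map z ∈ K
  rw [← hc0, key]
  constructor
  · rintro ⟨w', h1, h2⟩
    let u : List (Γ × Fin m) := w'.map fun x => (x.1, e.symm x.2)
    have hu1 : u.map Prod.fst = w := by
      rw [← h1]
      simp [u]
    have hu2 : u.map φ = w' := by
      simp only [u, List.map_map]
      have h3 : (φ ∘ fun x : Γ × T => (x.1, e.symm x.2)) = id := by
        funext x
        simp [φ]
      rw [h3, List.map_id]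
    have hulen : u.length = w.length := by
      have := congrArg List.length hu1
      simpa using this
    have hv : val (u.map Prod.snd) < m ^ w.length := by
      have := val_lt (u.map Prod.snd)
      rwa [List.length_map, hulen] at this
    have hcu : c (val (u.map Prod.snd)) = u :=
      uex_ext ((hc _ hv).1.trans hu1.symm) (hc _ hv).2
    have huA : u ∈ A := by
      change u.map φ ∈ L
      rw [hu2]
      exact h2
    rcases ht2 with h4 | h4
    · exact h4
    · change val _ + 1 = _ at h4
      rw [(hc _ ht1).2, hlen _ ht1] at h4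
      have h5 : t ≤ val (u.map Prod.snd) :=
        Nat.find_min' hex ⟨hv, by rw [hcu]; exact Or.inl huA⟩
      have h6 : t = val (u.map Prod.snd) := by omega
      rw [h6, hcu]
      exact huA
  · intro h1
    refine ⟨(c t).map φ, ?_, h1⟩
    rw [List.map_map]
    exact (hc _ ht1).1

end Pool.Agent.Book19
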