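import Pool.Agent.Book19.UEx

/-!
# Bounded sums (package UD8)
-/

set_option autoImplicit false

namespace Pool.Agent.Book19

open Relation Pool.Agent.PT

/-- `K` decides the graph of `f` for `i` below the bound `N w`; then sums of `f` are decided. -/
theorem dl_sum {Γ : Type} [Fintype Γ] {m : ℕ} (hm : 2 ≤ m) {K : Set (List ((Γ × Fin m) × Fin m))}
    (hK : InDLBA _ K) (b out : Γ → Fin m) :
    ∃ K' : Set (List Γ), InDLBA Γ K' ∧ ∀ (w : List Γ) (f : ℕ → ℕ), w ≠ [] →
      (∀ i < val (w.map b), ∀ w' : List ((Γ × Fin m) × Fin m),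
        w'.map (fun x => x.1.1) = w → val (w'.map (fun x => x.1.2)) = i →
        (w' ∈ K ↔ val (w'.map Prod.snd) = f i)) →
      (∑ i ∈ Finset.range (val (w.map b)), f i) < m ^ w.length →
      (w ∈ K' ↔ val (w.map out) = ∑ i ∈ Finset.range (val (w.map b)), f i) := by
  classical
  have hm0 : 0 < m := by omega
  -- the relation of the loop
  let φ : (((Γ × Fin m) × Fin m) × ((Γ × Fin m) × Fin m)) × Fin m → (Γ × Fin m) × Fin m :=
    fun y => (y.1.1.1, y.2)
  let L : Set (List ((((Γ × Fin m) × Fin m) × ((Γ × Fin m) × Fin m)) × Fin m)) :=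
    {u | u ∈ {u : List ((((Γ × Fin m) × Fin m) × ((Γ × Fin m) × Fin m)) × Fin m) | u.map φ ∈ K} ∧
      u ∈ {u : List ((((Γ × Fin m) × Fin m) × ((Γ × Fin m) × Fin m)) × Fin m) |
        val (u.map fun y => y.1.2.2) = val (u.map fun y => y.1.1.2) + val (u.map fun y => y.2)}}
  have hL : InDLBA _ L := (hK.map φ).inter (dl_vadd
    (fun y : (((Γ × Fin m) × Fin m) × ((Γ × Fin m) × Fin m)) × Fin m => y.1.1.2)
    (fun y => y.2) (fun y => y.1.2.2))
  let R : Set (List (((Γ × Fin m) × Fin m) × ((Γ × Fin m) × Fin m))) :=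
    {w | w ∈ {w : List (((Γ × Fin m) × Fin m) × ((Γ × Fin m) × Fin m)) |
        w ∈ {w : List (((Γ × Fin m) × Fin m) × ((Γ × Fin m) × Fin m)) |
          ∀ x ∈ w, x.2.1.1 = x.1.1.1} ∧
        w ∈ {w : List (((Γ × Fin m) × Fin m) × ((Γ × Fin m) × Fin m)) |
          val (w.map fun x => x.2.1.2) = val (w.map fun x => x.1.1.2) + 1}} ∧
      w ∈ {w : List (((Γ × Fin m) × Fin m) × ((Γ × Fin m) × Fin m)) |
        ∃ u : List ((((Γ × Fin m) × Fin m) × ((Γ × Fin m) × Fin m)) × Fin m),
          u.map Prod.fst = w ∧ u ∈ L}}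
  have hR : InDLBA _ R := ((dl_all
    (fun x : ((Γ × Fin m) × Fin m) × ((Γ × Fin m) × Fin m) => x.2.1.1 = x.1.1.1)).inter
    (dl_vsucc (fun x : ((Γ × Fin m) × Fin m) × ((Γ × Fin m) × Fin m) => x.1.1.2)
      (fun x => x.2.1.2))).inter hL.ex
  have hH := dl_veq (fun x : (Γ × Fin m) × Fin m => x.1.2) (fun x => b x.1.1)
  have hA := dl_veq (fun x : (Γ × Fin m) × Fin m => out x.1.1) (fun x => x.2)
  obtain ⟨K₁, hK₁, hloop⟩ := InDLBA.loop hR hH hA
  let z : Γ → (Γ × Fin m) × Fin m := fun x => ((x, ⟨0, hm0⟩), ⟨0, hm0⟩)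
  refine ⟨_, hK₁.map z, ?_⟩
  intro w f hw hf hsum
  set t := val (w.map b) with ht
  have htlt : t < m ^ w.length := by
    have := val_lt (w.map b)
    rwa [List.length_map] at this
  have hpart : ∀ s ≤ t, ∑ i ∈ Finset.range s, f i < m ^ w.length := fun s hs =>
    lt_of_le_of_lt (Finset.sum_le_sum_of_subset (Finset.range_subset_range.2 hs)) hsum
  have hc : ∀ s, ∃ u : List ((Γ × Fin m) × Fin m), s ≤ t →
      u.map (fun x => x.1.1) = w ∧ val (u.map fun x => x.1.2) = s ∧
        val (u.map Prod.snd) = ∑ i ∈ Finset.range s, f i := by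
    intro s
    by_cases hs : s ≤ t
    · obtain ⟨u, h1, h2⟩ := exists_ext (m := m) w s (by omega)
      have hu : u.length = w.length := by
        have := congrArg List.length h1
        simpa using this
      obtain ⟨u', h3, h4⟩ := exists_ext (m := m) u (∑ i ∈ Finset.range s, f i) (by
        rw [hu]; exact hpart s hs)
      refine ⟨u', fun _ => ⟨?_, ?_, h4⟩⟩
      · rw [← h1, ← h3, List.map_map]; rfl
      · rw [← h2, ← h3, List.map_map]; rfl
    · exact ⟨[], fun h => absurd h hs⟩
  choose c hc using hc
  have hlen : ∀ s ≤ t, (c s).length = w.length := by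
    intro s hs
    have := congrArg List.length (hc s hs).1
    simpa using this
  -- uniqueness
  have huniq : ∀ {u v : List ((Γ × Fin m) × Fin m)},
      u.map (fun x => x.1.1) = v.map (fun x => x.1.1) →
      val (u.map fun x => x.1.2) = val (v.map fun x => x.1.2) →
      val (u.map Prod.snd) = val (v.map Prod.snd) → u = v := by
    intro u v h1 h2 h3
    refine uex_ext (uex_ext ?_ ?_) h3
    · rw [List.map_map, List.map_map]; exact h1
    · rw [List.map_map, List.map_map]; exact h2
  have hz0 : ∀ n : ℕ, val (List.replicate n (⟨0, hm0⟩ : Fin m)) = 0 := val_replicate hm0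
  have hc0 : c 0 = w.map z := by
    refine huniq ?_ ?_ ?_
    · rw [(hc 0 (Nat.zero_le _)).1, List.map_map]
      exact (List.map_id w).symm
    · rw [(hc 0 (Nat.zero_le _)).2.1, List.map_map]
      have h1 : ((fun x : (Γ × Fin m) × Fin m => x.1.2) ∘ z) = fun _ : Γ => (⟨0, hm0⟩ : Fin m) := rfl
      rw [h1, List.map_const', hz0]
    · rw [(hc 0 (Nat.zero_le _)).2.2, List.map_map]
      have h1 : (Prod.snd ∘ z) = fun _ : Γ => (⟨0, hm0⟩ : Fin m) := rfl
      rw [h1, List.map_const', hz0, Finset.range_zero, Finset.sum_empty]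
  have key := hloop c t
    (by
      intro h0
      have := hlen 0 (Nat.zero_le _)
      rw [h0] at this
      exact hw (List.length_eq_zero_iff.mp (by simpa using this.symm)))
    (fun s hs => by rw [hlen s hs, hlen 0 (Nat.zero_le _)])
    (by
      intro s hs h1
      change val ((c s).map fun x => x.1.2) = val ((c s).map fun x => b x.1.1) at h1
      have h2 := (hc s hs.le).2.1
      have h3 : (c s).map (fun x => b x.1.1) = w.map b := by
        rw [← (hc s hs.le).1, List.map_map]; rfl
      rw [h2, h3] at h1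
      omega)
    (by
      intro s hs u hu
      have hs1 := hc s hs.le
      have hs2 := hc (s + 1) hs
      have hu1 : u.map (fun x => x.1.1.1) = w := by
        rw [← hs1.1, ← hu, List.map_map]; rfl
      have hu2 : val (u.map fun x => x.1.1.2) = s := by
        rw [← hs1.2.1, ← hu, List.map_map]; rfl
      have hu3 : val (u.map fun x => x.1.2) = ∑ i ∈ Finset.range s, f i := by
        rw [← hs1.2.2, ← hu, List.map_map]; rfl
      have hulen : u.length = w.length := by
        have := congrArg List.length hu1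
        simpa using this
      have hfs : f s < m ^ u.length := by
        rw [hulen]
        refine lt_of_le_of_lt ?_ hsum
        exact Finset.single_le_sum (f := f) (fun _ _ => Nat.zero_le _) (Finset.mem_range.2 hs)
      -- membership in the graph
      have hmem : ∀ v : List ((((Γ × Fin m) × Fin m) × ((Γ × Fin m) × Fin m)) × Fin m),
          v.map Prod.fst = u → (v.map φ ∈ K ↔ val (v.map Prod.snd) = f s) := by
        intro v hv
        have h1 := hf s hs (v.map φ)
          (by rw [List.map_map, ← hu1, ← hv, List.map_map]; rfl)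
          (by rw [List.map_map, ← hu2, ← hv, List.map_map]; rfl)
        rw [h1, List.map_map]
        rfl
      constructor
      · rintro ⟨⟨h1, h2⟩, v, hv, h3, h4⟩
        change ∀ x ∈ u, x.2.1.1 = x.1.1.1 at h1
        change val (u.map fun x => x.2.1.2) = val (u.map fun x => x.1.1.2) + 1 at h2
        change v.map φ ∈ K at h3
        change val (v.map fun y => y.1.2.2) = val (v.map fun y => y.1.1.2) +
          val (v.map fun y => y.2) at h4
        have h5 := (hmem v hv).1 h3
        have h6 : v.map (fun y => y.1.2.2) = u.map fun x => x.2.2 := by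
          rw [← hv, List.map_map]; rfl
        have h7 : v.map (fun y => y.1.1.2) = u.map fun x => x.1.2 := by
          rw [← hv, List.map_map]; rfl
        refine huniq ?_ ?_ ?_
        · rw [hs2.1, List.map_map, ← hu1]
          exact List.map_congr_left fun x hx => h1 x hx
        · rw [hs2.2.1, List.map_map, ← hu2, ← h2]
          rfl
        · rw [hs2.2.2, List.map_map, Finset.sum_range_succ, ← hu3, ← h5, ← h7]
          change val (u.map fun x => x.2.2) = _
          rw [← h6, h4]
      · intro h3
        obtain ⟨v, hv1, hv2⟩ := exists_ext u (f s) hfs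
        refine ⟨⟨?_, ?_⟩, v, hv1, (hmem v hv1).2 hv2, ?_⟩
        · change ∀ x ∈ u, x.2.1.1 = x.1.1.1
          rw [← List.map_inj_left, hu1, ← hs2.1, ← h3, List.map_map]
          rfl
        · change val (u.map fun x => x.2.1.2) = val (u.map fun x => x.1.1.2) + 1
          rw [hu2, ← hs2.2.1, ← h3, List.map_map]
          rfl
        · change val (v.map fun y => y.1.2.2) = val (v.map fun y => y.1.1.2) +
            val (v.map Prod.snd)
          have h6 : v.map (fun y => y.1.2.2) = u.map fun x => x.2.2 := by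
            rw [← hv1, List.map_map]; rfl
          have h7 : v.map (fun y => y.1.1.2) = u.map fun x => x.1.2 := by
            rw [← hv1, List.map_map]; rfl
          rw [h6, h7, hv2, hu3, ← Finset.sum_range_succ, ← hs2.2.2, ← h3, List.map_map]
          rfl)
    (by
      change val ((c t).map fun x => x.1.2) = val ((c t).map fun x => b x.1.1)
      have h3 : (c t).map (fun x => b x.1.1) = w.map b := by
        rw [← (hc t le_rfl).1, List.map_map]; rfl
      rw [(hc t le_rfl).2.1, h3])
  change w.map z ∈ K₁ ↔ _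
  rw [← hc0, key]
  change val ((c t).map fun x => out x.1.1) = val ((c t).map Prod.snd) ↔ _
  have h3 : (c t).map (fun x => out x.1.1) = w.map out := by
    rw [← (hc t le_rfl).1, List.map_map]; rfl
  rw [h3, (hc t le_rfl).2.2]

end Pool.Agent.Book19
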