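import Pool.Agent.Book19.UReg
import Pool.Agent.Book19.UDig
import Pool.Agent.Book19.UNum
import Pool.Agent.Book19.ULoop

/-!
# The length of the word and the letter at a given place

A loop with a prefix of marks and a counter: after `s` steps the first `s` letters are marked and
the counter has value `s`.
-/

set_option autoImplicit false

namespace Pool.Agent.Book19

private def usymMk (n s : ℕ) : List Bool := List.replicate s true ++ List.replicate (n - s) false

private theorem usymMk_len {n s : ℕ} (h : s ≤ n) : (usymMk n s).length = n := by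
  simp [usymMk, h]

private theorem usymMk_inj {n s j : ℕ} (h : usymMk n s = usymMk n j) : s = j := by
  have h1 := congrArg (List.count true) h
  simpa [usymMk, List.count_append, List.count_replicate] using h1

private theorem usym_ext {Γ : Type} {m : ℕ} : ∀ (l l' : List (Γ × Bool × Fin m)),
    l.map (fun x => x.1) = l'.map (fun x => x.1) →
    l.map (fun x => x.2.1) = l'.map (fun x => x.2.1) →
    l.map (fun x => x.2.2) = l'.map (fun x => x.2.2) → l = l'
  | [], [], _, _, _ => rfl
  | [], _ :: _, h, _, _ => by simp at h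
  | _ :: _, [], h, _, _ => by simp at h
  | x :: l, y :: l', h1, h2, h3 => by
    simp only [List.map_cons, List.cons.injEq] at h1 h2 h3
    rw [usym_ext l l' h1.2 h2.2 h3.2]
    obtain ⟨x1, x2, x3⟩ := x
    obtain ⟨y1, y2, y3⟩ := y
    simp only at h1 h2 h3
    rw [h1.1, h2.1, h3.1]

/-- the word of step `s` -/
private def UsymW {Γ : Type} {m : ℕ} (w : List Γ) (s : ℕ) (l : List (Γ × Bool × Fin m)) : Prop :=
  l.map (fun x => x.1) = w ∧ l.map (fun x => x.2.1) = usymMk w.length s ∧
    val (l.map (fun x => x.2.2)) = s

private theorem usymW_len {Γ : Type} {m : ℕ} {w : List Γ} {s : ℕ} {l : List (Γ × Bool × Fin m)}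
    (h : UsymW w s l) : l.length = w.length := by
  rw [← h.1, List.length_map]

private theorem usymW_unique {Γ : Type} {m : ℕ} {w : List Γ} {s : ℕ}
    {l l' : List (Γ × Bool × Fin m)} (h : UsymW w s l) (h' : UsymW w s l') : l = l' := by
  refine usym_ext l l' (h.1.trans h'.1.symm) (h.2.1.trans h'.2.1.symm) ?_
  exact val_inj (by simp [usymW_len h, usymW_len h']) (h.2.2.trans h'.2.2.symm)

private theorem usymW_exists {Γ : Type} {m : ℕ} (hm : 2 ≤ m) (w : List Γ) (s : ℕ)
    (hs : s ≤ w.length) : ∃ l : List (Γ × Bool × Fin m), UsymW w s l := by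
  have hlt : s < m ^ (w.zip (usymMk w.length s)).length := by
    rw [List.length_zip, usymMk_len hs, min_self]
    exact hs.trans_lt ((Nat.lt_two_pow_self).trans_le (Nat.pow_le_pow_left hm _))
  obtain ⟨l, h1, h2⟩ := exists_ext (w.zip (usymMk w.length s)) s hlt
  refine ⟨l.map (fun x => (x.1.1, x.1.2, x.2)), ?_, ?_, ?_⟩
  · have := congrArg (List.map Prod.fst) h1
    rw [List.map_map, List.map_fst_zip (by rw [usymMk_len hs])] at this
    rw [List.map_map]
    exact this
  · have := congrArg (List.map Prod.snd) h1
    rw [List.map_map, List.map_snd_zip (by rw [usymMk_len hs])] at this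
    rw [List.map_map]
    exact this
  · rw [List.map_map]
    exact h2

private theorem usym_loop {Γ : Type} [Fintype Γ] {m : ℕ} (hm : 2 ≤ m)
    {H A : Set (List (Γ × Bool × Fin m))} (hH : InDLBA _ H) (hA : InDLBA _ A) :
    ∃ K : Set (List Γ), InDLBA Γ K ∧ ∀ (w : List Γ) (t : ℕ), w ≠ [] → t ≤ w.length →
      (∀ s < t, ∀ l, UsymW w s l → l ∉ H) → (∀ l, UsymW w t l → l ∈ H) →
      (w ∈ K ↔ ∃ l, UsymW w t l ∧ l ∈ A) := by
  classical
  have hR : InDLBA ((Γ × Bool × Fin m) × (Γ × Bool × Fin m))
      {w | w ∈ {w : List ((Γ × Bool × Fin m) × (Γ × Bool × Fin m)) |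
        w ∈ {w : List ((Γ × Bool × Fin m) × (Γ × Bool × Fin m)) | ∀ x ∈ w, x.1.1 = x.2.1} ∧
        w ∈ {w : List ((Γ × Bool × Fin m) × (Γ × Bool × Fin m)) | ∃ j < w.length,
          w.map (fun x => x.1.2.1) = List.replicate j true ++
            List.replicate (w.length - j) false ∧
          w.map (fun x => x.2.2.1) = List.replicate (j + 1) true ++
            List.replicate (w.length - (j + 1)) false}} ∧
        w ∈ {w : List ((Γ × Bool × Fin m) × (Γ × Bool × Fin m)) |
          val (w.map (fun x => x.2.2.2)) = val (w.map (fun x => x.1.2.2)) + 1}} :=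
    InDLBA.inter (InDLBA.inter (dl_all _) (dl_mark _ _)) (dl_vsucc _ _)
  obtain ⟨K, hK, hK2⟩ := InDLBA.loop hR hH hA
  have h0 : 0 < m := by omega
  refine ⟨{w | w.map (fun x => (x, false, (⟨0, h0⟩ : Fin m))) ∈ K}, InDLBA.map _ hK, ?_⟩
  intro w t hw ht hnH hinH
  choose c hc using fun s : ℕ => fun hs : s ≤ w.length => usymW_exists hm w s hs
  let C : ℕ → List (Γ × Bool × Fin m) := fun s => if hs : s ≤ w.length then c s hs else []
  have hC : ∀ s, s ≤ w.length → UsymW w s (C s) := by
    intro s hs
    simp only [C, hs, dif_pos]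
    exact hc s hs
  have hini : w.map (fun x => (x, false, (⟨0, h0⟩ : Fin m))) = C 0 := by
    refine usymW_unique (w := w) (s := 0) ⟨?_, ?_, ?_⟩ (hC 0 (Nat.zero_le _))
    · simp [List.map_map, Function.comp_def]
    · rw [List.map_map]
      simp only [usymMk, List.replicate_zero, List.nil_append, Nat.sub_zero]
      exact List.eq_replicate_iff.2 ⟨by simp, by simp⟩
    · rw [List.map_map]
      have : List.map ((fun x : Γ × Bool × Fin m => x.2.2) ∘
          fun x => (x, false, (⟨0, h0⟩ : Fin m))) w = List.replicate w.length ⟨0, h0⟩ :=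
        List.eq_replicate_iff.2 ⟨by simp, by simp⟩
      rw [this]
      exact val_replicate h0 _
  have key := hK2 C t ?_ ?_ ?_ ?_ ?_
  · show w.map (fun x => (x, false, (⟨0, h0⟩ : Fin m))) ∈ K ↔ _
    rw [hini, key]
    constructor
    · intro h
      exact ⟨C t, hC t ht, h⟩
    · rintro ⟨l, hl, hlA⟩
      rwa [usymW_unique (hC t ht) hl]
  · rw [← hini]
    simpa using hw
  · intro s hs
    rw [usymW_len (hC s (hs.trans ht)), usymW_len (hC 0 (Nat.zero_le _))]
  · intro s hs
    exact hnH s hs _ (hC s (hs.le.trans ht))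
  · intro s hs v hv
    have hsn : s < w.length := hs.trans_le ht
    have hCs := hC s hsn.le
    have hCs1 := hC (s + 1) hsn
    have hlen : v.length = w.length := by
      rw [← usymW_len hCs, ← hv, List.length_map]
    have e1 : v.map (fun x => x.1.1) = w := by
      rw [← hCs.1, ← hv, List.map_map]; rfl
    have e2 : v.map (fun x => x.1.2.1) = usymMk w.length s := by
      rw [← hCs.2.1, ← hv, List.map_map]; rfl
    have e3 : val (v.map (fun x => x.1.2.2)) = s := by
      have : v.map (fun x => x.1.2.2) = (C s).map (fun x => x.2.2) := by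
        rw [← hv, List.map_map]; rfl
      rw [this]
      exact hCs.2.2
    constructor
    · rintro ⟨⟨h1, j, hj, h2, h3⟩, h4⟩
      have hjs : j = s := by
        rw [e2, hlen] at h2
        exact (usymMk_inj h2).symm
      subst hjs
      refine usymW_unique (w := w) (s := j + 1) ⟨?_, ?_, ?_⟩ hCs1
      · rw [List.map_map, ← e1]
        exact List.map_congr_left (fun x hx => (h1 x hx).symm)
      · rw [List.map_map]
        exact h3.trans (by rw [hlen]; rfl)
      · rw [List.map_map]
        have h4' : val (v.map (fun x => x.2.2.2)) = val (v.map (fun x => x.1.2.2)) + 1 := h4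
        rw [e3] at h4'
        exact h4'
    · intro h
      have f1 : v.map (fun x => x.2.1) = w := by
        rw [← hCs1.1, ← h, List.map_map]; rfl
      have f2 : v.map (fun x => x.2.2.1) = usymMk w.length (s + 1) := by
        rw [← hCs1.2.1, ← h, List.map_map]; rfl
      have f3 : val (v.map (fun x => x.2.2.2)) = s + 1 := by
        have : v.map (fun x => x.2.2.2) = (C (s + 1)).map (fun x => x.2.2) := by
          rw [← h, List.map_map]; rfl
        rw [this]
        exact hCs1.2.2
      refine ⟨⟨?_, s, by rw [hlen]; exact hsn, ?_, ?_⟩, ?_⟩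
      · intro x hx
        have : v.map (fun x => x.1.1) = v.map (fun x => x.2.1) := e1.trans f1.symm
        exact (List.map_inj_left.1 this) x hx
      · rw [hlen]; exact e2
      · rw [hlen]; exact f2
      · show val (v.map (fun x => x.2.2.2)) = val (v.map (fun x => x.1.2.2)) + 1
        rw [f3, e3]
  · exact hinH _ (hC t ht)

private theorem usym_all {Γ : Type} {m : ℕ} {w : List Γ} {s : ℕ} {l : List (Γ × Bool × Fin m)}
    (h : UsymW w s l) (hs : s ≤ w.length) : (∀ x ∈ l, x.2.1 = true) ↔ s = w.length := by
  have h1 : (∀ x ∈ l, x.2.1 = true) ↔ ∀ b ∈ l.map (fun x => x.2.1), b = true := by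
    simp
  rw [h1, h.2.1, usymMk]
  constructor
  · intro h2
    by_contra hne
    have : false ∈ List.replicate s true ++ List.replicate (w.length - s) false := by
      rw [List.mem_append]
      right
      rw [List.mem_replicate]
      exact ⟨by omega, rfl⟩
    exact absurd (h2 _ this) (by simp)
  · intro h2 b hb
    rw [h2, Nat.sub_self, List.replicate_zero, List.append_nil] at hb
    exact List.eq_of_mem_replicate hb

private theorem usym_fst {Γ : Type} {m : ℕ} {w : List Γ} {s : ℕ} {l : List (Γ × Bool × Fin m)}
    (h : UsymW w s l) (a : Γ → Fin m) : l.map (fun x => a x.1) = w.map a := by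
  rw [← h.1, List.map_map]; rfl

theorem dl_len {Γ : Type} [Fintype Γ] {m : ℕ} (hm : 2 ≤ m) (a : Γ → Fin m) :
    InDLBA Γ {w | val (w.map a) = w.length} := by
  obtain ⟨K, hK, hK2⟩ := usym_loop (Γ := Γ) hm
    (H := {l | ∀ x ∈ l, x.2.1 = true})
    (A := {l | val (l.map (fun x => a x.1)) = val (l.map (fun x => x.2.2))})
    (dl_all _) (dl_veq _ _)
  refine InDLBA.congr hK ?_
  intro w hw
  rw [hK2 w w.length hw le_rfl]
  · constructor
    · intro h
      obtain ⟨l, hl⟩ := usymW_exists hm w w.length le_rfl
      refine ⟨l, hl, ?_⟩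
      show val (l.map (fun x => a x.1)) = val (l.map (fun x => x.2.2))
      rw [usym_fst hl, hl.2.2]
      exact h
    · rintro ⟨l, hl, h⟩
      have h' : val (l.map (fun x => a x.1)) = val (l.map (fun x => x.2.2)) := h
      rw [usym_fst hl, hl.2.2] at h'
      exact h'
  · intro s hs l hl h
    exact absurd ((usym_all hl hs.le).1 h) hs.ne
  · intro l hl
    exact (usym_all hl le_rfl).2 rfl

private theorem usym_mk_get {n s i : ℕ} (hi : i < n) :
    (usymMk n s)[i]? = some (decide (i < s)) ∨ n < s := by
  by_cases hs : n < s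
  · exact Or.inr hs
  · left
    rw [usymMk, List.getElem?_append, List.length_replicate]
    split_ifs with h
    · rw [List.getElem?_replicate_of_lt h]
      simp [h]
    · rw [List.getElem?_replicate_of_lt (by omega)]
      simp [h]

theorem dl_sym {Γ : Type} [Fintype Γ] {m : ℕ} (hm : 2 ≤ m) (a : Γ → Fin m) (p : Γ → Prop) :
    InDLBA Γ {w | ∃ x, w[val (w.map a)]? = some x ∧ p x} := by
  obtain ⟨K, hK, hK2⟩ := usym_loop (Γ := Γ) hm
    (H := {l | l ∈ {l : List (Γ × Bool × Fin m) | ∀ x ∈ l, x.2.1 = true} ∨
      l ∈ {l : List (Γ × Bool × Fin m) |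
        val (l.map (fun x => a x.1)) = val (l.map (fun x => x.2.2))}})
    (A := {l | l ∈ {l : List (Γ × Bool × Fin m) |
        val (l.map (fun x => a x.1)) = val (l.map (fun x => x.2.2))} ∧
      l ∈ {l : List (Γ × Bool × Fin m) | ∃ (j : ℕ) (x : Γ × Bool × Fin m),
        l[j]? = some x ∧ x.2.1 = false ∧ p x.1 ∧ ∀ i < j, ∀ y, l[i]? = some y → y.2.1 = true}})
    (InDLBA.union (dl_all _) (dl_veq _ _)) (InDLBA.inter (dl_veq _ _) (dl_first _ _))
  refine InDLBA.congr hK ?_
  intro w hw
  set v := val (w.map a) with hv
  have hmem : ∀ {s : ℕ} {l : List (Γ × Bool × Fin m)}, UsymW w s l →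
      ((val (l.map (fun x => a x.1)) = val (l.map (fun x => x.2.2))) ↔ v = s) := by
    intro s l hl
    rw [usym_fst hl, hl.2.2]
  rw [hK2 w (min v w.length) hw (min_le_right _ _)]
  · rcases lt_or_ge v w.length with hlt | hge
    · rw [min_eq_left hlt.le]
      obtain ⟨l, hl⟩ : ∃ l : List (Γ × Bool × Fin m), UsymW w v l :=
        usymW_exists hm w v hlt.le
      have hgetw : ∀ i : ℕ, w[i]? = (l[i]?).map (fun x : Γ × Bool × Fin m => x.1) := by
        intro i
        rw [← List.getElem?_map, hl.1]
      have hgetm : ∀ i : ℕ, (usymMk w.length v)[i]? =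
          (l[i]?).map (fun x : Γ × Bool × Fin m => x.2.1) := by
        intro i
        rw [← List.getElem?_map, hl.2.1]
      have hmk : ∀ (i : ℕ) (y : Γ × Bool × Fin m), l[i]? = some y → y.2.1 = decide (i < v) := by
        intro i y hy
        have hi : i < w.length := by
          rw [← usymW_len hl]
          exact (List.getElem?_eq_some_iff.1 hy).1
        have h1 := hgetm i
        rw [hy, Option.map_some] at h1
        rcases usym_mk_get (s := v) hi with h2 | h2
        · rw [h2] at h1
          exact (Option.some.inj h1).symm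
        · omega
      constructor
      · rintro ⟨x, hx, hpx⟩
        refine ⟨l, hl, (hmem hl).2 rfl, ?_⟩
        have h1 := hgetw v
        rw [hx] at h1
        obtain ⟨y, hy, hyx⟩ := Option.map_eq_some_iff.1 h1.symm
        refine ⟨v, y, hy, ?_, by rw [hyx]; exact hpx, ?_⟩
        · rw [hmk v y hy]; simp
        · intro i hi z hz
          rw [hmk i z hz]; simpa using hi
      · rintro ⟨l', hl', -, j, y, hy, hyf, hpy, hlast⟩
        rw [usymW_unique hl' hl] at hy hlast
        have h1 := hmk j y hy
        rw [hyf] at h1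
        have hjv : v ≤ j := by
          by_contra hcon
          rw [decide_eq_true (not_le.1 hcon)] at h1
          exact absurd h1 (by simp)
        have hjv2 : j = v := by
          by_contra hne
          have hvj : v < j := lt_of_le_of_ne hjv (Ne.symm hne)
          have hvl : v < l.length := by rw [usymW_len hl]; exact hlt
          have h2 := hlast v hvj (l[v]) (List.getElem?_eq_getElem hvl)
          rw [hmk v (l[v]) (List.getElem?_eq_getElem hvl)] at h2
          simp at h2
        subst hjv2
        refine ⟨y.1, ?_, hpy⟩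
        rw [hgetw, hy]; rfl
    · rw [min_eq_right hge]
      constructor
      · rintro ⟨x, hx, -⟩
        have := (List.getElem?_eq_some_iff.1 hx).1
        omega
      · rintro ⟨l, hl, -, j, y, hy, hyf, -, -⟩
        have h1 := (usym_all hl le_rfl).2 rfl y (List.mem_of_getElem? hy)
        rw [hyf] at h1
        exact absurd h1 (by simp)
  · intro s hs l hl h
    have hs1 : s < v := hs.trans_le (min_le_left _ _)
    have hs2 : s < w.length := hs.trans_le (min_le_right _ _)
    rcases h with h | h
    · exact absurd ((usym_all hl hs2.le).1 h) hs2.ne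
    · exact absurd ((hmem hl).1 h) hs1.ne'
  · intro l hl
    rcases le_total v w.length with h | h
    · rw [min_eq_left h] at hl
      exact Or.inr ((hmem hl).2 rfl)
    · rw [min_eq_right h] at hl
      exact Or.inl ((usym_all hl le_rfl).2 rfl)

end Pool.Agent.Book19
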