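import Pool.Agent.Book19.UReg
import Pool.Agent.Book19.UDig
import Pool.Agent.Book19.UNum
import Pool.Agent.Book19.UEx
import Pool.Agent.Book19.USym
import Pool.Agent.Book19.USum

/-!
# Terms and predicates are decided by deterministic linear bounded automata
-/

set_option autoImplicit false

namespace Pool.Agent.Book19

open Relation Pool.Agent.PT

/-- Using a value: `K` decides whether the extra track has the value `v`, `L` is a predicate of
the word with the extra track. -/
private theorem UInd_bind {Γ : Type} [Fintype Γ] {m : ℕ} {K L : Set (List (Γ × Fin m))}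
    (hK : InDLBA _ K) (hL : InDLBA _ L) : ∃ K' : Set (List Γ), InDLBA Γ K' ∧
      ∀ w, w ≠ [] → ∀ v, v < m ^ w.length →
        (∀ w' : List (Γ × Fin m), w'.map Prod.fst = w → (w' ∈ K ↔ val (w'.map Prod.snd) = v)) →
        ∀ p : Prop, (∀ w' : List (Γ × Fin m), w'.map Prod.fst = w → val (w'.map Prod.snd) = v →
          (w' ∈ L ↔ p)) → (w ∈ K' ↔ p) := by
  refine ⟨_, InDLBA.ex (hK.inter hL), fun w hw v hv h1 p h2 => ?_⟩
  constructor
  · rintro ⟨w', e1, e2, e3⟩
    exact (h2 w' e1 ((h1 w' e1).1 e2)).1 e3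
  · intro hp
    obtain ⟨w', e1, e2⟩ := exists_ext w v hv
    exact ⟨w', e1, (h1 w' e1).2 e2, (h2 w' e1 e2).2 hp⟩

/-- A bound for the value of a term. -/
private theorem UInd_bound {A : Type} (t : Tm A) {E : ℕ → ℕ} (hE : PB E) :
    ∃ T, PB T ∧ (∀ n, n ≤ T n) ∧ (∀ n, E n ≤ T n) ∧ ∀ (x : List A) (e : ℕ → ℕ),
      (∀ i, e i ≤ E x.length) → t.eval x e ≤ T x.length := by
  obtain ⟨T, hT, h⟩ := eval_bound t
  refine ⟨fun n => T (n + E n) + (n + E n), (hT.comp (PB.id.add hE)).add (PB.id.add hE),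
    fun n => ?_, fun n => ?_, fun x e he => ?_⟩
  · change n ≤ T (n + E n) + (n + E n)
    omega
  · change E n ≤ T (n + E n) + (n + E n)
    omega
  · have := h (x.length + E x.length) x e (by omega) (fun i => (he i).trans (by omega))
    change _ ≤ T (x.length + E x.length) + (x.length + E x.length)
    omega

private theorem UInd_fst {Γ T β : Type} {w' : List (Γ × T)} {w : List Γ}
    (h : w'.map Prod.fst = w) (g : Γ → β) : w'.map (fun x => g x.1) = w.map g := by
  subst h
  simp [Function.comp_def]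

private theorem UInd_len {Γ T : Type} {w' : List (Γ × T)} {w : List Γ}
    (h : w'.map Prod.fst = w) : w'.length = w.length := by
  subst h
  simp

private theorem UInd_ne {Γ T : Type} {w' : List (Γ × T)} {w : List Γ}
    (h : w'.map Prod.fst = w) (hw : w ≠ []) : w' ≠ [] := by
  rintro rfl
  exact hw (by simpa using h.symm)

/-- The graph of the term `t` is decided, for variables bounded by `E`. -/
private def Dec {A : Type} (t : Tm A) (E : ℕ → ℕ) (m : ℕ) : Prop :=
  ∀ (Γ : Type) [Fintype Γ] (a : Γ → A) (v : ℕ → Γ → Fin m) (out : Γ → Fin m),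
    ∃ K : Set (List Γ), InDLBA Γ K ∧ ∀ w, w ≠ [] →
      (∀ i, val (w.map (v i)) ≤ E w.length) →
      (w ∈ K ↔ val (w.map out) = t.eval (w.map a) (fun i => val (w.map (v i))))

/-- Predicates of a word and the value of a term. -/
private def Use {A : Type} (t : Tm A) (E : ℕ → ℕ) (m : ℕ) : Prop :=
  ∀ (Γ : Type) [Fintype Γ] (a : Γ → A) (v : ℕ → Γ → Fin m) (L : Set (List (Γ × Fin m))),
    InDLBA _ L → ∃ K : Set (List Γ), InDLBA Γ K ∧ ∀ w, w ≠ [] →
      (∀ i, val (w.map (v i)) ≤ E w.length) →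
      ∀ p : Prop, (∀ w' : List (Γ × Fin m), w'.map Prod.fst = w →
        val (w'.map Prod.snd) = t.eval (w.map a) (fun i => val (w.map (v i))) →
        (w' ∈ L ↔ p)) → (w ∈ K ↔ p)

private theorem UInd_use {A : Type} {t : Tm A} {E T : ℕ → ℕ} {m : ℕ} (h : Dec t E m)
    (hT : ∀ (x : List A) (e : ℕ → ℕ), (∀ i, e i ≤ E x.length) → t.eval x e ≤ T x.length)
    (hm : ∀ n, 1 ≤ n → T n < m ^ n) : Use t E m := by
  intro Γ _ a v L hL
  obtain ⟨Kt, hKt, hKt'⟩ := h (Γ × Fin m) (fun x => a x.1) (fun i x => v i x.1) (fun x => x.2)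
  obtain ⟨K, hK, hK'⟩ := UInd_bind hKt hL
  refine ⟨K, hK, fun w hw hE p hp => ?_⟩
  have hlen : 1 ≤ w.length := List.length_pos_iff.2 hw
  have hb := hT (w.map a) (fun i => val (w.map (v i))) (by simpa using hE)
  rw [List.length_map] at hb
  refine hK' w hw _ (hb.trans_lt (hm w.length hlen)) (fun w' e1 => ?_) p hp
  have h1 := hKt' w' (UInd_ne e1 hw) (fun i => by
    rw [UInd_fst e1 (v i), UInd_len e1]; exact hE i)
  rw [h1, UInd_fst e1 a]
  have h2 : (fun i => val (w'.map fun x => v i x.1)) = fun i => val (w.map (v i)) := by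
    funext i
    rw [UInd_fst e1 (v i)]
  rw [h2]

/-- Adding a variable. -/
private def consV {Γ T : Type} (v : ℕ → Γ → T) : ℕ → Γ × T → T
  | 0 => fun x => x.2
  | i + 1 => fun x => v i x.1

private theorem UInd_cons {Γ : Type} {m : ℕ} (v : ℕ → Γ → Fin m) {w' : List (Γ × Fin m)}
    {w : List Γ} (h : w'.map Prod.fst = w) : (fun i => val (w'.map (consV v i))) =
      cons (val (w'.map Prod.snd)) (fun i => val (w.map (v i))) := by
  funext i
  cases i with
  | zero => rfl
  | succ i =>
    rw [cons_succ, ← UInd_fst h (v i)]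
    rfl

private theorem UInd_dec {A : Type} [Fintype A] (t : Tm A) : ∀ E : ℕ → ℕ, PB E →
    ∃ m₀, ∀ m, m₀ ≤ m → Dec t E m := by
  induction t with
  | var i =>
    intro E hE
    exact ⟨0, fun m _ Γ _ a v out => ⟨_, dl_veq out (v i), fun w _ _ => Iff.rfl⟩⟩
  | const c =>
    intro E hE
    exact ⟨c + 1, fun m hm Γ _ a v out => ⟨_, dl_vconst out c hm, fun w _ _ => Iff.rfl⟩⟩
  | len =>
    intro E hE
    refine ⟨2, fun m hm Γ _ a v out => ⟨_, dl_len hm out, fun w _ _ => ?_⟩⟩
    simp [Tm.eval]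
  | sym s t ih =>
    intro E hE
    obtain ⟨T, hT, -, -, hTb⟩ := UInd_bound t hE
    obtain ⟨m1, h1⟩ := pb_lt_pow hT
    obtain ⟨m2, h2⟩ := ih E hE
    refine ⟨max (max m1 m2) 2, fun m hm Γ _ a v out => ?_⟩
    have hm3 : 2 ≤ m := by omega
    have hU : Use t E m := UInd_use (h2 m (by omega)) hTb (h1 m (by omega))
    have hS := dl_sym hm3 (fun x : Γ × Fin m => x.2) (fun x => a x.1 = s)
    have h1' := dl_vconst (fun x : Γ × Fin m => out x.1) 1 (by omega)
    have h0' := dl_vconst (fun x : Γ × Fin m => out x.1) 0 (by omega)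
    obtain ⟨K, hK, hK'⟩ := hU Γ a v _ ((hS.inter h1').union (hS.compl.inter h0'))
    refine ⟨K, hK, fun w hw hE' => ?_⟩
    refine hK' w hw hE' _ (fun w' e1 e2 => ?_)
    have h3 : (w' ∈ {w : List (Γ × Fin m) | ∃ x, w[val (w.map fun x => x.2)]? = some x ∧
        a x.1 = s}) ↔ (w.map a)[t.eval (w.map a) (fun i => val (w.map (v i)))]? = some s := by
      rw [← e2, ← UInd_fst e1 a]
      simp only [Set.mem_ofPred_eq, List.getElem?_map, Option.map_eq_some_iff]
    have e3 : val (w'.map fun x => out x.1) = val (w.map out) := by rw [UInd_fst e1 out]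
    simp only [Tm.eval]
    by_cases hc : (w.map a)[t.eval (w.map a) (fun i => val (w.map (v i)))]? = some s
    · rw [if_pos hc]
      have h4 := h3.2 hc
      constructor
      · rintro (⟨-, h5⟩ | ⟨h5, -⟩)
        · rw [← e3]; exact h5
        · exact absurd h4 h5
      · intro h5
        exact Or.inl ⟨h4, e3.trans h5⟩
    · rw [if_neg hc]
      have h4 := fun h => hc (h3.1 h)
      constructor
      · rintro (⟨h5, -⟩ | ⟨-, h5⟩)
        · exact absurd h5 h4
        · rw [← e3]; exact h5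
      · intro h5
        exact Or.inr ⟨h4, e3.trans h5⟩
  | add s t ihs iht =>
    intro E hE
    obtain ⟨S, hS, -, -, hSb⟩ := UInd_bound s hE
    obtain ⟨T, hT, -, -, hTb⟩ := UInd_bound t hE
    obtain ⟨m1, h1⟩ := pb_lt_pow hS
    obtain ⟨m2, h2⟩ := pb_lt_pow hT
    obtain ⟨m3, h3⟩ := ihs E hE
    obtain ⟨m4, h4⟩ := iht E hE
    refine ⟨max (max m1 m2) (max m3 m4), fun m hm Γ _ a v out => ?_⟩
    have hUs : Use s E m := UInd_use (h3 m (by omega)) hSb (h1 m (by omega))
    have hUt : Use t E m := UInd_use (h4 m (by omega)) hTb (h2 m (by omega))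
    obtain ⟨K1, hK1, hK1'⟩ := hUt (Γ × Fin m) (fun x => a x.1) (fun i x => v i x.1) _
      (dl_vadd (fun x : (Γ × Fin m) × Fin m => x.1.2) (fun x => x.2) (fun x => out x.1.1))
    obtain ⟨K, hK, hK'⟩ := hUs Γ a v K1 hK1
    refine ⟨K, hK, fun w hw hE' => ?_⟩
    refine hK' w hw hE' _ (fun w1 e1 e2 => ?_)
    refine hK1' w1 (UInd_ne e1 hw) (fun i => by
      rw [UInd_fst e1 (v i), UInd_len e1]; exact hE' i) _ (fun w2 e3 e4 => ?_)
    have hv : (fun i => val (w1.map fun x => v i x.1)) = fun i => val (w.map (v i)) := by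
      funext i
      rw [UInd_fst e1 (v i)]
    rw [UInd_fst e1 a, hv] at e4
    have e5 : val (w2.map fun x => out x.1.1) = val (w.map out) := by
      rw [UInd_fst e3 (fun x => out x.1), UInd_fst e1 out]
    have e6 : val (w2.map fun x => x.1.2) = val (w1.map Prod.snd) := by
      rw [← UInd_fst e3 Prod.snd]
    change val (w2.map fun x => out x.1.1) = val (w2.map fun x => x.1.2) +
      val (w2.map Prod.snd) ↔ _
    rw [e5, e6, e2, e4]
    rfl
  | sub s t ihs iht =>
    intro E hE
    obtain ⟨S, hS, -, -, hSb⟩ := UInd_bound s hE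
    obtain ⟨T, hT, -, -, hTb⟩ := UInd_bound t hE
    obtain ⟨m1, h1⟩ := pb_lt_pow hS
    obtain ⟨m2, h2⟩ := pb_lt_pow hT
    obtain ⟨m3, h3⟩ := ihs E hE
    obtain ⟨m4, h4⟩ := iht E hE
    refine ⟨max (max (max m1 m2) (max m3 m4)) 1, fun m hm Γ _ a v out => ?_⟩
    have hUs : Use s E m := UInd_use (h3 m (by omega)) hSb (h1 m (by omega))
    have hUt : Use t E m := UInd_use (h4 m (by omega)) hTb (h2 m (by omega))
    have hL := (dl_vadd (fun x : (Γ × Fin m) × Fin m => out x.1.1) (fun x => x.2)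
      (fun x => x.1.2)).union ((dl_vle (fun x : (Γ × Fin m) × Fin m => x.1.2)
        (fun x => x.2)).inter (dl_vconst (fun x => out x.1.1) 0 (by omega)))
    obtain ⟨K1, hK1, hK1'⟩ := hUt (Γ × Fin m) (fun x => a x.1) (fun i x => v i x.1) _ hL
    obtain ⟨K, hK, hK'⟩ := hUs Γ a v K1 hK1
    refine ⟨K, hK, fun w hw hE' => ?_⟩
    refine hK' w hw hE' _ (fun w1 e1 e2 => ?_)
    refine hK1' w1 (UInd_ne e1 hw) (fun i => by
      rw [UInd_fst e1 (v i), UInd_len e1]; exact hE' i) _ (fun w2 e3 e4 => ?_)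
    have hv : (fun i => val (w1.map fun x => v i x.1)) = fun i => val (w.map (v i)) := by
      funext i
      rw [UInd_fst e1 (v i)]
    rw [UInd_fst e1 a, hv] at e4
    have e5 : val (w2.map fun x => out x.1.1) = val (w.map out) := by
      rw [UInd_fst e3 (fun x => out x.1), UInd_fst e1 out]
    have e6 : val (w2.map fun x => x.1.2) = val (w1.map Prod.snd) := by
      rw [← UInd_fst e3 Prod.snd]
    change (val (w2.map fun x => x.1.2) = val (w2.map fun x => out x.1.1) +
      val (w2.map Prod.snd) ∨ (val (w2.map fun x => x.1.2) ≤ val (w2.map Prod.snd) ∧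
        val (w2.map fun x => out x.1.1) = 0)) ↔ _
    rw [e5, e6, e2, e4]
    simp only [Tm.eval]
    omega
  | sum b t ihb iht =>
    intro E hE
    obtain ⟨B, hB, -, hEB, hBb⟩ := UInd_bound b hE
    obtain ⟨T, hT, -, -, hTb⟩ := UInd_bound (Tm.sum b t) hE
    obtain ⟨m1, h1⟩ := pb_lt_pow hB
    obtain ⟨m2, h2⟩ := pb_lt_pow hT
    obtain ⟨m3, h3⟩ := ihb E hE
    obtain ⟨m4, h4⟩ := iht B hB
    refine ⟨max (max (max m1 m2) (max m3 m4)) 2, fun m hm Γ _ a v out => ?_⟩
    have hm2 : 2 ≤ m := by omega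
    have hUb : Use b E m := UInd_use (h3 m (by omega)) hBb (h1 m (by omega))
    obtain ⟨Kt, hKt, hKt'⟩ := h4 m (by omega) ((((Γ × Fin m) × Fin m)) × Fin m)
      (fun x => a x.1.1.1) (fun i x => consV v i (x.1.1.1, x.1.2)) (fun x => x.2)
    obtain ⟨K1, hK1, hK1'⟩ := dl_sum hm2 hKt (fun x : Γ × Fin m => x.2) (fun x => out x.1)
    obtain ⟨K, hK, hK'⟩ := hUb Γ a v K1 hK1
    refine ⟨K, hK, fun w hw hE' => ?_⟩
    have hlen : 1 ≤ w.length := List.length_pos_iff.2 hw
    refine hK' w hw hE' _ (fun w1 e1 e2 => ?_)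
    have hb := hTb (w.map a) (fun i => val (w.map (v i))) (by simpa using hE')
    have hbB := hBb (w.map a) (fun i => val (w.map (v i))) (by simpa using hE')
    rw [List.length_map] at hb hbB
    rw [← e2] at hbB
    have key := hK1' w1 (fun i => t.eval (w.map a) (cons i (fun i => val (w.map (v i)))))
      (UInd_ne e1 hw) ?_ ?_
    · rw [key]
      simp only [Tm.eval]
      rw [UInd_fst e1 out, ← e2]
    · intro i hi w' e3 e4
      have e5 : (w'.map fun x => (x.1.1.1, x.1.2)).map Prod.fst = w := by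
        rw [List.map_map, ← e1, ← e3, List.map_map]
        rfl
      have e6 : (fun i => val (w'.map fun x => consV v i (x.1.1.1, x.1.2))) =
          cons i (fun i => val (w.map (v i))) := by
        have := UInd_cons v e5
        simp only [List.map_map, Function.comp_def] at this
        rw [this, e4]
      have e7 : (w'.map fun x => a x.1.1.1) = w.map a := by
        rw [← UInd_fst e5 a, List.map_map]
        rfl
      have e8 : w'.length = w.length := by
        have := congrArg List.length e5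
        simpa using this
      have h5 := hKt' w' (by
        rintro rfl
        exact hw (List.length_eq_zero_iff.1 (by simpa using e8.symm))) (fun j => by
          have h6 := congrFun e6 j
          rw [h6, e8]
          cases j with
          | zero =>
            rw [cons_zero]
            have : i < val (w1.map Prod.snd) := hi
            omega
          | succ j =>
            rw [cons_succ]
            exact (hE' j).trans (hEB _))
      rw [h5, e6, e7]
    · have h6 : val (w1.map fun x => x.2) = b.eval (w.map a) (fun i => val (w.map (v i))) := e2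
      rw [h6, UInd_len e1]
      exact lt_of_le_of_lt hb (h2 m (by omega) _ hlen)
  | lett s t ihs iht =>
    intro E hE
    obtain ⟨B, hB, -, hEB, hBb⟩ := UInd_bound s hE
    obtain ⟨m1, h1⟩ := pb_lt_pow hB
    obtain ⟨m3, h3⟩ := ihs E hE
    obtain ⟨m4, h4⟩ := iht B hB
    refine ⟨max m1 (max m3 m4), fun m hm Γ _ a v out => ?_⟩
    have hUb : Use s E m := UInd_use (h3 m (by omega)) hBb (h1 m (by omega))
    obtain ⟨Kt, hKt, hKt'⟩ := h4 m (by omega) (Γ × Fin m)
      (fun x => a x.1) (consV v) (fun x => out x.1)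
    obtain ⟨K, hK, hK'⟩ := hUb Γ a v Kt hKt
    refine ⟨K, hK, fun w hw hE' => ?_⟩
    refine hK' w hw hE' _ (fun w1 e1 e2 => ?_)
    have hbB := hBb (w.map a) (fun i => val (w.map (v i))) (by simpa using hE')
    rw [List.length_map] at hbB
    rw [← e2] at hbB
    have e6 := UInd_cons v e1
    have h5 := hKt' w1 (UInd_ne e1 hw) (fun j => by
      have h6 := congrFun e6 j
      rw [h6, UInd_len e1]
      cases j with
      | zero => exact hbB
      | succ j =>
        rw [cons_succ]
        exact (hE' j).trans (hEB _))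
    rw [h5, e6, UInd_fst e1 a, UInd_fst e1 out, e2]
    exact Iff.rfl
  | ren σ t ih =>
    intro E hE
    obtain ⟨m1, h1⟩ := ih E hE
    refine ⟨m1, fun m hm Γ _ a v out => ?_⟩
    obtain ⟨K, hK, hK'⟩ := h1 m hm Γ a (fun i => v (σ i)) out
    refine ⟨K, hK, fun w hw hE' => ?_⟩
    exact hK' w hw (fun i => hE' (σ i))

theorem tm_dlba {A : Type} [Fintype A] (t : Tm A) : ∀ E : ℕ → ℕ, PB E → ∃ m₀, ∀ m, m₀ ≤ m →
    ∀ (Γ : Type) [Fintype Γ] (a : Γ → A) (v : ℕ → Γ → Fin m) (out : Γ → Fin m),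
      ∃ K : Set (List Γ), InDLBA Γ K ∧ ∀ w, w ≠ [] →
        (∀ i, val (w.map (v i)) ≤ E w.length) →
        (w ∈ K ↔ val (w.map out) = t.eval (w.map a) (fun i => val (w.map (v i)))) :=
  UInd_dec t

theorem inDLBA_of_UP {A : Type} [Fintype A] {L : Set (List A)} (h : UP (fun x _ => x ∈ L)) :
    InDLBA A L := by
  classical
  obtain ⟨t, ht⟩ := h
  obtain ⟨m1, h1⟩ := tm_dlba t (fun _ => 0) (PB.const 0)
  set m := max m1 2 with hm
  have hm1 : m1 ≤ m := by omega
  have hm2 : 2 ≤ m := by omega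
  obtain ⟨K, hK, hK'⟩ := h1 m hm1 (A × Fin m) (fun x => x.1) (fun _ _ => ⟨0, by omega⟩)
    (fun x => x.2)
  have h1' := dl_vconst (fun x : A × Fin m => x.2) 1 (by omega)
  obtain ⟨K', hK1, hK2⟩ := UInd_bind h1' hK
  refine hK1.congr fun x hx => ?_
  have hlen : 1 ≤ x.length := List.length_pos_iff.2 hx
  have h1m : 1 < m ^ x.length := Nat.one_lt_pow (by omega) (by omega)
  refine (hK2 x hx 1 h1m (fun w' _ => Iff.rfl) _ ?_).symm
  intro w' e1 e2
  have h3 : val (w'.map fun _ => (⟨0, by omega⟩ : Fin m)) = 0 := by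
    rw [List.map_const']
    exact val_replicate (by omega) _
  have h4 := hK' w' (UInd_ne e1 hx) (fun i => by rw [h3])
  rw [h4]
  subst e1
  rw [ht]
  have e3 : val (w'.map fun x => x.2) = 1 := e2
  rw [e3]
  change (1 = if w'.map Prod.fst ∈ L then 1 else 0) ↔ _
  split_ifs with h5 <;> simp [h5]

end Pool.Agent.Book19
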