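import Pool.Agent.Book19.DMach

/-!
# Computations of deterministic automata as paths
-/

set_option autoImplicit false

namespace Pool.Agent.Book19

open Relation

theorem DLBA.gives_iff {A : Type} (D : DLBA A) (x : List A) (b : Bool) :
    D.Gives x b ↔ ∃ c, ReflTransGen D.Go (D.init x) c ∧ D.out c.1 = some b := by
  constructor
  · rintro ⟨t, h1, h2⟩
    refine ⟨D.step^[t] (D.init x), ?_, h1⟩
    clear h1
    induction t with
    | zero => exact ReflTransGen.refl
    | succ t ih =>
      refine ReflTransGen.tail (ih fun s hs => h2 s (by omega)) ⟨h2 t (by omega), ?_⟩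
      rw [Function.iterate_succ_apply']
  · rintro ⟨c, h1, h2⟩
    have h3 : ∃ t, c = D.step^[t] (D.init x) ∧ ∀ s < t, D.out (D.step^[s] (D.init x)).1 = none := by
      clear h2
      induction h1 with
      | refl => exact ⟨0, rfl, fun s hs => absurd hs (Nat.not_lt_zero s)⟩
      | tail _ h4 ih =>
        obtain ⟨t, rfl, h5⟩ := ih
        refine ⟨t + 1, ?_, fun s hs => ?_⟩
        · rw [h4.2, Function.iterate_succ_apply']
        · rcases Nat.lt_succ_iff_lt_or_eq.1 hs with h6 | rfl
          · exact h5 s h6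
          · exact h4.1
    obtain ⟨t, rfl, h4⟩ := h3
    exact ⟨t, h2, h4⟩

theorem DLBA.go_of_step {A : Type} (D : DLBA A) {c d : Conf D.Q (A ⊕ D.W)}
    (h : ReflTransGen D.toLBA.Step c d) : ReflTransGen D.Go c d := by
  have key : ∀ c d : Conf D.Q (A ⊕ D.W), D.toLBA.Step c d → D.Go c d := by
    rintro ⟨q, l, r⟩ d' ⟨γ, r', h1, x, ⟨h2, h3⟩, h4⟩
    refine ⟨h2, ?_⟩
    simp only at h1
    subst h1
    rw [h4, h3]
    rfl
  induction h with
  | refl => exact ReflTransGen.refl
  | tail _ h4 ih => exact ih.tail (key _ _ h4)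

theorem DLBA.step_of_go {A : Type} (D : DLBA A) {c d : Conf D.Q (A ⊕ D.W)} (hc : c.2.2 ≠ [])
    (h : ReflTransGen D.Go c d) : ReflTransGen D.toLBA.Step c d := by
  have h1 : d.2.2 ≠ [] ∧ ReflTransGen D.toLBA.Step c d := by
    induction h with
    | refl => exact ⟨hc, ReflTransGen.refl⟩
    | @tail a b _ h4 ih =>
      obtain ⟨q, l, r⟩ := a
      obtain ⟨h6, h7⟩ := ih
      cases r with
      | nil => exact absurd rfl h6
      | cons γ r =>
        obtain ⟨h8, h9⟩ := h4
        have h10 : b = ((D.δ q γ l.isEmpty r.isEmpty).1,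
            put (D.δ q γ l.isEmpty r.isEmpty).2.1 (D.δ q γ l.isEmpty r.isEmpty).2.2
              (l, γ :: r)) := h9
        refine ⟨?_, ReflTransGen.tail h7 ⟨γ, r, rfl, _, ⟨h8, rfl⟩, h10⟩⟩
        rw [h10]
        exact put_snd_ne_nil _ _ _ _ _
  exact h1.2

end Pool.Agent.Book19
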