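import Pool.Agent.Book19.Rel
import Pool.Agent.Book19.DGo

/-!
# Deterministic automata as nondeterministic ones
-/

set_option autoImplicit false

namespace Pool.Agent.Book19

open Relation Pool.Agent.PT

/-- the answer of a deterministic automaton is unique -/
theorem UToLBA_gives_unique {A : Type} (D : DLBA A) (x : List A) {b b' : Bool} (h : D.Gives x b)
    (h' : D.Gives x b') : b = b' := by
  obtain ⟨t, h1, h2⟩ := h
  obtain ⟨t', h1', h2'⟩ := h'
  rcases lt_trichotomy t t' with h3 | rfl | h3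
  · rw [h2' t h3] at h1
    simp at h1
  · rw [h1] at h1'
    exact Option.some_injective _ h1'
  · rw [h2 t' h3] at h1'
    simp at h1'

theorem InDLBA.toInLBA {A : Type} {L : Set (List A)} (h : InDLBA A L) : InLBA A L := by
  obtain ⟨D, hD⟩ := h
  refine ⟨D.toLBA, fun x hx => ?_⟩
  obtain ⟨b, h1, h2⟩ := hD x hx
  have hx0 : (D.init x).2.2 ≠ [] := by
    intro h0
    exact hx (List.map_eq_nil_iff.1 h0)
  rw [h2]
  constructor
  · rintro rfl
    obtain ⟨c, h3, h4⟩ := (D.gives_iff x true).1 h1
    exact ⟨c, D.step_of_go hx0 h3, h4⟩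
  · rintro ⟨c, h3, h4⟩
    exact UToLBA_gives_unique D x h1 ((D.gives_iff x true).2 ⟨c, D.go_of_step h3, h4⟩)

end Pool.Agent.Book19
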