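import Pool.Agent.Book19.Defs2
import Pool.Agent.Book19.ISCore
import Pool.Agent.Book19.UInd
import Pool.Agent.Book19.UToLBA

/-!
# The diagonal argument with errors
-/

set_option autoImplicit false

namespace Pool.Agent.Book19

open Turing Computability Filter Topology Pool.Agent.PT Relation

theorem eventually_le_div {s : ℕ → ℕ}
    (hs : Tendsto (fun n : ℕ => (s n : ℝ) / n) atTop (𝓝 0)) (k : ℕ) (hk : 0 < k) :
    ∀ᶠ N : ℕ in atTop, s N ≤ N / k := by
  have h := eventually_len (h := fun n => List.replicate (s n) true)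
    (by simpa using hs) k hk
  simpa using h

theorem Often.combine {P Q : ℕ → Prop} {i j : Bool} (hij : i = false ∨ j = false) (k : ℕ)
    (hk : 0 < k) (hP : Often i P) (hQ : Often j Q) {E1 E2 : ℕ → Prop}
    (h1 : ∀ᶠ n in atTop, E1 n) (h2 : ∀ᶠ N in atTop, E2 N) :
    ∃ N, P (N / k) ∧ Q N ∧ E1 (N / k) ∧ E2 N := by
  have hdiv : Tendsto (fun N : ℕ => N / k) atTop atTop := Nat.tendsto_div_const_atTop hk.ne'
  have hmul : Tendsto (fun n : ℕ => k * n) atTop atTop :=
    tendsto_id.const_mul_atTop' hk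
  cases i with
  | false =>
    have hP' := hdiv.eventually (hP.2 rfl)
    have h1' := hdiv.eventually h1
    cases j with
    | false =>
      obtain ⟨N, hN⟩ := ((hP'.and (hQ.2 rfl)).and (h1'.and h2)).exists
      exact ⟨N, hN.1.1, hN.1.2, hN.2.1, hN.2.2⟩
    | true =>
      obtain ⟨N, hN1, hN2, hN3, hN4⟩ :=
        ((hQ.1 rfl).and_eventually (hP'.and (h1'.and h2))).exists
      exact ⟨N, hN2, hN1, hN3, hN4⟩
  | true =>
    cases j with
    | true => rcases hij with h | h <;> cases h
    | false =>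
      obtain ⟨n, hn1, hn2, hn3, hn4⟩ :=
        ((hP.1 rfl).and_eventually ((hmul.eventually (hQ.2 rfl)).and
          (h1.and (hmul.eventually h2)))).exists
      refine ⟨k * n, ?_, hn2, ?_, hn4⟩
      · rwa [Nat.mul_div_cancel_left _ hk]
      · rwa [Nat.mul_div_cancel_left _ hk]

/-- The choice of the length. -/
theorem exists_N2 {w β : ℕ → List Bool} {s1 s2 : ℕ → ℕ} {P Q : ℕ → Prop} {i j : Bool}
    (hij : i = false ∨ j = false)
    (hw : Tendsto (fun n : ℕ => ((w n).length : ℝ) / n) atTop (𝓝 0))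
    (hβ : Tendsto (fun n : ℕ => ((β n).length : ℝ) / n) atTop (𝓝 0))
    (hs1 : Tendsto (fun n : ℕ => (s1 n : ℝ) / n) atTop (𝓝 0))
    (hs2 : Tendsto (fun n : ℕ => (s2 n : ℝ) / n) atTop (𝓝 0))
    (hP : Often i P) (hQ : Often j Q) (k E : ℕ) (hk : 0 < k) :
    ∃ N, P (N / k) ∧ Q N ∧ k ≤ N / k ∧ E * k ≤ N / k ∧ (w N).length ≤ N / k ∧
      (β (N / k)).length ≤ N / k ∧ 2 ^ s1 (N / k) + 2 ^ s2 N < 2 ^ (N / k) := by
  have a1 : ∀ᶠ n : ℕ in atTop, (β n).length ≤ n := by
    have := eventually_len hβ 1 one_pos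
    simpa using this
  have a2 : ∀ᶠ n : ℕ in atTop, s1 n ≤ n / 2 := eventually_le_div hs1 2 (by norm_num)
  have a3 := eventually_len hw k hk
  have a4 : ∀ᶠ N : ℕ in atTop, s2 N ≤ N / (k * 2) := eventually_le_div hs2 (k * 2) (by omega)
  obtain ⟨N, hN1, hN2, ⟨hN3, hN4, hN5, hN6, hN7⟩, hN8, hN9⟩ := Often.combine hij k hk hP hQ
    (E1 := fun n => (β n).length ≤ n ∧ s1 n ≤ n / 2 ∧ k ≤ n ∧ E * k ≤ n ∧ 3 ≤ n)
    (E2 := fun N => (w N).length ≤ N / k ∧ s2 N ≤ N / (k * 2))
    (a1.and (a2.and ((eventually_ge_atTop k).and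
      ((eventually_ge_atTop (E * k)).and (eventually_ge_atTop 3))))) (a3.and a4)
  refine ⟨N, hN1, hN2, hN5, hN6, hN8, hN3, ?_⟩
  rw [← Nat.div_div_eq_div_mul] at hN9
  set n := N / k
  have b1 : 2 ^ s1 n ≤ 2 ^ (n / 2) := Nat.pow_le_pow_right (by norm_num) hN4
  have b2 : 2 ^ s2 N ≤ 2 ^ (n / 2) := Nat.pow_le_pow_right (by norm_num) hN9
  have b3 : 2 ^ (n / 2 + 1) < 2 ^ n := Nat.pow_lt_pow_right (by norm_num) (by omega)
  rw [pow_succ] at b3
  omega

theorem encard_words (n : ℕ) : {κ : List Bool | κ.length = n}.encard = 2 ^ n := by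
  have h : {κ : List Bool | κ.length = n} =
      (Set.range (fun v : List.Vector Bool n => v.toList)) := by
    ext κ
    constructor
    · intro h
      exact ⟨⟨κ, h⟩, rfl⟩
    · rintro ⟨v, rfl⟩
      exact v.2
  have hinj : Function.Injective (fun v : List.Vector Bool n => v.toList) :=
    fun v v' hv => Subtype.ext hv
  rw [h, ← Set.image_univ, hinj.encard_image, Set.encard_univ, ENat.card_eq_coe_fintype_card,
    card_vector]
  simp

/-- There is a word on which neither algorithm errs. -/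
theorem exists_good {α β : Type} (n s1 s2 : ℕ) (F1 : List Bool → α) (F2 : List Bool → β)
    (hF1 : ∀ κ κ', κ.length = n → κ'.length = n → F1 κ = F1 κ' → κ = κ')
    (hF2 : ∀ κ κ', κ.length = n → κ'.length = n → F2 κ = F2 κ' → κ = κ')
    (B1 : Set α) (B2 : Set β) (h1 : B1.encard ≤ 2 ^ s1) (h2 : B2.encard ≤ 2 ^ s2)
    (hlt : 2 ^ s1 + 2 ^ s2 < 2 ^ n) : ∃ κ, κ.length = n ∧ F1 κ ∉ B1 ∧ F2 κ ∉ B2 := by
  by_contra hcon
  push Not at hcon
  have hsub : {κ : List Bool | κ.length = n} ⊆
      ({κ | κ.length = n ∧ F1 κ ∈ B1}) ∪ ({κ | κ.length = n ∧ F2 κ ∈ B2}) := by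
    intro κ hκ
    by_cases h : F1 κ ∈ B1
    · exact Or.inl ⟨hκ, h⟩
    · exact Or.inr ⟨hκ, by_contra fun h' => h' (hcon κ hκ h)⟩
  have e1 : ({κ | κ.length = n ∧ F1 κ ∈ B1}).encard ≤ 2 ^ s1 := by
    refine le_trans ?_ h1
    refine Set.encard_le_encard_of_injOn (f := F1) (fun κ hκ => hκ.2) ?_
    intro κ hκ κ' hκ' h
    exact hF1 κ κ' hκ.1 hκ'.1 h
  have e2 : ({κ | κ.length = n ∧ F2 κ ∈ B2}).encard ≤ 2 ^ s2 := by
    refine le_trans ?_ h2
    refine Set.encard_le_encard_of_injOn (f := F2) (fun κ hκ => hκ.2) ?_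
    intro κ hκ κ' hκ' h
    exact hF2 κ κ' hκ.1 hκ'.1 h
  have e3 := (Set.encard_le_encard hsub).trans (Set.encard_union_le _ _)
  rw [encard_words] at e3
  have e4 : ((2 : ℕ∞) ^ n) ≤ 2 ^ s1 + 2 ^ s2 := e3.trans (add_le_add e1 e2)
  have e5 : ((2 ^ n : ℕ) : ℕ∞) ≤ ((2 ^ s1 + 2 ^ s2 : ℕ) : ℕ∞) := by
    push_cast
    exact e4
  have e6 : 2 ^ n ≤ 2 ^ s1 + 2 ^ s2 := by exact_mod_cast e5
  omega

theorem rl_iff2 {S : Type} {R : List S → List S → Prop} {L : Set (List (S × S))}
    (hL : ∀ x : List (S × S), x ∈ L ↔ R (x.map Prod.fst) (x.map Prod.snd))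
    (o : List (Option Bool)) (c c' : List S) (ho : o.length = c.length) :
    Rl {w : List ((S × S) × Option Bool) | w.map Prod.fst ∈ L} o c c' ↔
      c'.length = c.length ∧ R c c' := by
  unfold Rl
  refine and_congr_right fun hl => ?_
  have h1 : (c.zip c').length = o.length := by rw [List.length_zip, hl, ho]; simp
  rw [Set.mem_ofPred_eq, List.map_fst_zip (by rw [h1]), hL,
    List.map_fst_zip (by rw [hl]), List.map_snd_zip (by rw [hl])]

theorem reach_rl2 {S : Type} {R : List S → List S → Prop}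
    (hR : ∀ c c', R c c' → c'.length = c.length) {L : Set (List (S × S))}
    (hL : ∀ x : List (S × S), x ∈ L ↔ R (x.map Prod.fst) (x.map Prod.snd))
    (o : List (Option Bool)) (x y : List S) (ho : o.length = x.length) :
    ReflTransGen (Rl {w : List ((S × S) × Option Bool) | w.map Prod.fst ∈ L} o) x y ↔
      ReflTransGen R x y := by
  constructor
  · intro h
    have key : ∀ y, ReflTransGen (Rl {w : List ((S × S) × Option Bool) |
        w.map Prod.fst ∈ L} o) x y → o.length = y.length ∧ ReflTransGen R x y := by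
      intro y h
      induction h with
      | refl => exact ⟨ho, ReflTransGen.refl⟩
      | tail _ h2 ih =>
        have h3 := (rl_iff2 hL o _ _ ih.1).1 h2
        exact ⟨ih.1.trans h3.1.symm, ih.2.tail h3.2⟩
    exact (key y h).2
  · intro h
    have key : ∀ y, ReflTransGen R x y → o.length = y.length ∧
        ReflTransGen (Rl {w : List ((S × S) × Option Bool) | w.map Prod.fst ∈ L} o) x y := by
      intro y h
      induction h with
      | refl => exact ⟨ho, ReflTransGen.refl⟩
      | tail _ h2 ih =>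
        have h3 := hR _ _ h2
        exact ⟨ih.1.trans h3.symm, ih.2.tail ((rl_iff2 hL o _ _ ih.1).2 ⟨h3, h2⟩)⟩
    exact (key y h).2

theorem uw_inj {M : LBA (UL × Option Bool)} (C : Cod M ixU) (F1 F2 : Set M.Q) (n r : ℕ)
    (w β κ κ' : List Bool) (h1 : κ.length = n) (h2 : κ'.length = n)
    (h : C.uw F1 F2 n r κ w β = C.uw F1 F2 n r κ' w β) : κ = κ' := by
  apply List.ext_getElem?
  intro i
  by_cases hi : i < n
  · have h3 := congrArg (fun l => (l[i]?).bind (fun a => a.κ)) h
    simpa [Cod.uw, hi] using h3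
  · rw [List.getElem?_eq_none (by omega), List.getElem?_eq_none (by omega)]

theorem trk_inj {A : Type} (x x' : List A) (κ κ' : List Bool) (h1 : κ.length = κ'.length)
    (h2 : κ.length ≤ x.length) (h : trk x κ = trk x' κ') : κ = κ' := by
  apply List.ext_getElem?
  intro i
  by_cases hi : i < κ.length
  · have h3 := congrArg (fun l => (l[i]?).bind (fun a => a.2)) h
    have h4 : i < x.length := by omega
    have h5 : i < x'.length := by
      have := congrArg List.length h
      rw [length_trk, length_trk] at this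
      omega
    simpa [trk_get, h4, h5] using h3
  · rw [List.getElem?_eq_none (by omega), List.getElem?_eq_none (by omega)]

/-- The pairs with deterministic linear space. -/
theorem core_det2 (𝒟 : ∀ A : Type, Set (List A) → Prop) (h𝒟 : GoodD 𝒟) {i j : Bool}
    (hij : i = false ∨ j = false) : ¬ (SubHeur i 𝒟 InDLBA ∧ SubHeur j InDLBA 𝒟) := by
  rintro ⟨h1, h2⟩
  have hW' : InDLBA _ {w : List ((CL × CL) × Option Bool) | w.map Prod.fst ∈ StepLang} :=
    InDLBA.map Prod.fst (inDLBA_of_UP up_stepLang)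
  have hSL : ∀ x : List (CL × CL), x ∈ StepLang ↔ UStep (x.map Prod.fst) (x.map Prod.snd) :=
    fun _ => Iff.rfl
  let out : CL → Option Bool := fun a =>
    if a.st = true ∧ a.f1 = true then some false
    else if a.st = true ∧ a.f2 = true then some true else none
  obtain ⟨K, hK, hKi⟩ := dlba_iter _ hW' out
  obtain ⟨V, w, s2, hV, hw, hs2, hio⟩ := h2 _ K hK
  have hV' : 𝒟 UL {u | gU u ∈ V} := h𝒟.comap hV gU Nu gL uf_Nu up_gL (fun _ => rfl)
  obtain ⟨M', β, s1, ⟨D, hD⟩, hβ, hs1, hVβ⟩ := h1 _ _ hV'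
  obtain ⟨C, hC⟩ := exists_cod D.toLBA ixU ixU_inj 1
  obtain ⟨N, hgood1, hgood2, hkn, hEn, hwn, hβn, hcount⟩ :=
    exists_N2 hij hw hβ hs1 hs2 hVβ hio C.k C.tb.length hC
  set n := N / C.k with hn
  set r := N % C.k with hr
  have hNr : C.k * n + r = N := Nat.div_add_mod N C.k
  have hrk : r < C.k := Nat.mod_lt _ hC
  have hnN : n ≤ N := Nat.div_le_self _ _
  let F1 : Set D.toLBA.Q := {q | D.out q = some true}
  let F2 : Set D.toLBA.Q := {q | D.out q = some false}
  obtain ⟨κ, hκn, hκ1, hκ2⟩ := exists_good n (s1 n) (s2 N)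
    (fun κ => C.uw F1 F2 n r κ (w N) (β n))
    (fun κ => trk (c0 (C.uw F1 F2 n r κ (w N) (β n))) κ)
    (fun κ κ' e1 e2 h => uw_inj C F1 F2 n r (w N) (β n) κ κ' e1 e2 h)
    (fun κ κ' e1 e2 h => trk_inj _ _ κ κ' (e1.trans e2.symm)
      (by rw [C.length_c0 _ _ _ _ _ _ _ hrk hkn, hNr, e1]; exact hnN) h)
    _ _ hgood1 hgood2 hcount
  have hκn' : κ.length ≤ n := hκn.le
  set u := C.uw F1 F2 n r κ (w N) (β n) with hu
  have hulen : u.length = n := by rw [hu]; simp [Cod.uw]
  have hc0 : (c0 u).length = N := by rw [hu, C.length_c0 _ _ _ _ _ _ _ hrk hkn, hNr]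
  -- the value of `D`
  have hne : trk u (β n) ≠ [] := by
    intro h
    have := congrArg List.length h
    rw [length_trk, hulen] at this
    simp only [List.length_nil] at this
    omega
  obtain ⟨b, ⟨t, ht, htn⟩, hb⟩ := hD (trk u (β n)) hne
  have hu1 : u ∈ {u | gU u ∈ V} ↔ b = true := by
    rw [← hb]
    by_contra hcon
    exact hκ1 ⟨hulen, hcon⟩
  have hu2 : u ∈ {u | gU u ∈ V} ↔ trk (c0 u) κ ∈ K := by
    rw [Set.mem_ofPred_eq, hu, C.gU_uw _ _ _ _ _ _ _ hrk hkn hκn' hwn, ← hu]
    by_contra hcon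
    exact hκ2 ⟨by rw [length_trk, hc0], fun h => hcon h.symm⟩
  -- the run
  let cf : ℕ → Conf D.Q ((UL × Option Bool) ⊕ D.W) := fun s => D.step^[s] (D.init (trk u (β n)))
  have hstep : ∀ s, (cf s).2.2 ≠ [] → D.out (cf s).1 = none →
      ∀ d, D.toLBA.Step (cf s) d ↔ d = cf (s + 1) := by
    intro s hs hs2 d
    have e1 : cf (s + 1) = D.step (cf s) := Function.iterate_succ_apply' _ _ _
    rw [e1]
    exact D.step_iff (cf s) hs hs2 d
  have hinv : ∀ s ≤ t, (cf s).2.2 ≠ [] ∧ (cf s).2.1.length + (cf s).2.2.length = n := by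
    intro s
    induction s with
    | zero =>
      intro _
      have e1 : cf 0 = (D.start, ([], (trk u (β n)).map Sum.inl)) := rfl
      rw [e1]
      refine ⟨by simpa using hne, ?_⟩
      simp [length_trk, hulen]
    | succ s ih =>
      intro hs
      obtain ⟨h3, h4⟩ := ih (by omega)
      have h5 := LBA.Step.len ((hstep s h3 (htn s (by omega)) _).2 rfl)
      exact ⟨h5.2, h5.1.trans h4⟩
  let c : ℕ → List CL := fun s => C.code F1 F2 N (cf s)
  have hlen : ∀ s, (c s).length = N := fun s => by simp [c, Cod.code]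
  have hv : trk (c0 u) κ ≠ [] := by
    intro h
    have := congrArg List.length h
    rw [length_trk, hc0] at this
    simp only [List.length_nil] at this
    rw [this] at hn
    simp only [Nat.zero_div] at hn
    omega
  have hf1 : ∀ s ≤ t, ∀ a ∈ c s, a.st = true ∧ a.f1 = true → D.out (cf s).1 = some true := by
    intro s hs a ha ha1
    exact (C.code_f1 F1 F2 N (cf s) (hinv s hs).1 (hinv s hs).2).1 ⟨a, ha, ha1⟩
  have hf2 : ∀ s ≤ t, ∀ a ∈ c s, a.st = true ∧ a.f2 = true → D.out (cf s).1 = some false := by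
    intro s hs a ha ha1
    exact (C.code_f2 F1 F2 N (cf s) (hinv s hs).1 (hinv s hs).2).1 ⟨a, ha, ha1⟩
  have hfin : trk (c0 u) κ ∈ K ↔ (!b) = true := by
    refine hKi (trk (c0 u) κ) c t (!b) hv ?_ ?_ ?_ ?_ ?_
    · rw [map_fst_trk]
      change C.code F1 F2 N (cf 0) = _
      rw [hu, C.c0_uw _ _ _ _ _ _ _ hrk hkn hEn hβn, hNr]
      rfl
    · intro s hs a ha
      have h3 := htn s hs
      simp only [out]
      split_ifs with h4 h5
      · have := hf1 s hs.le a ha h4
        rw [show D.out (cf s).1 = none from h3] at this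
        cases this
      · have := hf2 s hs.le a ha h5
        rw [show D.out (cf s).1 = none from h3] at this
        cases this
      · rfl
    · intro s hs c'
      have h3 := rl_iff2 hSL ((trk (c0 u) κ).map Prod.snd) (c s) c'
        (by rw [List.length_map, length_trk, hc0, hlen])
      rw [h3]
      have h4 := C.sim F1 F2 N (cf s) (hinv s hs.le).1 (hinv s hs.le).2
        (hEn.trans (Nat.div_le_self _ _)) c'
      constructor
      · rintro ⟨_, h5⟩
        obtain ⟨d, hd, rfl⟩ := h4.1 h5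
        rw [(hstep s (hinv s hs.le).1 (htn s hs) d).1 hd]
      · rintro rfl
        exact ⟨by rw [hlen, hlen], h4.2 ⟨_, (hstep s (hinv s hs.le).1 (htn s hs) _).2 rfl, rfl⟩⟩
    · cases b with
      | true =>
        obtain ⟨a, ha, ha1⟩ := (C.code_f1 F1 F2 N (cf t) (hinv t le_rfl).1 (hinv t le_rfl).2).2 ht
        exact ⟨a, ha, by simp [out, ha1]⟩
      | false =>
        obtain ⟨a, ha, ha1⟩ := (C.code_f2 F1 F2 N (cf t) (hinv t le_rfl).1 (hinv t le_rfl).2).2 ht
        refine ⟨a, ha, ?_⟩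
        have h3 : ¬ (a.st = true ∧ a.f1 = true) := by
          intro h4
          have := hf1 t le_rfl a ha h4
          rw [show D.out (cf t).1 = some false from ht] at this
          cases this
        simp only [out, if_neg h3, if_pos ha1, Bool.not_false]
    · intro a ha
      simp only [out]
      split_ifs with h4 h5
      · left
        have := hf1 t le_rfl a ha h4
        rw [show D.out (cf t).1 = some b from ht] at this
        rw [Option.some.inj this]; rfl
      · left
        have := hf2 t le_rfl a ha h5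
        rw [show D.out (cf t).1 = some b from ht] at this
        rw [Option.some.inj this]; rfl
      · right; rfl
  rw [hu2, hfin] at hu1
  cases b <;> simp at hu1

/-- The pairs with nondeterministic linear space. -/
theorem core_lba2 (𝒟 : ∀ A : Type, Set (List A) → Prop) (h𝒟 : GoodD 𝒟) {i j : Bool}
    (hij : i = false ∨ j = false) : ¬ (SubHeur i 𝒟 InLBA ∧ SubHeur j InLBA 𝒟) := by
  rintro ⟨h1, h2⟩
  have hW' : InLBA _ {w : List ((IL × IL) × Option Bool) | w.map Prod.fst ∈ WStepLang} :=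
    (InDLBA.map Prod.fst (inDLBA_of_UP up_wstepLang)).toInLBA
  have hSL : ∀ x : List (IL × IL), x ∈ WStepLang ↔ WStep (x.map Prod.fst) (x.map Prod.snd) :=
    fun _ => Iff.rfl
  obtain ⟨K, hK, hKi⟩ := lba_iter _ hW' (fun a : IL => a.2 Rg.ph = 2)
  obtain ⟨V, w, s2, hV, hw, hs2, hio⟩ := h2 _ K hK
  have hV' : 𝒟 UL {u | g2U u ∈ V} := h𝒟.comap hV g2U Nu g2L uf_Nu up_g2L (fun _ => rfl)
  obtain ⟨M', β, s1, ⟨M, hM⟩, hβ, hs1, hVβ⟩ := h1 _ _ hV'
  obtain ⟨C, hC2⟩ := exists_cod M ixU ixU_inj 2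
  have hC : 0 < C.k := by omega
  obtain ⟨N, hgood1, hgood2, hkn, hEn, hwn, hβn, hcount⟩ :=
    exists_N2 hij hw hβ hs1 hs2 hVβ hio C.k C.tb.length hC
  set n := N / C.k with hn
  set r := N % C.k with hr
  have hNr : C.k * n + r = N := Nat.div_add_mod N C.k
  have hrk : r < C.k := Nat.mod_lt _ hC
  have hnN : n ≤ N := Nat.div_le_self _ _
  obtain ⟨κ, hκn, hκ1, hκ2⟩ := exists_good n (s1 n) (s2 N)
    (fun κ => C.uw M.acc ∅ n r κ (w N) (β n))
    (fun κ => trk (s0 (c0 (C.uw M.acc ∅ n r κ (w N) (β n)))) κ)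
    (fun κ κ' e1 e2 h => uw_inj C M.acc ∅ n r (w N) (β n) κ κ' e1 e2 h)
    (fun κ κ' e1 e2 h => trk_inj _ _ κ κ' (e1.trans e2.symm)
      (by rw [length_s0, C.length_c0 _ _ _ _ _ _ _ hrk hkn, hNr, e1]; exact hnN) h)
    _ _ hgood1 hgood2 hcount
  have hκn' : κ.length ≤ n := hκn.le
  set u := C.uw M.acc ∅ n r κ (w N) (β n) with hu
  have hulen : u.length = n := by rw [hu]; simp [Cod.uw]
  have hc0 : (c0 u).length = N := by rw [hu, C.length_c0 _ _ _ _ _ _ _ hrk hkn, hNr]
  have hne : trk u (β n) ≠ [] := by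
    intro h
    have := congrArg List.length h
    rw [length_trk, hulen] at this
    simp only [List.length_nil] at this
    omega
  have hu1 : u ∈ {u | g2U u ∈ V} ↔ M.Accepts (trk u (β n)) := by
    rw [← hM _ hne]
    by_contra hcon
    exact hκ1 ⟨hulen, hcon⟩
  have hv : trk (s0 (c0 u)) κ ≠ [] := by
    intro h
    have := congrArg List.length h
    rw [length_trk, length_s0, hc0] at this
    simp only [List.length_nil] at this
    rw [this] at hn
    simp only [Nat.zero_div] at hn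
    omega
  have hu2 : g2U u ∈ V ↔ trk (s0 (c0 u)) κ ∈ K := by
    have h3 := C.gU_uw M.acc ∅ n r κ (w N) (β n) hrk hkn hκn' hwn
    rw [← hu] at h3
    rw [g2U_eq u κ (w N) (c0 u) h3]
    by_contra hcon
    exact hκ2 ⟨by rw [length_trk, length_s0, hc0], fun h => hcon h.symm⟩
  have hcode : c0 u = C.code M.acc ∅ N (M.init (trk u (β n))) := by
    rw [hu, C.c0_uw _ _ _ _ _ _ _ hrk hkn hEn hβn, hNr]
  have hu3 : trk (s0 (c0 u)) κ ∈ K ↔ ¬ M.Accepts (trk u (β n)) := by
    rw [hKi _ hv, map_fst_trk, C.accepts N ∅ (hEn.trans (Nat.div_le_self _ _)) _ hne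
      (by rw [length_trk, hulen]), ← hcode]
    have h4 : ∀ y, ReflTransGen (Rl {w : List ((IL × IL) × Option Bool) |
        w.map Prod.fst ∈ WStepLang} ((trk (s0 (c0 u)) κ).map Prod.snd)) (s0 (c0 u)) y ↔
        ReflTransGen WStep (s0 (c0 u)) y := fun y =>
      reach_rl2 (fun c c' h => h.length) hSL _ _ _ (by rw [List.length_map, length_trk])
    simp only [h4]
    have hk2 : C.k * 2 ≤ N := by
      calc C.k * 2 ≤ C.k * n := Nat.mul_le_mul_left _ (by omega)
        _ ≤ N := by omega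
    refine core_count (c0 u) ?_ ?_ ?_ ?_
    · intro a ha
      rw [hcode, Cod.code, List.mem_map] at ha
      obtain ⟨p, _, rfl⟩ := ha
      simp [Cod.lett]
    · have h5 : ((c0 u).map slOf).countP (fun a => a.1) = (List.range N).countP
          (fun p => decide (p < C.k)) := by
        rw [hcode, Cod.code, List.map_map, List.countP_map]
        rfl
      have h6 : (List.range N).countP (fun p => decide (p < C.k)) ≤ C.k := by
        rw [List.countP_eq_length_filter]
        have h7 : ((List.range N).filter (fun p => decide (p < C.k))).toFinset ⊆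
            Finset.range C.k := by
          intro p hp
          simp at hp
          simpa using hp.2
        have h8 := Finset.card_le_card h7
        rw [List.toFinset_card_of_nodup (List.nodup_range.filter _), Finset.card_range] at h8
        exact h8
      rw [h5, hc0]
      omega
    · intro h
      have := congrArg List.length h
      rw [hc0] at this
      simp only [List.length_nil] at this
      omega
    · refine ⟨C.lett M.acc ∅ (M.init (trk u (β n))) C.k, ?_, ?_⟩
      · rw [hcode, Cod.code]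
        exact List.mem_map_of_mem (List.mem_range.2 (by omega))
      · simp only [Cod.lett, decide_eq_false_iff_not]
        rintro ⟨h5, _⟩
        rw [Nat.div_self hC] at h5
        simp [LBA.init] at h5
  rw [Set.mem_ofPred_eq, hu2, hu3] at hu1
  tauto

end Pool.Agent.Book19
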