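import Pool.Agent.Book19.Tape

/-!
# The iteration automaton (deterministic)

`D` decides a language over `(S × S) × Option Bool`. The automaton `itD D out` tries the words `c'`
in the order of their values (least significant letter first) until `D` accepts `(c, c')` (with the
fixed advice track), then it replaces `c` by `c'`, and so on, until `c` has a letter with
`out = some b`. A clock track counts the replacements; if the clock or the counter `c'` overflows,
the automaton rejects, so that it always stops.
-/

set_option autoImplicit false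

namespace Pool.Agent.Book19

open Relation

variable {S : Type}

/-- cells: current letter `a`, advice `o`, tried letter `b`, clock digit `ck`, work symbol `wk` -/
structure DCell (S W : Type) (m : ℕ) where
  a : S
  o : Option Bool
  b : Fin m
  ck : Fin m
  wk : ((S × S) × Option Bool) ⊕ W

/-- states: copy sweep (first `out` value found, carry of the clock), successor sweep (carry),
rewind and run `D`, rewind and copy, rewind and successor, run `D`, stop -/
inductive DSt (Q : Type)
  | cp (fl : Option Bool) (carry : Bool)
  | sc (carry : Bool)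
  | rwR
  | rwC
  | rwS
  | run (q : Q)
  | fin (b : Bool)

noncomputable instance {W : Type} {m : ℕ} [Fintype S] [Fintype W] : Fintype (DCell S W m) :=
  Fintype.ofInjective (fun c : DCell S W m => ((c.a, c.o), (c.b, c.ck), c.wk)) <| by
    rintro ⟨⟩ ⟨⟩ h
    simp only [Prod.mk.injEq] at h
    obtain ⟨⟨rfl, rfl⟩, ⟨rfl, rfl⟩, rfl⟩ := h
    rfl

noncomputable instance {Q : Type} [Fintype Q] : Fintype (DSt Q) :=
  Fintype.ofInjective (fun s : DSt Q => match s with
    | DSt.cp fl ca => (Sum.inl (Sum.inl (fl, ca)) : ((Option Bool × Bool) ⊕ (Fin 3 × Bool)) ⊕ (Q ⊕ Bool))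
    | DSt.sc ca => Sum.inl (Sum.inr (0, ca))
    | DSt.rwR => Sum.inl (Sum.inr (1, false))
    | DSt.rwC => Sum.inl (Sum.inr (1, true))
    | DSt.rwS => Sum.inl (Sum.inr (2, true))
    | DSt.run q => Sum.inr (Sum.inl q)
    | DSt.fin b => Sum.inr (Sum.inr b)) <| by
    intro x y h
    cases x <;> cases y <;> simp_all

/-- adding a carry to a digit -/
def inc {m : ℕ} (hm : 0 < m) (d : Fin m) (carry : Bool) : Fin m × Bool :=
  if carry = false then (d, false)
  else if h : (d : ℕ) + 1 < m then (⟨d + 1, h⟩, false) else (⟨0, hm⟩, true)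

/-- the number with digits `x`, least significant digit first -/
def val {m : ℕ} : List (Fin m) → ℕ
  | [] => 0
  | d :: x => d + m * val x

/-- The letter, the advice and the clock digit used in a copy sweep. -/
def dnew {W : Type} {m : ℕ} (hm : 0 < m) (e : Fin m ≃ S) :
    (S × Option Bool) ⊕ DCell S W m → S × Option Bool × Fin m
  | Sum.inl x => (x.1, x.2, ⟨0, hm⟩)
  | Sum.inr c => (e c.b, c.o, c.ck)

/-- The transitions; `e` enumerates the letters. -/
def itDδ {m : ℕ} (hm : 0 < m) (e : Fin m ≃ S) (D : DLBA ((S × S) × Option Bool))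
    (out : S → Option Bool) (s : DSt D.Q) (x : (S × Option Bool) ⊕ DCell S D.W m) (le re : Bool) :
    DSt D.Q × ((S × Option Bool) ⊕ DCell S D.W m) × Dir :=
  match s, x with
  | DSt.cp fl carry, x =>
      let y := dnew hm e x
      let i := inc hm y.2.2 carry
      let c : DCell S D.W m := ⟨y.1, y.2.1, ⟨0, hm⟩, i.1, Sum.inl ((y.1, e ⟨0, hm⟩), y.2.1)⟩
      let fl' : Option Bool := fl.orElse (fun _ => out y.1)
      if re then
        match fl' with
        | some b => (DSt.fin b, Sum.inr c, Dir.stay)
        | none => if i.2 then (DSt.fin false, Sum.inr c, Dir.stay)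
            else (DSt.rwR, Sum.inr c, Dir.stay)
      else (DSt.cp fl' i.2, Sum.inr c, Dir.right)
  | DSt.sc carry, Sum.inr c =>
      let i := inc hm c.b carry
      let c' : DCell S D.W m := ⟨c.a, c.o, i.1, c.ck, Sum.inl ((c.a, e i.1), c.o)⟩
      if re then
        if i.2 then (DSt.fin false, Sum.inr c', Dir.stay) else (DSt.rwR, Sum.inr c', Dir.stay)
      else (DSt.sc i.2, Sum.inr c', Dir.right)
  | DSt.rwR, x => if le then (DSt.run D.start, x, Dir.stay) else (DSt.rwR, x, Dir.left)
  | DSt.rwC, x => if le then (DSt.cp none true, x, Dir.stay) else (DSt.rwC, x, Dir.left)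
  | DSt.rwS, x => if le then (DSt.sc true, x, Dir.stay) else (DSt.rwS, x, Dir.left)
  | DSt.run q, Sum.inr c =>
      match D.out q with
      | some true => (DSt.rwC, Sum.inr c, Dir.stay)
      | some false => (DSt.rwS, Sum.inr c, Dir.stay)
      | none => (DSt.run (D.δ q c.wk le re).1, Sum.inr { c with wk := (D.δ q c.wk le re).2.1 },
          (D.δ q c.wk le re).2.2)
  | s, x => (s, x, Dir.stay)

/-- The iteration automaton. -/
@[reducible] noncomputable def itD {m : ℕ} [Fintype S] (hm : 0 < m) (e : Fin m ≃ S)
    (D : DLBA ((S × S) × Option Bool)) (out : S → Option Bool) : DLBA (S × Option Bool) where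
  W := DCell S D.W m
  Q := DSt D.Q
  start := DSt.cp none false
  δ := itDδ hm e D out
  out := fun s => match s with
    | DSt.fin b => some b
    | _ => none

/-- The cell with static part `z = (a, o, b, ck)` and initial work symbol. -/
def freshD {m : ℕ} (W : Type) (e : Fin m ≃ S) (z : (S × Option Bool) × (Fin m × Fin m)) :
    DCell S W m :=
  ⟨z.1.1, z.1.2, z.2.1, z.2.2, Sum.inl ((z.1.1, e z.2.1), z.1.2)⟩

/-- The configuration in which the automaton starts to run `D`: `z` is the word of the static
parts. -/
noncomputable def ready {m : ℕ} [Fintype S] (hm : 0 < m) (e : Fin m ≃ S)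
    (D : DLBA ((S × S) × Option Bool)) (out : S → Option Bool)
    (z : List ((S × Option Bool) × (Fin m × Fin m))) :
    Conf (itD hm e D out).Q ((S × Option Bool) ⊕ (itD hm e D out).W) :=
  (DSt.run D.start, ([], z.map (fun y => Sum.inr (freshD D.W e y))))

/-- The word on which `D` is run in the configuration `ready z`. -/
def wordD {m : ℕ} (e : Fin m ≃ S) (z : List ((S × Option Bool) × (Fin m × Fin m))) :
    List ((S × S) × Option Bool) :=
  z.map (fun y => ((y.1.1, e y.2.1), y.1.2))

/-- One step while the computation goes on. -/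
def DLBA.Go {A : Type} (D : DLBA A) (c d : Conf D.Q (A ⊕ D.W)) : Prop :=
  D.out c.1 = none ∧ d = D.step c

end Pool.Agent.Book19
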