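import Pool.Agent.Book19.Defs

/-!
# Heuristics with advice
-/

set_option autoImplicit false

namespace Pool.Agent.Book19

open Filter Topology

/-- The words of length `n` on which membership in `L` is not given by `L'` with advice `h`. -/
def Err {A : Type} (L : Set (List A)) (L' : Set (List (A × Option Bool))) (h : List Bool)
    (n : ℕ) : Set (List A) :=
  {x | x.length = n ∧ ¬ (x ∈ L ↔ trk x h ∈ L')}

/-- For infinitely many `n` (if `io = true`), for all but finitely many `n` (if `io = false`). -/
def Often (io : Bool) (P : ℕ → Prop) : Prop :=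
  (io = true → ∃ᶠ n in atTop, P n) ∧ (io = false → ∀ᶠ n in atTop, P n)

/-- `L` is in `𝒞/o(n)` up to `2^o(n)` errors, for infinitely many lengths (`io = true`) or for all
but finitely many lengths (`io = false`): there are `L' ∈ 𝒞`, advice words `h n` of length `o(n)`
and numbers `s n = o(n)` such that for these `n` membership in `L` is given by `L'` with advice
`h n` for all but at most `2^(s n)` words of length `n`. -/
def Heur (io : Bool) (𝒞 : ∀ A : Type, Set (List A) → Prop) {A : Type} (L : Set (List A)) : Prop :=
  ∃ (L' : Set (List (A × Option Bool))) (h : ℕ → List Bool) (s : ℕ → ℕ), 𝒞 _ L' ∧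
    Tendsto (fun n : ℕ => ((h n).length : ℝ) / n) atTop (𝓝 0) ∧
    Tendsto (fun n : ℕ => (s n : ℝ) / n) atTop (𝓝 0) ∧
    Often io (fun n => (Err L L' (h n) n).encard ≤ 2 ^ s n)

/-- Every language of `𝒟` is in `𝒞/o(n)` up to `2^o(n)` errors. -/
def SubHeur (io : Bool) (𝒟 𝒞 : ∀ A : Type, Set (List A) → Prop) : Prop :=
  ∀ (A : Type) [Fintype A] (L : Set (List A)), 𝒟 A L → Heur io 𝒞 L

end Pool.Agent.Book19
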