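import Pool.Agent.Book19.Rel
import Pool.Agent.Book19.DMach

/-!
# The counting machine (inductive counting)

An abstract machine with eleven registers holding numbers below `m`. It reaches a state with
`ph = 2` if and only if no number satisfying `F` is reachable from `x0` by the relation `E`.
The registers are also written as words of digits (base 4), one track for each register.
-/

set_option autoImplicit false

namespace Pool.Agent.Book19

open Turing Computability Filter Topology Pool.Agent.PT Relation

/-- The state of the counting machine: `ph` the phase (0 inner loop, 1 following a path, 2 stop),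
`fl` the flag, `x0` the starting point, `t` the number of the round, `c` the number of points
reachable in at most `t` steps, `c'` the number of points below `y` reachable in at most `t + 1`
steps, `y` the point looked at, `z` the point looked at in the inner loop, `d` the number of points
found so far in the inner loop, `p` the point reached by the path, `i` the length of the path. -/
@[ext] structure St where
  ph : ℕ
  fl : ℕ
  x0 : ℕ
  t : ℕ
  c : ℕ
  c' : ℕ
  y : ℕ
  z : ℕ
  d : ℕ
  p : ℕ
  i : ℕ

/-- the initial state -/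
def St.init (x0 : ℕ) : St := ⟨0, 0, x0, 0, 1, 0, 0, 0, 0, 0, 0⟩

/-- One step of the counting machine. -/
def IStep (m : ℕ) (E : ℕ → ℕ → Prop) (F : ℕ → Prop) (s s' : St) : Prop :=
  -- skip `z`
  (s.ph = 0 ∧ s.z + 1 ≠ m ∧ s' = { s with z := s.z + 1 }) ∨
  -- start a path
  (s.ph = 0 ∧ s.z + 1 ≠ m ∧ s' = { s with ph := 1, p := s.x0, i := 0 }) ∨
  -- walk
  (s.ph = 1 ∧ s.i ≠ s.t ∧ E s.p s'.p ∧ s' = { s with p := s'.p, i := s.i + 1 }) ∨
  -- `z` is found, and `y` is `z` or a successor of `z`
  (s.ph = 1 ∧ s.p = s.z ∧ s.z + 1 ≠ m ∧ ¬ F s.z ∧ (E s.z s.y ∨ s.z = s.y) ∧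
    s' = { s with ph := 0, d := s.d + 1, z := s.z + 1, fl := 1 }) ∨
  -- `z` is found, and `y` is neither `z` nor a successor of `z`
  (s.ph = 1 ∧ s.p = s.z ∧ s.z + 1 ≠ m ∧ ¬ F s.z ∧ ¬ (E s.z s.y ∨ s.z = s.y) ∧
    s' = { s with ph := 0, d := s.d + 1, z := s.z + 1 }) ∨
  -- next `y`, the present one is not reachable in at most `t + 1` steps
  (s.ph = 0 ∧ s.z + 1 = m ∧ s.d = s.c ∧ s.y + 1 ≠ m ∧ s.fl = 0 ∧
    s' = { s with y := s.y + 1, z := 0, d := 0, fl := 0 }) ∨
  -- next `y`, the present one is reachable in at most `t + 1` steps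
  (s.ph = 0 ∧ s.z + 1 = m ∧ s.d = s.c ∧ s.y + 1 ≠ m ∧ s.fl = 1 ∧
    s' = { s with c' := s.c' + 1, y := s.y + 1, z := 0, d := 0, fl := 0 }) ∨
  -- next round
  (s.ph = 0 ∧ s.y + 1 = m ∧ s.z = 0 ∧ s.t + 1 ≠ m ∧
    s' = { s with t := s.t + 1, c := s.c', c' := 0, y := 0, z := 0, d := 0, fl := 0 }) ∨
  -- stop
  (s.ph = 0 ∧ s.t + 1 = m ∧ s' = { s with ph := 2 })

/-- the bounds for the registers -/
def St.Bd (m : ℕ) (s : St) : Prop :=
  s.ph ≤ 2 ∧ s.fl ≤ 1 ∧ s.x0 < m ∧ s.t < m ∧ s.c < m ∧ s.c' ≤ s.y ∧ s.y < m ∧ s.d ≤ s.z ∧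
    s.z < m ∧ s.p < m ∧ s.i ≤ s.t

/-- names of the registers -/
inductive Rg
  | ph | fl | x0 | t | c | c' | y | z | d | p | i
  deriving DecidableEq, Fintype

/-- the value of a register -/
def St.get (s : St) : Rg → ℕ
  | Rg.ph => s.ph
  | Rg.fl => s.fl
  | Rg.x0 => s.x0
  | Rg.t => s.t
  | Rg.c => s.c
  | Rg.c' => s.c'
  | Rg.y => s.y
  | Rg.z => s.z
  | Rg.d => s.d
  | Rg.p => s.p
  | Rg.i => s.i

/-- the static part of a letter -/
abbrev SL : Type := Bool × Option TL × Bool

/-- letters of words of the counting machine: the static part (mark `km`, table, mark `f1`) and the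
digits of the registers -/
abbrev IL : Type := SL × (Rg → Fin 4)

/-- the configuration letter with static part `a` and digit `d` -/
def clOf (a : SL) (d : Fin 4) : CL :=
  { km := a.1
    tab := a.2.1
    f1 := a.2.2
    f2 := false
    sym := decide (d = 1 ∨ d = 3)
    st := decide (d = 2 ∨ d = 3) }

/-- the digit of a configuration letter -/
def dgOf (a : CL) : Fin 4 :=
  match a.sym, a.st with
  | false, false => 0
  | true, false => 1
  | false, true => 2
  | true, true => 3

/-- the static part of a configuration letter -/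
def slOf (a : CL) : SL := (a.km, a.tab, a.f1)

/-- the digit number `p` of `n` -/
def dig (n p : ℕ) : Fin 4 := ⟨n / 4 ^ p % 4, Nat.mod_lt _ (by norm_num)⟩

/-- the configuration word with static part `σ` and number `n` -/
def cfgW (σ : List SL) (n : ℕ) : List CL :=
  (List.range σ.length).map fun p => clOf (σ.getD p (false, none, false)) (dig n p)

/-- the value of a register of a word -/
def rv (x : List IL) (j : Rg) : ℕ := val (x.map fun a => a.2 j)

/-- the state written on a word -/
def stOf (x : List IL) : St :=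
  ⟨rv x Rg.ph, rv x Rg.fl, rv x Rg.x0, rv x Rg.t, rv x Rg.c, rv x Rg.c', rv x Rg.y, rv x Rg.z,
    rv x Rg.d, rv x Rg.p, rv x Rg.i⟩

/-- the relation on numbers given by the universal step -/
def EW (σ : List SL) (n n' : ℕ) : Prop :=
  n < 4 ^ σ.length ∧ n' < 4 ^ σ.length ∧ UStep (cfgW σ n) (cfgW σ n')

/-- the final numbers -/
def FW (σ : List SL) (n : ℕ) : Prop := ∃ a ∈ cfgW σ n, a.st = true ∧ a.f1 = true

/-- The step of the counting machine on words. -/
def WStep (x x' : List IL) : Prop :=
  x'.map Prod.fst = x.map Prod.fst ∧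
    IStep (4 ^ x.length) (EW (x.map Prod.fst)) (FW (x.map Prod.fst)) (stOf x) (stOf x')

/-- The language of the steps of the counting machine. -/
def WStepLang : Set (List (IL × IL)) := {w | WStep (w.map Prod.fst) (w.map Prod.snd)}

/-- the word with static part `σ` and registers `s` -/
def mkW (σ : List SL) (s : St) : List IL :=
  (List.range σ.length).map fun p => (σ.getD p (false, none, false), fun j => dig (s.get j) p)

end Pool.Agent.Book19
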