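import Pool.Agent.Book19.ISDefs
import Pool.Agent.Book19.Letter
import Pool.Agent.Book19.DVal

/-!
# Relabelling and digit words in the class `UP` (package IS5)
-/

set_option autoImplicit false

namespace Pool.Agent.Book19

open Turing Computability Filter Topology Pool.Agent.PT Relation

theorem isup_tm {Γ Δ : Type} [Fintype Γ] (φ : Γ → Δ) : ∀ t : Tm Δ,
    UF (fun (x : List Γ) e => t.eval (x.map φ) e)
  | .var i => UF.var i
  | .const c => UF.const c
  | .len => UF.len.congr fun x e => by simp only [Tm.eval, List.length_map]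
  | .sym a t => by
    classical
    have h := isup_tm φ t
    refine UF.congr (UP.fex (fun b : Γ => (UP.sym b h).and (UP.const (φ b = a)))) fun x e => ?_
    simp only [Tm.eval, List.getElem?_map, Option.map_eq_some_iff]
    congr
  | .add s t => (isup_tm φ s).add (isup_tm φ t)
  | .sub s t => (isup_tm φ s).sub (isup_tm φ t)
  | .sum b t => UF.sum' (isup_tm φ b) (isup_tm φ t)
  | .lett s t => UF.lett (isup_tm φ s) (isup_tm φ t)
  | .ren σ t => UF.ren σ (isup_tm φ t)

theorem UF.relabel {Γ Δ : Type} [Fintype Γ] (φ : Γ → Δ) {f : List Δ → (ℕ → ℕ) → ℕ}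
    (hf : UF f) : UF (fun (x : List Γ) e => f (x.map φ) e) := by
  obtain ⟨t, ht⟩ := hf
  exact (isup_tm φ t).congr fun x e => ht _ _

theorem UP.relabel {Γ Δ : Type} [Fintype Γ] (φ : Γ → Δ) {P : List Δ → (ℕ → ℕ) → Prop}
    (hP : UP P) : UP (fun (x : List Γ) e => P (x.map φ) e) :=
  UF.relabel φ hP

theorem isup_at_zero {Γ : Type} (l : Γ) (t : List Γ) (P : Γ → Prop) : At (l :: t) 0 P ↔ P l := by
  simp [At]

theorem isup_at_succ {Γ : Type} (l : Γ) (t : List Γ) (i : ℕ) (P : Γ → Prop) :
    At (l :: t) (i + 1) P ↔ At t i P := by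
  simp [At]

theorem isup_forall {Q : ℕ → Prop} (n : ℕ) :
    (∀ i, i < n + 1 → Q i) ↔ Q 0 ∧ ∀ i, i < n → Q (i + 1) := by
  constructor
  · exact fun h => ⟨h 0 (by omega), fun i hi => h _ (by omega)⟩
  · rintro ⟨h0, h1⟩ i hi
    cases i with
    | zero => exact h0
    | succ i => exact h1 i (by omega)

theorem isup_exists {Q : ℕ → Prop} (n : ℕ) :
    (∃ i, i < n + 1 ∧ Q i) ↔ Q 0 ∨ ∃ i, i < n ∧ Q (i + 1) := by
  constructor
  · rintro ⟨i, hi, h⟩
    cases i with
    | zero => exact Or.inl h
    | succ i => exact Or.inr ⟨i, by omega, h⟩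
  · rintro (h | ⟨i, hi, h⟩)
    · exact ⟨0, by omega, h⟩
    · exact ⟨i + 1, by omega, h⟩

theorem isup_all {Γ : Type} (w : List Γ) (P : Γ → Prop) :
    (∀ i, i < w.length → At w i P) ↔ ∀ l ∈ w, P l := by
  induction w with
  | nil => simp
  | cons l t ih =>
    rw [List.length_cons, isup_forall]
    simp only [isup_at_zero, isup_at_succ, ih, List.mem_cons, forall_eq_or_imp]

theorem isup_ex {Γ : Type} (w : List Γ) (P : Γ → Prop) :
    (∃ i, i < w.length ∧ At w i P) ↔ ∃ l ∈ w, P l := by
  induction w with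
  | nil => simp
  | cons l t ih =>
    rw [List.length_cons, isup_exists]
    simp only [isup_at_zero, isup_at_succ, ih, List.mem_cons, exists_eq_or_imp]

/-- All letters have a property. -/
theorem isup_up_all {Γ : Type} [Fintype Γ] (P : Γ → Prop) :
    UP (fun (w : List Γ) _ => ∀ l ∈ w, P l) :=
  (UP.ball (P := fun w _ i => At w i P) UF.len (UP.at' P (UF.var 0))).congr fun w _ => isup_all w P

/-- Some letter has a property. -/
theorem isup_up_ex {Γ : Type} [Fintype Γ] (P : Γ → Prop) :
    UP (fun (w : List Γ) _ => ∃ l ∈ w, P l) :=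
  (UP.bex (P := fun w _ i => At w i P) UF.len (UP.at' P (UF.var 0))).congr fun w _ => isup_ex w P

theorem up_val_eq {Γ : Type} [Fintype Γ] (a b : Γ → Fin 4) :
    UP (fun (w : List Γ) _ => val (w.map a) = val (w.map b)) := by
  refine (isup_up_all (fun l => a l = b l)).congr fun w _ => ?_
  rw [← List.map_inj_left]
  exact ⟨fun h => by rw [h], fun h => val_inj (by simp) h⟩

theorem isup_zero (x : List (Fin 4)) : val x = 0 ↔ ∀ d ∈ x, (d : ℕ) = 0 := by
  induction x with
  | nil => simp [val]
  | cons d x ih =>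
    rw [val, List.forall_mem_cons, ← ih]
    omega

theorem up_val_const {Γ : Type} [Fintype Γ] (a : Γ → Fin 4) (c : ℕ) (hc : c < 4) :
    UP (fun (w : List Γ) _ => val (w.map a) = c) := by
  have h1 : UP (fun (w : List Γ) _ => (w.length = 0 ∧ c = 0) ∨
      (At w 0 (fun l => (a l : ℕ) = c) ∧
        ∀ i, i < w.length → (0 < i → At w i (fun l => (a l : ℕ) = 0)))) :=
    ((UP.eq UF.len (UF.const 0)).and (UP.const _)).or ((UP.at' _ (UF.const 0)).and
      (UP.ball (P := fun w _ i => 0 < i → At w i (fun l => (a l : ℕ) = 0)) UF.len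
        ((UP.lt (UF.const 0) (UF.var 0)).imp (UP.at' _ (UF.var 0)))))
  refine h1.congr fun w _ => ?_
  cases w with
  | nil => simp [val, At, eq_comm]
  | cons l t =>
    have h2 : (∀ i, i < t.length → (0 < i + 1 → At t i (fun l => (a l : ℕ) = 0))) ↔
        val (t.map a) = 0 := by
      rw [isup_zero]
      have h3 : (∀ i, i < t.length → (0 < i + 1 → At t i (fun l => (a l : ℕ) = 0))) ↔
          (∀ i, i < t.length → At t i (fun l => (a l : ℕ) = 0)) := by
        simp
      rw [h3, isup_all]
      simp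
    rw [List.length_cons, isup_forall]
    simp only [isup_at_zero, isup_at_succ, h2, List.map_cons, val]
    have ha := (a l).isLt
    have h4 : ¬ (0 < 0) := by omega
    constructor
    · rintro (⟨h5, -⟩ | ⟨h5, -, h6⟩)
      · omega
      · omega
    · intro h5
      exact Or.inr ⟨by omega, fun h => absurd h h4, by omega⟩

theorem isup_succ {Γ : Type} (a b : Γ → Fin 4) (w : List Γ) :
    (∃ p, p < w.length ∧ (At w p (fun l => (b l : ℕ) = a l + 1) ∧
      ((∀ i, i < w.length → (i < p → At w i (fun l => (a l : ℕ) = 3 ∧ (b l : ℕ) = 0))) ∧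
      (∀ i, i < w.length → (p < i → At w i (fun l => a l = b l)))))) ↔
      val (w.map b) = val (w.map a) + 1 := by
  induction w with
  | nil => simp [val]
  | cons l t ih =>
    rw [List.length_cons, isup_exists]
    simp only [isup_forall, isup_at_zero, isup_at_succ]
    have ha := (a l).isLt
    have hb := (b l).isLt
    have h1 : (∀ i, i < t.length → (0 < i + 1 → At t i (fun l => a l = b l))) ↔
        val (t.map a) = val (t.map b) := by
      have h3 : (∀ i, i < t.length → (0 < i + 1 → At t i (fun l => a l = b l))) ↔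
          (∀ i, i < t.length → At t i (fun l => a l = b l)) := by
        simp
      rw [h3, isup_all, ← List.map_inj_left]
      exact ⟨fun h => by rw [h], fun h => val_inj (by simp) h⟩
    have h2 : (∃ p, p < t.length ∧ (At t p (fun l => (b l : ℕ) = a l + 1) ∧
        (((0 < p + 1 → (a l : ℕ) = 3 ∧ (b l : ℕ) = 0) ∧
          ∀ i, i < t.length → (i + 1 < p + 1 → At t i (fun l => (a l : ℕ) = 3 ∧ (b l : ℕ) = 0))) ∧
        ((p + 1 < 0 → a l = b l) ∧ ∀ i, i < t.length → (p + 1 < i + 1 →
          At t i (fun l => a l = b l)))))) ↔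
        ((a l : ℕ) = 3 ∧ (b l : ℕ) = 0) ∧ val (t.map b) = val (t.map a) + 1 := by
      rw [← ih]
      constructor
      · rintro ⟨p, h3, h4, ⟨h5, h6⟩, -, h7⟩
        exact ⟨h5 (by omega), p, h3, h4, fun i hi hip => h6 i hi (by omega),
          fun i hi hip => h7 i hi (by omega)⟩
      · rintro ⟨h5, p, h3, h4, h6, h7⟩
        exact ⟨p, h3, h4, ⟨fun _ => h5, fun i hi hip => h6 i hi (by omega)⟩,
          fun h => by omega, fun i hi hip => h7 i hi (by omega)⟩
    rw [h2]
    have h3 : ((b l : ℕ) = a l + 1 ∧ (((0 < 0 → (a l : ℕ) = 3 ∧ (b l : ℕ) = 0) ∧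
        ∀ i, i < t.length → (i + 1 < 0 → At t i (fun l => (a l : ℕ) = 3 ∧ (b l : ℕ) = 0))) ∧
        ((0 < 0 → a l = b l) ∧
          ∀ i, i < t.length → (0 < i + 1 → At t i (fun l => a l = b l))))) ↔
        (b l : ℕ) = a l + 1 ∧ val (t.map a) = val (t.map b) := by
      rw [h1]
      constructor
      · rintro ⟨h4, -, -, h5⟩
        exact ⟨h4, h5⟩
      · rintro ⟨h4, h5⟩
        exact ⟨h4, ⟨fun h => by omega, fun i _ h => by omega⟩, fun h => by omega, h5⟩
    rw [h3, List.map_cons, List.map_cons, val, val]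
    omega

theorem up_val_succ {Γ : Type} [Fintype Γ] (a b : Γ → Fin 4) :
    UP (fun (w : List Γ) _ => val (w.map b) = val (w.map a) + 1) := by
  refine UP.congr ?_ fun w _ => isup_succ a b w
  refine UP.bex (P := fun w _ p => At w p (fun l => (b l : ℕ) = a l + 1) ∧
      ((∀ i, i < w.length → (i < p → At w i (fun l => (a l : ℕ) = 3 ∧ (b l : ℕ) = 0))) ∧
      (∀ i, i < w.length → (p < i → At w i (fun l => a l = b l))))) UF.len ?_
  refine (UP.at' _ (UF.var 0)).and (UP.and ?_ ?_)
  · exact UP.ball (P := fun w e i => i < e 0 → At w i (fun l => (a l : ℕ) = 3 ∧ (b l : ℕ) = 0))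
      UF.len ((UP.lt (UF.var 0) (UF.var 1)).imp (UP.at' _ (UF.var 0)))
  · exact UP.ball (P := fun w e i => e 0 < i → At w i (fun l => a l = b l))
      UF.len ((UP.lt (UF.var 1) (UF.var 0)).imp (UP.at' _ (UF.var 0)))

theorem up_val_max {Γ : Type} [Fintype Γ] (a : Γ → Fin 4) :
    UP (fun (w : List Γ) _ => val (w.map a) + 1 = 4 ^ w.length) := by
  refine (isup_up_all (fun l => (a l : ℕ) = 3)).congr fun w _ => ?_
  induction w with
  | nil => simp [val]
  | cons l t ih =>
    rw [List.forall_mem_cons, ih, List.map_cons, List.length_cons, val, pow_succ]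
    have h1 := val_lt (t.map a)
    rw [List.length_map] at h1
    have ha := (a l).isLt
    omega

end Pool.Agent.Book19
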