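import Pool.Agent.Book19.Tape

/-!
# The iteration automaton (nondeterministic)

`M` is a linear bounded automaton for a language over `(S × S) × Option Bool`. The automaton `itL M acc`
guesses words `c'`, checks with `M` that `(c, c')` (with the fixed advice track) is in the language,
replaces `c` by `c'`, and accepts if `c` has a letter with `acc`.
-/

set_option autoImplicit false

namespace Pool.Agent.Book19

open Relation

variable {S : Type}

/-- cells of the iteration automaton: current letter `a`, advice `o`, guessed letter `b`, work symbol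
`wk` of `M` -/
structure LCell (S W : Type) where
  a : S
  o : Option Bool
  b : S
  wk : ((S × S) × Option Bool) ⊕ W

/-- states: sweep to the right with a flag, rewind and start `M`, rewind and start a sweep, run `M`,
accept -/
inductive LSt (Q : Type)
  | sw (fl : Bool)
  | rwR
  | rwC
  | run (q : Q)
  | fin

noncomputable instance {W : Type} [Fintype S] [Fintype W] : Fintype (LCell S W) :=
  Fintype.ofInjective (fun c : LCell S W => ((c.a, c.o), (c.b, c.wk))) <| by
    rintro ⟨⟩ ⟨⟩ h
    simp only [Prod.mk.injEq] at h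
    obtain ⟨⟨rfl, rfl⟩, rfl, rfl⟩ := h
    rfl

noncomputable instance {Q : Type} [Fintype Q] : Fintype (LSt Q) :=
  Fintype.ofInjective (fun s : LSt Q => match s with
    | LSt.sw fl => (Sum.inl (Sum.inl fl) : (Bool ⊕ Fin 3) ⊕ Q)
    | LSt.rwR => Sum.inl (Sum.inr 0)
    | LSt.rwC => Sum.inl (Sum.inr 1)
    | LSt.fin => Sum.inl (Sum.inr 2)
    | LSt.run q => Sum.inr q) <| by
    intro x y h
    cases x <;> cases y <;> simp_all

/-- the letter which becomes current in a sweep -/
def newA {W : Type} : (S × Option Bool) ⊕ LCell S W → S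
  | Sum.inl x => x.1
  | Sum.inr c => c.b

/-- the advice letter -/
def advO {W : Type} : (S × Option Bool) ⊕ LCell S W → Option Bool
  | Sum.inl x => x.2
  | Sum.inr c => c.o

open Classical in
/-- The transitions. -/
def itLδ (M : LBA ((S × S) × Option Bool)) (acc : S → Prop) (s : LSt M.Q)
    (x : (S × Option Bool) ⊕ LCell S M.W) (le re : Bool) :
    Set (LSt M.Q × ((S × Option Bool) ⊕ LCell S M.W) × Dir) :=
  match s, x with
  | LSt.sw fl, x => {y | ∃ b : S,
      let c : LCell S M.W := ⟨newA x, advO x, b, Sum.inl ((newA x, b), advO x)⟩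
      let fl' : Bool := fl || decide (acc (newA x))
      y = if re then (if fl' then (LSt.fin, Sum.inr c, Dir.stay) else (LSt.rwR, Sum.inr c, Dir.stay))
        else (LSt.sw fl', Sum.inr c, Dir.right)}
  | LSt.rwR, x => {if le then (LSt.run M.start, x, Dir.stay) else (LSt.rwR, x, Dir.left)}
  | LSt.rwC, x => {if le then (LSt.sw false, x, Dir.stay) else (LSt.rwC, x, Dir.left)}
  | LSt.run q, Sum.inr c => {y | (q ∈ M.acc ∧ y = (LSt.rwC, Sum.inr c, Dir.stay)) ∨
      ∃ z ∈ M.δ q c.wk le re, y = (LSt.run z.1, Sum.inr { c with wk := z.2.1 }, z.2.2)}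
  | LSt.run _, Sum.inl _ => ∅
  | LSt.fin, _ => ∅

/-- The iteration automaton. -/
@[reducible] noncomputable def itL [Fintype S] (M : LBA ((S × S) × Option Bool)) (acc : S → Prop) :
    LBA (S × Option Bool) where
  W := LCell S M.W
  Q := LSt M.Q
  start := LSt.sw false
  δ := itLδ M acc
  acc := {LSt.fin}

end Pool.Agent.Book19
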