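import Pool.Agent.Book19.Defs

/-!
# The universal step relation on words

A configuration of a linear bounded automaton `M` is written as a word of configuration letters:
blocks of `k` letters, one block for each cell of the tape; symbols and states are written in unary
inside the blocks (one mark at the right offset). The table of `M` is written on another track, one
block for each entry.
-/

set_option autoImplicit false

namespace Pool.Agent.Book19

open Turing Computability Filter Topology Pool.Agent.PT Relation

attribute [instance] LBA.finW LBA.finQ DLBA.finW DLBA.finQ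

/-- letters of the table: unary marks for state and symbol, new state and new symbol, direction,
first cell, last cell -/
structure TL where
  tq : Bool
  ts : Bool
  tq' : Bool
  ts' : Bool
  dir : Dir
  le : Bool
  re : Bool
  deriving DecidableEq

noncomputable instance : Fintype TL :=
  Fintype.ofInjective (fun a : TL => ((a.tq, a.ts, a.tq', a.ts'), (a.dir, a.le, a.re))) <| by
    rintro ⟨⟩ ⟨⟩ h
    simp only [Prod.mk.injEq] at h
    obtain ⟨⟨rfl, rfl, rfl, rfl⟩, rfl, rfl, rfl⟩ := h
    rfl

/-- letters of configuration words -/
structure CL where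
  km : Bool
  tab : Option TL
  f1 : Bool
  f2 : Bool
  sym : Bool
  st : Bool
  deriving DecidableEq

noncomputable instance : Fintype CL :=
  Fintype.ofInjective (fun a : CL => ((a.km, a.tab, a.f1), (a.f2, a.sym, a.st))) <| by
    rintro ⟨⟩ ⟨⟩ h
    simp only [Prod.mk.injEq] at h
    obtain ⟨⟨rfl, rfl, rfl⟩, rfl, rfl, rfl⟩ := h
    rfl

/-- letters of the diagonal word -/
structure UL where
  km : Bool
  rm : Bool
  ini : Bool
  tab : Option TL
  f1 : Bool
  f2 : Bool
  κ : Option Bool
  w : Option Bool
  β : Option Bool
  deriving DecidableEq

noncomputable instance : Fintype UL :=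
  Fintype.ofInjective (fun a : UL => ((a.km, a.rm, a.ini, a.tab, a.f1), (a.f2, a.κ, a.w, a.β))) <| by
    rintro ⟨⟩ ⟨⟩ h
    simp only [Prod.mk.injEq] at h
    obtain ⟨⟨rfl, rfl, rfl, rfl, rfl⟩, rfl, rfl, rfl, rfl⟩ := h
    rfl

instance : Inhabited CL := ⟨⟨false, none, false, false, false, false⟩⟩

/-- the letter at position `p` exists and satisfies `P` -/
def At {G : Type} (x : List G) (p : ℕ) (P : G → Prop) : Prop := ∃ a, x[p]? = some a ∧ P a

/-- the block length: number of letters with a mark `km` -/
def kc (c : List CL) : ℕ := c.countP (fun a => a.km)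

/-- entry `e` of the table applies to the cell `h` (of `n` cells) -/
def Match (c : List CL) (k n e h : ℕ) : Prop :=
  h < n ∧ ∀ j < k, At c (e * k + j) (fun a => ∃ t, a.tab = some t ∧
    (t.tq = true ↔ At c (h * k + j) (fun b => b.st = true)) ∧
    (t.ts = true ↔ At c (h * k + j) (fun b => b.sym = true)) ∧
    (t.le = true ↔ h = 0) ∧ (t.re = true ↔ h + 1 = n))

open Classical in
/-- the cell scanned after the application of entry `e` at the cell `h` -/
noncomputable def tgt (c : List CL) (k n e h : ℕ) : ℕ :=
  if At c (e * k) (fun a => ∃ t, a.tab = some t ∧ t.dir = Dir.right) then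
    (if h + 1 < n then h + 1 else h)
  else if At c (e * k) (fun a => ∃ t, a.tab = some t ∧ t.dir = Dir.left) then h - 1
  else h

open Classical in
/-- the letter at position `p` after the application of entry `e` at the cell `h` -/
noncomputable def nextL (c : List CL) (k n e h p : ℕ) : CL :=
  { c.getD p default with
    sym := if p / k = h then decide (At c (e * k + p % k) (fun a => ∃ t, a.tab = some t ∧
        t.ts' = true)) else (c.getD p default).sym
    st := decide (p / k = tgt c k n e h ∧ At c (e * k + p % k) (fun a => ∃ t, a.tab = some t ∧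
        t.tq' = true)) }

/-- The universal step. -/
def UStep (c c' : List CL) : Prop :=
  ∃ e < c.length, ∃ h < c.length, Match c (kc c) (c.length / kc c) e h ∧
    c' = (List.range c.length).map (nextL c (kc c) (c.length / kc c) e h)

/-- The language of the universal step. -/
def StepLang : Set (List (CL × CL)) := {w | UStep (w.map Prod.fst) (w.map Prod.snd)}

/-- A coding of an automaton `M`. -/
structure Cod {A : Type} (M : LBA A) (ix : A → ℕ) where
  k : ℕ
  s : A ⊕ M.W → ℕ
  q : M.Q → ℕ
  tb : List ((M.Q × (A ⊕ M.W) × Bool × Bool) × (M.Q × (A ⊕ M.W) × Dir))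
  s_inl : ∀ a, s (Sum.inl a) = ix a
  s_inj : Function.Injective s
  q_inj : Function.Injective q
  s_lt : ∀ x, s x < k
  q_lt : ∀ x, q x < k
  tb_mem : ∀ q γ le re y, ((q, γ, le, re), y) ∈ tb ↔ y ∈ M.δ q γ le re

variable {A : Type} {M : LBA A} {ix : A → ℕ}

open Classical in
/-- The table track. -/
noncomputable def Cod.tabL (C : Cod M ix) (p : ℕ) : Option TL :=
  (C.tb[p / C.k]?).map fun e =>
    { tq := decide (C.q e.1.1 = p % C.k)
      ts := decide (C.s e.1.2.1 = p % C.k)
      tq' := decide (C.q e.2.1 = p % C.k)
      ts' := decide (C.s e.2.2.1 = p % C.k)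
      dir := e.2.2.2
      le := e.1.2.2.1
      re := e.1.2.2.2 }

open Classical in
/-- The letter at position `p` of the word of a configuration. -/
noncomputable def Cod.lett (C : Cod M ix) (F1 F2 : Set M.Q) (c : Conf M.Q (A ⊕ M.W)) (p : ℕ) : CL :=
  { km := decide (p < C.k)
    tab := C.tabL p
    f1 := decide (∃ x ∈ F1, C.q x = p % C.k)
    f2 := decide (∃ x ∈ F2, C.q x = p % C.k)
    sym := decide (∃ γ, (c.2.1.reverse ++ c.2.2)[p / C.k]? = some γ ∧ C.s γ = p % C.k)
    st := decide (p / C.k = c.2.1.length ∧ C.q c.1 = p % C.k) }

/-- The word of length `N` of a configuration. -/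
noncomputable def Cod.code (C : Cod M ix) (F1 F2 : Set M.Q) (N : ℕ) (c : Conf M.Q (A ⊕ M.W)) :
    List CL :=
  (List.range N).map (C.lett F1 F2 c)

/-- The index of an input letter. -/
noncomputable def ixU (x : UL × Option Bool) : ℕ := (Fintype.equivFin (UL × Option Bool) x : ℕ)

open Classical in
/-- The diagonal word of length `n`. -/
noncomputable def Cod.uw {M : LBA (UL × Option Bool)} (C : Cod M ixU) (F1 F2 : Set M.Q) (n r : ℕ)
    (κ w β : List Bool) : List UL :=
  (List.range n).map fun i =>
    { km := decide (i < C.k)
      rm := decide (i < r)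
      ini := decide (i = C.q M.start)
      tab := C.tabL i
      f1 := decide (∃ x ∈ F1, C.q x = i)
      f2 := decide (∃ x ∈ F2, C.q x = i)
      κ := κ[i]?
      w := w[i]?
      β := β[i]? }

/-- the number of marks `km` -/
def ku (u : List UL) : ℕ := u.countP (fun a => a.km)

/-- the length of the configuration word -/
def Nu (u : List UL) : ℕ := ku u * u.length + u.countP (fun a => a.rm)

open Classical in
/-- letters of the initial configuration word -/
noncomputable def c0L (u : List UL) (p : ℕ) : CL :=
  { km := decide (At u p (fun a => a.km = true))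
    tab := (u[p]?).bind (fun a => a.tab)
    f1 := decide (At u (p % ku u) (fun a => a.f1 = true))
    f2 := decide (At u (p % ku u) (fun a => a.f2 = true))
    sym := decide (At u (p / ku u) (fun a => ixU (a, a.β) = p % ku u))
    st := decide (At u p (fun a => a.ini = true)) }

/-- the initial configuration word -/
noncomputable def c0 (u : List UL) : List CL := (List.range (Nu u)).map (c0L u)

/-- letters of the reduction -/
noncomputable def gL (u : List UL) (p : ℕ) : (CL × Option Bool) × Option Bool :=
  ((c0L u p, (u[p]?).bind (fun a => a.κ)), (u[p]?).bind (fun a => a.w))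

/-- the reduction -/
noncomputable def gU (u : List UL) : List ((CL × Option Bool) × Option Bool) :=
  (List.range (Nu u)).map (gL u)

/-- The automaton `D` as a nondeterministic one. -/
@[reducible] def DLBA.toLBA {A : Type} (D : DLBA A) : LBA A where
  W := D.W
  Q := D.Q
  start := D.start
  δ := fun q γ le re => {x | D.out q = none ∧ x = D.δ q γ le re}
  acc := {q | D.out q = some true}

/-- The relation of a language with three tracks. -/
def Rl {S : Type} (L : Set (List ((S × S) × Option Bool))) (o : List (Option Bool))
    (c c' : List S) : Prop :=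
  c'.length = c.length ∧ (c.zip c').zip o ∈ L

end Pool.Agent.Book19
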