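import Pool.Agent.Book19.Rel

/-!
# Tapes: general lemmas
-/

set_option autoImplicit false

namespace Pool.Agent.Book19

open Relation

variable {G G' : Type}

/-- the word on the tape -/
def flat (t : List G × List G) : List G := t.1.reverse ++ t.2

/-- mapping a tape -/
def mapT (f : G → G') (t : List G × List G) : List G' × List G' := (t.1.map f, t.2.map f)

theorem put_map (f : G → G') (s : G) (d : Dir) (t : List G × List G) :
    mapT f (put s d t) = put (f s) d (mapT f t) := by
  obtain ⟨l, r⟩ := t
  cases d with
  | stay => simp [put, mapT]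
  | left => cases l <;> simp [put, mapT]
  | right =>
    cases r with
    | nil => simp [put, mapT]
    | cons a r => cases r <;> simp [put, mapT]

theorem flat_put (s x : G) (d : Dir) (l r : List G) :
    flat (put s d (l, x :: r)) = l.reverse ++ s :: r := by
  cases d with
  | stay => simp [put, flat]
  | left => cases l <;> simp [put, flat]
  | right => cases r <;> simp [put, flat]

theorem put_snd_ne_nil (s x : G) (d : Dir) (l r : List G) : (put s d (l, x :: r)).2 ≠ [] := by
  cases d with
  | stay => simp [put]
  | left => cases l <;> simp [put]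
  | right => cases r <;> simp [put]

theorem put_length (s x : G) (d : Dir) (l r : List G) :
    (put s d (l, x :: r)).1.length + (put s d (l, x :: r)).2.length = l.length + (x :: r).length := by
  have h := congrArg List.length (flat_put s x d l r)
  simp only [flat, List.length_append, List.length_reverse, List.length_cons] at h ⊢
  omega

theorem put_right (s x y : G) (l r : List G) :
    put s Dir.right (l, x :: y :: r) = (s :: l, y :: r) := by simp [put]

theorem put_left (s x y : G) (l r : List G) :
    put s Dir.left (y :: l, x :: r) = (l, y :: s :: r) := by simp [put]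

theorem put_stay (s x : G) (l r : List G) :
    put s Dir.stay (l, x :: r) = (l, s :: r) := by simp [put]

/-- letter-to-letter transduction with a state -/
def mealy {V X Y : Type} (g : V → X → V × Y) : V → List X → V × List Y
  | σ, [] => (σ, [])
  | σ, x :: r => ((mealy g (g σ x).1 r).1, (g σ x).2 :: (mealy g (g σ x).1 r).2)

@[simp] theorem mealy_nil {V X Y : Type} (g : V → X → V × Y) (σ : V) :
    mealy g σ [] = (σ, []) := rfl

@[simp] theorem mealy_cons {V X Y : Type} (g : V → X → V × Y) (σ : V) (x : X) (r : List X) :
    mealy g σ (x :: r) = ((mealy g (g σ x).1 r).1, (g σ x).2 :: (mealy g (g σ x).1 r).2) := rfl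

@[simp] theorem length_mealy {V X Y : Type} (g : V → X → V × Y) : ∀ (r : List X) (σ : V),
    (mealy g σ r).2.length = r.length
  | [], _ => rfl
  | x :: r, σ => by simp [length_mealy g r]

/-- A sweep to the right of an automaton: in the states `ph σ` the automaton with transition
`(σ, x) ↦ g σ x` (new value and written symbol) moves right, and at the last cell it stays and enters
the state `fin σ'`. -/
theorem sweep {A : Type} (M : LBA A) {V : Type} (ph fin : V → M.Q)
    (g : V → A ⊕ M.W → V × (A ⊕ M.W)) (P : A ⊕ M.W → Prop)
    (h1 : ∀ σ x le, P x → (ph (g σ x).1, (g σ x).2, Dir.right) ∈ M.δ (ph σ) x le false)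
    (h2 : ∀ σ x le, P x → (fin (g σ x).1, (g σ x).2, Dir.stay) ∈ M.δ (ph σ) x le true) :
    ∀ (r : List (A ⊕ M.W)) (l : List (A ⊕ M.W)) (σ : V), r ≠ [] → (∀ x ∈ r, P x) →
      ∃ (l' : List (A ⊕ M.W)) (y : A ⊕ M.W),
        l'.reverse ++ [y] = l.reverse ++ (mealy g σ r).2 ∧
        ReflTransGen M.Step (ph σ, (l, r)) (fin (mealy g σ r).1, (l', [y])) := by
  intro r
  induction r with
  | nil => intro l σ h; exact absurd rfl h
  | cons x r ih =>
    intro l σ _ hP
    cases r with
    | nil =>
      refine ⟨l, (g σ x).2, by simp, ?_⟩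
      refine ReflTransGen.single ⟨x, [], rfl, _, h2 σ x l.isEmpty (hP x (by simp)), ?_⟩
      simp [put]
    | cons y r =>
      have hst : M.Step (ph σ, (l, x :: y :: r)) (ph (g σ x).1, ((g σ x).2 :: l, y :: r)) := by
        refine ⟨x, y :: r, rfl, _, h1 σ x l.isEmpty (hP x (by simp)), ?_⟩
        simp [put]
      obtain ⟨l', z, h3, h4⟩ := ih ((g σ x).2 :: l) (g σ x).1 (by simp)
        (fun a ha => hP a (List.mem_cons_of_mem _ ha))
      refine ⟨l', z, ?_, ?_⟩
      · rw [h3, mealy_cons]
        simp
      · rw [mealy_cons]
        exact ReflTransGen.head hst h4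

/-- Rewinding: in the state `p` the automaton moves left over the symbols with `P` and at the first
cell it enters the state `q`. -/
theorem rewind {A : Type} (M : LBA A) (p q : M.Q) (P : A ⊕ M.W → Prop)
    (h1 : ∀ x re, P x → (p, x, Dir.left) ∈ M.δ p x false re)
    (h2 : ∀ x re, P x → (q, x, Dir.stay) ∈ M.δ p x true re) :
    ∀ (l : List (A ⊕ M.W)) (x : A ⊕ M.W) (r : List (A ⊕ M.W)), (∀ y ∈ l, P y) → P x →
      ReflTransGen M.Step (p, (l, x :: r)) (q, ([], l.reverse ++ x :: r)) := by
  intro l
  induction l with
  | nil =>
    intro x r _ hx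
    refine ReflTransGen.single ⟨x, r, rfl, _, h2 x r.isEmpty hx, ?_⟩
    simp [put]
  | cons y l ih =>
    intro x r hl hx
    have hst : M.Step (p, (y :: l, x :: r)) (p, (l, y :: x :: r)) := by
      refine ⟨x, r, rfl, _, h1 x r.isEmpty hx, ?_⟩
      simp [put]
    have h3 := ih y (x :: r) (fun z hz => hl z (List.mem_cons_of_mem _ hz)) (hl y (by simp))
    refine ReflTransGen.head hst ?_
    simpa using h3

end Pool.Agent.Book19
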