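import Pool.Agent.Book19.DGo

/-!
# Boolean combinations of two deterministic linear bounded automata and a finite automaton
-/

set_option autoImplicit false

namespace Pool.Agent.Book19

open Relation

/-- The simulation of the automaton `D` by states `st q` of the automaton `M`: `rd` is the symbol of
`D` seen in a cell, `wr` writes a symbol, `stat` is the static part of a cell. -/
private theorem uc_sim {A B Γ : Type} (M : DLBA A) (D : DLBA B) (st : D.Q → M.Q)
    (rd : A ⊕ M.W → B ⊕ D.W) (wr : A ⊕ M.W → B ⊕ D.W → A ⊕ M.W) (stat : A ⊕ M.W → Γ)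
    (Pr : A ⊕ M.W → Prop) (h1 : ∀ x s, rd (wr x s) = s) (h2 : ∀ x s, stat (wr x s) = stat x)
    (h3 : ∀ x s, Pr x → Pr (wr x s)) (h4 : ∀ q, M.out (st q) = none)
    (h5 : ∀ q x le re, D.out q = none → M.δ (st q) x le re =
      (st (D.δ q (rd x) le re).1, wr x (D.δ q (rd x) le re).2.1, (D.δ q (rd x) le re).2.2))
    (w : List (A ⊕ M.W)) (hw : w ≠ []) (hP : ∀ x ∈ w, Pr x) (u : List B)
    (hu : w.map rd = u.map Sum.inl) (b : Bool) (hD : D.Gives u b) :
    ∃ (q : D.Q) (L : List (A ⊕ M.W)) (x : A ⊕ M.W) (R : List (A ⊕ M.W)), D.out q = some b ∧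
      ReflTransGen M.Go (st D.start, ([], w)) (st q, (L, x :: R)) ∧
      (L.reverse ++ x :: R).map stat = w.map stat ∧ ∀ y ∈ L.reverse ++ x :: R, Pr y := by
  rw [DLBA.gives_iff] at hD
  obtain ⟨c, hc, hb⟩ := hD
  have key : ∃ (L R : List (A ⊕ M.W)), R ≠ [] ∧ c.2 = (L.map rd, R.map rd) ∧
      ReflTransGen M.Go (st D.start, ([], w)) (st c.1, (L, R)) ∧
      (L.reverse ++ R).map stat = w.map stat ∧ ∀ y ∈ L.reverse ++ R, Pr y := by
    clear hb
    induction hc with
    | refl => exact ⟨[], w, hw, by simp [DLBA.init, hu], ReflTransGen.refl, by simp,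
      fun y hy => hP y (by simpa using hy)⟩
    | @tail c d _ hcd ih =>
      obtain ⟨L, R, hR, e1, e2, e3, e4⟩ := ih
      obtain ⟨x, R, rfl⟩ := List.exists_cons_of_ne_nil hR
      obtain ⟨hout, rfl⟩ := hcd
      obtain ⟨q, T⟩ := c
      simp only at e1 e2 hout
      subst e1
      set y := D.δ q (rd x) L.isEmpty R.isEmpty with hy
      have e5 := h5 q x L.isEmpty R.isEmpty hout
      rw [← hy] at e5
      have hflat := flat_put (wr x y.2.1) x y.2.2 L R
      unfold flat at hflat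
      refine ⟨(put (wr x y.2.1) y.2.2 (L, x :: R)).1, (put (wr x y.2.1) y.2.2 (L, x :: R)).2,
        put_snd_ne_nil _ _ _ _ _, ?_, ?_, ?_, ?_⟩
      · have h := put_map rd (wr x y.2.1) y.2.2 (L, x :: R)
        unfold mapT at h
        rw [h, h1]
        simp only [DLBA.step, List.map_cons, List.isEmpty_map]
        rw [← hy]
      · refine e2.tail ⟨h4 q, ?_⟩
        simp only [DLBA.step, List.map_cons, List.isEmpty_map, e5]
        rw [← hy]
      · rw [hflat]
        simpa [h2] using e3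
      · rw [hflat]
        intro z hz
        rw [List.mem_append, List.mem_cons] at hz
        rcases hz with hz | rfl | hz
        · exact e4 z (by simp only [List.mem_append]; exact Or.inl hz)
        · exact h3 x _ (e4 x (by simp))
        · exact e4 z (by simp [hz])
  obtain ⟨L, R, hR, -, e2, e3, e4⟩ := key
  obtain ⟨x, R, rfl⟩ := List.exists_cons_of_ne_nil hR
  exact ⟨c.1, L, x, R, hb, e2, e3, e4⟩

/-- the states of the combined automaton -/
private inductive UCSt (P Q1 Q2 : Type)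
  | sw (p : P)
  | rw1 (p : P)
  | run1 (p : P) (q : Q1)
  | rw2 (p : P) (b : Bool)
  | run2 (p : P) (b : Bool) (q : Q2)
  | fin (b : Bool)

private noncomputable instance {P Q1 Q2 : Type} [Fintype P] [Fintype Q1] [Fintype Q2] :
    Fintype (UCSt P Q1 Q2) :=
  Fintype.ofInjective (fun s : UCSt P Q1 Q2 => match s with
    | UCSt.sw p => (Sum.inl (Sum.inl (p, false)) :
        ((P × Bool) ⊕ (P × Q1)) ⊕ (((P × Bool) ⊕ (P × Bool × Q2)) ⊕ Bool))
    | UCSt.rw1 p => Sum.inl (Sum.inl (p, true))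
    | UCSt.run1 p q => Sum.inl (Sum.inr (p, q))
    | UCSt.rw2 p b => Sum.inr (Sum.inl (Sum.inl (p, b)))
    | UCSt.run2 p b q => Sum.inr (Sum.inl (Sum.inr (p, b, q)))
    | UCSt.fin b => Sum.inr (Sum.inr b)) <| by
    intro x y h
    cases x <;> cases y <;> simp_all

section

variable {Γ B1 B2 P : Type} (φ1 : Γ → B1) (φ2 : Γ → B2) (D1 : DLBA B1) (D2 : DLBA B2)

/-- the original letter of a cell -/
private def ucStat : Γ ⊕ (Γ × ((B1 ⊕ D1.W) ⊕ (B2 ⊕ D2.W))) → Γ
  | Sum.inl g => g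
  | Sum.inr x => x.1

/-- the symbol seen by the first automaton -/
private def ucRd1 : Γ ⊕ (Γ × ((B1 ⊕ D1.W) ⊕ (B2 ⊕ D2.W))) → B1 ⊕ D1.W
  | Sum.inl g => Sum.inl (φ1 g)
  | Sum.inr (_, Sum.inl s) => s
  | Sum.inr (g, Sum.inr _) => Sum.inl (φ1 g)

/-- the symbol seen by the second automaton -/
private def ucRd2 : Γ ⊕ (Γ × ((B1 ⊕ D1.W) ⊕ (B2 ⊕ D2.W))) → B2 ⊕ D2.W
  | Sum.inl g => Sum.inl (φ2 g)
  | Sum.inr (g, Sum.inl _) => Sum.inl (φ2 g)
  | Sum.inr (_, Sum.inr s) => s

open Classical in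
/-- the transitions of the combined automaton -/
private noncomputable def ucδ (δ : P → Γ → P) (g : P → Prop → Prop → Prop)
    (s : UCSt P D1.Q D2.Q) (x : Γ ⊕ (Γ × ((B1 ⊕ D1.W) ⊕ (B2 ⊕ D2.W)))) (le re : Bool) :
    UCSt P D1.Q D2.Q × (Γ ⊕ (Γ × ((B1 ⊕ D1.W) ⊕ (B2 ⊕ D2.W)))) × Dir :=
  match s with
  | UCSt.sw p =>
      if re then (UCSt.rw1 (δ p (ucStat D1 D2 x)), x, Dir.stay)
      else (UCSt.sw (δ p (ucStat D1 D2 x)), x, Dir.right)
  | UCSt.rw1 p => if le then (UCSt.run1 p D1.start, x, Dir.stay) else (UCSt.rw1 p, x, Dir.left)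
  | UCSt.run1 p q =>
      match D1.out q with
      | some b => (UCSt.rw2 p b, x, Dir.stay)
      | none =>
        (UCSt.run1 p (D1.δ q (ucRd1 φ1 D1 D2 x) le re).1,
          Sum.inr (ucStat D1 D2 x, Sum.inl (D1.δ q (ucRd1 φ1 D1 D2 x) le re).2.1),
          (D1.δ q (ucRd1 φ1 D1 D2 x) le re).2.2)
  | UCSt.rw2 p b =>
      if le then (UCSt.run2 p b D2.start, x, Dir.stay) else (UCSt.rw2 p b, x, Dir.left)
  | UCSt.run2 p b q =>
      match D2.out q with
      | some b' => (UCSt.fin (decide (g p (b = true) (b' = true))), x, Dir.stay)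
      | none =>
        (UCSt.run2 p b (D2.δ q (ucRd2 φ2 D1 D2 x) le re).1,
          Sum.inr (ucStat D1 D2 x, Sum.inr (D2.δ q (ucRd2 φ2 D1 D2 x) le re).2.1),
          (D2.δ q (ucRd2 φ2 D1 D2 x) le re).2.2)
  | UCSt.fin b => (UCSt.fin b, x, Dir.stay)

/-- the combined automaton -/
@[reducible] private noncomputable def ucD [Fintype Γ] [Fintype B1] [Fintype B2] [Fintype P]
    (p0 : P) (δ : P → Γ → P) (g : P → Prop → Prop → Prop) : DLBA Γ where
  W := Γ × ((B1 ⊕ D1.W) ⊕ (B2 ⊕ D2.W))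
  Q := UCSt P D1.Q D2.Q
  start := UCSt.sw p0
  δ := ucδ φ1 φ2 D1 D2 δ g
  out := fun s => match s with
    | UCSt.fin b => some b
    | _ => none

end

/-- Run a finite automaton, then `D1` on the word relabelled by `φ1`, then `D2` on the word
relabelled by `φ2`, and combine the three results. -/
theorem InDLBA.comb {Γ B1 B2 P : Type} [Fintype Γ] [Fintype B1] [Fintype B2] [Fintype P]
    (p0 : P) (δ : P → Γ → P) (φ1 : Γ → B1) (φ2 : Γ → B2) {L1 : Set (List B1)}
    {L2 : Set (List B2)} (h1 : InDLBA B1 L1) (h2 : InDLBA B2 L2) (g : P → Prop → Prop → Prop) :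
    InDLBA Γ {x | g (x.foldl δ p0) (x.map φ1 ∈ L1) (x.map φ2 ∈ L2)} := by
  classical
  obtain ⟨D1, hD1⟩ := h1
  obtain ⟨D2, hD2⟩ := h2
  set M := ucD φ1 φ2 D1 D2 p0 δ g with hM
  have hδ : M.δ = ucδ φ1 φ2 D1 D2 δ g := rfl
  refine ⟨M, fun x hx => ?_⟩
  obtain ⟨b1, hb1, hL1⟩ := hD1 (x.map φ1) (by simpa using hx)
  obtain ⟨b2, hb2, hL2⟩ := hD2 (x.map φ2) (by simpa using hx)
  set p := x.foldl δ p0 with hp
  refine ⟨decide (g p (b1 = true) (b2 = true)), ?_, ?_⟩
  swap
  · rw [decide_eq_true_eq, Set.mem_ofPred_eq]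
    have e1 : (x.map φ1 ∈ L1) = (b1 = true) := propext hL1
    have e2 : (x.map φ2 ∈ L2) = (b2 = true) := propext hL2
    rw [e1, e2]
  rw [DLBA.gives_iff]
  -- the sweep
  have hsweep : ReflTransGen M.Go (M.init x)
      ((UCSt.run1 p D1.start : UCSt P D1.Q D2.Q), ([], x.map Sum.inl)) := by
    obtain ⟨l', y, h3, h4⟩ := sweep M.toLBA (V := P) (fun p => UCSt.sw p) (fun p => UCSt.rw1 p)
      (fun p x => (δ p (ucStat D1 D2 x), x)) (fun _ => True)
      (fun p x le _ => ⟨rfl, rfl⟩) (fun p x le _ => ⟨rfl, rfl⟩) (x.map Sum.inl) [] p0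
      (by simpa using hx) (fun _ _ => trivial)
    have hme : ∀ (r : List Γ) (p : P), mealy (fun (p : P)
        (x : Γ ⊕ (Γ × ((B1 ⊕ D1.W) ⊕ (B2 ⊕ D2.W)))) => (δ p (ucStat D1 D2 x), x)) p
        (r.map Sum.inl) = (r.foldl δ p, r.map Sum.inl) := by
      intro r
      induction r with
      | nil => intro p; rfl
      | cons a r ih =>
        intro p
        rw [List.map_cons, mealy_cons, List.foldl_cons]
        simp only
        rw [ih]
        rfl
    rw [hme] at h3 h4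
    simp only [List.reverse_nil, List.nil_append] at h3
    have h5 := rewind M.toLBA (UCSt.rw1 p) (UCSt.run1 p D1.start) (fun _ => True)
      (fun x re _ => ⟨rfl, rfl⟩) (fun x re _ => ⟨rfl, rfl⟩) l' y [] (fun _ _ => trivial) trivial
    rw [h3] at h5
    exact DLBA.go_of_step _ (h4.trans h5)
  -- the first automaton
  obtain ⟨q1, L, z, R, e1, e2, e3, e4⟩ := uc_sim M D1 (fun q => UCSt.run1 p q)
    (ucRd1 φ1 D1 D2) (fun x s => Sum.inr (ucStat D1 D2 x, Sum.inl s)) (ucStat D1 D2)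
    (fun x => ∀ y s, x ≠ Sum.inr (y, Sum.inr s))
    (fun x s => rfl) (fun x s => rfl) (fun x s _ y s' h => by
      have h' := congrArg Prod.snd (Sum.inr.inj h)
      simp only [reduceCtorEq] at h') (fun q => rfl)
    (fun q x le re hq => by
      change ucδ φ1 φ2 D1 D2 δ g (UCSt.run1 p q) x le re = _
      simp only [ucδ, hq])
    (x.map Sum.inl) (by simpa using hx) (fun y hy => by
      rw [List.mem_map] at hy
      obtain ⟨a, -, rfl⟩ := hy
      intro y s h
      exact absurd h (by simp only [reduceCtorEq, not_false_eq_true])) (x.map φ1) (by rw [List.map_map, List.map_map]; rfl) b1 hb1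
  have hstep1 : M.Go (UCSt.run1 p q1, (L, z :: R)) (UCSt.rw2 p b1, (L, z :: R)) := by
    refine ⟨rfl, ?_⟩
    simp only [DLBA.step, hδ, ucδ, e1, put, List.tail_cons]
  have hrw : ReflTransGen M.Go (UCSt.rw2 p b1, (L, z :: R))
      (UCSt.run2 p b1 D2.start, ([], L.reverse ++ z :: R)) :=
    DLBA.go_of_step _ (rewind M.toLBA (UCSt.rw2 p b1) (UCSt.run2 p b1 D2.start) (fun _ => True)
      (fun x re _ => ⟨rfl, rfl⟩) (fun x re _ => ⟨rfl, rfl⟩) L z R (fun _ _ => trivial) trivial)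
  -- the second automaton
  have hrd : (L.reverse ++ z :: R).map (ucRd2 φ2 D1 D2) = (x.map φ2).map Sum.inl := by
    have h5 : (L.reverse ++ z :: R).map (ucRd2 φ2 D1 D2) =
        ((L.reverse ++ z :: R).map (ucStat D1 D2)).map (fun a => Sum.inl (φ2 a)) := by
      rw [List.map_map]
      refine List.map_congr_left fun y hy => ?_
      have h6 := e4 y hy
      rcases y with a | ⟨a, s | s⟩
      · rfl
      · rfl
      · exact absurd rfl (h6 a s)
    rw [h5, e3, List.map_map, List.map_map, List.map_map]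
    rfl
  obtain ⟨q2, L', z', R', e1', e2', -, -⟩ := uc_sim M D2 (fun q => UCSt.run2 p b1 q)
    (ucRd2 φ2 D1 D2) (fun x s => Sum.inr (ucStat D1 D2 x, Sum.inr s)) (ucStat D1 D2)
    (fun _ => True) (fun x s => rfl) (fun x s => rfl) (fun x s _ => trivial) (fun q => rfl)
    (fun q x le re hq => by
      change ucδ φ1 φ2 D1 D2 δ g (UCSt.run2 p b1 q) x le re = _
      simp only [ucδ, hq])
    (L.reverse ++ z :: R) (by simp) (fun _ _ => trivial) (x.map φ2) hrd b2 hb2
  have hstep2 : M.Go (UCSt.run2 p b1 q2, (L', z' :: R'))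
      (UCSt.fin (decide (g p (b1 = true) (b2 = true))), (L', z' :: R')) := by
    refine ⟨rfl, ?_⟩
    simp only [DLBA.step, hδ, ucδ, e1', put, List.tail_cons]
  exact ⟨_, (((hsweep.trans e2).tail hstep1).trans hrw).trans (e2'.tail hstep2), rfl⟩

end Pool.Agent.Book19
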